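import Pool.Agent.H72.NE.Fs

/-! # AP: a priori oscillation bounds along the evolution -/

namespace H72NE

open H72IPS Finset

/-- Let `J = [u - m, v)` and `c y = f (y with all sites of J set to 0)`.  Then `c` does not depend on
`J`, `|f - c| ≤ a D` (`OB_Ico_OS`), `OB {j} D c` for `j < K` (for `j ∈ J` trivially, otherwise from
`OB_single_OS` for `f`), and
`|PW f x - PW f x'| ≤ PW |f - c| x + PW |f - c| x' + |PW c x - PW c x'| ≤ 2 a D + (v - u) D tl t m`
by `PW_fs_Ico`. -/
theorem PW_apriori {c : Rts} (hc : Rok c) (W : Finset ℤ) {t : ℝ} (ht : 0 ≤ t) {f : Cfg → ℝ}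
    (hf : Bdd f) {ℓ : ℕ} (hℓ : 1 ≤ ℓ) {K : ℤ} {D : ℝ} (h : OS ℓ K D f) {u v : ℤ} (huv : u ≤ v)
    (hv : v ≤ K) {m a : ℕ} (ha : v - (u - m) ≤ a * ℓ) :
    OB (Set.Ico u v) (2 * a * D + ((v - u : ℤ) : ℝ) * (D * tl t m)) (PW c W t f) := by
  classical
  have hD : 0 ≤ D := OB_nonneg (OB_single_OS hℓ h (k := K - 1) (by omega))
  set J : Set ℤ := Set.Ico (u - m) v with hJ
  set z : Cfg → Cfg := fun y i => if i ∈ J then false else y i with hz
  set e : Cfg → ℝ := fun y => f (z y) with he
  have hnear : ∀ y, |f y - e y| ≤ a * D := by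
    intro y
    refine OB_Ico_OS h a hv ha y (z y) (fun i hi => ?_)
    simp only [hz, hJ, if_neg hi]
  have hind : Ind J e := by
    intro x y hxy
    have : z x = z y := by
      funext i
      by_cases hi : i ∈ J
      · simp only [hz, if_pos hi]
      · simp only [hz, if_neg hi, hxy i hi]
    simp only [he, this]
  have he1 : ∀ j, j < v → OB {j} D e := by
    intro j hj x y hxy
    refine OB_single_OS hℓ h (show j < K by omega) (z x) (z y) (fun i hi => ?_)
    by_cases hiJ : i ∈ J
    · simp only [hz, if_pos hiJ]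
    · simp only [hz, if_neg hiJ, hxy i hi]
  have hbe : Bdd e := Bdd_of_near hf hnear
  have hfs := PW_fs_Ico hc W ht hbe huv he1 hind
  have hclose : ∀ x, |PW c W t f x - PW c W t e x| ≤ a * D := by
    intro x
    rw [← PW_sub c W t hf hbe x]
    exact PW_abs_le hc W ht hnear x
  intro x y hxy
  have h1 := hfs x y hxy
  have h2 := hclose x
  have h3 := hclose y
  rw [abs_le] at *
  constructor <;> linarith [h1.1, h1.2, h2.1, h2.2, h3.1, h3.2]

end H72NE
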