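import Pool.Agent.H72.NE.Cst

/-! # AVA: product averages -/

namespace H72NE

open H72IPS Finset

theorem putS_notMem {S A : Finset ℤ} {x : Cfg} {i : ℤ} (h : i ∉ S) : putS S A x i = x i := by
  simp [putS, h]

theorem putS_mem {S A : Finset ℤ} {x : Cfg} {i : ℤ} (h : i ∈ S) : putS S A x i = decide (i ∈ A) := by
  simp [putS, h]

theorem Av_empty (P : ℝ) (f : Cfg → ℝ) : Av P ∅ f = f := by
  funext x
  have h : putS ∅ ∅ x = x := by
    funext i
    simp [putS]
  simp [Av, h]

theorem Av_congr {P : ℝ} {S : Finset ℤ} {f g : Cfg → ℝ} {x : Cfg}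
    (h : ∀ y : Cfg, (∀ i, i ∉ S → y i = x i) → f y = g y) : Av P S f x = Av P S g x := by
  unfold Av
  refine Finset.sum_congr rfl fun A _ => ?_
  rw [h _ fun i hi => putS_notMem hi]

theorem Av_ind (P : ℝ) (S : Finset ℤ) (f : Cfg → ℝ) : Ind (S : Set ℤ) (Av P S f) := by
  intro x y h
  unfold Av
  refine Finset.sum_congr rfl fun A _ => ?_
  have h1 : putS S A x = putS S A y := by
    funext i
    by_cases hi : i ∈ S
    · rw [putS_mem hi, putS_mem hi]
    · rw [putS_notMem hi, putS_notMem hi]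
      exact h i (by simpa using hi)
  rw [h1]

theorem ava_insert (P : ℝ) {S : Finset ℤ} {k : ℤ} (hk : k ∉ S) (f : Cfg → ℝ) (x : Cfg) :
    Av P (insert k S) f x = P * Av P S f (Function.update x k true)
      + (1 - P) * Av P S f (Function.update x k false) := by
  have hF : ∀ A ∈ S.powerset, putS (insert k S) A x = putS S A (Function.update x k false) := by
    intro A hA
    have hkA : k ∉ A := fun h => hk (Finset.mem_powerset.1 hA h)
    funext i
    rcases eq_or_ne i k with rfl | hi
    · rw [putS_mem (Finset.mem_insert_self _ _), putS_notMem hk]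
      simp [hkA]
    · by_cases hiS : i ∈ S
      · rw [putS_mem (Finset.mem_insert_of_mem hiS), putS_mem hiS]
      · rw [putS_notMem (by simp [hi, hiS]), putS_notMem hiS, Function.update_of_ne hi]
  have hT : ∀ A ∈ S.powerset,
      putS (insert k S) (insert k A) x = putS S A (Function.update x k true) := by
    intro A hA
    funext i
    rcases eq_or_ne i k with rfl | hi
    · rw [putS_mem (Finset.mem_insert_self _ _), putS_notMem hk]
      simp
    · by_cases hiS : i ∈ S
      · rw [putS_mem (Finset.mem_insert_of_mem hiS), putS_mem hiS]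
        simp [hi]
      · rw [putS_notMem (by simp [hi, hiS]), putS_notMem hiS, Function.update_of_ne hi]
  unfold Av
  rw [Finset.sum_powerset_insert hk, Finset.card_insert_of_notMem hk, Finset.mul_sum,
    Finset.mul_sum, add_comm]
  congr 1
  · refine Finset.sum_congr rfl fun A hA => ?_
    have hkA : k ∉ A := fun h => hk (Finset.mem_powerset.1 hA h)
    rw [hT A hA, Finset.card_insert_of_notMem hkA, Nat.add_sub_add_right, pow_succ]
    ring
  · refine Finset.sum_congr rfl fun A hA => ?_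
    have hc := Finset.card_le_card (Finset.mem_powerset.1 hA)
    rw [hF A hA, Nat.succ_sub hc, pow_succ]
    ring

theorem Av_single (P : ℝ) (k : ℤ) (f : Cfg → ℝ) (x : Cfg) :
    Av P {k} f x = P * f (Function.update x k true) + (1 - P) * f (Function.update x k false) := by
  have h := ava_insert P (Finset.notMem_empty k) f x
  rw [Av_empty] at h
  simpa using h

/-- Fubini -/
theorem Av_union (P : ℝ) {S T : Finset ℤ} (h : Disjoint S T) (f : Cfg → ℝ) :
    Av P (S ∪ T) f = Av P S (Av P T f) := by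
  induction S using Finset.induction_on with
  | empty => rw [Finset.empty_union, Av_empty]
  | insert k S hk ih =>
    have hkT : k ∉ T := Finset.disjoint_left.1 h (Finset.mem_insert_self _ _)
    have hST : Disjoint S T :=
      Finset.disjoint_of_subset_left (Finset.subset_insert _ _) h
    funext x
    rw [Finset.insert_union, ava_insert P (by simp [hk, hkT]), ava_insert P hk, ih hST]

theorem Av_const (P : ℝ) (S : Finset ℤ) (a : ℝ) (x : Cfg) : Av P S (fun _ => a) x = a := by
  unfold Av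
  rw [← Finset.sum_mul, Finset.sum_pow_mul_eq_add_pow]
  simp

theorem Av_add (P : ℝ) (S : Finset ℤ) (f g : Cfg → ℝ) (x : Cfg) :
    Av P S (fun z => f z + g z) x = Av P S f x + Av P S g x := by
  unfold Av
  rw [← Finset.sum_add_distrib]
  exact Finset.sum_congr rfl fun A _ => by ring

theorem Av_sub (P : ℝ) (S : Finset ℤ) (f g : Cfg → ℝ) (x : Cfg) :
    Av P S (fun z => f z - g z) x = Av P S f x - Av P S g x := by
  unfold Av
  rw [← Finset.sum_sub_distrib]
  exact Finset.sum_congr rfl fun A _ => by ring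

theorem Av_smul (P : ℝ) (S : Finset ℤ) (a : ℝ) (f : Cfg → ℝ) (x : Cfg) :
    Av P S (fun z => a * f z) x = a * Av P S f x := by
  unfold Av
  rw [Finset.mul_sum]
  exact Finset.sum_congr rfl fun A _ => by ring

theorem Av_sum (P : ℝ) (S : Finset ℤ) {ι : Type*} (s : Finset ι) (f : ι → Cfg → ℝ) (x : Cfg) :
    Av P S (fun z => ∑ i ∈ s, f i z) x = ∑ i ∈ s, Av P S (f i) x := by
  unfold Av
  rw [Finset.sum_comm]
  exact Finset.sum_congr rfl fun A _ => by rw [Finset.mul_sum]

theorem Av_mul_left (P : ℝ) {S : Finset ℤ} {g : Cfg → ℝ} (hg : Ind (S : Set ℤ) g) (f : Cfg → ℝ)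
    (x : Cfg) : Av P S (fun z => g z * f z) x = g x * Av P S f x := by
  unfold Av
  rw [Finset.mul_sum]
  refine Finset.sum_congr rfl fun A _ => ?_
  have h1 : g (putS S A x) = g x := hg _ _ fun i hi => putS_notMem (by simpa using hi)
  simp only [h1]
  ring

theorem Av_of_ind (P : ℝ) {S : Finset ℤ} {f : Cfg → ℝ} (hf : Ind (S : Set ℤ) f) :
    Av P S f = f := by
  funext x
  have h1 : Av P S f x = Av P S (fun _ => f x) x :=
    Av_congr fun y hy => hf y x fun i hi => hy i (by simpa using hi)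
  rw [h1, Av_const]

/-- if `f` does not depend on `S \ T`, only the average over `T ⊆ S` matters -/
theorem Av_of_ind_sdiff (P : ℝ) {S T : Finset ℤ} (hT : T ⊆ S) {f : Cfg → ℝ}
    (hf : Ind ((S \ T : Finset ℤ) : Set ℤ) f) : Av P S f = Av P T f := by
  have h1 : S = T ∪ (S \ T) := (Finset.union_sdiff_of_subset hT).symm
  conv_lhs => rw [h1]
  rw [Av_union P Finset.disjoint_sdiff, Av_of_ind P hf]

/-- independence of other sites is kept -/
theorem Av_ind_of_ind (P : ℝ) (S : Finset ℤ) {T : Set ℤ} {f : Cfg → ℝ} (hf : Ind T f) :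
    Ind T (Av P S f) := by
  intro x y h
  unfold Av
  refine Finset.sum_congr rfl fun A _ => ?_
  have h1 : f (putS S A x) = f (putS S A y) := by
    refine hf _ _ fun i hi => ?_
    by_cases hiS : i ∈ S
    · rw [putS_mem hiS, putS_mem hiS]
    · rw [putS_notMem hiS, putS_notMem hiS]
      exact h i hi
  rw [h1]

theorem Av_mono {P : ℝ} (h0 : 0 ≤ P) (h1 : P ≤ 1) {S : Finset ℤ} {f g : Cfg → ℝ} {x : Cfg}
    (h : ∀ y : Cfg, (∀ i, i ∉ S → y i = x i) → f y ≤ g y) : Av P S f x ≤ Av P S g x := by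
  unfold Av
  refine Finset.sum_le_sum fun A _ => ?_
  refine mul_le_mul_of_nonneg_left (h _ fun i hi => putS_notMem hi) ?_
  exact mul_nonneg (pow_nonneg h0 _) (pow_nonneg (by linarith) _)

theorem Av_nonneg {P : ℝ} (h0 : 0 ≤ P) (h1 : P ≤ 1) {S : Finset ℤ} {f : Cfg → ℝ} {x : Cfg}
    (h : ∀ y : Cfg, (∀ i, i ∉ S → y i = x i) → 0 ≤ f y) : 0 ≤ Av P S f x := by
  unfold Av
  refine Finset.sum_nonneg fun A _ => ?_
  refine mul_nonneg ?_ (h _ fun i hi => putS_notMem hi)
  exact mul_nonneg (pow_nonneg h0 _) (pow_nonneg (by linarith) _)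

theorem Av_abs_le {P : ℝ} (h0 : 0 ≤ P) (h1 : P ≤ 1) (S : Finset ℤ) (f : Cfg → ℝ) (x : Cfg) :
    |Av P S f x| ≤ Av P S (fun z => |f z|) x := by
  unfold Av
  refine (Finset.abs_sum_le_sum_abs _ _).trans (Finset.sum_le_sum fun A _ => ?_)
  rw [abs_mul, abs_of_nonneg (mul_nonneg (pow_nonneg h0 _) (pow_nonneg (by linarith) _))]

/-- Cauchy-Schwarz -/
theorem Av_cs {P : ℝ} (h0 : 0 ≤ P) (h1 : P ≤ 1) (S : Finset ℤ) (f g : Cfg → ℝ) (x : Cfg) :
    (Av P S (fun z => f z * g z) x) ^ 2
      ≤ Av P S (fun z => f z ^ 2) x * Av P S (fun z => g z ^ 2) x := by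
  unfold Av
  have hw : ∀ A : Finset ℤ, 0 ≤ P ^ A.card * (1 - P) ^ (S.card - A.card) := fun A =>
    mul_nonneg (pow_nonneg h0 _) (pow_nonneg (by linarith) _)
  refine Finset.sum_sq_le_sum_mul_sum_of_sq_le_mul _ (fun A _ => ?_) (fun A _ => ?_)
    (fun A _ => le_of_eq ?_)
  · exact mul_nonneg (hw A) (sq_nonneg _)
  · exact mul_nonneg (hw A) (sq_nonneg _)
  · ring

/-- Jensen -/
theorem Av_sq_le {P : ℝ} (h0 : 0 ≤ P) (h1 : P ≤ 1) (S : Finset ℤ) (f : Cfg → ℝ) (x : Cfg) :
    (Av P S f x) ^ 2 ≤ Av P S (fun z => f z ^ 2) x := by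
  have h := Av_cs h0 h1 S f (fun _ => 1) x
  simp only [mul_one, one_pow, Av_const] at h
  exact h

/-- averages commute with flips outside -/
theorem Av_flip (P : ℝ) {S : Finset ℤ} {k : ℤ} (hk : k ∉ S) (f : Cfg → ℝ) (x : Cfg) :
    Av P S (fun z => f (flip z k)) x = Av P S f (flip x k) := by
  unfold Av
  refine Finset.sum_congr rfl fun A _ => ?_
  have h1 : flip (putS S A x) k = putS S A (flip x k) := by
    funext i
    unfold H72IPS.flip
    rcases eq_or_ne i k with rfl | hi
    · rw [Function.update_self, putS_notMem hk, putS_notMem hk, Function.update_self]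
    · rw [Function.update_of_ne hi]
      by_cases hiS : i ∈ S
      · rw [putS_mem hiS, putS_mem hiS]
      · rw [putS_notMem hiS, putS_notMem hiS, Function.update_of_ne hi]
  simp only [h1]

/-- the averages over the same set of sites compose -/
theorem Av_idem (P : ℝ) (S : Finset ℤ) (f : Cfg → ℝ) : Av P S (Av P S f) = Av P S f := by
  exact Av_of_ind P (Av_ind P S f)

end H72NE
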