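import Pool.Agent.H72.NE.AvA

/-! # AVB: variances -/

namespace H72NE

open H72IPS Finset

theorem Va_eq (P : ℝ) (S : Finset ℤ) (f : Cfg → ℝ) (x : Cfg) :
    Va P S f x = Av P S (fun z => (f z - Av P S f x) ^ 2) x := by
  set m := Av P S f x with hm
  have h1 : (fun z => (f z - m) ^ 2) = fun z => (f z ^ 2 - (2 * m) * f z) + m ^ 2 := by
    funext z; ring
  rw [h1, Av_add, Av_sub, Av_smul, Av_const, ← hm]
  unfold Va
  rw [← hm]
  ring

theorem Va_nonneg {P : ℝ} (h0 : 0 ≤ P) (h1 : P ≤ 1) (S : Finset ℤ) (f : Cfg → ℝ) (x : Cfg) :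
    0 ≤ Va P S f x := by
  rw [Va_eq]
  exact Av_nonneg h0 h1 (fun y _ => sq_nonneg _)

theorem Va_ind (P : ℝ) (S : Finset ℤ) (f : Cfg → ℝ) : Ind (S : Set ℤ) (Va P S f) := by
  intro x y h
  unfold Va
  rw [Av_ind P S f x y h, Av_ind P S (fun z => f z ^ 2) x y h]

theorem Va_congr {P : ℝ} {S : Finset ℤ} {f g : Cfg → ℝ} {x : Cfg}
    (h : ∀ y : Cfg, (∀ i, i ∉ S → y i = x i) → f y = g y) : Va P S f x = Va P S g x := by
  unfold Va
  rw [Av_congr h, Av_congr (f := fun z => f z ^ 2) (g := fun z => g z ^ 2)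
    (fun y hy => by simp only [h y hy])]

theorem Va_smul (P : ℝ) (S : Finset ℤ) (a : ℝ) (f : Cfg → ℝ) (x : Cfg) :
    Va P S (fun z => a * f z) x = a ^ 2 * Va P S f x := by
  unfold Va
  have h1 : (fun z => (a * f z) ^ 2) = fun z => a ^ 2 * f z ^ 2 := by
    funext z; ring
  rw [h1, Av_smul, Av_smul]
  ring

theorem Va_add_const (P : ℝ) (S : Finset ℤ) (a : ℝ) (f : Cfg → ℝ) (x : Cfg) :
    Va P S (fun z => f z + a) x = Va P S f x := by
  unfold Va
  have h1 : (fun z => (f z + a) ^ 2) = fun z => (f z ^ 2 + (2 * a) * f z) + a ^ 2 := by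
    funext z; ring
  rw [h1, Av_add, Av_add, Av_smul, Av_const, Av_add, Av_const]
  ring

theorem Va_empty (P : ℝ) (f : Cfg → ℝ) (x : Cfg) : Va P ∅ f x = 0 := by
  unfold Va
  rw [Av_empty, Av_empty]
  ring

theorem Va_single (P : ℝ) (k : ℤ) (f : Cfg → ℝ) (x : Cfg) :
    Va P {k} f x
      = P * (1 - P) * (f (Function.update x k true) - f (Function.update x k false)) ^ 2 := by
  unfold Va
  rw [Av_single, Av_single]
  ring

theorem Va_single_flip (P : ℝ) (k : ℤ) (f : Cfg → ℝ) (x : Cfg) :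
    Va P {k} f x = P * (1 - P) * (f (flip x k) - f x) ^ 2 := by
  rw [Va_single]
  cases hx : x k
  · rw [flip_of_false hx]
    have : Function.update x k false = x := by rw [← hx]; exact Function.update_eq_self k x
    rw [this]
  · rw [flip_of_true hx]
    have : Function.update x k true = x := by rw [← hx]; exact Function.update_eq_self k x
    rw [this]
    ring

/-- decomposition of the variance -/
theorem Va_union (P : ℝ) {S T : Finset ℤ} (h : Disjoint S T) (f : Cfg → ℝ) (x : Cfg) :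
    Va P (S ∪ T) f x = Av P S (Va P T f) x + Va P S (Av P T f) x := by
  have h1 : Va P T f = fun z => Av P T (fun z => f z ^ 2) z - (Av P T f z) ^ 2 := rfl
  rw [h1, Av_sub]
  unfold Va
  rw [Av_union P h, Av_union P h]
  ring

/-- the average of the variance over a subset -/
theorem Av_Va_le {P : ℝ} (h0 : 0 ≤ P) (h1 : P ≤ 1) {S T : Finset ℤ} (hT : T ⊆ S) (f : Cfg → ℝ)
    (x : Cfg) : Av P S (Va P T f) x ≤ Va P S f x := by
  have hd : Disjoint (S \ T) T := sdiff_disjoint
  have hS : S = (S \ T) ∪ T := (sdiff_union_of_subset hT).symm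
  rw [hS, Va_union P hd, Av_union P hd, Av_of_ind P (Va_ind P T f)]
  have := Va_nonneg h0 h1 (S \ T) (Av P T f) x
  linarith

/-- the variance over `S \ T` of the average over `T ⊆ S` -/
theorem Va_Av_le {P : ℝ} (h0 : 0 ≤ P) (h1 : P ≤ 1) {S T : Finset ℤ} (h : Disjoint S T)
    (f : Cfg → ℝ) (x : Cfg) : Va P S (Av P T f) x ≤ Va P (S ∪ T) f x := by
  rw [Va_union P h]
  have := Av_nonneg h0 h1 (S := S) (f := Va P T f) (x := x) (fun y _ => Va_nonneg h0 h1 T f y)
  linarith

/-- Minkowski -/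
theorem sd_add {P : ℝ} (h0 : 0 ≤ P) (h1 : P ≤ 1) (S : Finset ℤ) (f g : Cfg → ℝ) (x : Cfg) :
    Real.sqrt (Va P S (fun z => f z + g z) x)
      ≤ Real.sqrt (Va P S f x) + Real.sqrt (Va P S g x) := by
  set mf := Av P S f x with hmf
  set mg := Av P S g x with hmg
  set c := Av P S (fun z => (f z - mf) * (g z - mg)) x with hc
  have hm : Av P S (fun z => f z + g z) x = mf + mg := Av_add P S f g x
  have e1 : Va P S (fun z => f z + g z) x = Va P S f x + Va P S g x + 2 * c := by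
    rw [Va_eq P S (fun z => f z + g z) x, hm, Va_eq P S f, Va_eq P S g, ← hmf, ← hmg, hc]
    have e0 : (fun z => (f z + g z - (mf + mg)) ^ 2) =
        fun z => ((f z - mf) ^ 2 + (g z - mg) ^ 2) + 2 * ((f z - mf) * (g z - mg)) := by
      funext z
      ring
    rw [e0, Av_add P S (fun z => (f z - mf) ^ 2 + (g z - mg) ^ 2) (fun z => 2 * ((f z - mf) * (g z - mg))),
      Av_add P S (fun z => (f z - mf) ^ 2) (fun z => (g z - mg) ^ 2),
      Av_smul P S 2 (fun z => (f z - mf) * (g z - mg))]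
  have e2 : c ^ 2 ≤ Va P S f x * Va P S g x := by
    rw [hc, Va_eq P S f, Va_eq P S g, ← hmf, ← hmg]
    exact Av_cs h0 h1 S (fun z => f z - mf) (fun z => g z - mg) x
  have ha := Va_nonneg h0 h1 S f x
  have hb := Va_nonneg h0 h1 S g x
  have e3 : c ≤ Real.sqrt (Va P S f x) * Real.sqrt (Va P S g x) := by
    rw [← Real.sqrt_mul ha]
    exact (le_abs_self c).trans (Real.abs_le_sqrt e2)
  rw [Real.sqrt_le_left (by positivity), e1, add_sq, Real.sq_sqrt ha, Real.sq_sqrt hb]
  linarith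

theorem sd_smul {P : ℝ} (S : Finset ℤ) {a : ℝ} (ha : 0 ≤ a) (f : Cfg → ℝ) (x : Cfg) :
    Real.sqrt (Va P S (fun z => a * f z) x) = a * Real.sqrt (Va P S f x) := by
  rw [Va_smul, Real.sqrt_mul (sq_nonneg a), Real.sqrt_sq ha]

/-- Minkowski for finite sums with nonnegative coefficients -/
theorem sd_sum {P : ℝ} (h0 : 0 ≤ P) (h1 : P ≤ 1) (S : Finset ℤ) {ι : Type*} (s : Finset ι)
    (a : ι → ℝ) (ha : ∀ i ∈ s, 0 ≤ a i) (f : ι → Cfg → ℝ) (x : Cfg) :
    Real.sqrt (Va P S (fun z => ∑ i ∈ s, a i * f i z) x)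
      ≤ ∑ i ∈ s, a i * Real.sqrt (Va P S (f i) x) := by
  classical
  induction s using Finset.induction_on with
  | empty =>
    have : Va P S (fun z => ∑ i ∈ (∅ : Finset ι), a i * f i z) x = 0 := by
      unfold Va
      simp only [sum_empty]
      rw [Av_const, Av_const]
      ring
    rw [this]
    simp
  | insert i s hi ih =>
    have e1 : (fun z => ∑ i ∈ insert i s, a i * f i z) = fun z => a i * f i z + ∑ i ∈ s, a i * f i z := by
      funext z
      rw [sum_insert hi]
    rw [e1, sum_insert hi]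
    refine (sd_add h0 h1 S (fun z => a i * f i z) (fun z => ∑ i ∈ s, a i * f i z) x).trans ?_
    rw [sd_smul S (ha i (mem_insert_self i s)) (f i) x]
    have := ih (fun j hj => ha j (mem_insert_of_mem hj))
    linarith

/-- the variance is at most the second moment -/
theorem Va_le_Av_sq {P : ℝ} (S : Finset ℤ) (f : Cfg → ℝ) (x : Cfg) :
    Va P S f x ≤ Av P S (fun z => f z ^ 2) x := by
  unfold Va
  have := sq_nonneg (Av P S f x)
  linarith

theorem Va_le_sq {P : ℝ} (h0 : 0 ≤ P) (h1 : P ≤ 1) {S : Finset ℤ} {f : Cfg → ℝ} {x : Cfg} {B : ℝ}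
    (h : ∀ y z : Cfg, (∀ i, i ∉ S → y i = x i) → (∀ i, i ∉ S → z i = x i) → |f y - f z| ≤ B) :
    Va P S f x ≤ B ^ 2 := by
  rw [Va_eq]
  have h2 : ∀ z : Cfg, (∀ i, i ∉ S → z i = x i) → |f z - Av P S f x| ≤ B := by
    intro z hz
    have e1 : f z - Av P S f x = Av P S (fun y => f z - f y) x := by
      rw [Av_sub, Av_const]
    rw [e1]
    calc |Av P S (fun y => f z - f y) x| ≤ Av P S (fun y => |f z - f y|) x := Av_abs_le h0 h1 S _ x
      _ ≤ Av P S (fun _ => B) x := Av_mono h0 h1 (fun y hy => h z y hz hy)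
      _ = B := Av_const P S B x
  calc Av P S (fun z => (f z - Av P S f x) ^ 2) x ≤ Av P S (fun _ => B ^ 2) x := by
        apply Av_mono h0 h1
        intro z hz
        have h3 := h2 z hz
        calc (f z - Av P S f x) ^ 2 = |f z - Av P S f x| ^ 2 := (sq_abs _).symm
          _ ≤ B ^ 2 := pow_le_pow_left₀ (abs_nonneg _) h3 2
    _ = B ^ 2 := Av_const P S _ x

/-- pointwise bound: the configuration `x` has weight at least `w ^ card S` -/
theorem Va_point {P w : ℝ} (hw : 0 < w) (h0 : w ≤ P) (h1 : P ≤ 1 - w) (S : Finset ℤ) (f : Cfg → ℝ)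
    (x : Cfg) : w ^ S.card * (f x - Av P S f x) ^ 2 ≤ Va P S f x := by
  rw [Va_eq]
  have hP0 : 0 ≤ P := hw.le.trans h0
  have hP1 : 0 ≤ 1 - P := by linarith
  set A : Finset ℤ := S.filter (fun i => x i = true) with hA
  have hAS : A ⊆ S := filter_subset _ _
  have hput : putS S A x = x := by
    funext i
    unfold putS
    split_ifs with hi
    · by_cases hxi : x i = true
      · rw [hxi, decide_eq_true]
        exact mem_filter.mpr ⟨hi, hxi⟩
      · rw [Bool.not_eq_true] at hxi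
        rw [hxi, decide_eq_false]
        intro h
        rw [(mem_filter.mp h).2] at hxi
        exact absurd hxi (by simp)
    · rfl
  have hterm := Finset.single_le_sum (s := S.powerset)
    (f := fun A => P ^ A.card * (1 - P) ^ (S.card - A.card) * (f (putS S A x) - Av P S f x) ^ 2)
    (fun A _ => by positivity) (mem_powerset.mpr hAS)
  simp only [hput] at hterm
  refine le_trans ?_ hterm
  apply mul_le_mul_of_nonneg_right _ (sq_nonneg _)
  calc w ^ S.card = w ^ A.card * w ^ (S.card - A.card) := by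
        rw [← pow_add, Nat.add_sub_cancel' (card_le_card hAS)]
    _ ≤ P ^ A.card * (1 - P) ^ (S.card - A.card) := by
        apply mul_le_mul
        · exact pow_le_pow_left₀ hw.le h0 _
        · exact pow_le_pow_left₀ hw.le (by linarith) _
        · positivity
        · positivity

/-- `|f x - Av f x| ≤ w⁻¹ ^ n * sd` if `card S ≤ n` (note `w⁻¹ ≥ 1`, square roots are not needed) -/
theorem abs_sub_Av_le {P w : ℝ} (hw : 0 < w) (h0 : w ≤ P) (h1 : P ≤ 1 - w) {S : Finset ℤ} {n : ℕ}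
    (hn : S.card ≤ n) (f : Cfg → ℝ) (x : Cfg) :
    |f x - Av P S f x| ≤ w⁻¹ ^ n * Real.sqrt (Va P S f x) := by
  have hw1 : w ≤ 1 := by linarith
  have hwi : 1 ≤ w⁻¹ := (one_le_inv₀ hw).mpr hw1
  have hV : 0 ≤ Va P S f x := Va_nonneg (hw.le.trans h0) (by linarith) S f x
  have hp := Va_point hw h0 h1 S f x
  have h2 : (f x - Av P S f x) ^ 2 ≤ (w⁻¹ ^ n) ^ 2 * Va P S f x := by
    have h3 : (f x - Av P S f x) ^ 2 ≤ w⁻¹ ^ S.card * Va P S f x := by
      rw [inv_pow, inv_mul_eq_div, le_div_iff₀ (by positivity)]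
      linarith
    refine h3.trans ?_
    apply mul_le_mul_of_nonneg_right _ hV
    calc w⁻¹ ^ S.card ≤ w⁻¹ ^ n := pow_le_pow_right₀ hwi hn
      _ ≤ (w⁻¹ ^ n) ^ 2 := by
        have : 1 ≤ w⁻¹ ^ n := one_le_pow₀ hwi
        nlinarith
  have h4 := Real.abs_le_sqrt h2
  rwa [Real.sqrt_mul (sq_nonneg _), Real.sqrt_sq (by positivity)] at h4

/-- variances commute with flips outside -/
theorem Va_flip (P : ℝ) {S : Finset ℤ} {k : ℤ} (hk : k ∉ S) (f : Cfg → ℝ) (x : Cfg) :
    Va P S (fun z => f (flip z k)) x = Va P S f (flip x k) := by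
  unfold Va
  rw [Av_flip P hk f x, Av_flip P hk (fun z => f z ^ 2) x]

end H72NE
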