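import Pool.Agent.H72.NE.Tbl

/-! # BIS0: doubling the length -/

namespace H72NE

open H72IPS Finset

theorem Bis0_En_nonneg {P : ℝ} (h0 : 0 < P) (h1 : P < 1) (F : Cfg → ℝ) (k : ℤ) (z : Cfg) :
    0 ≤ En P F k z := by
  unfold En
  by_cases h : z (k + 1) = true
  · rw [if_pos h]
    exact Va_nonneg h0.le h1.le _ _ _
  · rw [if_neg h]

theorem Bis0_sum_nonneg {P : ℝ} (h0 : 0 < P) (h1 : P < 1) (F : Cfg → ℝ) (S T : Finset ℤ)
    (x : Cfg) : 0 ≤ ∑ k ∈ T, Av P S (En P F k) x :=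
  Finset.sum_nonneg fun k _ => Av_nonneg h0.le h1.le fun y _ => Bis0_En_nonneg h0 h1 F k y

/-- for length `1` the inequality is an equality: `Ico (ξ-1) ξ = {ξ-1}` and the right neighbour `ξ` is
in state `1` (length `0` or negative: both sides are `0`) -/
theorem PI_one {P : ℝ} (h0 : 0 < P) (h1 : P < 1) : PI P 1 1 := by
  intro b ξ hb F x hx
  rcases lt_or_ge b ξ with h | h
  · have h2 : ξ = b + 1 := by
      push_cast at hb
      omega
    subst h2
    have h3 : Ico b (b + 1) = {b} := by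
      ext k
      rw [Finset.mem_Ico, Finset.mem_singleton]
      omega
    rw [h3, Finset.sum_singleton, one_mul]
    have h4 : Av P {b} (En P F b) x = Av P {b} (Va P {b} F) x := by
      refine Av_congr fun y hy => ?_
      unfold En
      have h5 : y (b + 1) = true := by
        rw [hy (b + 1) (by
          rw [Finset.mem_singleton]
          omega)]
        exact hx
      rw [if_pos h5]
    rw [h4, Av_of_ind P (Va_ind P {b} F)]
  · rw [Finset.Ico_eq_empty (by omega), Va_empty, Finset.sum_empty, mul_zero]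

theorem PI_mono {P : ℝ} (h0 : 0 < P) (h1 : P < 1) {Γ Γ' : ℝ} {n n' : ℕ} (h : PI P Γ n)
    (hΓ : Γ ≤ Γ') (hn : n' ≤ n) : PI P Γ' n' := by
  intro b ξ hb F x hx
  refine (h b ξ (by
    have : (n' : ℤ) ≤ n := by exact_mod_cast hn
    omega) F x hx).trans ?_
  exact mul_le_mul_of_nonneg_right hΓ (Bis0_sum_nonneg h0 h1 F _ _ x)

theorem Bis0_Av_Av {P : ℝ} {A B : Finset ℤ} (hAB : Disjoint A B) (g : Cfg → ℝ) :
    Av P (A ∪ B) (Av P B g) = Av P (A ∪ B) g := by
  rw [Av_union P hAB, Av_idem, ← Av_union P hAB]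

/-- Let `x ξ = true`, `ξ - b ≤ 2 n`.  If `ξ - b ≤ n` use `PI_mono`.  Otherwise `m = ξ - n`,
`A = Ico b m`, `B = Ico m ξ`, `I = {m}` in `two_block`.  `Va_B F z ≤ Γ ∑_{k ∈ B} Av_B (En k) z` and, if
`z m = true`, `Va_A F z ≤ Γ ∑_{k ∈ A} Av_A (En k) z`.  Average over `A ∪ B`
(`Av_{A∪B} (Av_B g) = Av_{A∪B} g`; the indicator of `z m = true` is at most `1` and does not depend
on `A`). -/
theorem PI_double {P : ℝ} (h0 : 0 < P) (h1 : P < 1) {Γ : ℝ} (hΓ : 0 ≤ Γ) {n : ℕ} (h : PI P Γ n) :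
    PI P (Γ / (1 - Real.sqrt (1 - P))) (2 * n) := by
  have hs1 : Real.sqrt (1 - P) < 1 := by
    rw [Real.sqrt_lt' one_pos]
    linarith
  have hs0 : 0 ≤ Real.sqrt (1 - P) := Real.sqrt_nonneg _
  have hd : 0 < 1 - Real.sqrt (1 - P) := by linarith
  intro b ξ hb F x hx
  rcases le_or_gt (ξ - b) n with hn | hn
  · refine PI_mono h0 h1 h ?_ le_rfl b ξ hn F x hx
    rw [le_div_iff₀ hd]
    nlinarith
  push_cast at hb
  obtain ⟨m, hm⟩ : ∃ m : ℤ, m = ξ - n := ⟨_, rfl⟩
  have hn1 : 1 ≤ (n : ℤ) := by omega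
  have hAB : Disjoint (Ico b m) (Ico m ξ) := by
    rw [Finset.disjoint_left]
    intro k hk hk'
    rw [Finset.mem_Ico] at hk hk'
    omega
  have hun : Ico b m ∪ Ico m ξ = Ico b ξ := by
    ext k
    rw [Finset.mem_union, Finset.mem_Ico, Finset.mem_Ico, Finset.mem_Ico]
    omega
  have hI : ({m} : Finset ℤ) ⊆ Ico m ξ := by
    intro k hk
    rw [Finset.mem_singleton] at hk
    rw [Finset.mem_Ico]
    omega
  have h2 := two_block h0 h1 hAB hI (Finset.singleton_nonempty m) F x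
  rw [Finset.card_singleton, pow_one] at h2
  have h3 : Av P (Ico b m ∪ Ico m ξ)
      (fun z => Va P (Ico m ξ) F z + hasOne {m} z * Va P (Ico b m) F z) x ≤
      Γ * ∑ k ∈ Ico b m ∪ Ico m ξ, Av P (Ico b m ∪ Ico m ξ) (En P F k) x := by
    have e1 : Av P (Ico b m ∪ Ico m ξ) (Va P (Ico m ξ) F) x ≤
        Γ * ∑ k ∈ Ico m ξ, Av P (Ico b m ∪ Ico m ξ) (En P F k) x := by
      have e2 : Av P (Ico b m ∪ Ico m ξ) (Va P (Ico m ξ) F) x ≤
          Av P (Ico b m ∪ Ico m ξ)
            (fun z => Γ * ∑ k ∈ Ico m ξ, Av P (Ico m ξ) (En P F k) z) x := by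
        refine Av_mono h0.le h1.le fun y hy => ?_
        refine h m ξ (by omega) F y ?_
        rw [hy ξ (by
          rw [hun, Finset.mem_Ico]
          omega)]
        exact hx
      refine e2.trans (le_of_eq ?_)
      rw [Av_smul, Av_sum]
      congr 1
      refine Finset.sum_congr rfl fun k _ => ?_
      rw [Bis0_Av_Av hAB]
    have e3 : Av P (Ico b m ∪ Ico m ξ) (fun z => hasOne {m} z * Va P (Ico b m) F z) x ≤
        Γ * ∑ k ∈ Ico b m, Av P (Ico b m ∪ Ico m ξ) (En P F k) x := by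
      have e2 : Av P (Ico b m ∪ Ico m ξ) (fun z => hasOne {m} z * Va P (Ico b m) F z) x ≤
          Av P (Ico b m ∪ Ico m ξ)
            (fun z => Γ * ∑ k ∈ Ico b m, Av P (Ico b m) (En P F k) z) x := by
        refine Av_mono h0.le h1.le fun y _ => ?_
        unfold hasOne
        by_cases hy : ∃ k ∈ ({m} : Finset ℤ), y k = true
        · rw [if_pos hy, one_mul]
          obtain ⟨k, hk, hk'⟩ := hy
          rw [Finset.mem_singleton] at hk
          subst hk
          exact h b k (by omega) F y hk'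
        · rw [if_neg hy, zero_mul]
          exact mul_nonneg hΓ (Bis0_sum_nonneg h0 h1 F _ _ y)
      refine e2.trans (le_of_eq ?_)
      rw [Av_smul, Av_sum]
      congr 1
      refine Finset.sum_congr rfl fun k _ => ?_
      rw [Finset.union_comm, Bis0_Av_Av hAB.symm]
    rw [Av_add, Finset.sum_union hAB, mul_add, add_comm]
    exact add_le_add e3 e1
  rw [hun] at h2 h3
  refine h2.trans ?_
  refine (mul_le_mul_of_nonneg_left h3 (by positivity)).trans (le_of_eq ?_)
  rw [div_eq_mul_one_div Γ]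
  ring

end H72NE
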