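import Pool.Agent.H72.NE.Bis0

/-! # BIS1: bisection with one strip

`b ≤ m`, strip `I = [m, m + Δ)`, `m + Δ ≤ ξ`, `ξ - m ≤ n`, `m + Δ - b ≤ n`, `x ξ = true`.

Proof.  `two_block` with `A = Ico b m`, `B = Ico m ξ`.  For the second term decompose according to the
last (rightmost) `1` in `I`: for `ζ ∈ I` let `χ_ζ z = 1` if `z ζ = true` and `z k = false` for
`ζ < k < m + Δ`, and `0` otherwise; `hasOne I = ∑_ζ χ_ζ` and `χ_ζ` does not depend on `Ico b ζ`.
With `S = Ico b ζ`: `Av_Λ (χ_ζ Va_A F) = Av_Λ (χ_ζ Av_S (Va_A F)) ≤ Av_Λ (χ_ζ Va_S F)` (`Av_Va_le`,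
`A ⊆ S`) and if `χ_ζ z = 1` then `z ζ = true` so `Va_S F z ≤ Γ ∑_{k ∈ S} Av_S (En k) z`.  Hence
`Av_Λ (χ_ζ Va_A F) ≤ Γ ∑_{k ∈ Ico b ζ} Av_Λ (χ_ζ En k) ≤ Γ ∑_{k ∈ Ico b (m+Δ)} Av_Λ (χ_ζ En k)`, and
`∑_ζ χ_ζ ≤ 1`. -/

namespace H72NE

open H72IPS Finset

open Classical in
/-- indicator that the last `1` in `[m, e)` is at `ζ` -/
private noncomputable def bis1Chi (e ζ : ℤ) : Cfg → ℝ :=
  fun z => if z ζ = true ∧ ∀ k, ζ < k → k < e → z k = false then 1 else 0

private theorem bis1Chi_nonneg (e ζ : ℤ) (z : Cfg) : 0 ≤ bis1Chi e ζ z := by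
  unfold bis1Chi
  split_ifs <;> norm_num

private theorem bis1Chi_ind (b e ζ : ℤ) : Ind ((Ico b ζ : Finset ℤ) : Set ℤ) (bis1Chi e ζ) := by
  classical
  intro x y hxy
  have h1 : ∀ k, ζ ≤ k → x k = y k := by
    intro k hk
    apply hxy
    intro hmem
    rw [Finset.coe_Ico] at hmem
    exact absurd hmem.2 (not_lt.2 hk)
  unfold bis1Chi
  have h2 : (x ζ = true ∧ ∀ k, ζ < k → k < e → x k = false) ↔
      (y ζ = true ∧ ∀ k, ζ < k → k < e → y k = false) := by
    rw [h1 ζ le_rfl]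
    constructor
    · rintro ⟨h3, h4⟩
      exact ⟨h3, fun k hk hke => by rw [← h1 k hk.le]; exact h4 k hk hke⟩
    · rintro ⟨h3, h4⟩
      exact ⟨h3, fun k hk hke => by rw [h1 k hk.le]; exact h4 k hk hke⟩
  simp only [h2]

private theorem bis1_hasOne (m e : ℤ) (z : Cfg) :
    hasOne (Ico m e) z = ∑ ζ ∈ Ico m e, bis1Chi e ζ z := by
  classical
  by_cases h : ∃ k ∈ Ico m e, z k = true
  · -- the last one
    have hne : ((Ico m e).filter (fun k => z k = true)).Nonempty := by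
      obtain ⟨k, hk, hz⟩ := h
      exact ⟨k, mem_filter.2 ⟨hk, hz⟩⟩
    set ζ := ((Ico m e).filter (fun k => z k = true)).max' hne with hζ
    have hmem := max'_mem _ hne
    rw [← hζ] at hmem
    obtain ⟨hζI, hζz⟩ := mem_filter.1 hmem
    have hlast : ∀ k, ζ < k → k < e → z k = false := by
      intro k hk hke
      by_contra hcon
      have hzk : z k = true := by simpa using hcon
      have hkI : k ∈ Ico m e := by
        rw [mem_Ico] at hζI ⊢
        exact ⟨by omega, hke⟩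
      have hkF : k ∈ (Ico m e).filter (fun k => z k = true) := mem_filter.2 ⟨hkI, hzk⟩
      have := le_max' _ k hkF
      rw [← hζ] at this
      omega
    rw [Finset.sum_eq_single_of_mem ζ hζI]
    · unfold hasOne bis1Chi
      rw [if_pos h, if_pos ⟨hζz, hlast⟩]
    · intro j hj hne
      unfold bis1Chi
      rw [if_neg]
      rintro ⟨h1, h2⟩
      rcases lt_or_gt_of_ne hne with h3 | h3
      · have := h2 ζ h3 (mem_Ico.1 hζI).2
        rw [hζz] at this
        exact Bool.noConfusion this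
      · have := hlast j h3 (mem_Ico.1 hj).2
        rw [h1] at this
        exact Bool.noConfusion this
  · unfold hasOne
    rw [if_neg h]
    symm
    refine Finset.sum_eq_zero fun ζ hζ => ?_
    unfold bis1Chi
    rw [if_neg]
    rintro ⟨h1, -⟩
    exact h ⟨ζ, hζ, h1⟩

private theorem bis1_hasOne_le (I : Finset ℤ) (z : Cfg) : hasOne I z ≤ 1 := by
  classical
  unfold hasOne
  split_ifs <;> norm_num

private theorem bis1_Av_Av (P : ℝ) {L S : Finset ℤ} (hS : S ⊆ L) (g : Cfg → ℝ) :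
    Av P L (Av P S g) = Av P L g := by
  classical
  have hL : L = (L \ S) ∪ S := (sdiff_union_of_subset hS).symm
  have hd : Disjoint (L \ S) S := sdiff_disjoint
  have h1 : Av P L (Av P S g) = Av P (L \ S) (Av P S (Av P S g)) := by
    conv_lhs => rw [hL]
    exact Av_union P hd _
  have h2 : Av P L g = Av P (L \ S) (Av P S g) := by
    conv_lhs => rw [hL]
    exact Av_union P hd _
  rw [h1, h2, Av_idem]

private theorem bis1_En_nonneg {P : ℝ} (h0 : 0 ≤ P) (h1 : P ≤ 1) (F : Cfg → ℝ) (k : ℤ) (z : Cfg) :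
    0 ≤ En P F k z := by
  unfold En
  split_ifs
  · exact Va_nonneg h0 h1 _ _ _
  · exact le_rfl

theorem strip {P : ℝ} (h0 : 0 < P) (h1 : P < 1) {Γ : ℝ} (hΓ : 0 ≤ Γ) {n Δ : ℕ} (hΔ : 1 ≤ Δ)
    (h : PI P Γ n) {b m ξ : ℤ} (hbm : b ≤ m) (hmξ : m + Δ ≤ ξ) (hn1 : ξ - m ≤ n)
    (hn2 : m + Δ - b ≤ n) (F : Cfg → ℝ) {x : Cfg} (hx : x ξ = true) :
    Va P (Ico b ξ) F x ≤ (Γ / (1 - Real.sqrt ((1 - P) ^ Δ)))
      * (∑ k ∈ Ico b ξ, Av P (Ico b ξ) (En P F k) x
        + ∑ k ∈ Ico m (m + Δ), Av P (Ico b ξ) (En P F k) x) := by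
  classical
  have hΔ' : (1 : ℤ) ≤ Δ := by exact_mod_cast hΔ
  have hmξ' : m ≤ ξ := by omega
  have hAB : Disjoint (Ico b m) (Ico m ξ) := Ico_disjoint_Ico_consecutive b m ξ
  have hun : Ico b m ∪ Ico m ξ = Ico b ξ := Ico_union_Ico_eq_Ico hbm hmξ'
  have hI : Ico m (m + (Δ : ℤ)) ⊆ Ico m ξ := Ico_subset_Ico_right hmξ
  have hne : (Ico m (m + (Δ : ℤ))).Nonempty := nonempty_Ico.2 (by omega)
  have hcard : (Ico m (m + (Δ : ℤ))).card = Δ := by
    rw [Int.card_Ico]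
    simp
  have htb := two_block h0 h1 hAB hI hne F x
  rw [hun, hcard] at htb
  refine htb.trans ?_
  -- the constant
  have hpow : (1 - P) ^ Δ < 1 := pow_lt_one₀ (by linarith) (by linarith) (by omega)
  have hsq : Real.sqrt ((1 - P) ^ Δ) < 1 := by
    calc Real.sqrt ((1 - P) ^ Δ) < Real.sqrt 1 :=
          Real.sqrt_lt_sqrt (pow_nonneg (by linarith) _) hpow
      _ = 1 := Real.sqrt_one
  have hden : 0 < 1 - Real.sqrt ((1 - P) ^ Δ) := by linarith
  set Λ := Ico b ξ with hΛ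
  -- first term
  have hBΛ : Ico m ξ ⊆ Λ := Ico_subset_Ico_left hbm
  have hoff : ∀ y : Cfg, (∀ i, i ∉ Λ → y i = x i) → y ξ = true := by
    intro y hy
    rw [hy ξ (by rw [hΛ]; exact right_notMem_Ico)]
    exact hx
  have T1 : Av P Λ (Va P (Ico m ξ) F) x ≤ Γ * ∑ k ∈ Ico m ξ, Av P Λ (En P F k) x := by
    have e1 : Av P Λ (Va P (Ico m ξ) F) x ≤
        Av P Λ (fun z => Γ * ∑ k ∈ Ico m ξ, Av P (Ico m ξ) (En P F k) z) x := by
      refine Av_mono h0.le h1.le fun y hy => ?_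
      exact h m ξ hn1 F y (hoff y hy)
    refine e1.trans (le_of_eq ?_)
    rw [Av_smul, Av_sum]
    congr 1
    exact Finset.sum_congr rfl fun k _ => by
      show Av P Λ (Av P (Ico m ξ) (En P F k)) x = _
      rw [bis1_Av_Av P hBΛ]
  -- second term
  have T2 : Av P Λ (fun z => hasOne (Ico m (m + (Δ : ℤ))) z * Va P (Ico b m) F z) x ≤
      Γ * ∑ k ∈ Ico b (m + (Δ : ℤ)), Av P Λ (En P F k) x := by
    have e1 : Av P Λ (fun z => hasOne (Ico m (m + (Δ : ℤ))) z * Va P (Ico b m) F z) x =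
        ∑ ζ ∈ Ico m (m + (Δ : ℤ)), Av P Λ (fun z => bis1Chi (m + Δ) ζ z * Va P (Ico b m) F z) x := by
      rw [← Av_sum]
      congr 1
      funext z
      rw [bis1_hasOne, Finset.sum_mul]
    rw [e1]
    have e2 : ∀ ζ ∈ Ico m (m + (Δ : ℤ)),
        Av P Λ (fun z => bis1Chi (m + Δ) ζ z * Va P (Ico b m) F z) x ≤
        Γ * ∑ k ∈ Ico b (m + (Δ : ℤ)), Av P Λ (fun z => bis1Chi (m + Δ) ζ z * En P F k z) x := by
      intro ζ hζ
      rw [mem_Ico] at hζ
      set S := Ico b ζ with hS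
      have hSΛ : S ⊆ Λ := Ico_subset_Ico_right (by omega)
      have hχ := bis1Chi_ind b (m + Δ) ζ
      -- the pointwise inequality after averaging over S
      have hpt : ∀ z : Cfg, Av P S (fun z => bis1Chi (m + Δ) ζ z * Va P (Ico b m) F z) z ≤
          Γ * ∑ k ∈ S, Av P S (fun z => bis1Chi (m + Δ) ζ z * En P F k z) z := by
        intro z
        rw [Av_mul_left P hχ]
        have e3 : ∀ k ∈ S, Av P S (fun z => bis1Chi (m + Δ) ζ z * En P F k z) z =
            bis1Chi (m + Δ) ζ z * Av P S (En P F k) z := fun k _ => Av_mul_left P hχ _ _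
        rw [Finset.sum_congr rfl e3, ← Finset.mul_sum]
        by_cases hc : z ζ = true
        · have h3 : Av P S (Va P (Ico b m) F) z ≤ Va P S F z :=
            Av_Va_le h0.le h1.le (Ico_subset_Ico_right hζ.1) F z
          have h4 : Va P S F z ≤ Γ * ∑ k ∈ S, Av P S (En P F k) z :=
            h b ζ (by omega) F z hc
          calc bis1Chi (m + Δ) ζ z * Av P S (Va P (Ico b m) F) z
              ≤ bis1Chi (m + Δ) ζ z * (Γ * ∑ k ∈ S, Av P S (En P F k) z) :=
                mul_le_mul_of_nonneg_left (h3.trans h4) (bis1Chi_nonneg _ _ _)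
            _ = Γ * (bis1Chi (m + Δ) ζ z * ∑ k ∈ S, Av P S (En P F k) z) := by ring
        · have h5 : bis1Chi (m + Δ) ζ z = 0 := by
            unfold bis1Chi
            rw [if_neg (fun h => hc h.1)]
          rw [h5]
          simp
      have h6 : Av P Λ (fun z => bis1Chi (m + Δ) ζ z * Va P (Ico b m) F z) x ≤
          Γ * ∑ k ∈ S, Av P Λ (fun z => bis1Chi (m + Δ) ζ z * En P F k z) x := by
        rw [← bis1_Av_Av P hSΛ]
        refine (Av_mono h0.le h1.le (fun y _ => hpt y)).trans (le_of_eq ?_)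
        rw [Av_smul, Av_sum]
        congr 1
        exact Finset.sum_congr rfl fun k _ => by
          show Av P Λ (Av P S (fun z => bis1Chi (m + Δ) ζ z * En P F k z)) x = _
          rw [bis1_Av_Av P hSΛ]
      refine h6.trans (mul_le_mul_of_nonneg_left ?_ hΓ)
      refine Finset.sum_le_sum_of_subset_of_nonneg (Ico_subset_Ico_right (by omega)) ?_
      intro k _ _
      exact Av_nonneg h0.le h1.le fun y _ =>
        mul_nonneg (bis1Chi_nonneg _ _ _) (bis1_En_nonneg h0.le h1.le F k y)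
    refine (Finset.sum_le_sum e2).trans ?_
    rw [← Finset.mul_sum]
    refine mul_le_mul_of_nonneg_left ?_ hΓ
    rw [Finset.sum_comm]
    refine Finset.sum_le_sum fun k _ => ?_
    rw [← Av_sum]
    refine Av_mono h0.le h1.le fun y _ => ?_
    rw [← Finset.sum_mul, ← bis1_hasOne]
    calc hasOne (Ico m (m + (Δ : ℤ))) y * En P F k y ≤ 1 * En P F k y :=
          mul_le_mul_of_nonneg_right (bis1_hasOne_le _ _) (bis1_En_nonneg h0.le h1.le F k y)
      _ = En P F k y := one_mul _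
  -- total
  have hsum1 : ∑ k ∈ Ico b (m + (Δ : ℤ)), Av P Λ (En P F k) x =
      ∑ k ∈ Ico b m, Av P Λ (En P F k) x + ∑ k ∈ Ico m (m + (Δ : ℤ)), Av P Λ (En P F k) x := by
    rw [← Finset.sum_union (Ico_disjoint_Ico_consecutive b m (m + (Δ : ℤ))),
      Ico_union_Ico_eq_Ico hbm (by omega)]
  have hsum2 : ∑ k ∈ Λ, Av P Λ (En P F k) x =
      ∑ k ∈ Ico b m, Av P Λ (En P F k) x + ∑ k ∈ Ico m ξ, Av P Λ (En P F k) x := by
    rw [← Finset.sum_union hAB, hun]
  rw [Av_add]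
  have hfin : Av P Λ (Va P (Ico m ξ) F) x +
      Av P Λ (fun z => hasOne (Ico m (m + (Δ : ℤ))) z * Va P (Ico b m) F z) x ≤
      Γ * (∑ k ∈ Λ, Av P Λ (En P F k) x + ∑ k ∈ Ico m (m + (Δ : ℤ)), Av P Λ (En P F k) x) := by
    rw [hsum1] at T2
    rw [hsum2]
    linarith
  have e7 : Γ / (1 - Real.sqrt ((1 - P) ^ Δ)) *
      (∑ k ∈ Λ, Av P Λ (En P F k) x + ∑ k ∈ Ico m (m + (Δ : ℤ)), Av P Λ (En P F k) x) =
      1 / (1 - Real.sqrt ((1 - P) ^ Δ)) *
      (Γ * (∑ k ∈ Λ, Av P Λ (En P F k) x + ∑ k ∈ Ico m (m + (Δ : ℤ)), Av P Λ (En P F k) x)) := by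
    ring
  rw [e7]
  exact mul_le_mul_of_nonneg_left hfin (by positivity)

end H72NE
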