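import Pool.Agent.H72.NE.Bis1

/-! # BIS2: bisection, averaged over `s` strips

Let `len = ξ - b ≤ 2 n - s Δ`.  If `len ≤ n` use `PI_mono` (the new constant is larger).  Otherwise
`h = len - n > 0` and `m_j = b + h + j Δ`, `j < s`: `ξ - m_j = n - j Δ ≤ n`,
`m_j + Δ - b ≤ h + s Δ ≤ n`, `m_j + Δ ≤ b + h + s Δ ≤ b + n ≤ ξ`.  Average `strip` over `j < s`; the
strips are disjoint subsets of `Ico b ξ` and `Av (En k) ≥ 0`. -/

namespace H72NE

open H72IPS Finset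

private theorem bis2_sum (e : ℤ → ℝ) (a : ℤ) (Δ s : ℕ) :
    ∑ j ∈ Finset.range s, ∑ k ∈ Ico (a + j * Δ) (a + j * Δ + Δ), e k
      = ∑ k ∈ Ico a (a + s * Δ), e k := by
  induction s with
  | zero => simp
  | succ s ih =>
    rw [Finset.sum_range_succ, ih]
    have h0 : (0 : ℤ) ≤ (s : ℤ) * Δ := by positivity
    have h0' : (0 : ℤ) ≤ (Δ : ℤ) := by positivity
    have h3 : a + ((s + 1 : ℕ) : ℤ) * Δ = a + (s : ℤ) * Δ + Δ := by push_cast; ring
    rw [h3]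
    rw [← Finset.sum_union (Finset.Ico_disjoint_Ico_consecutive _ _ _),
      Finset.Ico_union_Ico_eq_Ico (by linarith) (by linarith)]

private theorem bis2_nonneg {P : ℝ} (h0 : 0 < P) (h1 : P < 1) (S : Finset ℤ) (F : Cfg → ℝ)
    (k : ℤ) (x : Cfg) : 0 ≤ Av P S (En P F k) x := by
  refine Av_nonneg h0.le h1.le (fun y _ => ?_)
  unfold En
  split
  · exact Va_nonneg h0.le h1.le _ _ _
  · exact le_rfl

theorem PI_bisect {P : ℝ} (h0 : 0 < P) (h1 : P < 1) {Γ : ℝ} (hΓ : 0 ≤ Γ) {n n' s Δ : ℕ}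
    (hs : 1 ≤ s) (hΔ : 1 ≤ Δ) (hn : n' + s * Δ ≤ 2 * n) (h : PI P Γ n) :
    PI P (Γ * (1 + 1 / (s : ℝ)) / (1 - Real.sqrt ((1 - P) ^ Δ))) n' := by
  intro b ξ hbξ F x hx
  have hq : (1 - P) ^ Δ < 1 := pow_lt_one₀ (by linarith) (by linarith) (by omega)
  have hsq : Real.sqrt ((1 - P) ^ Δ) < 1 := by
    rw [Real.sqrt_lt' one_pos]
    simpa using hq
  have hD : 0 < 1 - Real.sqrt ((1 - P) ^ Δ) := by linarith
  have hD1 : 1 - Real.sqrt ((1 - P) ^ Δ) ≤ 1 := by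
    have := Real.sqrt_nonneg ((1 - P) ^ Δ)
    linarith
  have hs' : (0 : ℝ) < s := by exact_mod_cast hs
  set D := 1 - Real.sqrt ((1 - P) ^ Δ) with hDdef
  have hS : 0 ≤ ∑ k ∈ Ico b ξ, Av P (Ico b ξ) (En P F k) x :=
    Finset.sum_nonneg fun k _ => bis2_nonneg h0 h1 _ _ _ _
  by_cases hc : ξ - b ≤ n
  · refine (h b ξ hc F x hx).trans (mul_le_mul_of_nonneg_right ?_ hS)
    rw [le_div_iff₀ hD]
    have h2 : 0 ≤ 1 / (s : ℝ) := by positivity
    nlinarith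
  · push Not at hc
    have hn' : (n' : ℤ) + s * Δ ≤ 2 * n := by exact_mod_cast hn
    have hstrip : ∀ j ∈ Finset.range s, Va P (Ico b ξ) F x ≤ (Γ / D)
      * (∑ k ∈ Ico b ξ, Av P (Ico b ξ) (En P F k) x
        + ∑ k ∈ Ico (ξ - n + j * Δ) (ξ - n + j * Δ + Δ), Av P (Ico b ξ) (En P F k) x) := by
      intro j hj
      have hj' : j + 1 ≤ s := Finset.mem_range.1 hj
      have hj2 : ((j : ℤ) + 1) * Δ ≤ s * Δ := by
        have : ((j : ℤ) + 1) ≤ s := by exact_mod_cast hj'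
        exact mul_le_mul_of_nonneg_right this (by positivity)
      have hj3 : (0 : ℤ) ≤ (j : ℤ) * Δ := by positivity
      have hj4 : ((j : ℤ) + 1) * Δ = j * Δ + Δ := by ring
      refine strip h0 h1 hΓ hΔ h ?_ ?_ ?_ ?_ F hx
      · linarith
      · linarith
      · linarith
      · linarith
    have hsum := Finset.sum_le_sum hstrip
    rw [Finset.sum_const, Finset.card_range, nsmul_eq_mul, ← Finset.mul_sum,
      Finset.sum_add_distrib, Finset.sum_const, Finset.card_range, nsmul_eq_mul,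
      bis2_sum (fun k => Av P (Ico b ξ) (En P F k) x) (ξ - n) Δ s] at hsum
    have hsub : ∑ k ∈ Ico (ξ - (n : ℤ)) (ξ - n + s * Δ), Av P (Ico b ξ) (En P F k) x
        ≤ ∑ k ∈ Ico b ξ, Av P (Ico b ξ) (En P F k) x := by
      refine Finset.sum_le_sum_of_subset_of_nonneg ?_ (fun k _ _ => bis2_nonneg h0 h1 _ _ _ _)
      refine Finset.Ico_subset_Ico (by linarith) (by linarith)
    have hΓD : 0 ≤ Γ / D := div_nonneg hΓ hD.le
    have h5 : (s : ℝ) * Va P (Ico b ξ) F x ≤ Γ / D * (s * (∑ k ∈ Ico b ξ, Av P (Ico b ξ) (En P F k) x)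
        + ∑ k ∈ Ico b ξ, Av P (Ico b ξ) (En P F k) x) :=
      hsum.trans (mul_le_mul_of_nonneg_left (by linarith) hΓD)
    have h6 : Γ * (1 + 1 / (s : ℝ)) / D * ∑ k ∈ Ico b ξ, Av P (Ico b ξ) (En P F k) x
        = (Γ / D * (s * (∑ k ∈ Ico b ξ, Av P (Ico b ξ) (En P F k) x)
        + ∑ k ∈ Ico b ξ, Av P (Ico b ξ) (En P F k) x)) / s := by
      field_simp
    rw [h6, le_div_iff₀ hs', mul_comm]
    exact h5

end H72NE
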