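import Pool.Agent.H72.NE.PBas

/-! # BRI: the finite volume semigroup `SN` of `H72IPS` is the semigroup `PW` -/

namespace H72NE

open H72IPS Finset

theorem CC_bdd (f : CC) : Bdd f := by
  refine ⟨‖f‖, fun x => ?_⟩
  exact BoundedContinuousFunction.norm_coe_le_norm (f : BoundedContinuousFunction Cfg ℝ) x

theorem Rok_cr {p : Bool → Bool → ℝ} (hp : IsProb p) : Rok (fun _ => cr p) := by
  intro k s y
  exact ⟨cr_nonneg hp s y, cr_le_one hp s y⟩

/-- both sides have the same Poisson series with `R = 4 N` (`SN_hasSum`, `PW_hasSum`);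
`Qf p N = QW (fun _ => cr p) (Ico (-N) N) (4 N)` by definition -/
theorem SN_eq_PW (p : Bool → Bool → ℝ) {N : ℕ} (hN : 1 ≤ N) (t : ℝ) (f : CC) (x : Cfg) :
    SN p N t f x = PW (fun _ => cr p) (Ico (-(N : ℤ)) N) t f x := by
  have h1 := SN_hasSum p hN t f x
  have hR : (0 : ℝ) < 4 * N := by
    have : (1 : ℝ) ≤ N := by exact_mod_cast hN
    linarith
  have h2 := PW_hasSum (fun _ => cr p) (Ico (-(N : ℤ)) N) hR t (CC_bdd f) x
  exact h1.unique h2

end H72NE
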