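import Pool.Agent.H72.NE.PBas

/-! # POIS: transfer of bounds from the iterates of `QW` to the semigroup.
`∑ e^{-Rt} (Rt)^n/n! (K r^n) = K e^{Rt(r-1)}` and `∑ e^{-Rt} (Rt)^n/n! n = Rt`. -/

namespace H72NE

open H72IPS Finset

/-- the Poisson weight -/
private noncomputable def poisW (y : ℝ) (n : ℕ) : ℝ := Real.exp (-y) * y ^ n / (n.factorial : ℝ)

private theorem poisW_nonneg {y : ℝ} (hy : 0 ≤ y) (n : ℕ) : 0 ≤ poisW y n := by
  unfold poisW
  positivity

private theorem pois_exp (y K r : ℝ) :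
    HasSum (fun n => poisW y n * (K * r ^ n)) (K * Real.exp (y * (r - 1))) := by
  have h1 := NormedSpace.expSeries_div_hasSum_exp (𝔸 := ℝ) (y * r)
  rw [← Real.exp_eq_exp_ℝ] at h1
  have h2 := h1.mul_left (Real.exp (-y) * K)
  have e1 : Real.exp (-y) * K * Real.exp (y * r) = K * Real.exp (y * (r - 1)) := by
    rw [show y * (r - 1) = -y + y * r by ring, Real.exp_add]
    ring
  rw [e1] at h2
  refine h2.congr_fun ?_
  intro n
  unfold poisW
  rw [mul_pow]
  ring

private theorem pois_one (y : ℝ) : HasSum (fun n => poisW y n) 1 := by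
  have h := pois_exp y 1 1
  simpa using h

private theorem pois_id (y : ℝ) : HasSum (fun n => poisW y n * (n : ℝ)) y := by
  rw [← hasSum_nat_add_iff' 1]
  simp only [Finset.range_one, Finset.sum_singleton, Nat.cast_zero, mul_zero, sub_zero]
  have h := (pois_one y).mul_left y
  rw [mul_one] at h
  refine h.congr_fun ?_
  intro n
  unfold poisW
  rw [Nat.factorial_succ, pow_succ]
  have h1 : ((n.factorial : ℕ) : ℝ) ≠ 0 := by exact_mod_cast n.factorial_ne_zero
  have h2 : ((n : ℝ) + 1) ≠ 0 := by positivity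
  push_cast
  field_simp

private theorem pois_bound {y : ℝ} {ι : Type*} (s : Finset ι) (K r : ι → ℝ) (a : ℝ) (j : ℕ) :
    HasSum (fun n => poisW y n * (∑ i ∈ s, K i * r i ^ (j + n) + a * ((j + n : ℕ) : ℝ)))
      (∑ i ∈ s, K i * r i ^ j * Real.exp (y * (r i - 1)) + a * (j + y)) := by
  have h1 := hasSum_sum (s := s) (fun i _ => pois_exp y (K i * r i ^ j) (r i))
  have h2 := ((pois_one y).mul_left (a * j)).add ((pois_id y).mul_left a)
  have h3 := h1.add h2
  have e1 : a * j * 1 + a * y = a * (j + y) := by ring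
  rw [e1] at h3
  refine h3.congr_fun ?_
  intro n
  rw [mul_add, Finset.mul_sum]
  congr 1
  · refine Finset.sum_congr rfl fun i _ => ?_
    rw [pow_add]
    ring
  · push_cast
    ring

/-- iterates of `QW` applied to a semigroup function:
`Q^j (PW t f) = ∑ e^{-Rt} (Rt)^n/n! Q^(j+n) f` (by induction on `j`, `HasSum` under a finite linear
combination) -/
theorem QWn_PW_hasSum (c : Rts) (W : Finset ℤ) {R : ℝ} (hR : 0 < R) (t : ℝ) {f : Cfg → ℝ}
    (hf : Bdd f) (j : ℕ) (x : Cfg) :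
    HasSum (fun n : ℕ => Real.exp (-(R * t)) * (R * t) ^ n / (n.factorial : ℝ)
      * (QW c W R)^[j + n] f x) ((QW c W R)^[j] (PW c W t f) x) := by
  induction j generalizing x with
  | zero =>
    simp only [Nat.zero_add, Function.iterate_zero, id_eq]
    exact PW_hasSum c W hR t hf x
  | succ j ih =>
    rw [Function.iterate_succ_apply']
    have h1 := hasSum_sum (s := W) (fun k _ =>
      (((ih (flip x k)).sub (ih x)).mul_left (rt c x k)))
    have h2 := (ih x).add (h1.mul_left R⁻¹)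
    unfold QW
    refine h2.congr_fun ?_
    intro n
    rw [show j + 1 + n = (j + n) + 1 by ring, Function.iterate_succ_apply']
    unfold QW
    rw [mul_add, Finset.mul_sum, Finset.mul_sum, Finset.mul_sum]
    congr 1
    refine Finset.sum_congr rfl fun k _ => ?_
    ring

theorem QWn_PW_le_of {c : Rts} {W : Finset ℤ} {R : ℝ} (hR : 0 < R) {t : ℝ} (ht : 0 ≤ t)
    {f : Cfg → ℝ} (hf : Bdd f) (x : Cfg) {ι : Type*} (s : Finset ι) (K r : ι → ℝ) (a : ℝ)
    (h : ∀ n : ℕ, (QW c W R)^[n] f x ≤ ∑ i ∈ s, K i * r i ^ n + a * n) (j : ℕ) :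
    (QW c W R)^[j] (PW c W t f) x
      ≤ ∑ i ∈ s, K i * r i ^ j * Real.exp (R * t * (r i - 1)) + a * (j + R * t) := by
  refine hasSum_le ?_ (QWn_PW_hasSum c W hR t hf j x) (pois_bound (y := R * t) s K r a j)
  intro n
  exact mul_le_mul_of_nonneg_left (h (j + n)) (poisW_nonneg (mul_nonneg hR.le ht) n)

theorem PW_le_of {c : Rts} {W : Finset ℤ} {R : ℝ} (hR : 0 < R) {t : ℝ} (ht : 0 ≤ t) {f : Cfg → ℝ}
    (hf : Bdd f) (x : Cfg) {ι : Type*} (s : Finset ι) (K r : ι → ℝ) (a : ℝ)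
    (h : ∀ n : ℕ, (QW c W R)^[n] f x ≤ ∑ i ∈ s, K i * r i ^ n + a * n) :
    PW c W t f x ≤ ∑ i ∈ s, K i * Real.exp (R * t * (r i - 1)) + a * (R * t) := by
  have h1 := QWn_PW_le_of hR ht hf x s K r a h 0
  simpa using h1

theorem PW_diff_le_of {c : Rts} {W : Finset ℤ} {R : ℝ} (hR : 0 < R) {t : ℝ} (ht : 0 ≤ t)
    {f : Cfg → ℝ} (hf : Bdd f) (x y : Cfg) {ι : Type*} (s : Finset ι) (K r : ι → ℝ)
    (h : ∀ n : ℕ, |(QW c W R)^[n] f x - (QW c W R)^[n] f y| ≤ ∑ i ∈ s, K i * r i ^ n) :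
    |PW c W t f x - PW c W t f y| ≤ ∑ i ∈ s, K i * Real.exp (R * t * (r i - 1)) := by
  have hb := pois_bound (y := R * t) s K r 0 0
  simp only [Nat.zero_add, zero_mul, add_zero, pow_zero, mul_one] at hb
  have hx := PW_hasSum c W hR t hf x
  have hy := PW_hasSum c W hR t hf y
  rw [abs_le]
  constructor
  · have h1 : PW c W t f y - PW c W t f x ≤ ∑ i ∈ s, K i * Real.exp (R * t * (r i - 1)) := by
      refine hasSum_le ?_ (hy.sub hx) hb
      intro n
      have h2 := mul_le_mul_of_nonneg_left ((neg_abs_le _).trans_eq' rfl |>.trans le_rfl)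
        (poisW_nonneg (mul_nonneg hR.le ht) n) (b := -|(QW c W R)^[n] f x - (QW c W R)^[n] f y|)
        (c := (QW c W R)^[n] f x - (QW c W R)^[n] f y)
      have h3 := mul_le_mul_of_nonneg_left (h n) (poisW_nonneg (mul_nonneg hR.le ht) n)
      unfold poisW at h2 h3 ⊢
      linarith
    linarith
  · refine hasSum_le ?_ (hx.sub hy) hb
    intro n
    have h2 := mul_le_mul_of_nonneg_left (le_abs_self ((QW c W R)^[n] f x - (QW c W R)^[n] f y))
      (poisW_nonneg (mul_nonneg hR.le ht) n)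
    have h3 := mul_le_mul_of_nonneg_left (h n) (poisW_nonneg (mul_nonneg hR.le ht) n)
    unfold poisW at h2 h3 ⊢
    linarith

end H72NE
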