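import Pool.Agent.H72.NE.PLin
import Pool.Agent.H72.NE.Pois

/-! # COM: with one frozen site the dynamics splits -/

namespace H72NE

open H72IPS Finset

theorem com_flip_of_ne {x : Cfg} {i k : ℤ} (h : k ≠ i) : flip x i k = x k := by
  unfold H72IPS.flip
  rw [Function.update_of_ne h]

theorem com_flip_self (x : Cfg) (i : ℤ) : flip x i i = !(x i) := by
  unfold H72IPS.flip
  rw [Function.update_self]

theorem com_flip_comm (x : Cfg) {i j : ℤ} (h : i ≠ j) :
    flip (flip x i) j = flip (flip x j) i := by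
  funext k
  by_cases hj : k = j
  · subst hj
    rw [com_flip_self, com_flip_of_ne h.symm, com_flip_of_ne h.symm, com_flip_self]
  · by_cases hi : k = i
    · subst hi
      rw [com_flip_of_ne hj, com_flip_self, com_flip_self, com_flip_of_ne h]
    · rw [com_flip_of_ne hj, com_flip_of_ne hi, com_flip_of_ne hi, com_flip_of_ne hj]

theorem com_rt_flip (c : Rts) (x : Cfg) {i k : ℤ} (h1 : k ≠ i) (h2 : k + 1 ≠ i) :
    rt c (flip x i) k = rt c x k := by
  unfold rt
  rw [com_flip_of_ne h1, com_flip_of_ne h2]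

theorem com_Lc_comm (c : Rts) {j k0 i : ℤ} (hj : j < k0) (hi : k0 < i) :
    Commute (Lc c j) (Lc c i) := by
  refine ContinuousLinearMap.ext fun f => BF.ext fun x => ?_
  rw [mul_apply_eq_comp, mul_apply_eq_comp, Lc_apply, Lc_apply, Lc_apply,
    Lc_apply, Lc_apply, Lc_apply, com_rt_flip c x (by omega : i ≠ j) (by omega : i + 1 ≠ j),
    com_rt_flip c x (by omega : j ≠ i) (by omega : j + 1 ≠ i),
    com_flip_comm x (by omega : j ≠ i)]
  ring

theorem com_erase {A k0 N : ℤ} (hA : A ≤ k0) (hN : k0 < N) :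
    (Ico A N).erase k0 = Ico A k0 ∪ Ico (k0 + 1) N := by
  ext i
  simp only [Finset.mem_erase, Finset.mem_Ico, Finset.mem_union]
  omega

theorem com_SW (c : Rts) {A k0 N : ℤ} (hA : A ≤ k0) (hN : k0 < N) (t : ℝ) :
    SW c ((Ico A N).erase k0) t = SW c (Ico A k0) t * SW c (Ico (k0 + 1) N) t := by
  have h1 : AW c ((Ico A N).erase k0) = AW c (Ico A k0) + AW c (Ico (k0 + 1) N) := by
    unfold AW
    rw [com_erase hA hN, Finset.sum_union]
    rw [Finset.disjoint_left]
    intro i hi hi'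
    rw [Finset.mem_Ico] at hi hi'
    omega
  have h2 : Commute (AW c (Ico A k0)) (AW c (Ico (k0 + 1) N)) := by
    unfold AW
    refine Commute.sum_left _ _ _ fun j hj => Commute.sum_right _ _ _ fun i hi => ?_
    rw [Finset.mem_Ico] at hi hj
    exact com_Lc_comm c (k0 := k0) hj.2 (by omega)
  have h3 : Commute (t • AW c (Ico A k0)) (t • AW c (Ico (k0 + 1) N)) :=
    (h2.smul_left t).smul_right t
  unfold SW
  rw [h1, smul_add]
  let +nondep : NormedAlgebra ℚ (BF →L[ℝ] BF) := .restrictScalars ℚ ℝ (BF →L[ℝ] BF)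
  exact NormedSpace.exp_add_of_commute h3

/-- for `j < k0 < i` the one site generators of `j` and `i` commute: the rate of `j` depends on
`j, j+1 ≤ k0` and the rate of `i` on `i, i+1 > k0`, and the flips commute.  Hence `AW` of
`Ico A k0` and of `Ico (k0+1) N` commute; `(Ico A N).erase k0` is their disjoint union and
`NormedSpace.exp_add_of_commute` applies. -/
theorem PW_frozen_eq (c : Rts) {A k0 N : ℤ} (hA : A ≤ k0) (hN : k0 < N) (t : ℝ) {f : Cfg → ℝ}
    (hf : Bdd f) :
    PW c ((Ico A N).erase k0) t f = PW c (Ico A k0) t (PW c (Ico (k0 + 1) N) t f) := by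
  obtain ⟨C, hC⟩ := hf
  funext x
  have h2 : PW c (Ico (k0 + 1) N) t f = fun y => SW c (Ico (k0 + 1) N) t (BF.mk f C hC) y :=
    funext fun y => PW_eq c _ t hC y
  have hb : ∀ y, |PW c (Ico (k0 + 1) N) t f y| ≤ ‖SW c (Ico (k0 + 1) N) t (BF.mk f C hC)‖ := by
    intro y
    rw [h2]
    exact BF.abs_le_norm _ y
  rw [PW_eq c _ t hC x, PW_eq c _ t hb x, com_SW c hA hN, mul_apply_eq_comp]
  congr 2
  refine BF.ext fun y => ?_
  rw [BF.mk_apply, h2]

/-- two configurations which agree on the sites `≤ k0`, with `k0` frozen: it is enough to compare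
the right parts.  Let `G = PW c (Ico (k0+1) N) t f`.  By induction on `n`,
`|Q^n G y - Q^n G y'| ≤ E` for `Q = QW c (Ico A k0) R`, `R = card + 1`, and all `y, y'` which agree on
the sites `≤ k0` and are equal to `x` resp. `x'` on the sites `> k0` (the rates of the sites in
`Ico A k0` are the same for `y` and `y'`, and flips of these sites keep the condition); then
`PW_diff_le_of` with one term `K = E`, `r = 1`, and `PW_frozen_eq`. -/
theorem PW_frozen {c : Rts} (hc : Rok c) {A k0 N : ℤ} (hA : A ≤ k0) (hN : k0 < N) {t E : ℝ}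
    (ht : 0 ≤ t) {f : Cfg → ℝ} (hf : Bdd f) {x x' : Cfg} (hx : ∀ i, i ≤ k0 → x i = x' i)
    (h : ∀ y y' : Cfg, (∀ i, i ≤ k0 → y i = y' i) → (∀ i, k0 < i → y i = x i) →
      (∀ i, k0 < i → y' i = x' i) →
      |PW c (Ico (k0 + 1) N) t f y - PW c (Ico (k0 + 1) N) t f y'| ≤ E) :
    |PW c ((Ico A N).erase k0) t f x - PW c ((Ico A N).erase k0) t f x'| ≤ E := by
  rw [PW_frozen_eq c hA hN t hf]
  set G := PW c (Ico (k0 + 1) N) t f with hG
  set W := Ico A k0 with hW
  have hR : (0 : ℝ) < (W.card : ℝ) + 1 := by positivity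
  have hkey : ∀ n : ℕ, ∀ y y' : Cfg, (∀ i, i ≤ k0 → y i = y' i) → (∀ i, k0 < i → y i = x i) →
      (∀ i, k0 < i → y' i = x' i) →
      |(QW c W ((W.card : ℝ) + 1))^[n] G y - (QW c W ((W.card : ℝ) + 1))^[n] G y'| ≤ E := by
    intro n
    induction n with
    | zero =>
      intro y y' h1 h2 h3
      exact h y y' h1 h2 h3
    | succ n ih =>
      intro y y' h1 h2 h3
      rw [Function.iterate_succ_apply']
      set g := (QW c W ((W.card : ℝ) + 1))^[n] G with hg
      rw [QW_eq, QW_eq]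
      have hrt : ∀ k ∈ W, rt c y' k = rt c y k := by
        intro k hk
        rw [hW, Finset.mem_Ico] at hk
        unfold rt
        rw [h1 k (by omega), h1 (k + 1) (by omega)]
      have hs : ∑ k ∈ W, rt c y' k = ∑ k ∈ W, rt c y k := Finset.sum_congr rfl hrt
      have hs2 : ∑ k ∈ W, rt c y' k * g (flip y' k) = ∑ k ∈ W, rt c y k * g (flip y' k) :=
        Finset.sum_congr rfl fun k hk => by rw [hrt k hk]
      rw [hs, hs2]
      have hS0 : 0 ≤ ∑ k ∈ W, rt c y k := Finset.sum_nonneg fun k _ => (rt_mem hc y k).1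
      have hS1 : ∑ k ∈ W, rt c y k ≤ W.card := by
        refine (Finset.sum_le_card_nsmul W _ 1 fun k _ => (rt_mem hc y k).2).trans ?_
        simp
      have hq : 0 ≤ 1 - ((W.card : ℝ) + 1)⁻¹ * ∑ k ∈ W, rt c y k := by
        rw [sub_nonneg, inv_mul_le_iff₀ hR]
        linarith
      have h4 : |g y - g y'| ≤ E := ih y y' h1 h2 h3
      have h5 : ∀ k ∈ W, |rt c y k * g (flip y k) - rt c y k * g (flip y' k)| ≤ rt c y k * E := by
        intro k hk
        rw [hW, Finset.mem_Ico] at hk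
        rw [← mul_sub, abs_mul, abs_of_nonneg (rt_mem hc y k).1]
        refine mul_le_mul_of_nonneg_left ?_ (rt_mem hc y k).1
        apply ih
        · intro i hi
          by_cases hik : i = k
          · subst hik
            rw [com_flip_self, com_flip_self, h1 i hi]
          · rw [com_flip_of_ne hik, com_flip_of_ne hik, h1 i hi]
        · intro i hi
          rw [com_flip_of_ne (by omega), h2 i hi]
        · intro i hi
          rw [com_flip_of_ne (by omega), h3 i hi]
      have h6 : |∑ k ∈ W, rt c y k * g (flip y k) - ∑ k ∈ W, rt c y k * g (flip y' k)| ≤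
          (∑ k ∈ W, rt c y k) * E := by
        rw [← Finset.sum_sub_distrib, Finset.sum_mul]
        exact (Finset.abs_sum_le_sum_abs _ _).trans (Finset.sum_le_sum h5)
      have h7 : (1 - ((W.card : ℝ) + 1)⁻¹ * ∑ k ∈ W, rt c y k) * g y +
            ((W.card : ℝ) + 1)⁻¹ * ∑ k ∈ W, rt c y k * g (flip y k) -
          ((1 - ((W.card : ℝ) + 1)⁻¹ * ∑ k ∈ W, rt c y k) * g y' +
            ((W.card : ℝ) + 1)⁻¹ * ∑ k ∈ W, rt c y k * g (flip y' k)) =
          (1 - ((W.card : ℝ) + 1)⁻¹ * ∑ k ∈ W, rt c y k) * (g y - g y') +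
            ((W.card : ℝ) + 1)⁻¹ * (∑ k ∈ W, rt c y k * g (flip y k) -
              ∑ k ∈ W, rt c y k * g (flip y' k)) := by ring
      rw [h7]
      refine (abs_add_le _ _).trans ?_
      rw [abs_mul, abs_mul, abs_of_nonneg hq, abs_of_nonneg (inv_nonneg.mpr hR.le)]
      calc (1 - ((W.card : ℝ) + 1)⁻¹ * ∑ k ∈ W, rt c y k) * |g y - g y'| +
            ((W.card : ℝ) + 1)⁻¹ * |∑ k ∈ W, rt c y k * g (flip y k) -
              ∑ k ∈ W, rt c y k * g (flip y' k)|
          ≤ (1 - ((W.card : ℝ) + 1)⁻¹ * ∑ k ∈ W, rt c y k) * E +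
            ((W.card : ℝ) + 1)⁻¹ * ((∑ k ∈ W, rt c y k) * E) :=
            add_le_add (mul_le_mul_of_nonneg_left h4 hq)
              (mul_le_mul_of_nonneg_left h6 (inv_nonneg.mpr hR.le))
        _ = E := by ring
  have h8 := PW_diff_le_of (c := c) (W := W) hR ht (PW_bdd c _ t f) x x'
    (Finset.univ : Finset Unit) (fun _ => E) (fun _ => 1) (fun n => by
      simpa using hkey n x x' hx (fun _ _ => rfl) (fun _ _ => rfl))
  simpa using h8

end H72NE
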