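import Pool.Agent.H72.NE.Defs

/-! # Near the East line: constants and auxiliary definitions -/

namespace H72NE

open H72IPS Finset

/-- constants of the East part of the dynamics -/
structure EPar (w γ P r g : ℝ) : Prop where
  w_pos : 0 < w
  w_le : w ≤ 1 / 2
  one_le_γ : 1 ≤ γ
  gap : GapC w γ
  le_P : w ≤ P
  P_le : P ≤ 1 - w
  r_pos : 0 < r
  r_le : r ≤ 2
  g_pos : 0 < g
  g_le : g ≤ r / (4 * γ)

/-- Poincare inequality with constant `Γ` on all intervals of length at most `n` -/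
def PI (P Γ : ℝ) (n : ℕ) : Prop :=
  ∀ b ξ : ℤ, ξ - b ≤ n → ∀ (F : Cfg → ℝ) (x : Cfg), x ξ = true →
    Va P (Ico b ξ) F x ≤ Γ * ∑ k ∈ Ico b ξ, Av P (Ico b ξ) (En P F k) x

open Classical in
/-- indicator that there is a `1` in `I` -/
noncomputable def hasOne (I : Finset ℤ) : Cfg → ℝ := fun x => if ∃ k ∈ I, x k = true then 1 else 0

open Classical in
/-- indicator that there is no `1` in `[u, v)` -/
noncomputable def noOne (u v : ℤ) : Cfg → ℝ :=
  fun x => if ∀ i, u ≤ i → i < v → x i = false then 1 else 0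

/-- one step of the East process with active sites `[b, ξ)`, at double speed -/
noncomputable def EBo (P r R : ℝ) (b ξ : ℤ) (F : Cfg → ℝ) (z : Cfg) : ℝ :=
  F z + (2 / R) * ∑ k ∈ Ico b ξ, if z (k + 1) = true then r * (Av P {k} F z - F z) else 0

/-- the left part of one step of the chain, at double speed -/
noncomputable def LN (c : Rts) (R : ℝ) (b ξ : ℤ) (G : Cfg → ℝ) (z : Cfg) : ℝ :=
  G z + (2 / R) * ∑ k ∈ Ico b ξ, rt c z k * (G (flip z k) - G z)

/-- the right part of one step of the chain, at double speed: sites to the right of `ξ`, and the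
transition at the distinguished particle `ξ` (resampling to `H` if the right neighbour is `1`, and
killing otherwise) -/
noncomputable def RT (c : Rts) (r R : ℝ) (ξ N : ℤ) (G H : Cfg → ℝ) (z : Cfg) : ℝ :=
  G z + (2 / R) * ((∑ k ∈ Ico (ξ + 1) N, rt c z k * (G (flip z k) - G z))
    + (if z (ξ + 1) = true then r * (H z - G z) else -(c ξ true false * G z)))

/-- alive evolution of `f` with a distinguished particle at `ξ` -/
noncomputable def AE (c : Rts) (P r R : ℝ) (b e N : ℤ) (f : Cfg → ℝ) : ℕ → ℤ → Cfg → ℝ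
  | 0, _ => f
  | n + 1, ξ => fun z =>
      (1 / 2) * LN c R b ξ (AE c P r R b e N f n ξ) z
      + (1 / 2) * RT c r R ξ N (AE c P r R b e N f n ξ)
          (if ξ < e then Av P {ξ} (AE c P r R b e N f n (ξ + 1)) else fun _ => 0) z

/-- remove the noise on `[l, e]` -/
def cut (c : Rts) (l e : ℤ) : Rts := fun k s y => if l ≤ k ∧ k ≤ e ∧ y = false then 0 else c k s y

/-- mixing error of the short stage -/
noncomputable def eMix (w g s : ℝ) (m lam' M : ℕ) : ℝ :=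
  2 * ((m : ℝ) + lam' + 1) * w⁻¹ ^ lam' * (Real.exp (-(g * s)) + (1 / 2) ^ M * Real.exp (2 * s))

/-- health and propagation error of the short stage -/
noncomputable def e1 (Len s : ℝ) (lam m : ℕ) : ℝ :=
  2 * Len * (1 / 2) ^ (lam + 1) * Real.exp s + 6 * (m : ℝ) * tl s m

/-- errors of the long stage -/
noncomputable def e2 (w g Len t : ℝ) (lam m' M : ℕ) : ℝ :=
  2 * Len * ((1 - w) ^ lam + w⁻¹ ^ (3 * lam) * Real.exp (-(g * t)) + (1 / 2) ^ M * Real.exp (2 * t))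
    + 6 * t * tl t m'
    + 6 * Len * w⁻¹ ^ (2 * lam) * (Real.exp (-(g * t)) + (1 / 2) ^ M * Real.exp (2 * t))

/-- probability that the fine health condition fails -/
noncomputable def tau (w g t : ℝ) (lam lam' m M : ℕ) : ℝ :=
  ((m : ℝ) + 2 * lam') * ((1 - w) ^ lam' + w⁻¹ ^ (lam' + 2 * lam) * Real.exp (-(g * t))
    + (1 / 2) ^ M * Real.exp (2 * t))

/-- total relative error of phase 2 -/
noncomputable def eP2 (w g Len s t : ℝ) (lam lam' m' M q : ℕ) : ℝ :=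
  (1 - 3 / 4 * Real.exp (-s)) ^ q + 8 / 3 * eMix w g s (2 * m') lam' M
    + 4 / (3 * Real.exp (-s)) * (2 * e1 Len s lam (2 * m') + e2 w g Len t lam m' M)

/-- error of the nucleation on one block -/
noncomputable def eP1 (w g a0 ν β u u' : ℝ) (mu l1 M1 : ℕ) : ℝ :=
  Real.exp (-(a0 * l1 * u')) + 2 * (l1 : ℝ) * (1 - w) ^ mu + 2 * ν * (3 * (l1 : ℝ) + M1) / (w * g)
    + w⁻¹ ^ (3 * l1) * Real.exp (-(g * u)) + β * (u + u') + (1 / 2) ^ M1 * Real.exp (2 * (u + u'))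

/-- numerical hypotheses -/
structure NH (w g a0 ν β s t : ℝ) (L lam lam' m' M M1 l1 nb q : ℕ) : Prop where
  L_pos : 1 ≤ L
  lam_pos : 1 ≤ lam
  lam'_pos : 1 ≤ lam'
  lam'_le : lam' ≤ 2 * lam
  m'_pos : 1 ≤ m'
  l1_pos : 1 ≤ l1
  q_pos : 1 ≤ q
  s_nn : 0 ≤ s
  s_ge : Real.exp (-s) ≤ 1 / 2
  t_nn : 0 ≤ t
  n1 : 4 * m' * q + 8 * m' + 4 * lam * (q + 1) + M + 2 * lam + m' + 2 ≤ L
  ntau : tau w g t lam lam' (2 * m') M ≤ 1 / 8
  n2 : 11 * (L : ℝ) * tl (q * (t + s)) L ≤ 1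
  n3 : 55 * (q * (t + s)) * (L : ℝ) * ν ≤ 1 / 64
  n4 : 25 * eP2 w g (11 * (L : ℝ)) s t lam lam' m' M q ≤ 1 / 32
  n5 : (nb : ℝ) * eP1 w g a0 ν β ((L : ℝ) / 2) ((L : ℝ) / 2) (2 * lam) l1 M1 ≤ 1 / 400
  n6 : 75 * (L : ℝ) * tl L (8 * L) ≤ 1 / 8
  cov1 : 11 * L ≤ nb * l1
  cov2 : 2 * lam ≤ l1
  cov3 : (nb + 2) * l1 + M1 ≤ 30 * L
  small : 2 / w * ν * (3 * (l1 : ℝ) + M1) ≤ g

end H72NE
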