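import Pool.Agent.H72.NE.Obb

/-! # MID: a centre which does not depend on `J`

For `y` let `[y]` be the set of configurations which agree with `y` off `J`, and let `c y` be the
supremum of the set `L y` of all numbers `g z - B` (`z ∈ [y]`), `g z - (1+α)κ/2` (`z ∈ [y] ∩ H`),
`g z - (1-α)κ/2` (`z ∈ [y] ∩ H'`).  It depends on `[y]` only, `L y` is nonempty, and every element of
`L y` is at most every number `g z' + B` (`z' ∈ [y]`), `g z' + (1+α)κ/2` (`z' ∈ [y] ∩ H`),
`g z' + (1-α)κ/2` (`z' ∈ [y] ∩ H'`), by the three hypotheses on differences of `g`. -/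

namespace H72NE

open H72IPS Finset

/-- the lower bounds -/
def MidL (J : Set ℤ) (H H' : Set Cfg) (g : Cfg → ℝ) (α κ B : ℝ) (y : Cfg) : Set ℝ :=
  {v | ∃ z : Cfg, (∀ i, i ∉ J → z i = y i) ∧
    (v = g z - B ∨ (z ∈ H ∧ v = g z - (1 + α) * κ / 2) ∨ (z ∈ H' ∧ v = g z - (1 - α) * κ / 2))}

theorem MID {J : Set ℤ} {H H' : Set Cfg} (hHH : H' ⊆ H) {g : Cfg → ℝ} {α κ B : ℝ} (hα0 : 0 ≤ α)
    (hα1 : α ≤ 1) (hκ : 0 ≤ κ) (hB : OB J B g)
    (h1 : ∀ y y' : Cfg, y ∈ H → y' ∈ H → (∀ i, i ∉ J → y i = y' i) → |g y - g y'| ≤ κ)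
    (h2 : ∀ y y' : Cfg, y ∈ H' → y' ∈ H' → (∀ i, i ∉ J → y i = y' i) →
      |g y - g y'| ≤ (1 - α) * κ) :
    ∃ c : Cfg → ℝ, Ind J c ∧ (∀ y ∈ H', |g y - c y| ≤ (1 - α) * κ / 2) ∧
      (∀ y ∈ H, |g y - c y| ≤ (1 + α) * κ / 2) ∧ (∀ y, |g y - c y| ≤ B) := by
  have hB0 : 0 ≤ B := OB_nonneg hB
  have hακ : 0 ≤ α * κ := mul_nonneg hα0 hκ
  have hακ1 : 0 ≤ (1 - α) * κ := mul_nonneg (by linarith) hκ
  have key : ∀ (y z' : Cfg), (∀ i, i ∉ J → z' i = y i) → ∀ v ∈ MidL J H H' g α κ B y,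
      v ≤ g z' + B ∧ (z' ∈ H → v ≤ g z' + (1 + α) * κ / 2) ∧
        (z' ∈ H' → v ≤ g z' + (1 - α) * κ / 2) := by
    rintro y z' hz' v ⟨z, hz, hv⟩
    have hzz : ∀ i, i ∉ J → z i = z' i := fun i hi => (hz i hi).trans (hz' i hi).symm
    have hBz := abs_le.mp (hB z z' hzz)
    rcases hv with hv | ⟨hzH, hv⟩ | ⟨hzH, hv⟩
    · refine ⟨by linarith, fun _ => by nlinarith, fun _ => by nlinarith⟩
    · refine ⟨by nlinarith, fun hH => ?_, fun hH => ?_⟩
      · have h3 := (abs_le.mp (h1 z z' hzH hH hzz)).2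
        nlinarith
      · have h3 := (abs_le.mp (h1 z z' hzH (hHH hH) hzz)).2
        nlinarith
    · refine ⟨by nlinarith, fun hH => ?_, fun hH => ?_⟩
      · have h3 := (abs_le.mp (h1 z z' (hHH hzH) hH hzz)).2
        nlinarith
      · have h3 := (abs_le.mp (h2 z z' hzH hH hzz)).2
        nlinarith
  have hne : ∀ y, (MidL J H H' g α κ B y).Nonempty :=
    fun y => ⟨g y - B, y, fun _ _ => rfl, Or.inl rfl⟩
  have hbdd : ∀ y, BddAbove (MidL J H H' g α κ B y) :=
    fun y => ⟨g y + B, fun v hv => (key y y (fun _ _ => rfl) v hv).1⟩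
  refine ⟨fun y => sSup (MidL J H H' g α κ B y), ?_, ?_, ?_, ?_⟩
  · intro x y hxy
    have h3 : MidL J H H' g α κ B x = MidL J H H' g α κ B y := by
      ext v
      constructor
      · rintro ⟨z, hz, hv⟩
        exact ⟨z, fun i hi => (hz i hi).trans (hxy i hi), hv⟩
      · rintro ⟨z, hz, hv⟩
        exact ⟨z, fun i hi => (hz i hi).trans (hxy i hi).symm, hv⟩
    simp only [h3]
  · intro y hy
    rw [abs_le]
    constructor
    · have h3 := csSup_le (hne y) fun v hv => (key y y (fun _ _ => rfl) v hv).2.2 hy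
      simp only
      linarith
    · have h3 := le_csSup (hbdd y)
        (show g y - (1 - α) * κ / 2 ∈ MidL J H H' g α κ B y from
          ⟨y, fun _ _ => rfl, Or.inr (Or.inr ⟨hy, rfl⟩)⟩)
      simp only
      linarith
  · intro y hy
    rw [abs_le]
    constructor
    · have h3 := csSup_le (hne y) fun v hv => (key y y (fun _ _ => rfl) v hv).2.1 hy
      simp only
      linarith
    · have h3 := le_csSup (hbdd y)
        (show g y - (1 + α) * κ / 2 ∈ MidL J H H' g α κ B y from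
          ⟨y, fun _ _ => rfl, Or.inr (Or.inl ⟨hy, rfl⟩)⟩)
      simp only
      linarith
  · intro y
    rw [abs_le]
    constructor
    · have h3 := csSup_le (hne y) fun v hv => (key y y (fun _ _ => rfl) v hv).1
      simp only
      linarith
    · have h3 := le_csSup (hbdd y)
        (show g y - B ∈ MidL J H H' g α κ B y from ⟨y, fun _ _ => rfl, Or.inl rfl⟩)
      simp only
      linarith

end H72NE
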