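import Pool.Agent.H72.NE.Cst

/-! # OBB: elementary facts on oscillation bounds (all easy; telescoping along sites or intervals) -/

namespace H72NE

open H72IPS Finset

theorem OB_nonneg {S : Set ℤ} {B : ℝ} {f : Cfg → ℝ} (h : OB S B f) : 0 ≤ B :=
  (abs_nonneg _).trans (h (fun _ => false) (fun _ => false) (fun _ _ => rfl))

theorem OB_mono {S T : Set ℤ} {B C : ℝ} {f : Cfg → ℝ} (h : OB T B f) (hS : S ⊆ T) (hB : B ≤ C) :
    OB S C f :=
  fun x y hxy => (h x y (fun i hi => hxy i (fun hi' => hi (hS hi')))).trans hB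

theorem OB_union {S T : Set ℤ} {B C : ℝ} {f : Cfg → ℝ} (h1 : OB S B f) (h2 : OB T C f) :
    OB (S ∪ T) (B + C) f := by
  classical
  intro x y hxy
  have a1 := h1 x (fun i => if i ∈ S then y i else x i) (fun i hi => by simp [hi])
  have a2 := h2 (fun i => if i ∈ S then y i else x i) y (fun i hi => by
    by_cases hs : i ∈ S
    · simp [hs]
    · simp only [hs, if_false]
      exact hxy i (by simp [hs, hi]))
  have := abs_sub_le (f x) (f (fun i => if i ∈ S then y i else x i)) (f y)
  linarith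

theorem Ind_iff {S : Set ℤ} {f : Cfg → ℝ} : Ind S f ↔ OB S 0 f := by
  constructor
  · intro h x y hxy
    rw [h x y hxy, sub_self, abs_zero]
  · intro h x y hxy
    have := h x y hxy
    have h0 : |f x - f y| = 0 := le_antisymm this (abs_nonneg _)
    linarith [abs_eq_zero.1 h0]

theorem Ind_mono {S T : Set ℤ} {f : Cfg → ℝ} (h : Ind T f) (hS : S ⊆ T) : Ind S f :=
  fun x y hxy => h x y (fun i hi => hxy i (fun hi' => hi (hS hi')))

theorem OB_of_bdd {S : Set ℤ} {C : ℝ} {f : Cfg → ℝ} (h : ∀ x, |f x| ≤ C) : OB S (2 * C) f := by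
  intro x y _
  have h1 := h x
  have h2 := h y
  have := abs_sub (f x) (f y)
  linarith

/-- if `|f - c| ≤ B` everywhere then `c` inherits oscillation bounds -/
theorem OB_of_near {S : Set ℤ} {B C : ℝ} {f c : Cfg → ℝ} (h : OB S C f) (hc : ∀ x, |f x - c x| ≤ B) :
    OB S (C + 2 * B) c := by
  intro x y hxy
  have h1 := hc x
  have h2 := hc y
  have h3 := h x y hxy
  rw [abs_le] at *
  constructor <;> linarith

/-- sum over the sites of an interval -/
theorem OB_Ico_single {u v : ℤ} (huv : u ≤ v) {B : ℝ} {f : Cfg → ℝ}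
    (h : ∀ k, u ≤ k → k < v → OB {k} B f) : OB (Set.Ico u v) (((v - u : ℤ) : ℝ) * B) f := by
  induction v, huv using Int.le_induction with
  | base =>
    intro x y hxy
    have : x = y := funext fun i => hxy i (by simp)
    subst this
    simp
  | succ n hn ih =>
    have h1 := ih (fun k hk hk' => h k hk (by omega))
    have h2 := h n hn (by omega)
    refine OB_mono (OB_union h1 h2) ?_ ?_
    · intro i hi
      simp only [Set.mem_Ico, Set.mem_union, Set.mem_singleton_iff] at hi ⊢
      omega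
    · push_cast
      linarith

/-- a function which satisfies `OS l K D` on longer intervals: cover by `a` intervals of length
`≤ l` -/
theorem OB_Ico_OS {l : ℕ} {K : ℤ} {D : ℝ} {f : Cfg → ℝ} (h : OS l K D f) (a : ℕ) {u v : ℤ}
    (hv : v ≤ K) (hle : v - u ≤ a * l) : OB (Set.Ico u v) (a * D) f := by
  induction a generalizing v with
  | zero =>
    intro x y hxy
    have : x = y := funext fun i => hxy i (by
      simp only [Set.mem_Ico, not_and, not_lt]
      intro hi
      push_cast at hle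
      simp only [zero_mul] at hle
      omega)
    subst this
    simp
  | succ a ih =>
    have h1 := ih (v := v - l) (by omega) (by push_cast at hle; linarith)
    have h2 := h (v - l) v hv (by omega)
    refine OB_mono (OB_union h1 h2) ?_ ?_
    · intro i hi
      simp only [Set.mem_Ico, Set.mem_union] at hi ⊢
      omega
    · push_cast
      linarith

theorem OB_single_OS {l : ℕ} (hl : 1 ≤ l) {K : ℤ} {D : ℝ} {f : Cfg → ℝ} (h : OS l K D f) {k : ℤ}
    (hk : k < K) : OB {k} D f := by
  refine OB_mono (h k (k + 1) (by omega) (by omega)) ?_ le_rfl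
  intro i hi
  simp only [Set.mem_singleton_iff] at hi
  subst hi
  simp

theorem OS_mono {l : ℕ} {K K' : ℤ} {D D' : ℝ} {f : Cfg → ℝ} (h : OS l K D f) (hK : K' ≤ K)
    (hD : D ≤ D') : OS l K' D' f :=
  fun u v hv hl => OB_mono (h u v (hv.trans hK) hl) (le_refl _) hD

theorem Bdd_of_near {f c : Cfg → ℝ} (hf : Bdd f) {B : ℝ} (hc : ∀ x, |f x - c x| ≤ B) : Bdd c := by
  obtain ⟨C, hC⟩ := hf
  refine ⟨C + B, fun x => ?_⟩
  have h1 := hC x
  have h2 := hc x
  rw [abs_le] at *
  constructor <;> linarith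

theorem bad_nonneg (lam : ℕ) (l r : ℤ) (x : Cfg) : 0 ≤ bad lam l r x := by
  unfold bad
  split_ifs <;> norm_num

theorem bad_le_one (lam : ℕ) (l r : ℤ) (x : Cfg) : bad lam l r x ≤ 1 := by
  unfold bad
  split_ifs <;> norm_num

theorem bad_bdd (lam : ℕ) (l r : ℤ) : Bdd (bad lam l r) :=
  ⟨1, fun x => by
    rw [abs_of_nonneg (bad_nonneg lam l r x)]
    exact bad_le_one lam l r x⟩

theorem noOne_nonneg (u v : ℤ) (x : Cfg) : 0 ≤ noOne u v x := by
  unfold noOne
  split_ifs <;> norm_num

theorem noOne_le_one (u v : ℤ) (x : Cfg) : noOne u v x ≤ 1 := by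
  unfold noOne
  split_ifs <;> norm_num

theorem noOne_bdd (u v : ℤ) : Bdd (noOne u v) :=
  ⟨1, fun x => by
    rw [abs_of_nonneg (noOne_nonneg u v x)]
    exact noOne_le_one u v x⟩

theorem tl_nonneg (t : ℝ) (m : ℕ) : 0 ≤ tl t m := by
  unfold tl
  positivity

theorem tl_mono {s t : ℝ} (h : s ≤ t) (m : ℕ) : tl s m ≤ tl t m := by
  unfold tl
  refine mul_le_mul_of_nonneg_right ?_ (by positivity)
  exact Real.exp_le_exp.2 (by linarith)

/-- a failing window (the windows `[v, v + lam)` with `l ≤ v`, `v + lam ≤ r`) -/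
theorem bad_le_sum (lam : ℕ) (l r : ℤ) (x : Cfg) :
    bad lam l r x ≤ ∑ v ∈ Finset.Icc l (r - lam), noOne v (v + lam) x := by
  by_cases hx : x ∈ Sp lam l r
  · have : bad lam l r x = 0 := by unfold bad; simp [hx]
    rw [this]
    exact Finset.sum_nonneg (fun v _ => noOne_nonneg _ _ _)
  · have h1 : bad lam l r x = 1 := by unfold bad; simp [hx]
    unfold Sp at hx
    simp only [Set.mem_setOf_eq, not_forall] at hx
    obtain ⟨v, hv1, hv2, hv3⟩ := hx
    have h2 : noOne v (v + lam) x = 1 := by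
      unfold noOne
      rw [if_pos]
      intro i hi1 hi2
      by_contra hne
      exact hv3 ⟨i, hi1, hi2, by simpa using hne⟩
    rw [h1, ← h2]
    exact Finset.single_le_sum (f := fun v => noOne v (v + lam) x)
      (fun v _ => noOne_nonneg _ _ _) (by simp only [Finset.mem_Icc]; omega)

theorem Sp_mono {lam mu : ℕ} {l r l' r' : ℤ} (h : lam ≤ mu) (hl : l ≤ l') (hr : r' ≤ r) {x : Cfg}
    (hx : x ∈ Sp lam l r) : x ∈ Sp mu l' r' := by
  intro v hv1 hv2
  obtain ⟨k, hk1, hk2, hk3⟩ := hx v (by omega) (by omega)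
  exact ⟨k, hk1, by omega, hk3⟩

end H72NE
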