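import Pool.Agent.H72.NE.PBas

/-! # PLIN: linearity, positivity, contraction of the semigroup (termwise from `PW_hasSum`,
with `R = card W + 1`) -/

namespace H72NE

open H72IPS Finset

private theorem plin_pos (W : Finset ℤ) : (0 : ℝ) < (W.card : ℝ) + 1 := by positivity

private theorem plin_le (W : Finset ℤ) : (W.card : ℝ) ≤ (W.card : ℝ) + 1 := by linarith

private theorem plin_add {f g : Cfg → ℝ} (hf : Bdd f) (hg : Bdd g) : Bdd (fun y => f y + g y) := by
  obtain ⟨C, hC⟩ := hf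
  obtain ⟨D, hD⟩ := hg
  exact ⟨C + D, fun x => (abs_add_le _ _).trans (add_le_add (hC x) (hD x))⟩

private theorem plin_smul {f : Cfg → ℝ} (a : ℝ) (hf : Bdd f) : Bdd (fun y => a * f y) := by
  obtain ⟨C, hC⟩ := hf
  refine ⟨|a| * C, fun x => ?_⟩
  rw [abs_mul]
  exact mul_le_mul_of_nonneg_left (hC x) (abs_nonneg a)

private theorem plin_sub {f g : Cfg → ℝ} (hf : Bdd f) (hg : Bdd g) : Bdd (fun y => f y - g y) := by
  have h := plin_add hf (plin_smul (-1) hg)
  have h2 : (fun y => f y + -1 * g y) = fun y => f y - g y := by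
    funext y; ring
  rwa [h2] at h

private theorem plin_const (a : ℝ) : Bdd (fun _ : Cfg => a) := ⟨|a|, fun _ => le_rfl⟩

private theorem plin_abs {f : Cfg → ℝ} (hf : Bdd f) : Bdd (fun y => |f y|) := by
  obtain ⟨C, hC⟩ := hf
  exact ⟨C, fun x => by rw [abs_abs]; exact hC x⟩

private theorem plin_sum {ι : Type*} (s : Finset ι) (f : ι → Cfg → ℝ) (hf : ∀ i ∈ s, Bdd (f i)) :
    Bdd (fun y => ∑ i ∈ s, f i y) := by
  classical
  induction s using Finset.induction_on with
  | empty =>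
    refine ⟨0, fun x => ?_⟩
    simp
  | insert i s hi ih =>
    have h := plin_add (hf i (Finset.mem_insert_self i s))
      (ih (fun j hj => hf j (Finset.mem_insert_of_mem hj)))
    have h2 : (fun y => ∑ j ∈ insert i s, f j y) = fun y => f i y + ∑ j ∈ s, f j y := by
      funext y; rw [Finset.sum_insert hi]
    rw [h2]; exact h

private theorem plin_coef {R t : ℝ} (hR : 0 < R) (ht : 0 ≤ t) (n : ℕ) :
    0 ≤ Real.exp (-(R * t)) * (R * t) ^ n / (n.factorial : ℝ) := by
  have h : 0 ≤ R * t := mul_nonneg hR.le ht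
  positivity

private theorem plin_qw (c : Rts) {W W' : Finset ℤ} (R : ℝ) {b : ℤ} (hW : W' ⊆ W)
    (hb : ∀ k ∈ W, k ∉ W' → k < b) {g : Cfg → ℝ} (hg : Ind (Set.Iio b) g) :
    QW c W R g = QW c W' R g := by
  funext x
  unfold QW
  congr 2
  symm
  apply Finset.sum_subset hW
  intro k hk hk'
  have h1 : g (flip x k) = g x := by
    apply hg
    intro i hi
    have h2 : i ≠ k := by
      rintro rfl
      exact hi (hb _ hk hk')
    unfold H72IPS.flip
    rw [Function.update_of_ne h2]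
  rw [h1]; ring

theorem PW_add (c : Rts) (W : Finset ℤ) (t : ℝ) {f g : Cfg → ℝ} (hf : Bdd f) (hg : Bdd g) (x : Cfg) :
    PW c W t (fun y => f y + g y) x = PW c W t f x + PW c W t g x := by
  have h := (PW_hasSum c W (plin_pos W) t hf x).add (PW_hasSum c W (plin_pos W) t hg x)
  refine HasSum.unique (PW_hasSum c W (plin_pos W) t (plin_add hf hg) x) ?_
  have h2 : (fun n : ℕ => Real.exp (-(((W.card : ℝ) + 1) * t)) * (((W.card : ℝ) + 1) * t) ^ n /
      (n.factorial : ℝ) * (QW c W ((W.card : ℝ) + 1))^[n] (fun y => f y + g y) x) = fun n : ℕ =>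
      Real.exp (-(((W.card : ℝ) + 1) * t)) * (((W.card : ℝ) + 1) * t) ^ n /
      (n.factorial : ℝ) * (QW c W ((W.card : ℝ) + 1))^[n] f x +
      Real.exp (-(((W.card : ℝ) + 1) * t)) * (((W.card : ℝ) + 1) * t) ^ n /
      (n.factorial : ℝ) * (QW c W ((W.card : ℝ) + 1))^[n] g x := by
    funext n
    rw [QWn_add]; ring
  rw [h2]
  exact h

theorem PW_sub (c : Rts) (W : Finset ℤ) (t : ℝ) {f g : Cfg → ℝ} (hf : Bdd f) (hg : Bdd g) (x : Cfg) :
    PW c W t (fun y => f y - g y) x = PW c W t f x - PW c W t g x := by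
  have h2 : (fun y => f y - g y) = fun y => f y + (-1) * g y := by
    funext y; ring
  rw [h2, PW_add c W t hf (plin_smul (-1) hg) x]
  have h3 : PW c W t (fun y => (-1) * g y) x = (-1) * PW c W t g x := by
    have h := (PW_hasSum c W (plin_pos W) t hg x).mul_left (-1)
    refine HasSum.unique (PW_hasSum c W (plin_pos W) t (plin_smul (-1) hg) x) ?_
    have h2 : (fun n : ℕ => Real.exp (-(((W.card : ℝ) + 1) * t)) * (((W.card : ℝ) + 1) * t) ^ n /
        (n.factorial : ℝ) * (QW c W ((W.card : ℝ) + 1))^[n] (fun y => (-1) * g y) x) = fun n : ℕ =>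
        (-1) * (Real.exp (-(((W.card : ℝ) + 1) * t)) * (((W.card : ℝ) + 1) * t) ^ n /
        (n.factorial : ℝ) * (QW c W ((W.card : ℝ) + 1))^[n] g x) := by
      funext n
      rw [QWn_smul]; ring
    rw [h2]
    exact h
  rw [h3]; ring

theorem PW_smul (c : Rts) (W : Finset ℤ) (t a : ℝ) {f : Cfg → ℝ} (hf : Bdd f) (x : Cfg) :
    PW c W t (fun y => a * f y) x = a * PW c W t f x := by
  have h := (PW_hasSum c W (plin_pos W) t hf x).mul_left a
  refine HasSum.unique (PW_hasSum c W (plin_pos W) t (plin_smul a hf) x) ?_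
  have h2 : (fun n : ℕ => Real.exp (-(((W.card : ℝ) + 1) * t)) * (((W.card : ℝ) + 1) * t) ^ n /
      (n.factorial : ℝ) * (QW c W ((W.card : ℝ) + 1))^[n] (fun y => a * f y) x) = fun n : ℕ =>
      a * (Real.exp (-(((W.card : ℝ) + 1) * t)) * (((W.card : ℝ) + 1) * t) ^ n /
      (n.factorial : ℝ) * (QW c W ((W.card : ℝ) + 1))^[n] f x) := by
    funext n
    rw [QWn_smul]; ring
  rw [h2]
  exact h

theorem PW_const (c : Rts) (W : Finset ℤ) (t a : ℝ) (x : Cfg) : PW c W t (fun _ => a) x = a := by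
  refine HasSum.unique (PW_hasSum c W (plin_pos W) t (plin_const a) x) ?_
  have h1 := NormedSpace.expSeries_div_hasSum_exp (𝔸 := ℝ) (((W.card : ℝ) + 1) * t)
  rw [← Real.exp_eq_exp_ℝ] at h1
  have h3 := h1.mul_left (Real.exp (-(((W.card : ℝ) + 1) * t)) * a)
  have h4 : Real.exp (-(((W.card : ℝ) + 1) * t)) * a * Real.exp (((W.card : ℝ) + 1) * t) = a := by
    rw [mul_assoc, mul_comm a, ← mul_assoc, ← Real.exp_add, neg_add_cancel, Real.exp_zero, one_mul]
  rw [h4] at h3
  have h2 : (fun n : ℕ => Real.exp (-(((W.card : ℝ) + 1) * t)) * (((W.card : ℝ) + 1) * t) ^ n /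
      (n.factorial : ℝ) * (QW c W ((W.card : ℝ) + 1))^[n] (fun _ => a) x) = fun n : ℕ =>
      Real.exp (-(((W.card : ℝ) + 1) * t)) * a * ((((W.card : ℝ) + 1) * t) ^ n /
      (n.factorial : ℝ)) := by
    funext n
    rw [QWn_const]; ring
  rw [h2]
  exact h3

theorem PW_sum (c : Rts) (W : Finset ℤ) (t : ℝ) {ι : Type*} (s : Finset ι) (f : ι → Cfg → ℝ)
    (hf : ∀ i ∈ s, Bdd (f i)) (x : Cfg) :
    PW c W t (fun y => ∑ i ∈ s, f i y) x = ∑ i ∈ s, PW c W t (f i) x := by
  classical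
  induction s using Finset.induction_on with
  | empty =>
    simp only [Finset.sum_empty]
    exact PW_const c W t 0 x
  | insert i s hi ih =>
    have h2 : (fun y => ∑ j ∈ insert i s, f j y) = fun y => f i y + ∑ j ∈ s, f j y := by
      funext y; rw [Finset.sum_insert hi]
    rw [h2, PW_add c W t (hf i (Finset.mem_insert_self i s))
      (plin_sum s f (fun j hj => hf j (Finset.mem_insert_of_mem hj))) x, Finset.sum_insert hi,
      ih (fun j hj => hf j (Finset.mem_insert_of_mem hj))]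

theorem PW_nonneg {c : Rts} (hc : Rok c) (W : Finset ℤ) {t : ℝ} (ht : 0 ≤ t) {f : Cfg → ℝ}
    (hb : Bdd f) (hf : ∀ x, 0 ≤ f x) (x : Cfg) : 0 ≤ PW c W t f x := by
  refine (PW_hasSum c W (plin_pos W) t hb x).nonneg (fun n => ?_)
  exact mul_nonneg (plin_coef (plin_pos W) ht n) (QWn_nonneg hc (plin_le W) hf n x)

theorem PW_mono {c : Rts} (hc : Rok c) (W : Finset ℤ) {t : ℝ} (ht : 0 ≤ t) {f g : Cfg → ℝ}
    (hf : Bdd f) (hg : Bdd g) (h : ∀ x, f x ≤ g x) (x : Cfg) : PW c W t f x ≤ PW c W t g x := by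
  refine hasSum_le (fun n => ?_) (PW_hasSum c W (plin_pos W) t hf x) (PW_hasSum c W (plin_pos W) t hg x)
  exact mul_le_mul_of_nonneg_left (QWn_mono hc (plin_le W) h n x) (plin_coef (plin_pos W) ht n)

theorem PW_abs_le {c : Rts} (hc : Rok c) (W : Finset ℤ) {t : ℝ} (ht : 0 ≤ t) {f : Cfg → ℝ} {C : ℝ}
    (hf : ∀ x, |f x| ≤ C) (x : Cfg) : |PW c W t f x| ≤ C := by
  have hb : Bdd f := ⟨C, hf⟩
  rw [abs_le]
  constructor
  · have h := PW_mono hc W ht (plin_const (-C)) hb (fun y => (abs_le.mp (hf y)).1) x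
    rwa [PW_const] at h
  · have h := PW_mono hc W ht hb (plin_const C) (fun y => (abs_le.mp (hf y)).2) x
    rwa [PW_const] at h

/-- `|PW f| ≤ PW |f|` -/
theorem PW_abs_le_abs {c : Rts} (hc : Rok c) (W : Finset ℤ) {t : ℝ} (ht : 0 ≤ t) {f : Cfg → ℝ}
    (hf : Bdd f) (x : Cfg) : |PW c W t f x| ≤ PW c W t (fun y => |f y|) x := by
  rw [abs_le]
  constructor
  · have h := PW_mono hc W ht (plin_smul (-1) (plin_abs hf)) hf
      (fun y => by have := neg_abs_le (f y); linarith) x
    rw [PW_smul c W t (-1) (plin_abs hf)] at h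
    linarith
  · exact PW_mono hc W ht hf (plin_abs hf) (fun y => le_abs_self (f y)) x

/-- independence of the sites `< b` is kept -/
theorem PW_ind {c : Rts} {W : Finset ℤ} {t : ℝ} {b : ℤ} {f : Cfg → ℝ} (hf : Bdd f)
    (hi : Ind (Set.Iio b) f) : Ind (Set.Iio b) (PW c W t f) := by
  intro x y hxy
  have h1 := PW_hasSum c W (plin_pos W) t hf x
  have h2 := PW_hasSum c W (plin_pos W) t hf y
  have h3 : ∀ n, (QW c W ((W.card : ℝ) + 1))^[n] f x = (QW c W ((W.card : ℝ) + 1))^[n] f y :=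
    fun n => QWn_ind hi n x y hxy
  simp only [h3] at h1
  exact h1.unique h2

/-- independence of the sites `> e` is kept if all active sites are `< e` -/
theorem PW_ind_right {c : Rts} {W : Finset ℤ} {t : ℝ} {e : ℤ} {f : Cfg → ℝ} (hf : Bdd f)
    (hW : ∀ k ∈ W, k < e) (hi : Ind (Set.Ioi e) f) : Ind (Set.Ioi e) (PW c W t f) := by
  intro x y hxy
  have h1 := PW_hasSum c W (plin_pos W) t hf x
  have h2 := PW_hasSum c W (plin_pos W) t hf y
  have h3 : ∀ n, (QW c W ((W.card : ℝ) + 1))^[n] f x = (QW c W ((W.card : ℝ) + 1))^[n] f y :=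
    fun n => QWn_ind_right hW hi n x y hxy
  simp only [h3] at h1
  exact h1.unique h2

/-- autonomy: for functions of the sites `≥ b` the active sites `< b` are irrelevant -/
theorem PW_aut {c : Rts} {A b N : ℤ} (hAb : A ≤ b) {t : ℝ} {f : Cfg → ℝ} (hf : Bdd f)
    (hi : Ind (Set.Iio b) f) : PW c (Ico A N) t f = PW c (Ico b N) t f := by
  funext x
  have h1 := PW_hasSum c (Ico A N) (plin_pos (Ico A N)) t hf x
  have h2 := PW_hasSum c (Ico b N) (plin_pos (Ico A N)) t hf x
  have h3 : ∀ n, (QW c (Ico A N) (((Ico A N).card : ℝ) + 1))^[n] f =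
      (QW c (Ico b N) (((Ico A N).card : ℝ) + 1))^[n] f := by
    intro n
    induction n with
    | zero => rfl
    | succ n ih =>
      rw [Function.iterate_succ_apply', Function.iterate_succ_apply', ih]
      refine plin_qw c _ (Finset.Ico_subset_Ico_left hAb) ?_ (QWn_ind hi n)
      intro k hk hk'
      rw [Finset.mem_Ico] at hk hk'
      omega
  simp only [h3] at h1
  exact h1.unique h2

end H72NE
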