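import Pool.Agent.H72.NE.Mb
import Pool.Agent.H72.NE.Pois
import Pool.Agent.H72.NE.PLin
import Pool.Agent.H72.NE.Obb

/-! # NUC: nucleation on one block

`f = bad μ b (b + 2 l1)`, strip `S = [b + 2 l1, b + 3 l1)`, `e = b + 3 l1 + M - 1`, `W = Ico b N` (`PW_aut`),
`R = 8 (N - b) + 16`, `n1 = e + 1 - b = 3 l1 + M`, `h = PW c W u f` (so `PW (u+u') f = PW u' h`).
* If `z` has a particle in `S`, `MB` (with `u_MB = b + 2 l1`, `ϖ = 2 l1 (1-w)^μ` by `Av_bad_le`) and
  `QWn_PW_le_of` give `Q^j h z ≤ b_j`, `b_j = ϖ + 2 ν n1/(w g) + w⁻¹^(3 l1) e^{-g u}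
  + β/R (j + R u) + (1/2)^M (1 + 2/R)^j e^{2u}` (nondecreasing in `j`).
* If `z` has no particle in `S`: `Q^j h z ≤ (1 - a0 l1 / R)^j + b_j`, by induction on `j`:
  `Q^{j+1} h z = Q (Q^j h) z` is a convex combination of values `Q^j h z'`, and the configurations `z'`
  with a particle in `S` have total weight at least `a0 l1 / R` (each of the `l1` sites of `S` flips at
  rate `c k false y ≥ a0`).
* Poisson series in `j` with time `u'`. -/

namespace H72NE

open H72IPS Finset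

private theorem nuc_ind {μ : ℕ} (b u : ℤ) : Ind (Set.Iio b) (bad μ b u) := by
  refine Ind_mono (bad_ind b u) ?_
  intro i hi
  simp only [Set.mem_Iio] at hi
  show ¬ (b ≤ i ∧ i < u)
  omega

private theorem nuc_flip_self (z : Cfg) (k : ℤ) (h : z k = false) : (flip z k) k = true := by
  simp [H72IPS.flip, h]

/-- iterates from a configuration with a particle in the strip -/
private theorem nuc_part {w γ P r g : ℝ} (hp : EPar w γ P r g) {c : Rts} (hc : Rok c) {ν β : ℝ}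
    (hν : 0 ≤ ν) (hβ : 0 ≤ β) {b N : ℤ} {l1 M μ : ℕ} (hl1 : 1 ≤ l1) (hμ : 1 ≤ μ)
    (hN : b + 3 * l1 + M ≤ N)
    (hn : NoisyOn c P r ν β b (b + 3 * l1 + M - 1))
    (hs : 2 / w * ν * (3 * (l1 : ℝ) + M) ≤ g) {R : ℝ} (hR : 8 * ((N - b : ℤ) : ℝ) + 16 ≤ R)
    {u : ℝ} (hu : 0 ≤ u) {z : Cfg} {ξ : ℤ} (hξ1 : b + 2 * l1 ≤ ξ) (hξ2 : ξ < b + 3 * l1)
    (hz : z ξ = true) (j : ℕ) :
    (QW c (Ico b N) R)^[j] (PW c (Ico b N) u (bad μ b (b + 2 * l1))) z
      ≤ (2 * (l1 : ℝ) * (1 - w) ^ μ + 2 * ν * (3 * (l1 : ℝ) + M) / (w * g))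
        + w⁻¹ ^ (3 * l1) * Real.exp (-(g * u)) + β / R * (j + R * u)
        + (1 / 2) ^ M * (1 + 2 / R) ^ j * Real.exp (2 * u) := by
  have hw := hp.w_pos
  have hg := hp.g_pos
  have hNb : (0 : ℝ) ≤ ((N - b : ℤ) : ℝ) := by
    have : (0 : ℤ) ≤ N - b := by omega
    exact_mod_cast this
  have hR0 : 0 < R := by linarith
  have hR16 : 16 ≤ R := by linarith
  have hg2 : g ≤ 1 / 2 := by
    have h1 : r / (4 * γ) ≤ 1 / 2 := by
      have hγ : 0 < γ := lt_of_lt_of_le one_pos hp.one_le_γ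
      rw [div_le_iff₀ (by linarith)]
      have := hp.one_le_γ
      have := hp.r_le
      linarith
    exact hp.g_le.trans h1
  have hgR : 0 ≤ 1 - g / R := by
    have : g / R ≤ 1 := by
      rw [div_le_one hR0]; linarith
    linarith
  have hgR1 : 1 - g / R ≤ 1 := by
    have : 0 ≤ g / R := by positivity
    linarith
  have hw1 : 1 ≤ w⁻¹ := by
    rw [one_le_inv₀ hw]
    linarith [hp.w_le]
  have hbf : Bdd (bad μ b (b + 2 * l1)) := bad_bdd _ _ _
  have he : ((b + 3 * (l1 : ℤ) + M - 1) + 1 - b : ℤ) = 3 * (l1 : ℤ) + M := by ring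
  have he' : (((b + 3 * (l1 : ℤ) + M - 1) + 1 - b : ℤ) : ℝ) = 3 * (l1 : ℝ) + M := by
    rw [he]; push_cast; ring
  have key : ∀ n : ℕ, (QW c (Ico b N) R)^[n] (bad μ b (b + 2 * l1)) z
      ≤ ∑ i ∈ (Finset.univ : Finset (Fin 3)),
        ((![2 * (l1 : ℝ) * (1 - w) ^ μ + 2 * ν * (3 * (l1 : ℝ) + M) / (w * g), w⁻¹ ^ (3 * l1),
          (1 / 2) ^ M] : Fin 3 → ℝ) i) * ((![1, 1 - g / R, 1 + 2 / R] : Fin 3 → ℝ) i) ^ n
        + β / R * n := by
    intro n
    have h1 := MB hp hc hν hβ (b := b) (e := b + 3 * l1 + M - 1) (N := N) (u := b + 2 * l1)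
      (by omega) (by omega) hn hR (by rw [he']; exact hs)
      (f := bad μ b (b + 2 * l1)) (fun y => bad_nonneg _ _ _ y) (fun y => bad_le_one _ _ _ y)
      (bad_ind b (b + 2 * l1)) (ϖ := 2 * (l1 : ℝ) * (1 - w) ^ μ)
      (fun y => by
        have := Av_bad_le hw hp.le_P hp.P_le (b := b) (u := b + 2 * l1) (by omega) hμ y
        have e : (((b + 2 * (l1 : ℤ)) - b : ℤ) : ℝ) = 2 * (l1 : ℝ) := by push_cast; ring
        rw [e] at this
        exact this)
      n (ξ := ξ) hξ1 (by omega) (x := z) hz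
    rw [he'] at h1
    have h2 : w⁻¹ ^ ((ξ - b).toNat) ≤ w⁻¹ ^ (3 * l1) := pow_le_pow_right₀ hw1 (by omega)
    have h3 : (1 / 2 : ℝ) ^ (((b + 3 * (l1 : ℤ) + M - 1) + 1 - ξ).toNat) ≤ (1 / 2) ^ M :=
      pow_le_pow_of_le_one (by norm_num) (by norm_num) (by omega)
    have h4 : 0 ≤ (1 - g / R) ^ n := pow_nonneg hgR n
    have h5 : (0 : ℝ) ≤ (1 + 2 / R) ^ n := by positivity
    rw [Fin.sum_univ_three]
    simp only [Matrix.cons_val_zero, Matrix.cons_val_one, Matrix.cons_val]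
    have h6 := mul_le_mul_of_nonneg_right h2 h4
    have h7 := mul_le_mul_of_nonneg_right h3 h5
    have e1 : (n : ℝ) * (β / R) = β / R * n := by ring
    rw [one_pow, mul_one]
    linarith
  have h1 := QWn_PW_le_of (c := c) (W := Ico b N) hR0 hu hbf z Finset.univ _ _ _ key j
  rw [Fin.sum_univ_three] at h1
  simp only [Matrix.cons_val_zero, Matrix.cons_val_one, Matrix.cons_val] at h1
  have e1 : R * u * (1 - 1) = 0 := by ring
  have e2 : R * u * (1 - g / R - 1) = -(g * u) := by field_simp; ring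
  have e3 : R * u * (1 + 2 / R - 1) = 2 * u := by field_simp; ring
  rw [e1, e2, e3, Real.exp_zero, one_pow] at h1
  have h2 : w⁻¹ ^ (3 * l1) * (1 - g / R) ^ j * Real.exp (-(g * u))
      ≤ w⁻¹ ^ (3 * l1) * Real.exp (-(g * u)) := by
    have h3 : (1 - g / R) ^ j ≤ 1 := pow_le_one₀ hgR hgR1
    have h4 : (0 : ℝ) ≤ w⁻¹ ^ (3 * l1) := by positivity
    have h5 : w⁻¹ ^ (3 * l1) * (1 - g / R) ^ j ≤ w⁻¹ ^ (3 * l1) := by
      calc _ ≤ w⁻¹ ^ (3 * l1) * 1 := mul_le_mul_of_nonneg_left h3 h4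
        _ = _ := mul_one _
    exact mul_le_mul_of_nonneg_right h5 (Real.exp_pos _).le
  linarith

theorem NUC {w γ P r g : ℝ} (hp : EPar w γ P r g) {c : Rts} (hc : Rok c) {a0 ν β : ℝ}
    (ha : 0 ≤ a0) (hν : 0 ≤ ν) (hβ : 0 ≤ β) {A b N : ℤ} {l1 M μ : ℕ} (hl1 : 1 ≤ l1) (hμ : 1 ≤ μ)
    (hAb : A ≤ b) (hN : b + 3 * l1 + M ≤ N)
    (hn : NoisyOn c P r ν β b (b + 3 * l1 + M - 1))
    (ha0 : ∀ k, b ≤ k → k < b + 3 * l1 → ∀ y, a0 ≤ c k false y)
    (hs : 2 / w * ν * (3 * (l1 : ℝ) + M) ≤ g) {u u' : ℝ} (hu : 0 ≤ u) (hu' : 0 ≤ u') (x : Cfg) :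
    PW c (Ico A N) (u + u') (bad μ b (b + 2 * l1)) x ≤ eP1 w g a0 ν β u u' μ l1 M := by
  have hbf : Bdd (bad μ b (b + 2 * l1)) := bad_bdd _ _ _
  rw [PW_aut hAb hbf (nuc_ind b _), add_comm u u', PW_comp c (Ico b N) u' u hbf]
  set R : ℝ := 8 * ((N - b : ℤ) : ℝ) + 16 with hRdef
  have hR : 8 * ((N - b : ℤ) : ℝ) + 16 ≤ R := le_refl _
  have hw := hp.w_pos
  have hg := hp.g_pos
  have hNbl : (l1 : ℝ) ≤ ((N - b : ℤ) : ℝ) := by
    have : (l1 : ℤ) ≤ N - b := by omega
    exact_mod_cast this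
  have hl0 : (0 : ℝ) ≤ (l1 : ℝ) := Nat.cast_nonneg _
  have hNb : (0 : ℝ) ≤ ((N - b : ℤ) : ℝ) := hl0.trans hNbl
  have hR0 : 0 < R := by linarith
  have hw1 : 1 - w ≥ 0 := by linarith [hp.w_le]
  have ha1 : a0 ≤ 1 := (ha0 b le_rfl (by omega) false).trans (hc b false false).2
  set h : Cfg → ℝ := PW c (Ico b N) u (bad μ b (b + 2 * l1)) with hh
  have hhb : Bdd h := PW_bdd _ _ _ _
  have hh1 : ∀ z, h z ≤ 1 := fun z => by
    have := PW_abs_le hc (Ico b N) hu (f := bad μ b (b + 2 * l1)) (C := 1) (fun y => by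
      rw [abs_of_nonneg (bad_nonneg _ _ _ y)]; exact bad_le_one _ _ _ y) z
    exact (le_abs_self _).trans this
  -- the constants
  set C0 : ℝ := 2 * (l1 : ℝ) * (1 - w) ^ μ + 2 * ν * (3 * (l1 : ℝ) + M) / (w * g) with hC0
  have hC00 : 0 ≤ C0 := by positivity
  set E : ℝ := w⁻¹ ^ (3 * l1) * Real.exp (-(g * u)) with hE
  have hE0 : 0 ≤ E := by positivity
  set B : ℕ → ℝ := fun j => C0 + E + β / R * (j + R * u)
        + (1 / 2) ^ M * (1 + 2 / R) ^ j * Real.exp (2 * u) with hB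
  have hB0 : ∀ j, 0 ≤ B j := fun j => by simp only [hB]; positivity
  have hBm : ∀ j, B j ≤ B (j + 1) := fun j => by
    simp only [hB]
    have h1 : β / R * ((j : ℝ) + R * u) ≤ β / R * (((j + 1 : ℕ) : ℝ) + R * u) := by
      apply mul_le_mul_of_nonneg_left _ (by positivity)
      push_cast; linarith
    have h2 : (1 + 2 / R) ^ j ≤ (1 + 2 / R) ^ (j + 1) :=
      pow_le_pow_right₀ (by
        have : 0 ≤ 2 / R := by positivity
        linarith) (by omega)
    have h3 : (1 / 2 : ℝ) ^ M * (1 + 2 / R) ^ j * Real.exp (2 * u)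
        ≤ (1 / 2) ^ M * (1 + 2 / R) ^ (j + 1) * Real.exp (2 * u) := by gcongr
    linarith
  have hpart : ∀ (z : Cfg) (ξ : ℤ), b + 2 * l1 ≤ ξ → ξ < b + 3 * l1 → z ξ = true → ∀ j : ℕ,
      (QW c (Ico b N) R)^[j] h z ≤ B j := fun z ξ h1 h2 h3 j =>
    nuc_part hp hc hν hβ hl1 hμ hN hn hs hR hu h1 h2 h3 j
  set ρ : ℝ := 1 - a0 * l1 / R with hρ
  have hρ0 : 0 ≤ ρ := by
    have : a0 * l1 / R ≤ 1 := by
      rw [div_le_one hR0]
      have : a0 * l1 ≤ 1 * l1 := mul_le_mul_of_nonneg_right ha1 hl0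
      linarith
    linarith
  have hall : ∀ (j : ℕ) (z : Cfg), (QW c (Ico b N) R)^[j] h z ≤ ρ ^ j + B j := by
    intro j
    induction j with
    | zero =>
      intro z
      have h1 := hh1 z
      have h2 := hB0 0
      simp only [Function.iterate_zero, id_eq, pow_zero]
      linarith
    | succ j ih =>
      intro z
      by_cases hz : ∃ ξ : ℤ, b + 2 * l1 ≤ ξ ∧ ξ < b + 3 * l1 ∧ z ξ = true
      · obtain ⟨ξ, h1, h2, h3⟩ := hz
        have h4 := hpart z ξ h1 h2 h3 (j + 1)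
        have h5 : 0 ≤ ρ ^ (j + 1) := pow_nonneg hρ0 _
        linarith
      · have hz' : ∀ ξ : ℤ, b + 2 * l1 ≤ ξ → ξ < b + 3 * l1 → z ξ = false := by
          intro ξ h1 h2
          by_contra h3
          exact hz ⟨ξ, h1, h2, by simpa using h3⟩
        rw [Function.iterate_succ_apply', QW_eq]
        set G : Cfg → ℝ := (QW c (Ico b N) R)^[j] h with hG
        set S : Finset ℤ := Ico (b + 2 * (l1 : ℤ)) (b + 3 * l1) with hS
        have hSW : S ⊆ Ico b N := by
          intro k hk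
          simp only [hS, Finset.mem_Ico] at hk ⊢
          omega
        have hrt : ∀ k, 0 ≤ rt c z k ∧ rt c z k ≤ 1 := fun k => rt_mem hc z k
        have hflip : ∀ k, G (flip z k) ≤ (ρ ^ j + B j) - (if k ∈ S then ρ ^ j else 0) := by
          intro k
          by_cases hk : k ∈ S
          · rw [if_pos hk]
            simp only [hS, Finset.mem_Ico] at hk
            have := hpart (flip z k) k hk.1 hk.2 (nuc_flip_self z k (hz' k hk.1 hk.2)) j
            linarith
          · rw [if_neg hk]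
            have := ih (flip z k)
            linarith
        have hsumW : ∑ k ∈ Ico b N, rt c z k ≤ R := by
          calc ∑ k ∈ Ico b N, rt c z k ≤ ∑ k ∈ Ico b N, (1 : ℝ) :=
                Finset.sum_le_sum (fun k _ => (hrt k).2)
            _ = ((N - b).toNat : ℝ) := by simp
            _ ≤ R := by
              have : (((N - b).toNat : ℤ)) = N - b := Int.toNat_of_nonneg (by omega)
              have h2 : ((N - b).toNat : ℝ) = ((N - b : ℤ) : ℝ) := by
                exact_mod_cast this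
              rw [h2]; linarith
        have hcoef : 0 ≤ 1 - R⁻¹ * ∑ k ∈ Ico b N, rt c z k := by
          have : R⁻¹ * ∑ k ∈ Ico b N, rt c z k ≤ R⁻¹ * R :=
            mul_le_mul_of_nonneg_left hsumW (by positivity)
          rw [inv_mul_cancel₀ hR0.ne'] at this
          linarith
        have h1 : (1 - R⁻¹ * ∑ k ∈ Ico b N, rt c z k) * G z
            ≤ (1 - R⁻¹ * ∑ k ∈ Ico b N, rt c z k) * (ρ ^ j + B j) :=
          mul_le_mul_of_nonneg_left (ih z) hcoef
        have h2 : ∑ k ∈ Ico b N, rt c z k * G (flip z k)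
            ≤ (∑ k ∈ Ico b N, rt c z k) * (ρ ^ j + B j) - ρ ^ j * ∑ k ∈ S, rt c z k := by
          calc ∑ k ∈ Ico b N, rt c z k * G (flip z k)
              ≤ ∑ k ∈ Ico b N, rt c z k * ((ρ ^ j + B j) - (if k ∈ S then ρ ^ j else 0)) :=
                Finset.sum_le_sum (fun k _ => mul_le_mul_of_nonneg_left (hflip k) (hrt k).1)
            _ = (∑ k ∈ Ico b N, rt c z k) * (ρ ^ j + B j)
                - ∑ k ∈ Ico b N, (if k ∈ S then rt c z k * ρ ^ j else 0) := by
                rw [Finset.sum_mul, ← Finset.sum_sub_distrib]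
                apply Finset.sum_congr rfl
                intro k _
                split_ifs <;> ring
            _ = (∑ k ∈ Ico b N, rt c z k) * (ρ ^ j + B j) - ρ ^ j * ∑ k ∈ S, rt c z k := by
                rw [Finset.sum_ite_mem, Finset.inter_eq_right.2 hSW, Finset.mul_sum]
                congr 1
                apply Finset.sum_congr rfl
                intro k _
                ring
        have h3 : a0 * l1 ≤ ∑ k ∈ S, rt c z k := by
          have hcard : ((S.card : ℕ) : ℝ) = (l1 : ℝ) := by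
            rw [hS, Int.card_Ico]
            congr 1
            omega
          calc a0 * l1 = ∑ k ∈ S, a0 := by
                rw [Finset.sum_const, nsmul_eq_mul, hcard]; ring
            _ ≤ ∑ k ∈ S, rt c z k := by
                apply Finset.sum_le_sum
                intro k hk
                simp only [hS, Finset.mem_Ico] at hk
                unfold rt
                rw [hz' k hk.1 hk.2]
                exact ha0 k (by omega) hk.2 _
        have h4 : R⁻¹ * ∑ k ∈ Ico b N, rt c z k * G (flip z k)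
            ≤ R⁻¹ * ((∑ k ∈ Ico b N, rt c z k) * (ρ ^ j + B j) - ρ ^ j * (a0 * l1)) := by
          apply mul_le_mul_of_nonneg_left _ (by positivity)
          have := mul_le_mul_of_nonneg_left h3 (pow_nonneg hρ0 j)
          linarith
        calc (1 - R⁻¹ * ∑ k ∈ Ico b N, rt c z k) * G z
              + R⁻¹ * ∑ k ∈ Ico b N, rt c z k * G (flip z k)
            ≤ (1 - R⁻¹ * ∑ k ∈ Ico b N, rt c z k) * (ρ ^ j + B j)
              + R⁻¹ * ((∑ k ∈ Ico b N, rt c z k) * (ρ ^ j + B j) - ρ ^ j * (a0 * l1)) :=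
              add_le_add h1 h4
          _ = ρ ^ (j + 1) + B j := by
              rw [pow_succ, hρ]
              field_simp
              ring
          _ ≤ ρ ^ (j + 1) + B (j + 1) := by linarith [hBm j]
  have key : ∀ n : ℕ, (QW c (Ico b N) R)^[n] h x
      ≤ ∑ i ∈ (Finset.univ : Finset (Fin 3)),
        ((![1, C0 + E + β * u, (1 / 2) ^ M * Real.exp (2 * u)] : Fin 3 → ℝ) i)
          * ((![ρ, 1, 1 + 2 / R] : Fin 3 → ℝ) i) ^ n + β / R * n := by
    intro n
    have h1 := hall n x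
    rw [Fin.sum_univ_three]
    simp only [Matrix.cons_val_zero, Matrix.cons_val_one, Matrix.cons_val]
    have e1 : β / R * ((n : ℝ) + R * u) = β / R * n + β * u := by field_simp
    simp only [hB] at h1
    rw [e1] at h1
    rw [one_pow]
    linarith
  have h1 := PW_le_of (c := c) (W := Ico b N) hR0 hu' hhb x Finset.univ _ _ _ key
  rw [Fin.sum_univ_three] at h1
  simp only [Matrix.cons_val_zero, Matrix.cons_val_one, Matrix.cons_val] at h1
  have e1 : R * u' * (ρ - 1) = -(a0 * l1 * u') := by rw [hρ]; field_simp; ring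
  have e2 : R * u' * (1 - 1) = 0 := by ring
  have e3 : R * u' * (1 + 2 / R - 1) = 2 * u' := by field_simp; ring
  have e4 : β / R * (R * u') = β * u' := by field_simp
  rw [e1, e2, e3, e4, Real.exp_zero] at h1
  unfold eP1
  have e5 : Real.exp (2 * (u + u')) = Real.exp (2 * u) * Real.exp (2 * u') := by
    rw [← Real.exp_add]; ring_nf
  rw [e5]
  simp only [hC0, hE] at h1
  linarith

/-- region version: blocks `b_i = l + i l1`, `i < nb`; every window `[v, v+μ) ⊆ [l, ρ)` is contained in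
`[b_i, b_i + 2 l1)` for `i = (v - l) / l1`, because `μ ≤ l1` -/
theorem PH1 {w γ P r g : ℝ} (hp : EPar w γ P r g) {c : Rts} (hc : Rok c) {a0 ν β : ℝ}
    (ha : 0 ≤ a0) (hν : 0 ≤ ν) (hβ : 0 ≤ β) {A l ρ N : ℤ} {nb l1 M μ : ℕ} (hl1 : 1 ≤ l1)
    (hμ : 1 ≤ μ) (hμl : μ ≤ l1) (hAl : A ≤ l) (hcov : ρ - l ≤ nb * l1)
    (hN : l + (nb + 2) * l1 + M ≤ N) (hn : ∀ b e, NoisyOn c P r ν β b e)
    (ha0 : ∀ k y, a0 ≤ c k false y)
    (hs : 2 / w * ν * (3 * (l1 : ℝ) + M) ≤ g) {u u' : ℝ} (hu : 0 ≤ u) (hu' : 0 ≤ u') (x : Cfg) :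
    PW c (Ico A N) (u + u') (bad μ l ρ) x ≤ nb * eP1 w g a0 ν β u u' μ l1 M := by
  have hsum : ∀ y : Cfg, bad μ l ρ y
      ≤ ∑ i ∈ Finset.range nb, bad μ (l + i * l1) (l + i * l1 + 2 * l1) y := by
    intro y
    by_cases hy : y ∈ Sp μ l ρ
    · have h0 : bad μ l ρ y = 0 := by unfold bad; rw [if_pos hy]
      rw [h0]
      exact Finset.sum_nonneg (fun i _ => bad_nonneg _ _ _ y)
    · have hy' : ∃ v : ℤ, l ≤ v ∧ v + μ ≤ ρ ∧ ∀ k, v ≤ k → k < v + μ → ¬ (y k = true) := by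
        by_contra hcon
        apply hy
        intro v h1 h2
        by_contra h3
        exact hcon ⟨v, h1, h2, fun k h4 h5 h6 => h3 ⟨k, h4, h5, h6⟩⟩
      obtain ⟨v, h1, h2, h3⟩ := hy'
      have hl1' : (0 : ℤ) < (l1 : ℤ) := by exact_mod_cast hl1
      set q : ℤ := (v - l) / l1 with hq
      have hq0 : 0 ≤ q := Int.ediv_nonneg (by omega) hl1'.le
      have hq1 : q * l1 ≤ v - l := Int.ediv_mul_le _ hl1'.ne'
      have hq2 : v - l < (q + 1) * l1 := Int.lt_ediv_add_one_mul_self _ hl1'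
      have hqn : q < nb := by
        by_contra hcon
        push Not at hcon
        have : (nb : ℤ) * l1 ≤ q * l1 := mul_le_mul_of_nonneg_right hcon hl1'.le
        omega
      have hqt : ((q.toNat : ℕ) : ℤ) = q := Int.toNat_of_nonneg hq0
      have hmem : q.toNat ∈ Finset.range nb := by
        rw [Finset.mem_range]; omega
      have hbad : bad μ (l + (q.toNat : ℕ) * l1) (l + (q.toNat : ℕ) * l1 + 2 * l1) y = 1 := by
        unfold bad
        rw [if_neg]
        intro hmem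
        obtain ⟨k, hk1, hk2, hk3⟩ := hmem v (by rw [hqt]; linarith) (by
          rw [hqt]
          have e : (q + 1) * (l1 : ℤ) = q * l1 + l1 := by ring
          have hμl' : (μ : ℤ) ≤ l1 := by exact_mod_cast hμl
          linarith)
        exact h3 k hk1 hk2 hk3
      calc bad μ l ρ y ≤ 1 := bad_le_one _ _ _ y
        _ = bad μ (l + (q.toNat : ℕ) * l1) (l + (q.toNat : ℕ) * l1 + 2 * l1) y := hbad.symm
        _ ≤ ∑ i ∈ Finset.range nb, bad μ (l + i * l1) (l + i * l1 + 2 * l1) y :=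
            Finset.single_le_sum (f := fun i : ℕ => bad μ (l + i * l1) (l + i * l1 + 2 * l1) y)
              (fun i _ => bad_nonneg _ _ _ y) hmem
  have hbs : Bdd (fun y => ∑ i ∈ Finset.range nb,
      bad μ (l + i * l1) (l + i * l1 + 2 * l1) y) := by
    refine ⟨nb, fun y => ?_⟩
    rw [abs_of_nonneg (Finset.sum_nonneg (fun i _ => bad_nonneg _ _ _ y))]
    calc ∑ i ∈ Finset.range nb, bad μ (l + i * l1) (l + i * l1 + 2 * l1) y
        ≤ ∑ i ∈ Finset.range nb, (1 : ℝ) := Finset.sum_le_sum (fun i _ => bad_le_one _ _ _ y)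
      _ = nb := by simp
  have huu : 0 ≤ u + u' := by linarith
  calc PW c (Ico A N) (u + u') (bad μ l ρ) x
      ≤ PW c (Ico A N) (u + u') (fun y => ∑ i ∈ Finset.range nb,
          bad μ (l + i * l1) (l + i * l1 + 2 * l1) y) x :=
        PW_mono hc _ huu (bad_bdd _ _ _) hbs hsum x
    _ = ∑ i ∈ Finset.range nb,
          PW c (Ico A N) (u + u') (bad μ (l + i * l1) (l + i * l1 + 2 * l1)) x :=
        PW_sum c _ _ _ (fun (i : ℕ) => bad μ (l + i * l1) (l + i * l1 + 2 * l1))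
          (fun i _ => bad_bdd _ _ _) x
    _ ≤ ∑ i ∈ Finset.range nb, eP1 w g a0 ν β u u' μ l1 M := by
        apply Finset.sum_le_sum
        intro i hi
        rw [Finset.mem_range] at hi
        have hi1 : ((i : ℤ) + 3) * l1 ≤ ((nb : ℤ) + 2) * l1 := by
          apply mul_le_mul_of_nonneg_right _ (by positivity)
          omega
        have hi0 : (0 : ℤ) ≤ (i : ℤ) * l1 := by positivity
        have e : ((i : ℤ) + 3) * l1 = i * l1 + 3 * l1 := by ring
        exact NUC hp hc ha hν hβ hl1 hμ (by omega) (by linarith) (hn _ _)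
          (fun k _ _ y => ha0 k y) hs hu hu' x
    _ = nb * eP1 w g a0 ν β u u' μ l1 M := by simp

end H72NE
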