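import Pool.Agent.H72.NE.Ctra
import Pool.Agent.H72.NE.Nuc
import Pool.Agent.H72.NE.Mid

/-! # CTR: the contraction

`F = PW c W T2 f`, `T2 = q (t + s)`, `PW c W (L + T2) f = PW c W L F`. -/

namespace H72NE

open H72IPS Finset

theorem ctr_bdd_const (a : ℝ) : Bdd (fun _ => a) := ⟨|a|, fun _ => le_rfl⟩

theorem ctr_bdd_smul (a : ℝ) {f : Cfg → ℝ} (hf : Bdd f) : Bdd (fun y => a * f y) := by
  obtain ⟨C, hC⟩ := hf
  refine ⟨|a| * C, fun x => ?_⟩
  rw [abs_mul]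
  exact mul_le_mul_of_nonneg_left (hC x) (abs_nonneg a)

theorem ctr_bdd_add {f g : Cfg → ℝ} (hf : Bdd f) (hg : Bdd g) : Bdd (fun y => f y + g y) := by
  obtain ⟨C, hC⟩ := hf
  obtain ⟨D, hD⟩ := hg
  exact ⟨C + D, fun x => (abs_add_le _ _).trans (add_le_add (hC x) (hD x))⟩

theorem ctr_bdd_sub {f g : Cfg → ℝ} (hf : Bdd f) (hg : Bdd g) : Bdd (fun y => f y - g y) := by
  obtain ⟨C, hC⟩ := hf
  obtain ⟨D, hD⟩ := hg
  exact ⟨C + D, fun x => (abs_sub _ _).trans (add_le_add (hC x) (hD x))⟩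

theorem ctr_bdd_abs {f : Cfg → ℝ} (hf : Bdd f) : Bdd (fun y => |f y|) := by
  obtain ⟨C, hC⟩ := hf
  exact ⟨C, fun x => by rw [abs_abs]; exact hC x⟩

/-- an interval `[u, v)` with `u ≥ -M0`.  `J = [u - 8 L, v)`, `l = u - 8 L - 4 m' q - 4 m'`,
`ρ = v + 4 lam (q+1)`, `H = Sp (2 lam) l ρ`.  `MID` (`H' = H`, `α = 0`, `κ = Δ/16`, `B = 25 Δ`) gives
`c̄` with `Ind J c̄`, `|F - c̄| ≤ Δ/32 + 25 Δ bad (2 lam) l ρ`, `OB {k} (75 Δ) c̄` for `k < v`.
* `PW L |F - c̄| x ≤ Δ/32 + 25 Δ / 400` by `PH1` (`u = u' = L/2`, `nb l1 ≥ 11 L ≥ ρ - l`, `n5`), twice;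
* `|PW L c̄ x - PW L c̄ x'| ≤ L * (75 Δ tl L (8 L)) ≤ Δ / 8` by `PW_fs_Ico` (`m = 8 L`) and `n6`. -/
theorem CTRB {w γ P r g : ℝ} (hp : EPar w γ P r g) {c : Rts} (hc : Rok c) {a0 ν β s t : ℝ}
    {L lam lam' m' M M1 l1 nb q : ℕ} (nh : NH w g a0 ν β s t L lam lam' m' M M1 l1 nb q)
    (ha : 0 ≤ a0) (hν0 : 0 ≤ ν) (hβ0 : 0 ≤ β) (hn : ∀ b e, NoisyOn c P r ν β b e)
    (ha0 : ∀ k y, a0 ≤ c k false y) {A N K u v : ℤ} {Δ : ℝ}
    {f : Cfg → ℝ} (hf : Bdd f) (hOS : OS L (K + 30 * L) Δ f) (huv : u ≤ v) (hlen : v ≤ u + L)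
    (hvK : v ≤ K) (hN : K + 30 * L ≤ N) (hA : A ≤ u - 12 * L) :
    OB (Set.Ico u v) (Δ / 2) (PW c (Ico A N) (L + q * (t + s)) f) := by
  have n1z : 4 * (m' : ℤ) * q + 8 * m' + 4 * lam * (q + 1) + M + 2 * lam + m' + 2 ≤ L := by
    exact_mod_cast nh.n1
  have hL1 : 1 ≤ L := nh.L_pos
  have hLz : (1 : ℤ) ≤ L := by exact_mod_cast hL1
  have hmq : (0 : ℤ) ≤ (m' : ℤ) * q := by positivity
  have hlq : (0 : ℤ) ≤ (lam : ℤ) * (q + 1) := by positivity
  have hm0 : (0 : ℤ) ≤ (m' : ℤ) := by positivity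
  have hM0 : (0 : ℤ) ≤ (M : ℤ) := by positivity
  have hlam0 : (0 : ℤ) ≤ (lam : ℤ) := by positivity
  have hT0 : (0 : ℝ) ≤ q * (t + s) := by
    have h1 := nh.s_nn
    have h2 := nh.t_nn
    positivity
  have hLr : (0 : ℝ) ≤ L := by positivity
  have hΔ : 0 ≤ Δ := OB_nonneg (hOS K K (by linarith) (by linarith))
  have hFb : Bdd (PW c (Ico A N) (q * (t + s)) f) := PW_bdd _ _ _ _
  rw [PW_comp c (Ico A N) L (q * (t + s)) hf]
  obtain ⟨hap1, hap2⟩ := CTR_ap hc (Ico A N) hL1 (l := u - 8 * L - 4 * m' * q - 4 * m')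
    (e := v + 4 * lam * (q + 1) + M) hf hOS (by linarith) (by linarith) (by linarith) nh.n2 hT0
    le_rfl
  have hpair : ∀ y y' : Cfg,
      y ∈ Sp (2 * lam) (u - 8 * L - 4 * m' * q - 4 * m') (v + 4 * lam * (q + 1)) →
      y' ∈ Sp (2 * lam) (u - 8 * L - 4 * m' * q - 4 * m') (v + 4 * lam * (q + 1)) →
      (∀ i, i ∉ Set.Ico (u - 8 * L) v → y i = y' i) →
      |PW c (Ico A N) (q * (t + s)) f y - PW c (Ico A N) (q * (t + s)) f y'| ≤ Δ / 16 :=
    fun y y' hy hy' hyy => CTRA hp hc nh hν0 hn hf hOS huv hlen hvK hN (by linarith) hy hy' hyy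
  generalize PW c (Ico A N) (q * (t + s)) f = F at *
  have hBJ : OB (Set.Ico (u - 8 * L) v) (25 * Δ) F := by
    refine OB_mono hap1 (fun i hi => ?_) le_rfl
    rw [Set.mem_Ico] at hi
    rw [Set.mem_Icc]
    constructor
    · linarith [hi.1]
    · linarith [hi.2]
  obtain ⟨cb, hcI, -, hcH, hcB⟩ := MID (J := Set.Ico (u - 8 * L) v)
    (H := Sp (2 * lam) (u - 8 * L - 4 * m' * q - 4 * m') (v + 4 * lam * (q + 1)))
    (H' := Sp (2 * lam) (u - 8 * L - 4 * m' * q - 4 * m') (v + 4 * lam * (q + 1)))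
    subset_rfl (g := F) (α := 0) (κ := Δ / 16) (B := 25 * Δ) le_rfl zero_le_one (by positivity)
    hBJ hpair (fun y y' h1 h2 h3 => by
      have := hpair y y' h1 h2 h3
      linarith)
  have hcb : Bdd cb := Bdd_of_near hFb hcB
  have hnear : ∀ y, |F y - cb y| ≤ Δ / 32 + 25 * Δ *
      bad (2 * lam) (u - 8 * L - 4 * m' * q - 4 * m') (v + 4 * lam * (q + 1)) y := by
    intro y
    by_cases hy : y ∈ Sp (2 * lam) (u - 8 * L - 4 * m' * q - 4 * m') (v + 4 * lam * (q + 1))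
    · have h1 := hcH y hy
      unfold bad
      rw [if_pos hy]
      linarith
    · have h1 := hcB y
      unfold bad
      rw [if_neg hy]
      linarith
  have hbadle : ∀ x, PW c (Ico A N) L
      (bad (2 * lam) (u - 8 * L - 4 * m' * q - 4 * m') (v + 4 * lam * (q + 1))) x ≤ 1 / 400 := by
    intro x
    have hcov1 : (11 : ℤ) * L ≤ nb * l1 := by exact_mod_cast nh.cov1
    have hcov3 : ((nb : ℤ) + 2) * l1 + M1 ≤ 30 * L := by exact_mod_cast nh.cov3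
    have h1 := PH1 hp hc ha hν0 hβ0 (A := A) (l := u - 8 * L - 4 * m' * q - 4 * m')
      (ρ := v + 4 * lam * (q + 1)) (N := N) (nb := nb) (l1 := l1) (M := M1) (μ := 2 * lam)
      nh.l1_pos (by have := nh.lam_pos; omega) nh.cov2 (by linarith) (by linarith) (by linarith)
      hn ha0 nh.small (u := (L : ℝ) / 2) (u' := (L : ℝ) / 2) (by positivity) (by positivity) x
    rw [add_halves] at h1
    exact h1.trans nh.n5
  have key : ∀ x, |PW c (Ico A N) L F x - PW c (Ico A N) L cb x| ≤ 3 * Δ / 32 := by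
    intro x
    rw [← PW_sub c (Ico A N) L hFb hcb x]
    refine (PW_abs_le_abs hc (Ico A N) hLr (ctr_bdd_sub hFb hcb) x).trans ?_
    refine (PW_mono hc (Ico A N) hLr (ctr_bdd_abs (ctr_bdd_sub hFb hcb))
      (ctr_bdd_add (ctr_bdd_const (Δ / 32)) (ctr_bdd_smul (25 * Δ) (bad_bdd _ _ _)))
      hnear x).trans ?_
    rw [PW_add c (Ico A N) L (ctr_bdd_const (Δ / 32)) (ctr_bdd_smul (25 * Δ) (bad_bdd _ _ _)) x,
      PW_const, PW_smul c (Ico A N) L (25 * Δ) (bad_bdd _ _ _) x]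
    have h1 := mul_le_mul_of_nonneg_left (hbadle x) (show (0 : ℝ) ≤ 25 * Δ by positivity)
    linarith
  have hfs := PW_fs_Ico hc (Ico A N) hLr hcb huv (m := 8 * L) (D := 75 * Δ) (fun j hj => by
    by_cases hjJ : j ∈ Set.Ico (u - 8 * L) v
    · refine OB_mono (Ind_iff.1 hcI) (Set.singleton_subset_iff.2 hjJ) (by positivity)
    · have h1 := OB_of_near (hap2 j (by linarith)) hcB
      exact OB_mono h1 subset_rfl (by linarith)) (by
    push_cast
    exact hcI)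
  intro x y hxy
  have h1 := key x
  have h2 := key y
  have h3 := hfs x y hxy
  have h4 : ((v - u : ℤ) : ℝ) * (75 * Δ * tl L (8 * L)) ≤ Δ / 8 := by
    have h5 : ((v - u : ℤ) : ℝ) ≤ L := by
      have : v - u ≤ (L : ℤ) := by linarith
      exact_mod_cast this
    have h6 : 0 ≤ 75 * Δ * tl L (8 * L) := mul_nonneg (by positivity) (tl_nonneg _ _)
    calc ((v - u : ℤ) : ℝ) * (75 * Δ * tl L (8 * L)) ≤ L * (75 * Δ * tl L (8 * L)) :=
          mul_le_mul_of_nonneg_right h5 h6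
      _ = Δ * (75 * (L : ℝ) * tl L (8 * L)) := by ring
      _ ≤ Δ * (1 / 8) := mul_le_mul_of_nonneg_left nh.n6 hΔ
      _ = Δ / 8 := by ring
  rw [abs_le] at h1 h2 ⊢
  have h3' := abs_le.1 (h3.trans h4)
  constructor
  · linarith [h1.1, h2.2, h3'.1]
  · linarith [h1.2, h2.1, h3'.2]

/-- general intervals: `PW f` does not depend on the sites `< -M0` (`PW_ind`), so `u` may be replaced by
`max u (-M0)` (and if `v ≤ -M0` there is nothing to prove) -/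
theorem CTR {w γ P r g : ℝ} (hp : EPar w γ P r g) {c : Rts} (hc : Rok c) {a0 ν β s t : ℝ}
    {L lam lam' m' M M1 l1 nb q : ℕ} (nh : NH w g a0 ν β s t L lam lam' m' M M1 l1 nb q)
    (ha : 0 ≤ a0) (hν0 : 0 ≤ ν) (hβ0 : 0 ≤ β) (hn : ∀ b e, NoisyOn c P r ν β b e)
    (ha0 : ∀ k y, a0 ≤ c k false y) (N M0 : ℕ) (K : ℤ) (Δ : ℝ) (f : Cfg → ℝ) (hf : Bdd f)
    (hOS : OS L (K + 30 * L) Δ f) (hI : Ind (Set.Iio (-(M0 : ℤ))) f) (hN1 : M0 + 12 * L ≤ N)
    (hN2 : K + 30 * L ≤ N) :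
    OS L K (Δ / 2) (PW c (Ico (-(N : ℤ)) N) (L + q * (t + s)) f) := by
  have hΔ : 0 ≤ Δ := by
    have hLz : (0 : ℤ) ≤ (L : ℤ) := by positivity
    exact OB_nonneg (hOS K K (by linarith) (by linarith))
  have hG := PW_ind (c := c) (W := Ico (-(N : ℤ)) N) (t := L + q * (t + s)) hf hI
  intro u v hv huv x y hxy
  rcases le_or_gt v (max u (-(M0 : ℤ))) with hc1 | hc1
  · have h1 : PW c (Ico (-(N : ℤ)) N) (L + q * (t + s)) f x
        = PW c (Ico (-(N : ℤ)) N) (L + q * (t + s)) f y := by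
      refine hG x y fun i hi => hxy i fun hi2 => hi ?_
      rw [Set.mem_Ico] at hi2
      rw [Set.mem_Iio]
      rcases le_max_iff.1 hc1 with h | h <;> omega
    rw [h1, sub_self, abs_zero]
    linarith
  · have hlt := max_lt_iff.1 hc1
    have h1 : PW c (Ico (-(N : ℤ)) N) (L + q * (t + s)) f x
        = PW c (Ico (-(N : ℤ)) N) (L + q * (t + s)) f
          (fun i => if i < -(M0 : ℤ) then y i else x i) := by
      refine hG _ _ fun i hi => ?_
      rw [Set.mem_Iio] at hi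
      rw [if_neg hi]
    rw [h1]
    have hmu : u ≤ max u (-(M0 : ℤ)) := le_max_left _ _
    have hmM : -(M0 : ℤ) ≤ max u (-(M0 : ℤ)) := le_max_right _ _
    have hN1z : (M0 : ℤ) + 12 * L ≤ N := by exact_mod_cast hN1
    refine CTRB hp hc nh ha hν0 hβ0 hn ha0 hf hOS (u := max u (-(M0 : ℤ))) (v := v) hc1.le
      (by linarith) hv hN2 (by linarith) _ _ fun i hi => ?_
    rw [Set.mem_Ico] at hi
    by_cases hiM : i < -(M0 : ℤ)
    · rw [if_pos hiM]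
    · rw [if_neg hiM]
      refine hxy i fun hi2 => hi ?_
      rw [Set.mem_Ico] at hi2
      exact ⟨max_le hi2.1 (by omega), hi2.2⟩

end H72NE
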