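import Pool.Agent.H72.NE.Duh
import Pool.Agent.H72.NE.Obb

/-! # NOI: removing the noise -/

namespace H72NE

open H72IPS Finset

theorem cut_Rok {c : Rts} (hc : Rok c) (l e : ℤ) : Rok (cut c l e) := by
  intro k s y
  unfold cut
  by_cases h : l ≤ k ∧ k ≤ e ∧ y = false
  · rw [if_pos h]
    exact ⟨le_rfl, zero_le_one⟩
  · rw [if_neg h]
    exact hc k s y

theorem cut_EastOn {c : Rts} {P r ν β : ℝ} {l e : ℤ} (h : NoisyOn c P r ν β l e) :
    EastOn (cut c l e) P r l e := by
  intro k hk hk'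
  obtain ⟨h1, h2, -, -, -⟩ := h k hk hk'
  refine ⟨if_pos ⟨hk, hk', rfl⟩, if_pos ⟨hk, hk', rfl⟩, ?_, ?_⟩
  · refine (if_neg ?_).trans h1
    rintro ⟨-, -, h3⟩
    exact Bool.noConfusion h3
  · refine (if_neg ?_).trans h2
    rintro ⟨-, -, h3⟩
    exact Bool.noConfusion h3

/-- `PW_duhamel` with `W = W'`, `c' = cut c l e`: the rates differ only for the sites `k ∈ [l, e]`, by at
most `ν`, and `|F (flip x k) - F x| ≤ B` there -/
theorem NOI {c : Rts} (hc : Rok c) {l e : ℤ} (hle : l ≤ e + 1) {ν : ℝ} (hν0 : 0 ≤ ν)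
    (hν : ∀ k, l ≤ k → k ≤ e → ∀ s, c k s false ≤ ν) (W : Finset ℤ) {T : ℝ} (hT : 0 ≤ T)
    {f : Cfg → ℝ} (hf : Bdd f) {B : ℝ}
    (hB : ∀ u, 0 ≤ u → u ≤ T → ∀ k, l ≤ k → k ≤ e → OB {k} B (PW (cut c l e) W u f)) (x : Cfg) :
    |PW c W T f x - PW (cut c l e) W T f x| ≤ T * (((e + 1 - l : ℤ) : ℝ) * ν * B) := by
  refine PW_duhamel hc W W hT hf ?_ x
  intro u hu hu' x
  rw [← Finset.sum_sub_distrib]
  refine (Finset.abs_sum_le_sum_abs _ _).trans ?_
  have h1 : ∀ k ∈ W, |rt c x k * (PW (cut c l e) W u f (flip x k) - PW (cut c l e) W u f x) -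
      rt (cut c l e) x k * (PW (cut c l e) W u f (flip x k) - PW (cut c l e) W u f x)| ≤
      if k ∈ Icc l e then ν * B else 0 := by
    intro k _
    rw [← sub_mul, abs_mul]
    by_cases hk : k ∈ Icc l e
    · rw [if_pos hk]
      rw [Finset.mem_Icc] at hk
      have hOB := hB u hu hu' k hk.1 hk.2
      have hB0 : 0 ≤ B := OB_nonneg hOB
      have h2 : |PW (cut c l e) W u f (flip x k) - PW (cut c l e) W u f x| ≤ B := by
        refine hOB (flip x k) x ?_
        intro i hi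
        have hi' : i ≠ k := hi
        unfold H72IPS.flip
        rw [Function.update_of_ne hi']
      have h3 : |rt c x k - rt (cut c l e) x k| ≤ ν := by
        unfold rt cut
        by_cases hx : x (k + 1) = false
        · rw [if_pos ⟨hk.1, hk.2, hx⟩, sub_zero, hx, abs_of_nonneg (hc k _ _).1]
          exact hν k hk.1 hk.2 _
        · rw [if_neg (fun h => hx h.2.2), sub_self, abs_zero]
          exact hν0
      exact mul_le_mul h3 h2 (abs_nonneg _) hν0
    · rw [if_neg hk]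
      have h3 : rt c x k - rt (cut c l e) x k = 0 := by
        unfold rt cut
        rw [if_neg, sub_self]
        rintro ⟨h4, h5, -⟩
        exact hk (Finset.mem_Icc.mpr ⟨h4, h5⟩)
      rw [h3, abs_zero, zero_mul]
  refine (Finset.sum_le_sum h1).trans ?_
  rw [Finset.sum_ite_mem, Finset.sum_const, nsmul_eq_mul]
  rcases hle.eq_or_lt with h2 | h2
  · have h3 : Icc l e = ∅ := Finset.Icc_eq_empty (by omega)
    have h4 : e + 1 - l = 0 := by omega
    rw [h3, h4]
    simp
  · have hB0 : 0 ≤ B := OB_nonneg (hB u hu hu' l le_rfl (by omega))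
    rw [mul_assoc]
    refine mul_le_mul_of_nonneg_right ?_ (mul_nonneg hν0 hB0)
    have h3 : (W ∩ Icc l e).card ≤ (Icc l e).card :=
      Finset.card_le_card Finset.inter_subset_right
    rw [Int.card_Icc] at h3
    have h4 : (((W ∩ Icc l e).card : ℤ)) ≤ e + 1 - l := by omega
    exact_mod_cast h4

end H72NE
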