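import Pool.Agent.H72.NE.Ph2
import Pool.Agent.H72.NE.Noi
import Pool.Agent.H72.NE.Ap

/-! # CTRA: the second phase, from healthy configurations

`l = u - 8 L - 4 m' q - 4 m'`, `ρ = v + 4 lam (q+1)`, `e = ρ + M`, `j0 = u - 8 L - 4 m' q`,
`T2 = q (t + s)`; by `n1`: `e + 1 - l ≤ 10 L + ... ≤ 11 L` and `e + 1 ≤ v + L ≤ K + 30 L`.
* A priori (`PW_apriori` with `ℓ = m = L`, `K' = K + 30 L`), valid for `c` and for `cut c l e`, all times
  `u' ≤ T2`: `OB (Icc l e) (25 Δ)` (`a = 12`, `n2`) and `OB {k} (5 Δ)` for `k ≤ e` (`a = 2`).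
* `PH2` for `cut c l e` (`Len = 11 L`, `B = 25 Δ`) and `n4`: the pair difference is at most `Δ / 32`.
* `NOI` with `B = 5 Δ` and `n3`: replacing `cut c l e` by `c` costs `Δ / 64`, twice. -/

namespace H72NE

open H72IPS Finset

theorem CTR_ap {c : Rts} (hc : Rok c) (W : Finset ℤ) {L : ℕ} (hL : 1 ≤ L) {K l e : ℤ} {Δ T : ℝ}
    {f : Cfg → ℝ} (hf : Bdd f) (hOS : OS L (K + 30 * L) Δ f) (hle : l ≤ e + 1)
    (hlen : e + 1 - l ≤ 11 * L) (he : e + 1 ≤ K + 30 * L)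
    (hT : 11 * (L : ℝ) * tl T L ≤ 1) {u : ℝ} (hu : 0 ≤ u) (huT : u ≤ T) :
    OB (Set.Icc l e) (25 * Δ) (PW c W u f) ∧ ∀ k, k ≤ e → OB {k} (5 * Δ) (PW c W u f) := by
  have hΔ : 0 ≤ Δ := OB_nonneg (hOS (K + 30 * L) (K + 30 * L) le_rfl (by omega))
  have htl0 : 0 ≤ tl u L := tl_nonneg u L
  have htl : tl u L ≤ tl T L := tl_mono huT L
  have hLR : (1 : ℝ) ≤ L := by exact_mod_cast hL
  have htlT0 : 0 ≤ tl T L := tl_nonneg T L
  constructor
  · have h1 := PW_apriori hc W hu hf hL hOS (u := l) (v := e + 1) hle he (m := L) (a := 12)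
      (by push_cast; omega)
    refine OB_mono h1 (fun i hi => ?_) ?_
    · rw [Set.mem_Icc] at hi
      rw [Set.mem_Ico]
      omega
    · have h2 : (((e + 1 - l : ℤ)) : ℝ) ≤ 11 * L := by exact_mod_cast hlen
      have h3 : (0 : ℝ) ≤ ((e + 1 - l : ℤ) : ℝ) := by exact_mod_cast (by omega : (0 : ℤ) ≤ e + 1 - l)
      have h4 : ((e + 1 - l : ℤ) : ℝ) * (Δ * tl u L) ≤ (11 * L) * (Δ * tl T L) := by
        apply mul_le_mul h2 _ (mul_nonneg hΔ htl0) (by positivity)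
        exact mul_le_mul_of_nonneg_left htl hΔ
      have h5 : (11 * (L : ℝ)) * (Δ * tl T L) ≤ Δ := by
        have : (11 * (L : ℝ)) * (Δ * tl T L) = Δ * (11 * (L : ℝ) * tl T L) := by ring
        rw [this]
        calc Δ * (11 * (L : ℝ) * tl T L) ≤ Δ * 1 := mul_le_mul_of_nonneg_left hT hΔ
          _ = Δ := mul_one Δ
      push_cast at h4 ⊢
      linarith
  · intro k hk
    have h1 := PW_apriori hc W hu hf hL hOS (u := k) (v := k + 1) (by omega) (by omega) (m := L) (a := 2)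
      (by push_cast; omega)
    refine OB_mono h1 (fun i hi => ?_) ?_
    · rw [Set.mem_singleton_iff] at hi
      rw [Set.mem_Ico]
      omega
    · have h2 : (((k + 1 - k : ℤ)) : ℝ) = 1 := by
        have : k + 1 - k = 1 := by ring
        rw [this]; norm_num
      rw [h2]
      have h6 : tl T L ≤ 1 := by
        have : tl T L ≤ 11 * (L : ℝ) * tl T L := by nlinarith
        linarith
      have h7 : Δ * tl u L ≤ Δ * 1 := mul_le_mul_of_nonneg_left (htl.trans h6) hΔ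
      push_cast
      linarith

theorem CTRA {w γ P r g : ℝ} (hp : EPar w γ P r g) {c : Rts} (hc : Rok c) {a0 ν β s t : ℝ}
    {L lam lam' m' M M1 l1 nb q : ℕ} (nh : NH w g a0 ν β s t L lam lam' m' M M1 l1 nb q)
    (hν0 : 0 ≤ ν) (hn : ∀ b e, NoisyOn c P r ν β b e) {A N K u v : ℤ} {Δ : ℝ}
    {f : Cfg → ℝ} (hf : Bdd f) (hOS : OS L (K + 30 * L) Δ f) (huv : u ≤ v) (hlen : v ≤ u + L)
    (hvK : v ≤ K) (hN : K + 30 * L ≤ N) (hA : A ≤ u - 8 * L - 4 * m' * q - 4 * m')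
    {y y' : Cfg}
    (hy : y ∈ Sp (2 * lam) (u - 8 * L - 4 * m' * q - 4 * m') (v + 4 * lam * (q + 1)))
    (hy' : y' ∈ Sp (2 * lam) (u - 8 * L - 4 * m' * q - 4 * m') (v + 4 * lam * (q + 1)))
    (hyy : ∀ i, i ∉ Set.Ico (u - 8 * L) v → y i = y' i) :
    |PW c (Ico A N) (q * (t + s)) f y - PW c (Ico A N) (q * (t + s)) f y'| ≤ Δ / 16 := by
  obtain ⟨L_pos, lam_pos, lam'_pos, lam'_le, m'_pos, l1_pos, q_pos, s_nn, s_ge, t_nn, n1, ntau, n2, n3, n4,
    n5, n6, cov1, cov2, cov3, small⟩ := nh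
  set l : ℤ := u - 8 * L - 4 * m' * q - 4 * m' with hl
  set e : ℤ := v + 4 * lam * (q + 1) + M with he
  have hΔ : 0 ≤ Δ := OB_nonneg (hOS (K + 30 * L) (K + 30 * L) le_rfl (by omega))
  -- the numerical facts in ℤ
  have n1' : 4 * (m' : ℤ) * q + 8 * m' + 4 * lam * (q + 1) + M + 2 * lam + m' + 2 ≤ L := by
    exact_mod_cast n1
  have p1 : 0 ≤ (m' : ℤ) * q := by positivity
  have p2 : 0 ≤ (lam : ℤ) * (q + 1) := by positivity
  have p1' : 4 * (m' : ℤ) * q = 4 * (m' * q) := by ring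
  have p2' : 4 * (lam : ℤ) * (q + 1) = 4 * (lam * (q + 1)) := by ring
  rw [p1', p2'] at n1'
  rw [p1'] at hl
  rw [p2'] at he
  have hle : l ≤ e + 1 := by omega
  have hlen' : e + 1 - l ≤ 11 * L := by omega
  have heK : e + 1 ≤ K + 30 * L := by omega
  have hT0 : (0 : ℝ) ≤ q * (t + s) := by positivity
  have hcut : Rok (cut c l e) := cut_Rok hc l e
  have hap : ∀ u', 0 ≤ u' → u' ≤ (q : ℝ) * (t + s) →
      OB (Set.Icc l e) (25 * Δ) (PW (cut c l e) (Ico A N) u' f) ∧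
        ∀ k, k ≤ e → OB {k} (5 * Δ) (PW (cut c l e) (Ico A N) u' f) := fun u' h0 h1 =>
    CTR_ap hcut (Ico A N) L_pos hf hOS hle hlen' heK n2 h0 h1
  have hE : EastOn (cut c l e) P r l e := cut_EastOn (hn l e)
  have hph := PH2 hp hcut (A := A) (l := l) (e := e) (N := N) (v := v)
    (j0 := u - 8 * L - 4 * (m' * q)) (lam := lam) (lam' := lam') (m' := m') (M := M) (q := q)
    lam_pos lam'_pos lam'_le m'_pos s_nn s_ge t_nn hA (by omega) hE (by omega)
    (by rw [p1']; omega) (by rw [p2', he]) (Len := 11 * (L : ℝ))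
    (by
      have h1 : v + 4 * (lam : ℤ) * (q + 1) + 2 * lam + m' + 1 - l ≤ 11 * L := by
        rw [p2']; omega
      exact_mod_cast h1) ntau hf
    (B := 25 * Δ) (fun u' h0 h1 => (hap u' h0 h1).1)
    (fun u' h0 h1 k hk => OB_mono ((hap u' h0 h1).2 k hk) (Set.Subset.refl _) (by linarith))
    y y' hy hy' (by
      intro i hi
      apply hyy i
      rw [p1'] at hi
      rw [Set.mem_Ico] at hi ⊢
      omega)
  have hph' : 25 * Δ * eP2 w g (11 * (L : ℝ)) s t lam lam' m' M q ≤ Δ / 32 := by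
    calc 25 * Δ * eP2 w g (11 * (L : ℝ)) s t lam lam' m' M q
        = Δ * (25 * eP2 w g (11 * (L : ℝ)) s t lam lam' m' M q) := by ring
      _ ≤ Δ * (1 / 32) := mul_le_mul_of_nonneg_left n4 hΔ
      _ = Δ / 32 := by ring
  have hnoi : ∀ x : Cfg, |PW c (Ico A N) (q * (t + s)) f x -
      PW (cut c l e) (Ico A N) (q * (t + s)) f x| ≤ Δ / 64 := by
    intro x
    have h1 := NOI hc hle hν0 (ν := ν) (by
      intro k hk1 hk2 s'
      obtain ⟨_, _, h3, h4, _⟩ := hn l e k hk1 hk2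
      cases s'
      · exact h3
      · exact h4) (Ico A N) hT0 hf (B := 5 * Δ)
      (fun u' h0 h1 k _ hk => (hap u' h0 h1).2 k hk) x
    refine h1.trans ?_
    have h2 : (((e + 1 - l : ℤ)) : ℝ) ≤ 11 * L := by exact_mod_cast hlen'
    calc (q : ℝ) * (t + s) * (((e + 1 - l : ℤ) : ℝ) * ν * (5 * Δ))
        ≤ (q : ℝ) * (t + s) * ((11 * L) * ν * (5 * Δ)) := by
          apply mul_le_mul_of_nonneg_left _ hT0
          apply mul_le_mul_of_nonneg_right _ (by linarith)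
          exact mul_le_mul_of_nonneg_right h2 hν0
      _ = Δ * (55 * (q * (t + s)) * (L : ℝ) * ν) := by ring
      _ ≤ Δ * (1 / 64) := mul_le_mul_of_nonneg_left n3 hΔ
      _ = Δ / 64 := by ring
  have a1 := hnoi y
  have a2 := hnoi y'
  have a3 := hph.trans hph'
  rw [abs_le] at a1 a2 a3 ⊢
  constructor <;> linarith [a1.1, a1.2, a2.1, a2.2, a3.1, a3.2]

end H72NE
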