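import Pool.Agent.H72.IPS.Bas
import Pool.Agent.H72.IPS.Asy

/-! # Near the East line: definitions

Site dependent rates, uniformised chains, semigroups on bounded functions, product averages,
spaced configurations. -/

namespace H72NE

open H72IPS Finset

/-- flip rates of the sites: `c k s y` is the rate of site `k` in state `s` with right neighbour in
state `y` -/
abbrev Rts := ℤ → Bool → Bool → ℝ

/-- all rates are in `[0,1]` -/
def Rok (c : Rts) : Prop := ∀ k s y, 0 ≤ c k s y ∧ c k s y ≤ 1

/-- rate of site `k` in the configuration `x` -/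
def rt (c : Rts) (x : Cfg) (k : ℤ) : ℝ := c k (x k) (x (k + 1))

/-- one step of the uniformised chain with active sites `W` -/
noncomputable def QW (c : Rts) (W : Finset ℤ) (R : ℝ) (g : Cfg → ℝ) (x : Cfg) : ℝ :=
  g x + R⁻¹ * ∑ k ∈ W, rt c x k * (g (flip x k) - g x)

/-- bounded functions -/
def Bdd (f : Cfg → ℝ) : Prop := ∃ C : ℝ, ∀ x, |f x| ≤ C

/-- `f` changes by at most `B` when the configuration is changed in `S` only -/
def OB (S : Set ℤ) (B : ℝ) (f : Cfg → ℝ) : Prop :=
  ∀ x y : Cfg, (∀ i, i ∉ S → x i = y i) → |f x - f y| ≤ B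

/-- `f` does not depend on the sites in `S` -/
def Ind (S : Set ℤ) (f : Cfg → ℝ) : Prop :=
  ∀ x y : Cfg, (∀ i, i ∉ S → x i = y i) → f x = f y

/-- `f` changes by at most `D` when it is changed in an interval of length at most `l` which lies
to the left of `K` -/
def OS (l : ℕ) (K : ℤ) (D : ℝ) (f : Cfg → ℝ) : Prop :=
  ∀ u v : ℤ, v ≤ K → v ≤ u + l → OB (Set.Ico u v) D f

/-- every window of `lam` sites inside `[l, r)` contains a site in state `1` -/
def Sp (lam : ℕ) (l r : ℤ) : Set Cfg :=
  {x | ∀ v : ℤ, l ≤ v → v + lam ≤ r → ∃ k, v ≤ k ∧ k < v + lam ∧ x k = true}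

open Classical in
/-- indicator of the complement of `Sp` -/
noncomputable def bad (lam : ℕ) (l r : ℤ) : Cfg → ℝ := fun x => if x ∈ Sp lam l r then 0 else 1

/-- the tail quantity of the finite speed of propagation -/
noncomputable def tl (t : ℝ) (m : ℕ) : ℝ := Real.exp (8 * t) * (1 / 8) ^ m

/-- replace the configuration in `S` by the indicator of `A` -/
def putS (S A : Finset ℤ) (x : Cfg) : Cfg := fun i => if i ∈ S then decide (i ∈ A) else x i

/-- average over the sites in `S` with respect to the Bernoulli product measure with density `P` -/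
noncomputable def Av (P : ℝ) (S : Finset ℤ) (f : Cfg → ℝ) (x : Cfg) : ℝ :=
  ∑ A ∈ S.powerset, P ^ A.card * (1 - P) ^ (S.card - A.card) * f (putS S A x)

/-- the variance over the sites in `S` -/
noncomputable def Va (P : ℝ) (S : Finset ℤ) (f : Cfg → ℝ) (x : Cfg) : ℝ :=
  Av P S (fun z => f z ^ 2) x - Av P S f x ^ 2

/-- the Dirichlet form density of site `k`: variance at `k` if the right neighbour is `1` -/
noncomputable def En (P : ℝ) (F : Cfg → ℝ) (k : ℤ) : Cfg → ℝ :=
  fun z => if z (k + 1) = true then Va P {k} F z else 0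

/-- the Poincare inequality of the East process on intervals with right boundary state `1` -/
def GapC (w γ : ℝ) : Prop :=
  ∀ P : ℝ, w ≤ P → P ≤ 1 - w → ∀ (b ξ : ℤ) (F : Cfg → ℝ) (x : Cfg), x ξ = true →
    Va P (Ico b ξ) F x ≤ γ * ∑ k ∈ Ico b ξ, Av P (Ico b ξ) (En P F k) x

/-- the rates are those of the East process on `[b, e]` -/
def EastOn (c : Rts) (P r : ℝ) (b e : ℤ) : Prop :=
  ∀ k, b ≤ k → k ≤ e → c k false false = 0 ∧ c k true false = 0 ∧ c k false true = r * P ∧
    c k true true = r * (1 - P)

/-- the rates are those of the East process with noise of rate at most `ν` on `[b, e]`;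
the death rate of isolated particles is at most `β` -/
def NoisyOn (c : Rts) (P r ν β : ℝ) (b e : ℤ) : Prop :=
  ∀ k, b ≤ k → k ≤ e → c k false true = r * P ∧ c k true true = r * (1 - P) ∧
    c k false false ≤ ν ∧ c k true false ≤ ν ∧ c k true false ≤ β

/-! ## The semigroup on bounded functions -/

/-- configurations with the discrete topology -/
def DCfg : Type := Cfg
instance : TopologicalSpace DCfg := ⊥
instance : DiscreteTopology DCfg := ⟨rfl⟩

/-- the Banach space of bounded functions -/
def BF : Type := BoundedContinuousFunction DCfg ℝ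

noncomputable instance : NormedAddCommGroup BF :=
  inferInstanceAs (NormedAddCommGroup (BoundedContinuousFunction DCfg ℝ))
noncomputable instance : NormedSpace ℝ BF :=
  inferInstanceAs (NormedSpace ℝ (BoundedContinuousFunction DCfg ℝ))
instance : CompleteSpace BF :=
  inferInstanceAs (CompleteSpace (BoundedContinuousFunction DCfg ℝ))
instance : FunLike BF Cfg ℝ :=
  inferInstanceAs (FunLike (BoundedContinuousFunction DCfg ℝ) DCfg ℝ)

namespace BF

/-- a bounded function as an element of `BF` -/
noncomputable def mk (f : Cfg → ℝ) (C : ℝ) (hf : ∀ x, |f x| ≤ C) : BF :=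
  BoundedContinuousFunction.ofNormedAddCommGroup (α := DCfg) f continuous_of_discreteTopology C
    (fun x => by simpa [Real.norm_eq_abs] using hf x)

@[simp] theorem mk_apply (f : Cfg → ℝ) (C : ℝ) (hf : ∀ x, |f x| ≤ C) (x : Cfg) :
    mk f C hf x = f x := rfl

@[ext] theorem ext {f g : BF} (h : ∀ x, f x = g x) : f = g := DFunLike.ext _ _ h

@[simp] theorem add_apply (f g : BF) (x : Cfg) : (f + g) x = f x + g x := rfl
@[simp] theorem sub_apply (f g : BF) (x : Cfg) : (f - g) x = f x - g x := rfl
@[simp] theorem neg_apply (f : BF) (x : Cfg) : (-f) x = -(f x) := rfl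
@[simp] theorem smul_apply (c : ℝ) (f : BF) (x : Cfg) : (c • f) x = c * f x := rfl
@[simp] theorem zero_apply (x : Cfg) : (0 : BF) x = 0 := rfl

theorem abs_le_norm (f : BF) (x : Cfg) : |f x| ≤ ‖f‖ :=
  BoundedContinuousFunction.norm_coe_le_norm (f : BoundedContinuousFunction DCfg ℝ) x

theorem norm_le {f : BF} {C : ℝ} (hC : 0 ≤ C) (h : ∀ x, |f x| ≤ C) : ‖f‖ ≤ C :=
  (BoundedContinuousFunction.norm_le (f := (f : BoundedContinuousFunction DCfg ℝ)) hC).2 h

/-- evaluation at a configuration, as a continuous linear functional -/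
noncomputable def ev (x : Cfg) : BF →L[ℝ] ℝ :=
  LinearMap.mkContinuous { toFun := fun f => f x, map_add' := fun _ _ => rfl, map_smul' := fun _ _ => rfl } 1
    (fun f => by rw [one_mul]; exact abs_le_norm f x)

@[simp] theorem ev_apply (x : Cfg) (f : BF) : ev x f = f x := rfl

@[simp] theorem sum_apply {ι : Type*} (s : Finset ι) (f : ι → BF) (x : Cfg) :
    (∑ i ∈ s, f i) x = ∑ i ∈ s, f i x := by
  exact map_sum (ev x) f s

end BF

/-- the rate of site `k` is bounded -/
noncomputable def rtB (c : Rts) (k : ℤ) : ℝ :=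
  |c k false false| + |c k false true| + |c k true false| + |c k true true|

theorem abs_rt_le (c : Rts) (x : Cfg) (k : ℤ) : |rt c x k| ≤ rtB c k := by
  unfold rt rtB
  have h1 := abs_nonneg (c k false false)
  have h2 := abs_nonneg (c k false true)
  have h3 := abs_nonneg (c k true false)
  have h4 := abs_nonneg (c k true true)
  cases x k <;> cases x (k + 1) <;> linarith

/-- the generator of site `k` as a bounded operator -/
noncomputable def Lc (c : Rts) (k : ℤ) : BF →L[ℝ] BF :=
  LinearMap.mkContinuous
    { toFun := fun f => BF.mk (fun x => rt c x k * (f (flip x k) - f x)) (rtB c k * 2 * ‖f‖) (by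
        intro x
        rw [abs_mul]
        have h1 := BF.abs_le_norm f (flip x k)
        have h2 := BF.abs_le_norm f x
        have h3 := abs_rt_le c x k
        have h4 : |f (flip x k) - f x| ≤ 2 * ‖f‖ := (abs_sub _ _).trans (by linarith)
        calc |rt c x k| * |f (flip x k) - f x| ≤ rtB c k * (2 * ‖f‖) :=
              mul_le_mul h3 h4 (abs_nonneg _) ((abs_nonneg _).trans h3)
          _ = rtB c k * 2 * ‖f‖ := by ring)
      map_add' := by
        intro f g; ext x; simp; ring
      map_smul' := by
        intro a f; ext x; simp; ring }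
    (rtB c k * 2) (by
      intro f
      refine BF.norm_le (mul_nonneg (mul_nonneg ?_ zero_le_two) (norm_nonneg _)) (fun x => ?_)
      · unfold rtB; positivity
      · simp only [LinearMap.coe_mk, AddHom.coe_mk, BF.mk_apply]
        rw [abs_mul]
        have h1 := BF.abs_le_norm f (flip x k)
        have h2 := BF.abs_le_norm f x
        have h3 := abs_rt_le c x k
        have h4 : |f (flip x k) - f x| ≤ 2 * ‖f‖ := (abs_sub _ _).trans (by linarith)
        calc |rt c x k| * |f (flip x k) - f x| ≤ rtB c k * (2 * ‖f‖) :=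
              mul_le_mul h3 h4 (abs_nonneg _) ((abs_nonneg _).trans h3)
          _ = rtB c k * 2 * ‖f‖ := by ring)

theorem Lc_apply (c : Rts) (k : ℤ) (f : BF) (x : Cfg) :
    Lc c k f x = rt c x k * (f (flip x k) - f x) := rfl

/-- the generator with active sites `W` -/
noncomputable def AW (c : Rts) (W : Finset ℤ) : BF →L[ℝ] BF := ∑ k ∈ W, Lc c k

/-- the semigroup with active sites `W` on `BF` -/
noncomputable def SW (c : Rts) (W : Finset ℤ) (t : ℝ) : BF →L[ℝ] BF :=
  NormedSpace.exp (t • AW c W)

open Classical in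
/-- the semigroup with active sites `W` on functions (it is `0` on unbounded functions) -/
noncomputable def PW (c : Rts) (W : Finset ℤ) (t : ℝ) (f : Cfg → ℝ) : Cfg → ℝ :=
  if h : Bdd f then fun x => SW c W t (BF.mk f h.choose h.choose_spec) x else 0

end H72NE
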