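import Pool.Agent.H72.NE.PLin

/-! # DOM: freezing one site costs a factor `exp (-t)` -/

namespace H72NE

open H72IPS Finset

/-- one step of the comparison -/
private theorem dom_step {c : Rts} (hc : Rok c) (W : Finset ℤ) (k : ℤ) {R : ℝ} (hR : 0 < R)
    {g : Cfg → ℝ} (hg : ∀ x, 0 ≤ g x) (x : Cfg) :
    R * QW c (W.erase k) R g x ≤ (R + 1) * QW c W (R + 1) g x := by
  have h1 : R * QW c (W.erase k) R g x
      = R * g x + ∑ j ∈ W.erase k, rt c x j * (g (flip x j) - g x) := by
    unfold QW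
    field_simp
  have h2 : (R + 1) * QW c W (R + 1) g x
      = (R + 1) * g x + ∑ j ∈ W, rt c x j * (g (flip x j) - g x) := by
    unfold QW
    have : R + 1 ≠ 0 := by positivity
    field_simp
  rw [h1, h2]
  obtain ⟨r0, r1⟩ := rt_mem hc x k
  by_cases hk : k ∈ W
  · rw [← Finset.add_sum_erase W _ hk]
    have h3 : 0 ≤ g x + rt c x k * (g (flip x k) - g x) := by
      have e : g x + rt c x k * (g (flip x k) - g x)
          = (1 - rt c x k) * g x + rt c x k * g (flip x k) := by ring
      rw [e]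
      have := mul_nonneg (sub_nonneg.2 r1) (hg x)
      have := mul_nonneg r0 (hg (flip x k))
      linarith
    linarith
  · rw [Finset.erase_eq_of_notMem hk]
    have := hg x
    linarith

private theorem dom_iter {c : Rts} (hc : Rok c) (W : Finset ℤ) (k : ℤ) {R : ℝ} (hR : 0 < R)
    (hW : (W.card : ℝ) ≤ R) {f : Cfg → ℝ} (hf : ∀ x, 0 ≤ f x) (n : ℕ) (x : Cfg) :
    R ^ n * (QW c (W.erase k) R)^[n] f x ≤ (R + 1) ^ n * (QW c W (R + 1))^[n] f x := by
  have hW' : ((W.erase k).card : ℝ) ≤ R := by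
    have : ((W.erase k).card : ℝ) ≤ W.card := by exact_mod_cast Finset.card_erase_le
    linarith
  have hW1 : (W.card : ℝ) ≤ R + 1 := by linarith
  induction n generalizing x with
  | zero => simp
  | succ n ih =>
    rw [Function.iterate_succ_apply', Function.iterate_succ_apply']
    have a1 : ∀ y, 0 ≤ R ^ n * (QW c (W.erase k) R)^[n] f y := fun y =>
      mul_nonneg (pow_nonneg hR.le _) (QWn_nonneg hc hW' hf n y)
    have e1 : R ^ (n + 1) * QW c (W.erase k) R ((QW c (W.erase k) R)^[n] f) x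
        = R * QW c (W.erase k) R (fun y => R ^ n * (QW c (W.erase k) R)^[n] f y) x := by
      rw [QW_smul c (W.erase k) R (R ^ n) ((QW c (W.erase k) R)^[n] f)]
      ring
    have e2 : (R + 1) ^ (n + 1) * QW c W (R + 1) ((QW c W (R + 1))^[n] f) x
        = (R + 1) * QW c W (R + 1) (fun y => (R + 1) ^ n * (QW c W (R + 1))^[n] f y) x := by
      rw [QW_smul c W (R + 1) ((R + 1) ^ n) ((QW c W (R + 1))^[n] f)]
      ring
    rw [e1, e2]
    refine (dom_step hc W k hR a1 x).trans ?_
    exact mul_le_mul_of_nonneg_left (QW_mono hc hW1 ih x) (by linarith)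

/-- Proof: let `R = card W + 1`.  `(R+1) Q_{R+1} = R + 1 + A_W` and `R Q^{erase}_R = R + A_{W.erase k}`;
the difference is `1 + L_k` (or `1` if `k ∉ W`), which maps nonnegative functions to nonnegative
functions since `rt ≤ 1`.  By induction on `n` (both are positive operators)
`(R+1)^n Q_{R+1}^n f ≥ R^n (Q^{erase}_R)^n f ≥ 0`.  Compare the two Poisson series (`PW_hasSum` with
`R + 1` and with `R`) term by term: `e^{-(R+1)t} (t (R+1))^n / n! Q_{R+1}^n f ≥
e^{-t} e^{-Rt} (t R)^n / n! (Q^{erase}_R)^n f`. -/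
theorem PW_dom {c : Rts} (hc : Rok c) (W : Finset ℤ) (k : ℤ) {t : ℝ} (ht : 0 ≤ t) {f : Cfg → ℝ}
    (hb : Bdd f) (hf : ∀ x, 0 ≤ f x) (x : Cfg) :
    Real.exp (-t) * PW c (W.erase k) t f x ≤ PW c W t f x := by
  set R : ℝ := (W.card : ℝ) + 1 with hRd
  have hR : 0 < R := by positivity
  have hW : (W.card : ℝ) ≤ R := by linarith
  have h1 := (PW_hasSum c (W.erase k) hR t hb x).mul_left (Real.exp (-t))
  have h2 := PW_hasSum c W (R := R + 1) (by linarith) t hb x
  refine hasSum_le (fun n => ?_) h1 h2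
  have h3 := dom_iter hc W k hR hW hf n x
  have e1 : Real.exp (-t) * (Real.exp (-(R * t)) * (R * t) ^ n / (n.factorial : ℝ)
      * (QW c (W.erase k) R)^[n] f x)
      = (Real.exp (-((R + 1) * t)) * t ^ n / (n.factorial : ℝ))
        * (R ^ n * (QW c (W.erase k) R)^[n] f x) := by
    have : Real.exp (-((R + 1) * t)) = Real.exp (-t) * Real.exp (-(R * t)) := by
      rw [← Real.exp_add]; congr 1; ring
    rw [this, mul_pow]; ring
  have e2 : Real.exp (-((R + 1) * t)) * ((R + 1) * t) ^ n / (n.factorial : ℝ)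
      * (QW c W (R + 1))^[n] f x
      = (Real.exp (-((R + 1) * t)) * t ^ n / (n.factorial : ℝ))
        * ((R + 1) ^ n * (QW c W (R + 1))^[n] f x) := by
    rw [mul_pow]; ring
  rw [e1, e2]
  exact mul_le_mul_of_nonneg_left h3 (by positivity)

private theorem dom_bdd_affine {h g : Cfg → ℝ} (hh : Bdd h) (hg : Bdd g) (a b s : ℝ) :
    Bdd (fun y => (a + b * g y) + s * h y) := by
  obtain ⟨C, hC⟩ := hh
  obtain ⟨D, hD⟩ := hg
  refine ⟨|a| + |b| * D + |s| * C, fun x => ?_⟩
  have h1 : |b * g x| ≤ |b| * D := by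
    rw [abs_mul]; exact mul_le_mul_of_nonneg_left (hD x) (abs_nonneg _)
  have h2 : |s * h x| ≤ |s| * C := by
    rw [abs_mul]; exact mul_le_mul_of_nonneg_left (hC x) (abs_nonneg _)
  calc |(a + b * g x) + s * h x| ≤ |a + b * g x| + |s * h x| := abs_add_le _ _
    _ ≤ |a| + |b * g x| + |s * h x| := by
        have := abs_add_le a (b * g x); linarith
    _ ≤ _ := by linarith

private theorem dom_lin (c : Rts) (W : Finset ℤ) (t : ℝ) {h g : Cfg → ℝ} (hh : Bdd h) (hg : Bdd g)
    (a b s : ℝ) (x : Cfg) :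
    PW c W t (fun y => (a + b * g y) + s * h y) x
      = a + b * PW c W t g x + s * PW c W t h x := by
  have b0 : Bdd (fun _ : Cfg => a) := ⟨|a|, fun _ => le_refl _⟩
  have b1 : Bdd (fun y => b * g y) := by
    have := dom_bdd_affine (h := fun _ => 0) ⟨0, fun _ => by simp⟩ hg 0 b 0
    simpa using this
  have b2 : Bdd (fun y => s * h y) := by
    have := dom_bdd_affine (h := h) hh (g := fun _ => 0) ⟨0, fun _ => by simp⟩ 0 0 s
    simpa using this
  have b3 : Bdd (fun y => a + b * g y) := by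
    have := dom_bdd_affine (h := fun _ => 0) ⟨0, fun _ => by simp⟩ hg a b 0
    simpa using this
  rw [PW_add c W t b3 b2 x, PW_add c W t b0 b1 x, PW_const, PW_smul c W t b hg x,
    PW_smul c W t s hh x]

/-- the remainder `PW c W t - exp (-t) PW c (W.erase k) t` is a positive operator of mass
`1 - exp (-t)` dominated by `PW c W t` (apply `PW_dom` to `a + b g ± h` and to `g`) -/
theorem PW_rem {c : Rts} (hc : Rok c) (W : Finset ℤ) (k : ℤ) {t : ℝ} (ht : 0 ≤ t) {h g : Cfg → ℝ}
    (hh : Bdd h) (hg : Bdd g) (hg0 : ∀ y, 0 ≤ g y) {a b : ℝ} (ha : 0 ≤ a) (hb : 0 ≤ b)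
    (H : ∀ y, |h y| ≤ a + b * g y) (x : Cfg) :
    |PW c W t h x - Real.exp (-t) * PW c (W.erase k) t h x|
      ≤ (1 - Real.exp (-t)) * a + b * PW c W t g x := by
  have key : ∀ s : ℝ, (∀ y, 0 ≤ (a + b * g y) + s * h y) →
      Real.exp (-t) * (a + b * PW c (W.erase k) t g x + s * PW c (W.erase k) t h x)
        ≤ a + b * PW c W t g x + s * PW c W t h x := by
    intro s hs
    have := PW_dom hc W k ht (dom_bdd_affine hh hg a b s) hs x
    rwa [dom_lin c W t hh hg, dom_lin c (W.erase k) t hh hg] at this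
  have k1 := key 1 (fun y => by have := neg_abs_le (h y); have := H y; linarith)
  have k2 := key (-1) (fun y => by have := le_abs_self (h y); have := H y; linarith)
  have p := PW_nonneg hc (W.erase k) ht hg hg0 x
  have q : 0 ≤ Real.exp (-t) * (b * PW c (W.erase k) t g x) :=
    mul_nonneg (Real.exp_pos _).le (mul_nonneg hb p)
  rw [abs_le]
  constructor
  · nlinarith
  · nlinarith

end H72NE
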