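import Pool.Agent.H72.NE.PLin

/-! # DUH: comparison of two semigroups (Duhamel)

`SW c W t - SW c' W' t = ∫_0^t SW c W (t - u) (AW c W - AW c' W') SW c' W' u du`.
Proof as for `H72IPS.SN_duhamel` (file `Pool/Agent/H72/IPS/SemB.lean`): the function
`φ u = SW c W (t - u) (SW c' W' u F) x` is differentiable with derivative
`-(SW c W (t - u) ((AW c W - AW c' W') (SW c' W' u F))) x`, of absolute value at most `E`
because `SW c W` does not increase sup bounds (`PW_abs_le`). -/

namespace H72NE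

open H72IPS Finset

private theorem duh_SW_zero (c : Rts) (W : Finset ℤ) : SW c W 0 = 1 := by
  unfold SW
  rw [zero_smul, NormedSpace.exp_zero]

private theorem duh_hasDerivAt (c : Rts) (W : Finset ℤ) (t : ℝ) :
    HasDerivAt (fun s => SW c W s) (SW c W t * AW c W) t := by
  unfold SW
  exact hasDerivAt_exp_smul_const (AW c W) t

private theorem duh_AW_SW (c : Rts) (W : Finset ℤ) (t : ℝ) (f : BF) :
    AW c W (SW c W t f) = SW c W t (AW c W f) := by
  have h : Commute (AW c W) (SW c W t) := by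
    unfold SW
    exact ((Commute.refl (AW c W)).smul_right t).exp_right
  exact congrArg (fun T : BF →L[ℝ] BF => T f) h.eq

private theorem duh_SW_hasDerivAt (c : Rts) (W : Finset ℤ) (t : ℝ) (f : BF) :
    HasDerivAt (fun s => SW c W s f) (SW c W t (AW c W f)) t := by
  have h := (duh_hasDerivAt c W t).clm_apply (hasDerivAt_const t f)
  simpa using h

private theorem duh_SW_abs {c : Rts} (hc : Rok c) (W : Finset ℤ) {s : ℝ} (hs : 0 ≤ s) (G : BF)
    {C : ℝ} (hC : 0 ≤ C) (h : ∀ x, |G x| ≤ C) : ‖SW c W s G‖ ≤ C := by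
  refine BF.norm_le hC (fun x => ?_)
  have h1 := PW_abs_le hc W hs h x
  rw [PW_eq c W s h x] at h1
  have h2 : BF.mk (fun x => G x) C h = G := BF.ext fun y => rfl
  rw [h2] at h1
  exact h1

private theorem duh_AW_apply (c : Rts) (W : Finset ℤ) (G : BF) (x : Cfg) :
    AW c W G x = ∑ k ∈ W, rt c x k * (G (flip x k) - G x) := by
  unfold AW
  have h : (∑ k ∈ W, Lc c k) G = ∑ k ∈ W, Lc c k G := by
    simp
  rw [h, BF.sum_apply]
  exact Finset.sum_congr rfl fun k _ => Lc_apply c k G x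

theorem PW_duhamel {c c' : Rts} (hc : Rok c) (W W' : Finset ℤ) {t E : ℝ} (ht : 0 ≤ t)
    {f : Cfg → ℝ} (hf : Bdd f)
    (h : ∀ u, 0 ≤ u → u ≤ t → ∀ x,
      |∑ k ∈ W, rt c x k * (PW c' W' u f (flip x k) - PW c' W' u f x)
        - ∑ k ∈ W', rt c' x k * (PW c' W' u f (flip x k) - PW c' W' u f x)| ≤ E) (x : Cfg) :
    |PW c W t f x - PW c' W' t f x| ≤ t * E := by
  obtain ⟨C, hC⟩ := hf
  set F : BF := BF.mk f C hC with hF
  have hE : 0 ≤ E := (abs_nonneg _).trans (h 0 le_rfl ht x)
  have hder : ∀ s : ℝ, HasDerivAt (fun s => SW c W (t - s) (SW c' W' s F))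
      (SW c W (t - s) (AW c' W' (SW c' W' s F) - AW c W (SW c' W' s F))) s := by
    intro s
    have h1 : HasDerivAt (fun s => SW c W (t - s)) (-(SW c W (t - s) * AW c W)) s := by
      have h2 : HasDerivAt (fun s : ℝ => t - s) (-1) s := by
        simpa using (hasDerivAt_id s).const_sub t
      have h3 := (duh_hasDerivAt c W (t - s)).scomp s h2
      rw [neg_one_smul] at h3
      exact h3
    have h4 := h1.clm_apply (duh_SW_hasDerivAt c' W' s F)
    refine h4.congr_deriv ?_
    rw [map_sub, ← duh_AW_SW c' W' s F]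
    show -(SW c W (t - s) (AW c W (SW c' W' s F))) + SW c W (t - s) (AW c' W' (SW c' W' s F)) = _
    abel
  have hbd : ∀ s, 0 ≤ s → s ≤ t →
      ‖SW c W (t - s) (AW c' W' (SW c' W' s F) - AW c W (SW c' W' s F))‖ ≤ E := by
    intro s hs0 hst
    refine duh_SW_abs hc W (by linarith) _ hE (fun y => ?_)
    rw [BF.sub_apply, duh_AW_apply, duh_AW_apply, abs_sub_comm]
    have h1 := h s hs0 hst y
    simp only [PW_eq c' W' s hC] at h1
    exact h1
  have hb := norm_image_sub_le_of_norm_deriv_le_segment' (a := 0) (b := t) (C := E)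
    (f := fun s => SW c W (t - s) (SW c' W' s F)) (fun s _ => (hder s).hasDerivWithinAt)
    (fun s hs => hbd s hs.1 hs.2.le) t ⟨ht, le_rfl⟩
  simp only [sub_self, sub_zero, duh_SW_zero] at hb
  have h5 : PW c W t f x - PW c' W' t f x = -((SW c' W' t F - SW c W t F) x) := by
    rw [BF.sub_apply, PW_eq c W t hC x, PW_eq c' W' t hC x]
    ring
  rw [h5, abs_neg, mul_comm]
  exact (BF.abs_le_norm _ x).trans hb

/-- removing one site -/
theorem PW_erase_le {c : Rts} (hc : Rok c) (W : Finset ℤ) (k : ℤ) {t E : ℝ} (ht : 0 ≤ t)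
    {f : Cfg → ℝ} (hf : Bdd f)
    (h : ∀ u, 0 ≤ u → u ≤ t → OB {k} E (PW c (W.erase k) u f)) (x : Cfg) :
    |PW c W t f x - PW c (W.erase k) t f x| ≤ t * E := by
  have hE : 0 ≤ E := (abs_nonneg _).trans (h 0 le_rfl ht x x fun _ _ => rfl)
  refine PW_duhamel hc W (W.erase k) ht hf (fun u hu0 hut y => ?_) x
  by_cases hk : k ∈ W
  · rw [← Finset.add_sum_erase W _ hk, add_sub_cancel_right, abs_mul]
    have h1 := rt_mem hc y k
    have h2 := h u hu0 hut (flip y k) y (fun i hi => by
      simp only [H72IPS.flip]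
      exact Function.update_of_ne hi _ _)
    calc |rt c y k| * |PW c (W.erase k) u f (flip y k) - PW c (W.erase k) u f y|
        ≤ 1 * E := mul_le_mul (by rw [abs_of_nonneg h1.1]; exact h1.2) h2 (abs_nonneg _) zero_le_one
      _ = E := one_mul E
  · rw [Finset.erase_eq_of_notMem hk, sub_self, abs_zero]
    exact hE

end H72NE
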