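import Pool.Agent.H72.NE.AvB

/-! # EOP: one step of the East process contracts the variance -/

namespace H72NE

open H72IPS Finset

lemma eop_split (P : ℝ) {S : Finset ℤ} {k : ℤ} (hk : k ∈ S) (f : Cfg → ℝ) :
    Av P S f = Av P (S.erase k) (Av P {k} f) := by
  rw [← Av_union P (by simp), Finset.union_comm, ← Finset.insert_eq, Finset.insert_erase hk]

/-- the term of site `k` has mean zero: average first over `{k}`; the indicator of
`z (k+1) = true` does not depend on `k` and `Av_k (Av_k F - F) = 0` -/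
theorem Av_EBo (P r R : ℝ) (b ξ : ℤ) (F : Cfg → ℝ) (x : Cfg) :
    Av P (Ico b ξ) (EBo P r R b ξ F) x = Av P (Ico b ξ) F x := by
  unfold EBo
  rw [Av_add, Av_smul, Av_sum]
  have h1 : ∀ k ∈ Ico b ξ, Av P (Ico b ξ) (fun z => if z (k + 1) = true then r * (Av P {k} F z - F z) else 0) x = 0 := by
    intro k hk
    rw [eop_split P hk]
    have h2 : Av P {k} (fun z => if z (k + 1) = true then r * (Av P {k} F z - F z) else 0) = fun _ => 0 := by
      funext y
      by_cases hy : y (k + 1) = true
      · have h3 : Av P {k} (fun z => if z (k + 1) = true then r * (Av P {k} F z - F z) else 0) y =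
            Av P {k} (fun z => r * (Av P {k} F y - F z)) y := by
          apply Av_congr
          intro z hz
          rw [if_pos (by rw [hz (k + 1) (by simp)]; exact hy)]
          have : Av P {k} F z = Av P {k} F y := Av_ind P {k} F z y (fun i hi => hz i (by simpa using hi))
          rw [this]
        rw [h3, Av_smul, Av_sub, Av_const]
        ring
      · have h3 : Av P {k} (fun z => if z (k + 1) = true then r * (Av P {k} F z - F z) else 0) y =
            Av P {k} (fun _ => 0) y := by
          apply Av_congr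
          intro z hz
          rw [if_neg (by rw [hz (k + 1) (by simp)]; exact hy)]
        rw [h3, Av_const]
    rw [h2, Av_const]
  rw [Finset.sum_eq_zero h1, mul_zero, add_zero]

lemma eop_jensen (S : Finset ℤ) (l c a : ℝ) (b : ℤ → ℝ) (hl : 0 ≤ l) (hc : 0 ≤ c) (h : l + c * S.card = 1) :
    (l * a + c * ∑ k ∈ S, b k) ^ 2 ≤ l * a ^ 2 + c * ∑ k ∈ S, b k ^ 2 := by
  set X := l * a + c * ∑ k ∈ S, b k with hX
  have h1 : 0 ≤ l * (a - X) ^ 2 + c * ∑ k ∈ S, (b k - X) ^ 2 := by
    apply add_nonneg (mul_nonneg hl (sq_nonneg _))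
    exact mul_nonneg hc (Finset.sum_nonneg fun _ _ => sq_nonneg _)
  have h2 : ∑ k ∈ S, (b k - X) ^ 2 = ∑ k ∈ S, b k ^ 2 - 2 * X * ∑ k ∈ S, b k + S.card * X ^ 2 := by
    have : ∀ k ∈ S, (b k - X) ^ 2 = b k ^ 2 - 2 * X * b k + X ^ 2 := by intro k _; ring
    rw [Finset.sum_congr rfl this, Finset.sum_add_distrib, Finset.sum_sub_distrib, ← Finset.mul_sum,
      Finset.sum_const, nsmul_eq_mul]
  rw [h2] at h1
  have h3 : l * (a - X) ^ 2 + c * (∑ k ∈ S, b k ^ 2 - 2 * X * ∑ k ∈ S, b k + S.card * X ^ 2) =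
      l * a ^ 2 + c * ∑ k ∈ S, b k ^ 2 - 2 * X * (l * a + c * ∑ k ∈ S, b k) + (l + c * S.card) * X ^ 2 := by ring
  rw [h3, h, ← hX] at h1
  nlinarith

/-- Proof: write `EBo F = (1 - ε) F + (2 r / R) ∑_k T_k F` with `ε = 2 r (ξ - b) / R ≤ 1` and
`T_k F z = Av_k F z` if `z (k+1) = true`, `F z` otherwise.  Convexity of the variance
(`Va (∑ λ_i f_i) ≤ ∑ λ_i Va f_i` for weights `λ_i ≥ 0` of sum one, because
`sd_sum` and Jensen for the square), and `Va (T_k F) = Va F - Av (En k)` (`T_k` keeps the mean, and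
`Av_k ((T_k F)²) = Av_k (F²) - En k`).  Finally the Poincare inequality `GapC`. -/
theorem Va_EBo {w γ P r g : ℝ} (hp : EPar w γ P r g) {R : ℝ} (hR0 : 0 < R) {b ξ : ℤ}
    (hbξ : b ≤ ξ) (hR : 2 * r * ((ξ - b : ℤ) : ℝ) ≤ R) (F : Cfg → ℝ) {x : Cfg} (hx : x ξ = true) :
    Va P (Ico b ξ) (EBo P r R b ξ F) x ≤ (1 - 2 * r / (γ * R)) * Va P (Ico b ξ) F x := by
  have hP0 : 0 ≤ P := hp.w_pos.le.trans hp.le_P
  have hP1 : P ≤ 1 := by linarith [hp.P_le, hp.w_pos]
  have hγ : 0 < γ := lt_of_lt_of_le one_pos hp.one_le_γ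
  set S := Ico b ξ with hS
  set m := Av P S F x with hm
  set c := 2 * r / R with hc
  have hc0 : 0 ≤ c := by have := hp.r_pos; positivity
  have hcard : ((ξ - b : ℤ) : ℝ) = S.card := by
    rw [hS, Int.card_Ico]
    have h1 : ((ξ - b).toNat : ℤ) = ξ - b := Int.toNat_of_nonneg (by omega)
    rw [← Int.cast_natCast, h1]
  have hcl : c * S.card ≤ 1 := by
    rw [hc, div_mul_eq_mul_div, div_le_one hR0, ← hcard]
    exact hR
  set l := 1 - c * S.card with hl
  have hl0 : 0 ≤ l := by linarith
  have hlc : l + c * S.card = 1 := by rw [hl]; ring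
  let T : ℤ → Cfg → ℝ := fun k z => if z (k + 1) = true then Av P {k} F z else F z
  have hE : ∀ z, EBo P r R b ξ F z - m = l * (F z - m) + c * ∑ k ∈ S, (T k z - m) := by
    intro z
    have h1 : ∀ k ∈ S, (if z (k + 1) = true then r * (Av P {k} F z - F z) else 0) = r * (T k z - F z) := by
      intro k _
      simp only [T]
      split_ifs <;> ring
    unfold EBo
    rw [← hS, Finset.sum_congr rfl h1, ← Finset.mul_sum, Finset.sum_sub_distrib, Finset.sum_sub_distrib,
      Finset.sum_const, Finset.sum_const, nsmul_eq_mul, nsmul_eq_mul, hl, hc]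
    ring
  have hT : ∀ k ∈ S, Av P S (fun z => (T k z - m) ^ 2) x = Va P S F x - Av P S (En P F k) x := by
    intro k hk
    have h1 : ∀ y, Av P {k} (fun z => (T k z - m) ^ 2) y = Av P {k} (fun z => (F z - m) ^ 2) y - En P F k y := by
      intro y
      by_cases hy : y (k + 1) = true
      · have h3 : Av P {k} (fun z => (T k z - m) ^ 2) y = Av P {k} (fun _ => (Av P {k} F y - m) ^ 2) y := by
          apply Av_congr
          intro z hz
          simp only [T]
          rw [if_pos (by rw [hz (k + 1) (by simp)]; exact hy)]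
          have : Av P {k} F z = Av P {k} F y := Av_ind P {k} F z y (fun i hi => hz i (by simpa using hi))
          rw [this]
        rw [h3, Av_const]
        unfold En Va
        rw [if_pos hy]
        have e : (fun z => (F z - m) ^ 2) = fun z => (F z ^ 2 - 2 * m * F z) + m ^ 2 := by funext z; ring
        rw [e, Av_add, Av_sub, Av_smul, Av_const]
        ring
      · have h3 : Av P {k} (fun z => (T k z - m) ^ 2) y = Av P {k} (fun z => (F z - m) ^ 2) y := by
          apply Av_congr
          intro z hz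
          simp only [T]
          rw [if_neg (by rw [hz (k + 1) (by simp)]; exact hy)]
        rw [h3]
        unfold En
        rw [if_neg hy, sub_zero]
    have hEn : Ind (({k} : Finset ℤ) : Set ℤ) (En P F k) := by
      intro y y' hyy
      unfold En
      have h2 : y (k + 1) = y' (k + 1) := hyy (k + 1) (by simp)
      have h3 : Va P {k} F y = Va P {k} F y' := Va_ind P {k} F y y' hyy
      rw [h2, h3]
    rw [Va_eq, eop_split P hk (fun z => (T k z - m) ^ 2), eop_split P hk (fun z => (F z - Av P S F x) ^ 2),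
      eop_split P hk (En P F k), Av_of_ind P hEn]
    have e : Av P {k} (fun z => (T k z - m) ^ 2) = fun y => Av P {k} (fun z => (F z - m) ^ 2) y - En P F k y := by
      funext y; exact h1 y
    rw [e, Av_sub]
  have hV : Va P S (EBo P r R b ξ F) x ≤ l * Va P S F x + c * ∑ k ∈ S, (Va P S F x - Av P S (En P F k) x) := by
    rw [Va_eq P S (EBo P r R b ξ F) x, Av_EBo P r R b ξ F x]
    have h1 : Av P S (fun z => (EBo P r R b ξ F z - m) ^ 2) x ≤
        Av P S (fun z => l * (F z - m) ^ 2 + c * ∑ k ∈ S, (T k z - m) ^ 2) x := by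
      apply Av_mono hP0 hP1
      intro y _
      rw [hE y]
      exact eop_jensen S l c _ _ hl0 hc0 hlc
    refine h1.trans (le_of_eq ?_)
    rw [Av_add, Av_smul, Av_smul, Av_sum, Finset.sum_congr rfl hT, Va_eq P S F x]
  have hgap := hp.gap P hp.le_P hp.P_le b ξ F x hx
  rw [← hS] at hgap
  refine hV.trans ?_
  rw [Finset.sum_sub_distrib, Finset.sum_const, nsmul_eq_mul]
  have h5 : l * Va P S F x + c * (S.card * Va P S F x - ∑ k ∈ S, Av P S (En P F k) x) =
      (l + c * S.card) * Va P S F x - c * ∑ k ∈ S, Av P S (En P F k) x := by ring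
  rw [h5, hlc]
  have h6 : Va P S F x / γ ≤ ∑ k ∈ S, Av P S (En P F k) x := by
    rw [div_le_iff₀ hγ, mul_comm]
    exact hgap
  have h7 : c * (Va P S F x / γ) ≤ c * ∑ k ∈ S, Av P S (En P F k) x := mul_le_mul_of_nonneg_left h6 hc0
  have h8 : (1 - 2 * r / (γ * R)) * Va P S F x = 1 * Va P S F x - c * (Va P S F x / γ) := by
    rw [hc]
    field_simp
  rw [h8]
  linarith

end H72NE
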