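import Pool.Agent.H72.NE.PLin
import Pool.Agent.H72.NE.Pois
import Pool.Agent.H72.NE.Obb

/-! # FS: finite speed of propagation (to the left) -/

namespace H72NE

open H72IPS Finset

private theorem Fs_flip_self (x : Cfg) (k : ℤ) : flip x k k = !(x k) := by
  simp [H72IPS.flip]

private theorem Fs_flip_ne (x : Cfg) {i k : ℤ} (h : i ≠ k) : flip x k i = x i := by
  simp [H72IPS.flip, h]

/-- one step.  Two configurations `x`, `x' = flip x k`.  The terms of the sites `i ≠ k - 1, k` have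
the same rates; the terms of site `k` give `-(rt x k + rt x' k) (g x - g x')`; the terms of site `k - 1`
give `rt x (k-1) ((g (flip x (k-1)) - g (flip x' (k-1))) - (g x - g x'))
+ (rt x (k-1) - rt x' (k-1)) (g (flip x' (k-1)) - g x')`.  All coefficients of differences at `k` are
nonnegative with sum at most `1`. -/
theorem QW_fs {c : Rts} (hc : Rok c) {W : Finset ℤ} {R : ℝ} (hR : (W.card : ℝ) + 1 ≤ R)
    {g : Cfg → ℝ} {k : ℤ} {δ1 δ0 : ℝ} (h1 : OB {k} δ1 g) (h0 : OB {k - 1} δ0 g) :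
    OB {k} (δ1 + R⁻¹ * δ0) (QW c W R g) := by
  classical
  have hδ1 : 0 ≤ δ1 := OB_nonneg h1
  have hδ0 : 0 ≤ δ0 := OB_nonneg h0
  have hR0 : 0 < R := by
    have : (0 : ℝ) ≤ (W.card : ℝ) := Nat.cast_nonneg _
    linarith
  have hRi : 0 < R⁻¹ := inv_pos.2 hR0
  intro x y hxy
  by_cases hk : x k = y k
  · have hxy' : x = y := by
      funext i
      by_cases hi : i = k
      · rw [hi]; exact hk
      · exact hxy i (by simpa using hi)
    subst hxy'
    rw [sub_self, abs_zero]
    have := mul_nonneg hRi.le hδ0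
    linarith
  have hne : ∀ i, i ≠ k → x i = y i := fun i hi => hxy i (by simpa using hi)
  have hfx : flip x k = y := by
    funext i
    by_cases hi : i = k
    · subst hi
      rw [Fs_flip_self]
      cases hx : x i <;> cases hy : y i <;> simp_all
    · rw [Fs_flip_ne x hi]; exact hne i hi
  have hfy : flip y k = x := by
    funext i
    by_cases hi : i = k
    · subst hi
      rw [Fs_flip_self]
      cases hx : x i <;> cases hy : y i <;> simp_all
    · rw [Fs_flip_ne y hi]; exact (hne i hi).symm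
  have hrt : ∀ i, i ≠ k → i ≠ k - 1 → rt c x i = rt c y i := by
    intro i hi hi'
    unfold rt
    rw [hne i hi, hne (i + 1) (by omega)]
  have hD : |g x - g y| ≤ δ1 := h1 x y hxy
  have hDi : ∀ i, i ≠ k → |g (flip x i) - g (flip y i)| ≤ δ1 := by
    intro i hi
    refine h1 _ _ (fun j hj => ?_)
    have hj' : j ≠ k := by simpa using hj
    by_cases hji : j = i
    · subst hji
      rw [Fs_flip_self, Fs_flip_self, hne j hj']
    · rw [Fs_flip_ne x hji, Fs_flip_ne y hji, hne j hj']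
  have key : ∀ i ∈ W, ∃ A E : ℝ,
      rt c x i * (g (flip x i) - g x) - rt c y i * (g (flip y i) - g y) = -A * (g x - g y) + E
        ∧ 0 ≤ A ∧ A ≤ 1 + (if i = k then (1 : ℝ) else 0)
        ∧ |E| ≤ A * δ1 + (if i = k - 1 then δ0 else 0) := by
    intro i _
    obtain ⟨a1, a2⟩ := rt_mem hc x i
    obtain ⟨b1, b2⟩ := rt_mem hc y i
    by_cases hi : i = k
    · subst hi
      refine ⟨rt c x i + rt c y i, 0, ?_, by linarith, ?_, ?_⟩
      · rw [hfx, hfy]; ring
      · rw [if_pos rfl]; linarith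
      · rw [if_neg (by omega), abs_zero, add_zero]
        exact mul_nonneg (by linarith) hδ1
    · by_cases hi' : i = k - 1
      · refine ⟨rt c x i, rt c x i * (g (flip x i) - g (flip y i))
          + (rt c x i - rt c y i) * (g (flip y i) - g y), by ring, a1, ?_, ?_⟩
        · rw [if_neg hi]; linarith
        · rw [if_pos hi']
          have e1 : |rt c x i * (g (flip x i) - g (flip y i))| ≤ rt c x i * δ1 := by
            rw [abs_mul, abs_of_nonneg a1]
            exact mul_le_mul_of_nonneg_left (hDi i hi) a1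
          have e2 : |(rt c x i - rt c y i) * (g (flip y i) - g y)| ≤ 1 * δ0 := by
            rw [abs_mul]
            refine mul_le_mul ?_ ?_ (abs_nonneg _) zero_le_one
            · rw [abs_le]; constructor <;> linarith
            · refine h0 _ _ (fun j hj => ?_)
              have hj' : j ≠ k - 1 := by simpa using hj
              rw [Fs_flip_ne y (by rw [hi']; exact hj')]
          have := abs_add_le (rt c x i * (g (flip x i) - g (flip y i)))
            ((rt c x i - rt c y i) * (g (flip y i) - g y))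
          linarith
      · refine ⟨rt c x i, rt c x i * (g (flip x i) - g (flip y i)), ?_, a1, ?_, ?_⟩
        · rw [← hrt i hi hi']; ring
        · rw [if_neg hi]; linarith
        · rw [if_neg hi', add_zero, abs_mul, abs_of_nonneg a1]
          exact mul_le_mul_of_nonneg_left (hDi i hi) a1
  choose! A E hT hA0 hA1 hE using key
  have hsA0 : 0 ≤ ∑ i ∈ W, A i := Finset.sum_nonneg (fun i hi => hA0 i hi)
  have hsA1 : ∑ i ∈ W, A i ≤ R := by
    have h2 : ∑ i ∈ W, A i ≤ ∑ i ∈ W, (1 + (if i = k then (1 : ℝ) else 0)) :=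
      Finset.sum_le_sum (fun i hi => hA1 i hi)
    rw [Finset.sum_add_distrib, Finset.sum_ite_eq'] at h2
    simp only [Finset.sum_const, nsmul_eq_mul, mul_one] at h2
    split_ifs at h2 <;> linarith
  have hsE : |∑ i ∈ W, E i| ≤ (∑ i ∈ W, A i) * δ1 + δ0 := by
    have h2 : ∑ i ∈ W, |E i| ≤ ∑ i ∈ W, (A i * δ1 + (if i = k - 1 then δ0 else 0)) :=
      Finset.sum_le_sum (fun i hi => hE i hi)
    rw [Finset.sum_add_distrib, Finset.sum_ite_eq', ← Finset.sum_mul] at h2
    have h3 := Finset.abs_sum_le_sum_abs E W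
    split_ifs at h2 <;> linarith
  have hsum : QW c W R g x - QW c W R g y
      = (1 - R⁻¹ * ∑ i ∈ W, A i) * (g x - g y) + R⁻¹ * ∑ i ∈ W, E i := by
    have h2 : ∑ i ∈ W, rt c x i * (g (flip x i) - g x) - ∑ i ∈ W, rt c y i * (g (flip y i) - g y)
        = -(∑ i ∈ W, A i) * (g x - g y) + ∑ i ∈ W, E i := by
      rw [← Finset.sum_sub_distrib, Finset.sum_congr rfl (fun i hi => hT i hi),
        Finset.sum_add_distrib, ← Finset.sum_mul, Finset.sum_neg_distrib]
    unfold QW
    linear_combination R⁻¹ * h2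
  have hco : 0 ≤ 1 - R⁻¹ * ∑ i ∈ W, A i := by
    have : R⁻¹ * ∑ i ∈ W, A i ≤ R⁻¹ * R := mul_le_mul_of_nonneg_left hsA1 hRi.le
    rw [inv_mul_cancel₀ hR0.ne'] at this
    linarith
  rw [hsum]
  have h4 : |(1 - R⁻¹ * ∑ i ∈ W, A i) * (g x - g y)| ≤ (1 - R⁻¹ * ∑ i ∈ W, A i) * δ1 := by
    rw [abs_mul, abs_of_nonneg hco]
    exact mul_le_mul_of_nonneg_left hD hco
  have h5 : |R⁻¹ * ∑ i ∈ W, E i| ≤ R⁻¹ * ((∑ i ∈ W, A i) * δ1 + δ0) := by
    rw [abs_mul, abs_of_pos hRi]
    exact mul_le_mul_of_nonneg_left hsE hRi.le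
  have h6 := abs_add_le ((1 - R⁻¹ * ∑ i ∈ W, A i) * (g x - g y)) (R⁻¹ * ∑ i ∈ W, E i)
  calc _ ≤ (1 - R⁻¹ * ∑ i ∈ W, A i) * δ1 + R⁻¹ * ((∑ i ∈ W, A i) * δ1 + δ0) := by linarith
    _ = δ1 + R⁻¹ * δ0 := by ring

/-- Proof: by induction on `n`, for all `j ≤ k`,
`OB {j} (D * 8 ^ (k - m - j) * (1 + 8 / R) ^ n) (Q^n f)` (integer power; `R = card W + 1`), then
`PW_diff_le_of` with one term. -/
theorem PW_fs {c : Rts} (hc : Rok c) (W : Finset ℤ) {t : ℝ} (ht : 0 ≤ t) {f : Cfg → ℝ} (hf : Bdd f)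
    {k : ℤ} {m : ℕ} {D : ℝ} (h1 : ∀ j, j ≤ k → OB {j} D f)
    (h0 : ∀ j, k - m < j → j ≤ k → OB {j} 0 f) : OB {k} (D * tl t m) (PW c W t f) := by
  have hD : 0 ≤ D := OB_nonneg (h1 k le_rfl)
  set R : ℝ := (W.card : ℝ) + 1 with hRdef
  have hR0 : 0 < R := by
    have : (0 : ℝ) ≤ (W.card : ℝ) := Nat.cast_nonneg _
    linarith
  have hr : 0 ≤ 1 + 8 / R := by positivity
  have main : ∀ n : ℕ, ∀ j : ℤ, j ≤ k →
      OB {j} (D * (8 : ℝ) ^ (k - m - j) * (1 + 8 / R) ^ n) ((QW c W R)^[n] f) := by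
    intro n
    induction n with
    | zero =>
      intro j hj
      simp only [pow_zero, mul_one, Function.iterate_zero, id_eq]
      by_cases hjm : k - m < j
      · exact OB_mono (h0 j hjm hj) subset_rfl (by positivity)
      · refine OB_mono (h1 j hj) subset_rfl ?_
        have h8 : (1 : ℝ) ≤ (8 : ℝ) ^ (k - m - j) := one_le_zpow₀ (by norm_num) (by omega)
        nlinarith
    | succ n ih =>
      intro j hj
      rw [Function.iterate_succ_apply']
      have hs := QW_fs hc (W := W) (R := R) (le_of_eq hRdef.symm) (ih j hj) (ih (j - 1) (by omega))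
      refine OB_mono hs subset_rfl (le_of_eq ?_)
      have h8 : (8 : ℝ) ^ (k - m - (j - 1)) = (8 : ℝ) ^ (k - m - j) * 8 := by
        rw [show k - (m : ℤ) - (j - 1) = (k - m - j) + 1 by ring, zpow_add_one₀ (by norm_num)]
      rw [h8, pow_succ]
      field_simp
  intro x y hxy
  have hfin := PW_diff_le_of hR0 ht hf x y (Finset.univ : Finset Unit)
    (fun _ => D * (8 : ℝ) ^ (k - m - k)) (fun _ => 1 + 8 / R) (c := c) (W := W) (fun n => by
      simp only [Finset.univ_unique, Finset.sum_singleton]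
      exact main n k le_rfl x y hxy)
  simp only [Finset.univ_unique, Finset.sum_singleton] at hfin
  refine hfin.trans (le_of_eq ?_)
  have e1 : R * t * (1 + 8 / R - 1) = 8 * t := by
    field_simp
    ring
  have e2 : (8 : ℝ) ^ (k - m - k) = (1 / 8) ^ m := by
    rw [show k - (m : ℤ) - k = -(m : ℤ) by ring, zpow_neg, zpow_natCast, one_div, inv_pow]
  rw [e1, e2]
  unfold tl
  ring

/-- change in an interval `[u, v)` of a function that does not depend on `[u - m, v)` -/
theorem PW_fs_Ico {c : Rts} (hc : Rok c) (W : Finset ℤ) {t : ℝ} (ht : 0 ≤ t) {f : Cfg → ℝ}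
    (hf : Bdd f) {u v : ℤ} (huv : u ≤ v) {m : ℕ} {D : ℝ} (h1 : ∀ j, j < v → OB {j} D f)
    (h0 : Ind (Set.Ico (u - m) v) f) :
    OB (Set.Ico u v) (((v - u : ℤ) : ℝ) * (D * tl t m)) (PW c W t f) := by
  refine OB_Ico_single huv (fun k hk hk' => ?_)
  refine PW_fs hc W ht hf (fun j hj => h1 j (by omega)) (fun j hj hj' => ?_)
  refine Ind_iff.1 (Ind_mono h0 ?_)
  intro i hi
  rw [Set.mem_singleton_iff] at hi
  subst hi
  rw [Set.mem_Ico]
  omega

end H72NE
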