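import Pool.Agent.H72.NE.Bri
import Pool.Agent.H72.NE.Fs
import Pool.Agent.H72.IPS.Asy

/-! # FIN: from the contraction to the loss of memory

Let `f` be a cylinder function: it depends on the sites in `[-M0, M0]` for some `M0`, `|f| ≤ C`.
Let `t ≥ 0`, `i = ⌊t / T0⌋`, `δ = t - i T0`.  For `N` large (depending on `t`), with
`W = Ico (-N) N`, `c = fun _ => cr p`:
`SN p N t f = PW c W t f = PW c W (i T0) (PW c W δ f)` (`SN_eq_PW`, `PW_comp`).
`f0 = PW c W δ f` satisfies `|f0| ≤ C`, `Ind (Iio (-M0))`, `OS L N (2 C)`.  By induction on `j ≤ i` with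
the hypothesis `h`: `OS L (N - 30 L j) (2 C / 2^j) (PW c W (j T0) f0)`.
So for an interval `[-M0, Rr)`, `Rr = M0 + ⌈9 t⌉`, covered by `a = (Rr + M0)/L + 1` intervals,
`PW c W t f` changes by at most `a 2 C / 2^i` (`OB_Ico_OS`).
For `x, y` let `y'` be `y` on the sites `< Rr` and `x` on the sites `≥ Rr`.
`|PW t f x - PW t f y'| ≤ a 2 C / 2^i` (sites `< -M0` do not matter), and
`|PW t f y' - PW t f y| ≤ ∑_{k ∈ [Rr, N]} 2 C tl t (k - M0 - 1)` by `PW_fs` (`f` does not depend on the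
sites `> M0`; `PW t f` does not depend on the sites `> N`) `≤ 2 C e^{8t} 8^{-(9t - 1)} * 8/7`.
Both bounds tend to `0` as `t → ∞`. -/

namespace H72NE

open H72IPS Finset Filter Topology

private theorem fin_exp_bound {t : ℝ} {n : ℕ} (hn : 9 * t ≤ n) :
    Real.exp (8 * t) * (1 / 8) ^ n ≤ Real.exp (-(10 * t)) := by
  have h1 : (1 / 8 : ℝ) ≤ Real.exp (-2) := by
    rw [Real.exp_neg, one_div]
    refine inv_anti₀ (Real.exp_pos _) ?_
    have h2 : Real.exp 2 = Real.exp 1 * Real.exp 1 := by rw [← Real.exp_add]; norm_num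
    have h3 := Real.exp_one_lt_d9
    have h4 := Real.exp_pos 1
    rw [h2]
    nlinarith
  have h5 : (1 / 8 : ℝ) ^ n ≤ Real.exp (-18 * t) := by
    calc (1 / 8 : ℝ) ^ n ≤ Real.exp (-2) ^ n := pow_le_pow_left₀ (by norm_num) h1 n
      _ = Real.exp (n * -2) := (Real.exp_nat_mul _ _).symm
      _ ≤ Real.exp (-18 * t) := Real.exp_le_exp.2 (by linarith)
  calc Real.exp (8 * t) * (1 / 8) ^ n ≤ Real.exp (8 * t) * Real.exp (-18 * t) :=
        mul_le_mul_of_nonneg_left h5 (Real.exp_pos _).le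
    _ = Real.exp (-(10 * t)) := by rw [← Real.exp_add]; congr 1; ring

/-- the part with finite speed of propagation -/
theorem FIN_right {c : Rts} (hc : Rok c) {N M0 : ℕ} {t : ℝ} (ht : 0 ≤ t) {f : Cfg → ℝ} {C : ℝ}
    (hC : ∀ x, |f x| ≤ C) (hI : Ind (Set.Ioi (M0 : ℤ)) f) {Rr : ℕ} (hR : (M0 : ℝ) + 9 * t ≤ Rr)
    (hN : Rr ≤ N) {y y' : Cfg} (hy : ∀ i, i < (Rr : ℤ) → y i = y' i) :
    |PW c (Ico (-(N : ℤ)) N) t f y - PW c (Ico (-(N : ℤ)) N) t f y'|
      ≤ 20 * C * Real.exp (-(10 * t)) := by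
  have hC0 : 0 ≤ C := (abs_nonneg _).trans (hC y)
  have hbd : Bdd f := ⟨C, hC⟩
  have hMR : M0 ≤ Rr := by
    have : (M0 : ℝ) ≤ Rr := by linarith
    exact_mod_cast this
  set g := PW c (Ico (-(N : ℤ)) N) t f with hg
  have hright : OB (Set.Ioi (N : ℤ)) 0 g := by
    rw [← Ind_iff]
    refine PW_ind_right hbd (fun k hk => (Finset.mem_Ico.1 hk).2) ?_
    refine Ind_mono hI (Set.Ioi_subset_Ioi ?_)
    exact_mod_cast hMR.trans hN
  set D : ℝ := 2 * C * (Real.exp (8 * t) * (1 / 8) ^ (Rr - M0)) with hD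
  have hsite : ∀ n : ℕ, OB {((Rr : ℤ) + n)} (D * (1 / 8) ^ n) g := by
    intro n
    have h1 := PW_fs hc (Ico (-(N : ℤ)) N) ht hbd (k := (Rr : ℤ) + n) (m := Rr - M0 + n)
      (D := 2 * C) (fun j _ => OB_of_bdd hC) (by
        intro j hj1 hj2
        rw [← Ind_iff]
        refine Ind_mono hI ?_
        intro i hi
        rw [Set.mem_singleton_iff] at hi
        subst hi
        rw [Set.mem_Ioi]
        push_cast [hMR] at hj1
        omega)
    refine OB_mono h1 (le_refl _) (le_of_eq ?_)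
    rw [hD, tl, pow_add]
    ring
  have hsum : ∀ n : ℕ, OB (Set.Ico (Rr : ℤ) (Rr + n)) (D * (8 / 7) * (1 - (1 / 8) ^ n)) g := by
    intro n
    induction n with
    | zero =>
      have : Set.Ico (Rr : ℤ) (Rr + (0 : ℕ)) = ∅ := by simp
      rw [this]
      intro u v huv
      have : u = v := funext fun i => huv i (Set.notMem_empty i)
      rw [this]
      simp
    | succ n ih =>
      refine OB_mono (OB_union ih (hsite n)) ?_ (le_of_eq ?_)
      · intro i hi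
        rw [Set.mem_Ico] at hi
        rw [Set.mem_union, Set.mem_Ico, Set.mem_singleton_iff]
        push_cast at hi
        by_cases h : i = (Rr : ℤ) + n
        · exact Or.inr h
        · left; omega
      · rw [pow_succ]; ring
  have htot : OB (Set.Ici (Rr : ℤ)) (20 * C * Real.exp (-(10 * t))) g := by
    refine OB_mono (OB_union (hsum (N - Rr + 1)) hright) ?_ ?_
    · intro i hi
      rw [Set.mem_Ici] at hi
      rw [Set.mem_union, Set.mem_Ico, Set.mem_Ioi]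
      push_cast [hN]
      by_cases h : i ≤ N
      · left; omega
      · right; omega
    · have h1 : Real.exp (8 * t) * (1 / 8) ^ (Rr - M0) ≤ Real.exp (-(10 * t)) := by
        refine fin_exp_bound ?_
        rw [Nat.cast_sub hMR]
        linarith
      have h2 : (0 : ℝ) ≤ (1 / 8) ^ (N - Rr + 1) := by positivity
      have hE := Real.exp_pos (-(10 * t))
      have hD0 : 0 ≤ D := by rw [hD]; positivity
      have hD1 : D ≤ 2 * C * Real.exp (-(10 * t)) := by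
        rw [hD]; exact mul_le_mul_of_nonneg_left h1 (by positivity)
      have h3 : D * (8 / 7) * (1 - (1 / 8) ^ (N - Rr + 1)) ≤ D * (8 / 7) := by
        have : 0 ≤ D * (8 / 7) * (1 / 8) ^ (N - Rr + 1) := by positivity
        linarith
      have h4 : 0 ≤ C * Real.exp (-(10 * t)) := by positivity
      linarith
  refine htot y y' fun i hi => hy i ?_
  rw [Set.mem_Ici, not_le] at hi
  exact hi

/-- the part from the contraction: `i` iterations -/
theorem FIN_iter {c : Rts} (hc : Rok c) {L : ℕ} (hL : 1 ≤ L) {T0 : ℝ} (hT0 : 0 < T0) {N M0 : ℕ}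
    (h : ∀ (K : ℤ) (Δ : ℝ) (f : Cfg → ℝ), Bdd f → OS L (K + 30 * L) Δ f →
      Ind (Set.Iio (-(M0 : ℤ))) f → K + 30 * L ≤ N →
      OS L K (Δ / 2) (PW c (Ico (-(N : ℤ)) N) T0 f)) {f : Cfg → ℝ} {C : ℝ}
    (hC : ∀ x, |f x| ≤ C) (hI : Ind (Set.Iio (-(M0 : ℤ))) f) (i : ℕ) :
    OS L (N - 30 * L * i) (2 * C / 2 ^ i) (PW c (Ico (-(N : ℤ)) N) (i * T0) f) := by
  have hbd : Bdd f := ⟨C, hC⟩
  induction i with
  | zero =>
    simp only [Nat.cast_zero, zero_mul]
    rw [PW_zero c _ hbd]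
    intro u v _ _
    refine OB_mono (OB_of_bdd hC) (le_refl _) ?_
    simp
  | succ i ih =>
    have e1 : ((i + 1 : ℕ) : ℝ) * T0 = T0 + i * T0 := by push_cast; ring
    rw [e1, PW_comp c _ T0 (i * T0) hbd]
    have e2 : (2 * C / 2 ^ (i + 1) : ℝ) = 2 * C / 2 ^ i / 2 := by
      rw [pow_succ, div_div]
    rw [e2]
    refine h _ _ _ (PW_bdd _ _ _ _) ?_ (PW_ind hbd hI) ?_
    · have e3 : (N : ℤ) - 30 * L * ((i + 1 : ℕ) : ℤ) + 30 * L = N - 30 * L * i := by
        push_cast; ring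
      rw [e3]
      exact ih
    · have e3 : (N : ℤ) - 30 * L * ((i + 1 : ℕ) : ℤ) + 30 * L = N - 30 * L * i := by
        push_cast; ring
      rw [e3]
      have : (0 : ℤ) ≤ 30 * L * i := by positivity
      omega

private theorem fin_lim (A B C T0 : ℝ) (hT0 : 0 < T0) :
    Tendsto (fun t : ℝ => (A + B * (⌊t / T0⌋₊ : ℝ)) * (2 * C / 2 ^ ⌊t / T0⌋₊)
      + 20 * C * Real.exp (-(10 * t))) atTop (𝓝 0) := by
  have h1 : Tendsto (fun n : ℕ => (A + B * (n : ℝ)) * (2 * C / 2 ^ n)) atTop (𝓝 0) := by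
    have h2 : Tendsto (fun n : ℕ => (n : ℝ) ^ 1 / (2 : ℝ) ^ n) atTop (𝓝 0) :=
      tendsto_pow_const_div_const_pow_of_one_lt 1 (by norm_num)
    have h3 : Tendsto (fun n : ℕ => (n : ℝ) ^ 0 / (2 : ℝ) ^ n) atTop (𝓝 0) :=
      tendsto_pow_const_div_const_pow_of_one_lt 0 (by norm_num)
    have h4 := (h3.const_mul (A * (2 * C))).add (h2.const_mul (B * (2 * C)))
    simp only [mul_zero, add_zero] at h4
    refine h4.congr fun n => ?_
    ring
  have h5 : Tendsto (fun t : ℝ => ⌊t / T0⌋₊) atTop atTop :=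
    tendsto_nat_floor_atTop.comp (tendsto_id.atTop_div_const hT0)
  have h6 : Tendsto (fun t : ℝ => 20 * C * Real.exp (-(10 * t))) atTop (𝓝 0) := by
    have h7 : Tendsto (fun t : ℝ => Real.exp (-(10 * t))) atTop (𝓝 0) := by
      refine Real.tendsto_exp_atBot.comp ?_
      exact tendsto_neg_atTop_atBot.comp (tendsto_id.const_mul_atTop (by norm_num : (0:ℝ) < 10))
    simpa using h7.const_mul (20 * C)
  have h8 := (h1.comp h5).add h6
  simpa using h8

theorem FIN {p : Bool → Bool → ℝ} (hp : IsProb p) {L : ℕ} (hL : 1 ≤ L) {T0 : ℝ} (hT0 : 0 < T0)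
    (h : ∀ (N M0 : ℕ) (K : ℤ) (Δ : ℝ) (f : Cfg → ℝ), Bdd f → OS L (K + 30 * L) Δ f →
      Ind (Set.Iio (-(M0 : ℤ))) f → M0 + 12 * L ≤ N → K + 30 * L ≤ N →
      OS L K (Δ / 2) (PW (fun _ => cr p) (Ico (-(N : ℤ)) N) T0 f)) : AsympConst p := by
  intro f hf η hη
  obtain ⟨S, hS⟩ := hf
  obtain ⟨C, hC⟩ := CC_bdd f
  have hbd : Bdd f := ⟨C, hC⟩
  have hc := Rok_cr hp
  set M0 : ℕ := S.sup Int.natAbs with hM0
  have hM : ∀ i ∈ S, i.natAbs ≤ M0 := fun i hi => Finset.le_sup (f := Int.natAbs) hi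
  have hIr : Ind (Set.Ioi (M0 : ℤ)) f := by
    intro x y hxy
    refine hS x y fun i hi => hxy i ?_
    have := hM i hi
    rw [Set.mem_Ioi]
    omega
  have hIl : Ind (Set.Iio (-(M0 : ℤ))) f := by
    intro x y hxy
    refine hS x y fun i hi => hxy i ?_
    have := hM i hi
    rw [Set.mem_Iio]
    omega
  have hC0 : 0 ≤ C := (abs_nonneg _).trans (hC fun _ => false)
  have hlim := fin_lim (2 * M0 + 9 * T0 + 1) (9 * T0) C T0 hT0
  have hev := (hlim.eventually (gt_mem_nhds hη)).and (eventually_ge_atTop (0 : ℝ))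
  obtain ⟨t0, ht0⟩ := Filter.eventually_atTop.1 hev
  refine ⟨t0, fun t ht => ?_⟩
  obtain ⟨hlt, htn⟩ := ht0 t ht
  set i := ⌊t / T0⌋₊ with hi
  set Rr : ℕ := M0 + ⌈9 * t⌉₊ with hRr
  refine ⟨1 + M0 + 12 * L + Rr + 30 * L * i, fun N hN x y => ?_⟩
  rw [SN_eq_PW p (by omega) t f x, SN_eq_PW p (by omega) t f y]
  set W := Ico (-(N : ℤ)) (N : ℤ) with hW
  set c : Rts := fun _ => cr p with hcdef
  -- splitting of the time
  have hdiv : (i : ℝ) ≤ t / T0 := Nat.floor_le (by positivity)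
  have hiT : (i : ℝ) * T0 ≤ t := by rwa [le_div_iff₀ hT0] at hdiv
  have hdiv2 : t / T0 < i + 1 := Nat.lt_floor_add_one _
  have hiT2 : t < (i + 1) * T0 := by rwa [div_lt_iff₀ hT0] at hdiv2
  have hδ : 0 ≤ t - i * T0 := by linarith
  have hsplit : PW c W t f = PW c W (i * T0) (PW c W (t - i * T0) f) := by
    rw [← PW_comp c W _ _ hbd]
    congr 1
    ring
  have hOS := FIN_iter hc hL hT0 (N := N) (M0 := M0)
    (fun K Δ g hg hOSg hIg hKN => h N M0 K Δ g hg hOSg hIg (by omega) hKN)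
    (f := PW c W (t - i * T0) f) (C := C) (PW_abs_le hc W hδ hC) (PW_ind hbd hIl) i
  rw [← hW, ← hsplit] at hOS
  have hOB := OB_Ico_OS hOS (2 * M0 + ⌈9 * t⌉₊) (u := -(M0 : ℤ)) (v := (Rr : ℤ)) (by
    have h1 : Rr + 30 * L * i ≤ N := by omega
    have h2 : ((Rr + 30 * L * i : ℕ) : ℤ) ≤ N := by exact_mod_cast h1
    push_cast at h2 ⊢
    linarith) (by
    have h1 : 2 * M0 + ⌈9 * t⌉₊ ≤ (2 * M0 + ⌈9 * t⌉₊) * L := Nat.le_mul_of_pos_right _ hL
    have h2 : ((2 * M0 + ⌈9 * t⌉₊ : ℕ) : ℤ) ≤ (((2 * M0 + ⌈9 * t⌉₊) * L : ℕ) : ℤ) := by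
      exact_mod_cast h1
    rw [hRr]
    push_cast at h2 ⊢
    linarith)
  have hInd0 : OB (Set.Iio (-(M0 : ℤ))) 0 (PW c W t f) := by
    rw [← Ind_iff]
    exact PW_ind hbd hIl
  set y' : Cfg := fun j => if j < (Rr : ℤ) then y j else x j with hy'
  have b1 : |PW c W t f x - PW c W t f y'| ≤
      0 + ((2 * M0 + ⌈9 * t⌉₊ : ℕ) : ℝ) * (2 * C / 2 ^ i) := by
    refine (OB_union hInd0 hOB) x y' fun j hj => ?_
    rw [Set.mem_union, not_or, Set.mem_Iio, Set.mem_Ico] at hj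
    have : ¬ j < (Rr : ℤ) := by omega
    simp only [hy', if_neg this]
  have b2 : |PW c W t f y' - PW c W t f y| ≤ 20 * C * Real.exp (-(10 * t)) := by
    refine FIN_right hc htn hC hIr (Rr := Rr) ?_ (by omega) fun j hj => ?_
    · rw [hRr]
      push_cast
      have := Nat.le_ceil (9 * t)
      linarith
    · simp only [hy', if_pos hj]
  have b3 : ((2 * M0 + ⌈9 * t⌉₊ : ℕ) : ℝ) ≤ (2 * M0 + 9 * T0 + 1) + 9 * T0 * i := by
    push_cast
    have := Nat.ceil_lt_add_one (show (0 : ℝ) ≤ 9 * t by positivity)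
    nlinarith
  have b4 : 0 ≤ 2 * C / 2 ^ i := by positivity
  have b5 := mul_le_mul_of_nonneg_right b3 b4
  have b6 : |PW c W t f x - PW c W t f y| ≤
      |PW c W t f x - PW c W t f y'| + |PW c W t f y' - PW c W t f y| := abs_sub_le _ _ _
  linarith

end H72NE
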