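import Pool.Agent.H72.NE.Bis2

/-! # GAPR: the uniform Poincare inequality of the East process

Let `ρ = sqrt (1 - w) < 1` and `C = 1 / (1 - ρ)`.  For `w ≤ P ≤ 1 - w`:
* `PI P (C ^ 15) (2 ^ 15)` from `PI_one` and 15 times `PI_double` (`1/(1 - sqrt (1 - P)) ≤ C`).
* `n_10 = 2 ^ 15 ≥ 2 * 10 ^ 4`, `n_{k+1} = 2 n_k - k ^ 4` (use `PI_bisect` with `s = Δ = k ^ 2`).  By
  induction `n_k ≥ 2 k ^ 4` for `k ≥ 10` (`n_{k+1} ≥ 3/2 n_k ≥ 3 k ^ 4 ≥ 2 (k+1) ^ 4`) and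
  `n_k ≥ k` is unbounded.
* The constants: `Γ_{k+1} = Γ_k (1 + 1/k²) / (1 - sqrt ((1 - P) ^ (k²)))`, and with
  `y = sqrt ((1 - P) ^ (k²)) ≤ ρ ^ k`: `1 / (1 - y) ≤ exp (y / (1 - y)) ≤ exp (C ρ ^ k)`,
  `1 + 1/k² ≤ exp (1 / k²)`.  Hence `Γ_k ≤ C ^ 15 * exp (∑_{j<k, j ≥ 10} 1/j² + C ∑ ρ ^ j)
  ≤ C ^ 15 exp (2 + C ^ 2)`. -/

namespace H72NE

open H72IPS Finset

/-- the exponent of the constant after `k` steps -/
private noncomputable def gaprE (ρ C : ℝ) (k : ℕ) : ℝ :=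
  (1 - 1 / ((k : ℝ) - 1)) + C ^ 2 * (1 - ρ ^ k)

private theorem gapr_base {P ρ C : ℝ} (h0 : 0 < P) (h1 : P < 1) (hρ : Real.sqrt (1 - P) ≤ ρ)
    (hρ1 : ρ < 1) (hC : C = 1 / (1 - ρ)) (i : ℕ) : PI P (C ^ i) (2 ^ i) := by
  have hC0 : 0 < C := by
    rw [hC]; exact one_div_pos.2 (by linarith)
  induction i with
  | zero => simpa using PI_one h0 h1
  | succ i ih =>
    have h := PI_double h0 h1 (pow_nonneg hC0.le i) ih
    refine PI_mono h0 h1 h ?_ (by rw [pow_succ]; omega)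
    rw [pow_succ, div_eq_mul_inv]
    refine mul_le_mul_of_nonneg_left ?_ (pow_nonneg hC0.le i)
    rw [hC, one_div]
    exact inv_anti₀ (by linarith) (by linarith)

private theorem gapr_step {P ρ C : ℝ} (h0 : 0 < P) (h1 : P < 1)
    (hρP : Real.sqrt (1 - P) ≤ ρ) (hρ1 : ρ < 1) (hC : C = 1 / (1 - ρ)) {K : ℝ} (hK : 0 ≤ K)
    {k : ℕ} (hk : 10 ≤ k) {n : ℕ} (hn : 2 * k ^ 4 ≤ n)
    (h : PI P (K * Real.exp (gaprE ρ C k)) n) :
    ∃ n' : ℕ, 2 * (k + 1) ^ 4 ≤ n' ∧ PI P (K * Real.exp (gaprE ρ C (k + 1))) n' := by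
  have hρ0 : 0 ≤ ρ := (Real.sqrt_nonneg _).trans hρP
  have hC0 : 0 < C := by
    rw [hC]; exact one_div_pos.2 (by linarith)
  have hCρ : C * (1 - ρ) = 1 := by
    rw [hC, one_div]; exact inv_mul_cancel₀ (by linarith)
  have hkR : (10 : ℝ) ≤ (k : ℝ) := by exact_mod_cast hk
  have hk2 : 1 ≤ k ^ 2 := Nat.one_le_pow _ _ (by omega)
  have hk4 : k ^ 4 = k ^ 2 * k ^ 2 := by ring
  have hpow : 2 * (k + 1) ^ 4 ≤ 3 * k ^ 4 := by
    have : (2 : ℝ) * ((k : ℝ) + 1) ^ 4 ≤ 3 * (k : ℝ) ^ 4 := by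
      have h11 : (k : ℝ) + 1 ≤ 1.1 * (k : ℝ) := by linarith
      have := pow_le_pow_left₀ (by linarith) h11 4
      have h4 : 0 ≤ (k : ℝ) ^ 4 := by positivity
      nlinarith
    exact_mod_cast this
  refine ⟨2 * n - k ^ 4, by omega, ?_⟩
  have hb := PI_bisect (P := P) h0 h1 (Γ := K * Real.exp (gaprE ρ C k)) (by positivity)
    (n := n) (n' := 2 * n - k ^ 4) (s := k ^ 2) (Δ := k ^ 2) hk2 hk2 (by omega) h
  refine PI_mono h0 h1 hb ?_ le_rfl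
  -- the constant
  set y := Real.sqrt ((1 - P) ^ (k ^ 2)) with hy
  have hy0 : 0 ≤ y := Real.sqrt_nonneg _
  have hyρ : y ≤ ρ ^ k := by
    have e : y = (Real.sqrt (1 - P)) ^ (k ^ 2) := by
      rw [hy, Real.sqrt_eq_iff_mul_self_eq (pow_nonneg (by linarith) _)
        (pow_nonneg (Real.sqrt_nonneg _) _), ← mul_pow, Real.mul_self_sqrt (by linarith)]
    rw [e]
    calc (Real.sqrt (1 - P)) ^ (k ^ 2) ≤ ρ ^ (k ^ 2) :=
          pow_le_pow_left₀ (Real.sqrt_nonneg _) hρP _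
      _ ≤ ρ ^ k := pow_le_pow_of_le_one hρ0 hρ1.le (by nlinarith)
  have hρk : ρ ^ k ≤ ρ := by
    calc ρ ^ k ≤ ρ ^ 1 := pow_le_pow_of_le_one hρ0 hρ1.le (by omega)
      _ = ρ := pow_one ρ
  have hyle : y ≤ ρ := hyρ.trans hρk
  have h1y : 0 < 1 - y := by linarith
  have hinv : 1 / (1 - y) ≤ Real.exp (C * ρ ^ k) := by
    have h2 : 1 / (1 - y) ≤ C * ρ ^ k + 1 := by
      have e : 1 / (1 - y) = y * (1 / (1 - y)) + 1 := by
        field_simp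
        ring
      have h3 : 1 / (1 - y) ≤ C := by
        rw [hC]; exact one_div_le_one_div_of_le (by linarith) (by linarith)
      rw [e]
      have : y * (1 / (1 - y)) ≤ ρ ^ k * C :=
        mul_le_mul hyρ h3 (one_div_pos.2 h1y).le (pow_nonneg hρ0 _)
      linarith
    exact h2.trans (Real.add_one_le_exp _)
  have hs : 1 + 1 / ((k ^ 2 : ℕ) : ℝ) ≤ Real.exp (1 / (((k : ℝ) - 1)) - 1 / (k : ℝ)) := by
    have h2 : 1 / ((k ^ 2 : ℕ) : ℝ) ≤ 1 / (((k : ℝ) - 1)) - 1 / (k : ℝ) := by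
      have e : 1 / (((k : ℝ) - 1)) - 1 / (k : ℝ) = 1 / ((k : ℝ) * ((k : ℝ) - 1)) := by
        have : (k : ℝ) - 1 ≠ 0 := by linarith
        have : (k : ℝ) ≠ 0 := by linarith
        field_simp
        ring
      rw [e]
      push_cast
      exact one_div_le_one_div_of_le (by nlinarith) (by nlinarith)
    have := Real.add_one_le_exp (1 / (((k : ℝ) - 1)) - 1 / (k : ℝ))
    linarith
  have hE : Real.exp (gaprE ρ C (k + 1)) = Real.exp (gaprE ρ C k)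
      * Real.exp (1 / (((k : ℝ) - 1)) - 1 / (k : ℝ)) * Real.exp (C * ρ ^ k) := by
    rw [← Real.exp_add, ← Real.exp_add]
    congr 1
    unfold gaprE
    push_cast
    have : C ^ 2 * (1 - ρ ^ (k + 1)) = C ^ 2 * (1 - ρ ^ k) + C * (C * (1 - ρ)) * ρ ^ k := by ring
    rw [this, hCρ]
    have e2 : (k : ℝ) + 1 - 1 = k := by ring
    rw [e2]
    ring
  rw [hE]
  calc K * Real.exp (gaprE ρ C k) * (1 + 1 / ((k ^ 2 : ℕ) : ℝ)) / (1 - y)
      = K * Real.exp (gaprE ρ C k) * ((1 + 1 / ((k ^ 2 : ℕ) : ℝ)) * (1 / (1 - y))) := by ring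
    _ ≤ K * Real.exp (gaprE ρ C k) * (Real.exp (1 / (((k : ℝ) - 1)) - 1 / (k : ℝ))
          * Real.exp (C * ρ ^ k)) := by
        refine mul_le_mul_of_nonneg_left ?_ (by positivity)
        exact mul_le_mul hs hinv (one_div_pos.2 h1y).le (Real.exp_pos _).le
    _ = _ := by ring

private theorem gapr_all {P ρ C : ℝ} (h0 : 0 < P) (h1 : P < 1)
    (hρP : Real.sqrt (1 - P) ≤ ρ) (hρ1 : ρ < 1) (hC : C = 1 / (1 - ρ)) (j : ℕ) :
    ∃ n : ℕ, 2 * (10 + j) ^ 4 ≤ n ∧ PI P (C ^ 15 * Real.exp (gaprE ρ C (10 + j))) n := by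
  have hρ0 : 0 ≤ ρ := (Real.sqrt_nonneg _).trans hρP
  have hC0 : 0 < C := by
    rw [hC]; exact one_div_pos.2 (by linarith)
  induction j with
  | zero =>
    refine ⟨2 ^ 15, by norm_num, ?_⟩
    refine PI_mono h0 h1 (gapr_base h0 h1 hρP hρ1 hC 15) ?_ le_rfl
    have hE : 0 ≤ gaprE ρ C (10 + 0) := by
      unfold gaprE
      have h2 : ρ ^ (10 + 0) ≤ 1 := pow_le_one₀ hρ0 hρ1.le
      have h3 : 0 ≤ C ^ 2 * (1 - ρ ^ (10 + 0)) := mul_nonneg (sq_nonneg _) (by linarith)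
      have h4 : (0 : ℝ) ≤ 1 - 1 / (((10 + 0 : ℕ) : ℝ) - 1) := by norm_num
      exact add_nonneg h4 h3
    exact le_mul_of_one_le_right (by positivity) (Real.one_le_exp hE)
  | succ j ih =>
    obtain ⟨n, hn, h⟩ := ih
    obtain ⟨n', hn', h'⟩ := gapr_step h0 h1 hρP hρ1 hC (pow_nonneg hC0.le 15) (k := 10 + j)
      (by omega) hn h
    exact ⟨n', hn', h'⟩

theorem exists_gap {w : ℝ} (hw : 0 < w) (hw2 : w ≤ 1 / 2) : ∃ γ : ℝ, 1 ≤ γ ∧ GapC w γ := by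
  set ρ := Real.sqrt (1 - w) with hρ
  have hρ0 : 0 ≤ ρ := Real.sqrt_nonneg _
  have hρ1 : ρ < 1 := by
    rw [hρ, Real.sqrt_lt' one_pos]; linarith
  set C := 1 / (1 - ρ) with hC
  have hC1 : 1 ≤ C := by
    rw [hC, one_le_div (by linarith)]; linarith
  have hC0 : 0 < C := by linarith
  refine ⟨C ^ 15 * Real.exp (1 + C ^ 2), ?_, ?_⟩
  · exact one_le_mul_of_one_le_of_one_le (one_le_pow₀ hC1)
      (Real.one_le_exp (by positivity))
  intro P hP hP1 b ξ F x hx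
  have h0 : 0 < P := by linarith
  have h1 : P < 1 := by linarith
  have hρP : Real.sqrt (1 - P) ≤ ρ := Real.sqrt_le_sqrt (by linarith)
  obtain ⟨n, hn, h⟩ := gapr_all h0 h1 hρP hρ1 hC (ξ - b).toNat
  have hmono : PI P (C ^ 15 * Real.exp (1 + C ^ 2)) n := by
    refine PI_mono h0 h1 h ?_ le_rfl
    refine mul_le_mul_of_nonneg_left (Real.exp_le_exp.2 ?_) (by positivity)
    unfold gaprE
    have h2 : 0 ≤ ρ ^ (10 + (ξ - b).toNat) := pow_nonneg hρ0 _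
    have h3 : C ^ 2 * (1 - ρ ^ (10 + (ξ - b).toNat)) ≤ C ^ 2 * 1 :=
      mul_le_mul_of_nonneg_left (by linarith) (sq_nonneg _)
    have h4 : 0 ≤ 1 / (((10 + (ξ - b).toNat : ℕ) : ℝ) - 1) := by
      refine one_div_nonneg.2 ?_
      push_cast
      have : (0 : ℝ) ≤ ((ξ - b).toNat : ℝ) := Nat.cast_nonneg _
      linarith
    linarith
  refine hmono b ξ ?_ F x hx
  have h5 : (ξ - b).toNat ≤ n := by
    have : 10 + (ξ - b).toNat ≤ (10 + (ξ - b).toNat) ^ 4 := Nat.le_self_pow (by norm_num) _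
    omega
  have h6 : ξ - b ≤ ((ξ - b).toNat : ℤ) := Int.self_le_toNat _
  have h7 : ((ξ - b).toNat : ℤ) ≤ (n : ℤ) := by exact_mod_cast h5
  linarith

end H72NE
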