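import Pool.Agent.H72.NE.Mb
import Pool.Agent.H72.NE.PLin
import Pool.Agent.H72.NE.Pois
import Pool.Agent.H72.NE.Obb

/-! # HL: improvement of the spacing in the long run

`bad μ l' r' ≤ ∑_v noOne v (v + μ)` (at most `r' - l'` windows, `l' ≤ v`, `v + μ ≤ r'`).  For each window
take a particle `ξ ∈ [v + μ, v + μ + 2 lam)` of `y` (`v + μ + 2 lam ≤ r' + 2 lam ≤ ρ`).
`h = noOne v (v + μ)` does not depend on the sites `< v`, so `PW c (Ico A N) t h = PW c (Ico v N) t h`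
(`PW_aut`).  Apply `MB` with `b = v`, `u = v + μ`, `ν = β = 0` (`EastOn` gives `NoisyOn`),
`ϖ = (1-w)^μ` (`Av_noOne_le`), `R = 8 (N - v) + 16`; then `PW_le_of`; `ξ - v ≤ μ + 2 lam`,
`e + 1 - ξ ≥ M`. -/

namespace H72NE

open H72IPS Finset

private theorem hl_window {w γ P r g : ℝ} (hp : EPar w γ P r g) {c : Rts} (hc : Rok c)
    {A l l' r' ρ e N : ℤ}
    {lam μ M : ℕ} (hAl : A ≤ l) (hl : l ≤ l')
    (hr : r' + 2 * lam ≤ ρ) (hρ : ρ + M ≤ e) (heN : e < N) (hE : EastOn c P r l e) {t : ℝ}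
    (ht : 0 ≤ t) {y : Cfg} (hy : y ∈ Sp (2 * lam) l ρ) {v : ℤ} (hv : l' ≤ v) (hv2 : v + μ ≤ r') :
    PW c (Ico A N) t (noOne v (v + μ)) y
      ≤ (1 - w) ^ μ + w⁻¹ ^ (μ + 2 * lam) * Real.exp (-(g * t))
        + (1 / 2) ^ M * Real.exp (2 * t) := by
  obtain ⟨ξ, hξ1, hξ2, hξ3⟩ := hy (v + μ) (by omega) (by push_cast; omega)
  have hξ2' : ξ < v + μ + 2 * lam := by push_cast at hξ2; exact hξ2
  have hi : Ind (Set.Iio v) (noOne v (v + μ)) := by
    refine Ind_mono (noOne_ind v (v + μ)) ?_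
    intro i hi
    simp only [Set.mem_Iio] at hi
    simp only [Set.mem_ofPred_eq]
    omega
  rw [PW_aut (by omega : A ≤ v) (noOne_bdd _ _) hi]
  set R : ℝ := 8 * ((N - v : ℤ) : ℝ) + 16 with hRdef
  have hNv : (0 : ℝ) ≤ ((N - v : ℤ) : ℝ) := by
    have : (0 : ℤ) ≤ N - v := by omega
    exact_mod_cast this
  have hR : 0 < R := by rw [hRdef]; linarith
  have hn : NoisyOn c P r 0 0 v e := by
    intro k hk1 hk2
    obtain ⟨h1, h2, h3, h4⟩ := hE k (by omega) hk2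
    exact ⟨h3, h4, h1.le, h2.le, h2.le⟩
  have hw0 := hp.w_pos
  have hwi : 1 ≤ w⁻¹ := (one_le_inv₀ hw0).mpr (by linarith [hp.w_le])
  have key := PW_le_of (c := c) (W := Ico v N) hR ht (noOne_bdd v (v + μ)) y
    (Finset.univ : Finset (Fin 3))
    ![(1 - w) ^ μ, w⁻¹ ^ ((ξ - v).toNat), (1 / 2) ^ ((e + 1 - ξ).toNat)]
    ![1, 1 - g / R, 1 + 2 / R] 0 (by
      intro n
      have h := MB hp hc le_rfl le_rfl (b := v) (e := e) (N := N) (u := v + μ) (by omega) heN hn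
        (R := R) le_rfl (by simp; exact hp.g_pos.le) (f := noOne v (v + μ))
        (noOne_nonneg _ _) (noOne_le_one _ _) (noOne_ind v (v + μ))
        (fun y => Av_noOne_le hw0 hp.le_P hp.P_le (b := v) (u := v + μ) le_rfl le_rfl y) n
        hξ1 (by omega) hξ3
      simp only [Fin.sum_univ_three, Matrix.cons_val_zero, Matrix.cons_val_one, Matrix.cons_val,
        one_pow, mul_one]
      simp only [mul_zero, zero_mul, zero_div, add_zero] at h ⊢
      linarith)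
  refine key.trans ?_
  simp only [Fin.sum_univ_three, Matrix.cons_val_zero, Matrix.cons_val_one, Matrix.cons_val]
  have e1 : R * t * (1 - 1) = 0 := by ring
  have e2 : R * t * (1 - g / R - 1) = -(g * t) := by field_simp; ring
  have e3 : R * t * (1 + 2 / R - 1) = 2 * t := by field_simp; ring
  rw [e1, e2, e3, Real.exp_zero, mul_one, zero_mul, add_zero]
  have h1 : w⁻¹ ^ ((ξ - v).toNat) ≤ w⁻¹ ^ (μ + 2 * lam) :=
    pow_le_pow_right₀ hwi (by omega)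
  have h2 : ((1 : ℝ) / 2) ^ ((e + 1 - ξ).toNat) ≤ (1 / 2) ^ M :=
    pow_le_pow_of_le_one (by norm_num) (by norm_num) (by omega)
  have h3 := mul_le_mul_of_nonneg_right h1 (Real.exp_pos (-(g * t))).le
  have h4 := mul_le_mul_of_nonneg_right h2 (Real.exp_pos (2 * t)).le
  linarith

theorem HL {w γ P r g : ℝ} (hp : EPar w γ P r g) {c : Rts} (hc : Rok c) {A l l' r' ρ e N : ℤ}
    {lam μ M : ℕ} (hlam : 1 ≤ lam) (hμ : 1 ≤ μ) (hAl : A ≤ l) (hl : l ≤ l') (hlr : l' ≤ r')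
    (hr : r' + 2 * lam ≤ ρ) (hρ : ρ + M ≤ e) (heN : e < N) (hE : EastOn c P r l e) {t : ℝ}
    (ht : 0 ≤ t) {y : Cfg} (hy : y ∈ Sp (2 * lam) l ρ) :
    PW c (Ico A N) t (bad μ l' r') y
      ≤ ((r' - l' : ℤ) : ℝ) * ((1 - w) ^ μ + w⁻¹ ^ (μ + 2 * lam) * Real.exp (-(g * t))
        + (1 / 2) ^ M * Real.exp (2 * t)) := by
  set K : ℝ := (1 - w) ^ μ + w⁻¹ ^ (μ + 2 * lam) * Real.exp (-(g * t))
        + (1 / 2) ^ M * Real.exp (2 * t) with hK
  have hw0 := hp.w_pos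
  have hw1 : 0 ≤ 1 - w := by linarith [hp.w_le]
  have hK0 : 0 ≤ K := by positivity
  have hbsum : Bdd (fun y => ∑ v ∈ Finset.Icc l' (r' - (μ : ℤ)), noOne v (v + μ) y) := by
    refine ⟨(Finset.Icc l' (r' - (μ : ℤ))).card, fun y => ?_⟩
    rw [abs_of_nonneg (Finset.sum_nonneg fun v _ => noOne_nonneg _ _ _)]
    calc ∑ v ∈ Finset.Icc l' (r' - (μ : ℤ)), noOne v (v + μ) y
        ≤ ∑ v ∈ Finset.Icc l' (r' - (μ : ℤ)), (1 : ℝ) :=
          Finset.sum_le_sum fun v _ => noOne_le_one _ _ _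
      _ = _ := by simp
  have h1 : PW c (Ico A N) t (bad μ l' r') y ≤ ∑ v ∈ Finset.Icc l' (r' - (μ : ℤ)),
      PW c (Ico A N) t (noOne v (v + μ)) y := by
    rw [← PW_sum c (Ico A N) t _ _ (fun v _ => noOne_bdd _ _)]
    exact PW_mono hc (Ico A N) ht (bad_bdd _ _ _) hbsum (fun y => bad_le_sum μ l' r' y) y
  have h2 : ∀ v ∈ Finset.Icc l' (r' - (μ : ℤ)), PW c (Ico A N) t (noOne v (v + μ)) y ≤ K := by
    intro v hv
    rw [Finset.mem_Icc] at hv
    exact hl_window hp hc hAl hl hr hρ heN hE ht hy hv.1 (by omega)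
  refine h1.trans ((Finset.sum_le_sum h2).trans ?_)
  rw [Finset.sum_const, nsmul_eq_mul]
  apply mul_le_mul_of_nonneg_right _ hK0
  rw [Int.card_Icc]
  have h3 : ((r' - (μ : ℤ) + 1 - l').toNat : ℤ) ≤ r' - l' := by omega
  exact_mod_cast h3

end H72NE
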