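import Pool.Agent.H72.NE.QBas
import Pool.Agent.H72.NE.Obb

/-! # QOB: the oscillation on `[b, e]` does not increase under the chain with active sites `[b, N)` -/

namespace H72NE

open H72IPS Finset

private theorem qob_flip_off {x y : Cfg} {b e k : ℤ} (hk : b ≤ k ∧ k ≤ e)
    (h : ∀ i, i ∉ Set.Icc b e → x i = y i) : ∀ i, i ∉ Set.Icc b e → flip x k i = y i := by
  intro i hi
  have hik : i ≠ k := by
    rintro rfl
    exact hi hk
  unfold H72IPS.flip
  rw [Function.update_of_ne hik]
  exact h i hi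

private theorem qob_flip_off' {x y : Cfg} {b e k : ℤ} (hk : b ≤ k ∧ k ≤ e)
    (h : ∀ i, i ∉ Set.Icc b e → x i = y i) : ∀ i, i ∉ Set.Icc b e → x i = flip y k i := by
  intro i hi
  have hik : i ≠ k := by
    rintro rfl
    exact hi hk
  unfold H72IPS.flip
  rw [Function.update_of_ne hik]
  exact h i hi

private theorem qob_flip_both {x y : Cfg} {b e k : ℤ}
    (h : ∀ i, i ∉ Set.Icc b e → x i = y i) (hk : x k = y k) :
    ∀ i, i ∉ Set.Icc b e → flip x k i = flip y k i := by
  intro i hi
  unfold H72IPS.flip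
  by_cases hik : i = k
  · subst hik
    rw [Function.update_self, Function.update_self, hk]
  · rw [Function.update_of_ne hik, Function.update_of_ne hik]
    exact h i hi

/-- `x, y` agree off `[b, e]`.  With `α_k, α'_k` (`k ∈ [b,e] ∩ W`) the values of `R⁻¹ rt` at `x` and `y`
and `β_k` (`k ∈ W`, `k > e`; same value at `x` and `y` because `k, k+1 > e`)
`Q g x - Q g y = (1 - ∑ α - ∑ α' - ∑ β) (g x - g y) + ∑ α_k (g (flip x k) - g y)
+ ∑ α'_k (g x - g (flip y k)) + ∑ β_k (g (flip x k) - g (flip y k))`,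
and all pairs of configurations on the right agree off `[b, e]`. -/
theorem QW_OB_Icc {c : Rts} (hc : Rok c) {b e N : ℤ} (hbN : b ≤ N) {R : ℝ}
    (hR : 8 * ((N - b : ℤ) : ℝ) + 16 ≤ R) {g : Cfg → ℝ} {O : ℝ} (hg : OB (Set.Icc b e) O g) :
    OB (Set.Icc b e) O (QW c (Ico b N) R g) := by
  classical
  intro x y hxy
  have hO : 0 ≤ O := OB_nonneg hg
  have hNb : (0 : ℝ) ≤ ((N - b : ℤ) : ℝ) := by exact_mod_cast sub_nonneg.mpr hbN
  have hR0 : 0 < R := by linarith
  have hcard : ((Ico b N).card : ℝ) = ((N - b : ℤ) : ℝ) := by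
    rw [Int.card_Ico]
    have : ((N - b).toNat : ℤ) = N - b := Int.toNat_of_nonneg (by linarith)
    exact_mod_cast this
  -- the difference as a single sum
  have key : QW c (Ico b N) R g x - QW c (Ico b N) R g y
      = (1 - R⁻¹ * ∑ k ∈ Ico b N, (if k ≤ e then rt c x k + rt c y k else rt c x k)) * (g x - g y)
        + R⁻¹ * ∑ k ∈ Ico b N, (if k ≤ e then rt c x k * (g (flip x k) - g y)
            + rt c y k * (g x - g (flip y k)) else rt c x k * (g (flip x k) - g (flip y k))) := by
    have h1 : ∑ k ∈ Ico b N, rt c x k * (g (flip x k) - g x)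
          - ∑ k ∈ Ico b N, rt c y k * (g (flip y k) - g y)
        = (∑ k ∈ Ico b N, (if k ≤ e then rt c x k * (g (flip x k) - g y)
            + rt c y k * (g x - g (flip y k)) else rt c x k * (g (flip x k) - g (flip y k))))
          - (∑ k ∈ Ico b N, (if k ≤ e then rt c x k + rt c y k else rt c x k)) * (g x - g y) := by
      rw [← Finset.sum_sub_distrib, Finset.sum_mul, ← Finset.sum_sub_distrib]
      refine Finset.sum_congr rfl fun k hk => ?_
      by_cases hke : k ≤ e
      · rw [if_pos hke, if_pos hke]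
        ring
      · rw [if_neg hke, if_neg hke]
        have hrt : rt c y k = rt c x k := by
          unfold rt
          rw [hxy k (fun h => hke h.2), hxy (k + 1) (fun h => hke (by have := h.2; omega))]
        rw [hrt]
        ring
    unfold QW
    have h2 : (g x + R⁻¹ * ∑ k ∈ Ico b N, rt c x k * (g (flip x k) - g x))
          - (g y + R⁻¹ * ∑ k ∈ Ico b N, rt c y k * (g (flip y k) - g y))
        = (g x - g y) + R⁻¹ * (∑ k ∈ Ico b N, rt c x k * (g (flip x k) - g x)
          - ∑ k ∈ Ico b N, rt c y k * (g (flip y k) - g y)) := by ring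
    rw [h2, h1]
    ring
  have hsum : R⁻¹ * ∑ k ∈ Ico b N, (if k ≤ e then rt c x k + rt c y k else rt c x k) ≤ 1 := by
    have h3 : ∑ k ∈ Ico b N, (if k ≤ e then rt c x k + rt c y k else rt c x k)
        ≤ ∑ k ∈ Ico b N, (2 : ℝ) := by
      refine Finset.sum_le_sum fun k _ => ?_
      have hx := rt_mem hc x k
      have hy := rt_mem hc y k
      split_ifs <;> linarith
    rw [Finset.sum_const, nsmul_eq_mul, hcard] at h3
    rw [inv_mul_le_iff₀ hR0]
    linarith
  have hbound : |∑ k ∈ Ico b N, (if k ≤ e then rt c x k * (g (flip x k) - g y)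
            + rt c y k * (g x - g (flip y k)) else rt c x k * (g (flip x k) - g (flip y k)))|
      ≤ (∑ k ∈ Ico b N, (if k ≤ e then rt c x k + rt c y k else rt c x k)) * O := by
    rw [Finset.sum_mul]
    refine (Finset.abs_sum_le_sum_abs _ _).trans (Finset.sum_le_sum fun k hk => ?_)
    have hbk : b ≤ k := (Finset.mem_Ico.mp hk).1
    have hx := (rt_mem hc x k).1
    have hy := (rt_mem hc y k).1
    by_cases hke : k ≤ e
    · rw [if_pos hke, if_pos hke]
      have h4 := hg (flip x k) y (qob_flip_off ⟨hbk, hke⟩ hxy)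
      have h5 := hg x (flip y k) (qob_flip_off' ⟨hbk, hke⟩ hxy)
      calc |rt c x k * (g (flip x k) - g y) + rt c y k * (g x - g (flip y k))|
          ≤ |rt c x k * (g (flip x k) - g y)| + |rt c y k * (g x - g (flip y k))| := abs_add_le _ _
        _ ≤ rt c x k * O + rt c y k * O := by
            rw [abs_mul, abs_mul, abs_of_nonneg hx, abs_of_nonneg hy]
            exact add_le_add (mul_le_mul_of_nonneg_left h4 hx) (mul_le_mul_of_nonneg_left h5 hy)
        _ = (rt c x k + rt c y k) * O := by ring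
    · rw [if_neg hke, if_neg hke]
      have h6 := hg (flip x k) (flip y k) (qob_flip_both hxy (hxy k (fun h => hke h.2)))
      rw [abs_mul, abs_of_nonneg hx]
      exact mul_le_mul_of_nonneg_left h6 hx
  have hg0 := hg x y hxy
  rw [key]
  have hinv : 0 < R⁻¹ := inv_pos.mpr hR0
  calc |(1 - R⁻¹ * ∑ k ∈ Ico b N, (if k ≤ e then rt c x k + rt c y k else rt c x k)) * (g x - g y)
        + R⁻¹ * ∑ k ∈ Ico b N, (if k ≤ e then rt c x k * (g (flip x k) - g y)
            + rt c y k * (g x - g (flip y k)) else rt c x k * (g (flip x k) - g (flip y k)))|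
      ≤ (1 - R⁻¹ * ∑ k ∈ Ico b N, (if k ≤ e then rt c x k + rt c y k else rt c x k)) * O
        + R⁻¹ * ((∑ k ∈ Ico b N, (if k ≤ e then rt c x k + rt c y k else rt c x k)) * O) := by
        refine (abs_add_le _ _).trans (add_le_add ?_ ?_)
        · rw [abs_mul, abs_of_nonneg (by linarith)]
          exact mul_le_mul_of_nonneg_left hg0 (by linarith)
        · rw [abs_mul, abs_of_pos hinv]
          exact mul_le_mul_of_nonneg_left hbound hinv.le
    _ = O := by ring

theorem QWn_OB_Icc {c : Rts} (hc : Rok c) {b e N : ℤ} (hbN : b ≤ N) {R : ℝ}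
    (hR : 8 * ((N - b : ℤ) : ℝ) + 16 ≤ R) {g : Cfg → ℝ} {O : ℝ} (hg : OB (Set.Icc b e) O g)
    (n : ℕ) : OB (Set.Icc b e) O ((QW c (Ico b N) R)^[n] g) := by
  induction n with
  | zero => exact hg
  | succ n ih =>
    rw [Function.iterate_succ_apply']
    exact QW_OB_Icc hc hbN hR ih

end H72NE
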