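import Pool.Agent.H72.NE.Defs

/-! # QBAS: the uniformised chain, basic facts -/

namespace H72NE

open H72IPS Finset

theorem QW_eq (c : Rts) (W : Finset ℤ) (R : ℝ) (g : Cfg → ℝ) (x : Cfg) :
    QW c W R g x = (1 - R⁻¹ * ∑ k ∈ W, rt c x k) * g x + R⁻¹ * ∑ k ∈ W, rt c x k * g (flip x k) := by
  unfold QW
  simp only [mul_sub, Finset.sum_sub_distrib, ← Finset.sum_mul]
  ring

theorem rt_mem {c : Rts} (hc : Rok c) (x : Cfg) (k : ℤ) : 0 ≤ rt c x k ∧ rt c x k ≤ 1 :=
  hc k _ _

theorem QW_add (c : Rts) (W : Finset ℤ) (R : ℝ) (g h : Cfg → ℝ) :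
    QW c W R (fun x => g x + h x) = fun x => QW c W R g x + QW c W R h x := by
  funext x
  unfold QW
  have : ∑ k ∈ W, rt c x k * (g (flip x k) + h (flip x k) - (g x + h x)) =
      ∑ k ∈ W, rt c x k * (g (flip x k) - g x) + ∑ k ∈ W, rt c x k * (h (flip x k) - h x) := by
    rw [← Finset.sum_add_distrib]
    exact Finset.sum_congr rfl fun k _ => by ring
  rw [this]
  ring

theorem QW_sub (c : Rts) (W : Finset ℤ) (R : ℝ) (g h : Cfg → ℝ) :
    QW c W R (fun x => g x - h x) = fun x => QW c W R g x - QW c W R h x := by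
  funext x
  unfold QW
  have : ∑ k ∈ W, rt c x k * (g (flip x k) - h (flip x k) - (g x - h x)) =
      ∑ k ∈ W, rt c x k * (g (flip x k) - g x) - ∑ k ∈ W, rt c x k * (h (flip x k) - h x) := by
    rw [← Finset.sum_sub_distrib]
    exact Finset.sum_congr rfl fun k _ => by ring
  rw [this]
  ring

theorem QW_smul (c : Rts) (W : Finset ℤ) (R a : ℝ) (g : Cfg → ℝ) :
    QW c W R (fun x => a * g x) = fun x => a * QW c W R g x := by
  funext x
  unfold QW
  have : ∑ k ∈ W, rt c x k * (a * g (flip x k) - a * g x) =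
      a * ∑ k ∈ W, rt c x k * (g (flip x k) - g x) := by
    rw [Finset.mul_sum]
    exact Finset.sum_congr rfl fun k _ => by ring
  rw [this]
  ring

theorem QW_const (c : Rts) (W : Finset ℤ) (R a : ℝ) : QW c W R (fun _ => a) = fun _ => a := by
  funext x
  unfold QW
  simp

theorem QW_nonneg {c : Rts} (hc : Rok c) {W : Finset ℤ} {R : ℝ} (hR : (W.card : ℝ) ≤ R)
    {g : Cfg → ℝ} (hg : ∀ x, 0 ≤ g x) (x : Cfg) : 0 ≤ QW c W R g x := by
  rw [QW_eq]
  have hR0 : 0 ≤ R := le_trans (Nat.cast_nonneg _) hR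
  have hRi : 0 ≤ R⁻¹ := inv_nonneg.2 hR0
  have h1 : ∑ k ∈ W, rt c x k ≤ R := by
    refine le_trans ?_ hR
    calc ∑ k ∈ W, rt c x k ≤ ∑ _k ∈ W, (1 : ℝ) := Finset.sum_le_sum fun k _ => (rt_mem hc x k).2
      _ = W.card := by simp
  have h2 : R⁻¹ * ∑ k ∈ W, rt c x k ≤ 1 :=
    (mul_le_mul_of_nonneg_left h1 hRi).trans inv_mul_le_one
  refine add_nonneg (mul_nonneg (by linarith) (hg x)) (mul_nonneg hRi ?_)
  exact Finset.sum_nonneg fun k _ => mul_nonneg (rt_mem hc x k).1 (hg _)

theorem QW_mono {c : Rts} (hc : Rok c) {W : Finset ℤ} {R : ℝ} (hR : (W.card : ℝ) ≤ R)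
    {g h : Cfg → ℝ} (hg : ∀ x, g x ≤ h x) (x : Cfg) : QW c W R g x ≤ QW c W R h x := by
  have h1 := QW_nonneg hc hR (g := fun x => h x - g x) (fun x => sub_nonneg.2 (hg x)) x
  rw [QW_sub] at h1
  linarith

theorem QW_abs_le {c : Rts} (hc : Rok c) {W : Finset ℤ} {R : ℝ} (hR : (W.card : ℝ) ≤ R)
    {g : Cfg → ℝ} {C : ℝ} (hg : ∀ x, |g x| ≤ C) (x : Cfg) : |QW c W R g x| ≤ C := by
  rw [abs_le]
  constructor
  · have h := QW_mono hc hR (g := fun _ => -C) (h := g) (fun x => (abs_le.1 (hg x)).1) x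
    rw [QW_const] at h
    exact h
  · have h := QW_mono hc hR (g := g) (h := fun _ => C) (fun x => (abs_le.1 (hg x)).2) x
    rw [QW_const] at h
    exact h

/-! Iterates -/

theorem QWn_add (c : Rts) (W : Finset ℤ) (R : ℝ) (g h : Cfg → ℝ) (n : ℕ) :
    (QW c W R)^[n] (fun x => g x + h x) = fun x => (QW c W R)^[n] g x + (QW c W R)^[n] h x := by
  induction n with
  | zero => rfl
  | succ n ih => rw [Function.iterate_succ_apply', ih, QW_add, Function.iterate_succ_apply',
      Function.iterate_succ_apply']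

theorem QWn_sub (c : Rts) (W : Finset ℤ) (R : ℝ) (g h : Cfg → ℝ) (n : ℕ) :
    (QW c W R)^[n] (fun x => g x - h x) = fun x => (QW c W R)^[n] g x - (QW c W R)^[n] h x := by
  induction n with
  | zero => rfl
  | succ n ih => rw [Function.iterate_succ_apply', ih, QW_sub, Function.iterate_succ_apply',
      Function.iterate_succ_apply']

theorem QWn_smul (c : Rts) (W : Finset ℤ) (R a : ℝ) (g : Cfg → ℝ) (n : ℕ) :
    (QW c W R)^[n] (fun x => a * g x) = fun x => a * (QW c W R)^[n] g x := by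
  induction n with
  | zero => rfl
  | succ n ih => rw [Function.iterate_succ_apply', ih, QW_smul, Function.iterate_succ_apply']

theorem QWn_const (c : Rts) (W : Finset ℤ) (R a : ℝ) (n : ℕ) :
    (QW c W R)^[n] (fun _ => a) = fun _ => a := by
  induction n with
  | zero => rfl
  | succ n ih => rw [Function.iterate_succ_apply', ih, QW_const]

theorem QWn_nonneg {c : Rts} (hc : Rok c) {W : Finset ℤ} {R : ℝ} (hR : (W.card : ℝ) ≤ R)
    {g : Cfg → ℝ} (hg : ∀ x, 0 ≤ g x) (n : ℕ) (x : Cfg) : 0 ≤ (QW c W R)^[n] g x := by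
  induction n generalizing x with
  | zero => exact hg x
  | succ n ih =>
    rw [Function.iterate_succ_apply']
    exact QW_nonneg hc hR ih x

theorem QWn_mono {c : Rts} (hc : Rok c) {W : Finset ℤ} {R : ℝ} (hR : (W.card : ℝ) ≤ R)
    {g h : Cfg → ℝ} (hg : ∀ x, g x ≤ h x) (n : ℕ) (x : Cfg) :
    (QW c W R)^[n] g x ≤ (QW c W R)^[n] h x := by
  induction n generalizing x with
  | zero => exact hg x
  | succ n ih =>
    rw [Function.iterate_succ_apply', Function.iterate_succ_apply']
    exact QW_mono hc hR ih x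

theorem QWn_abs_le {c : Rts} (hc : Rok c) {W : Finset ℤ} {R : ℝ} (hR : (W.card : ℝ) ≤ R)
    {g : Cfg → ℝ} {C : ℝ} (hg : ∀ x, |g x| ≤ C) (n : ℕ) (x : Cfg) :
    |(QW c W R)^[n] g x| ≤ C := by
  induction n generalizing x with
  | zero => exact hg x
  | succ n ih =>
    rw [Function.iterate_succ_apply']
    exact QW_abs_le hc hR ih x

private theorem qbas_flip_agree {x y : Cfg} {S : Set ℤ} (h : ∀ i, i ∉ S → x i = y i) {k : ℤ}
    (hk : k ∉ S) : ∀ i, i ∉ S → flip x k i = flip y k i := by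
  intro i hi
  unfold H72IPS.flip
  by_cases hik : i = k
  · subst hik
    rw [Function.update_self, Function.update_self, h i hi]
  · rw [Function.update_of_ne hik, Function.update_of_ne hik, h i hi]

private theorem qbas_flip_ind {g : Cfg → ℝ} {S : Set ℤ} (hg : Ind S g) (x : Cfg) {k : ℤ}
    (hk : k ∈ S) : g (flip x k) = g x := by
  refine hg _ _ fun i hi => ?_
  have hik : i ≠ k := by
    rintro rfl
    exact hi hk
  unfold H72IPS.flip
  rw [Function.update_of_ne hik]

/-- a function that does not depend on the sites `< b` keeps this property (the rate of a site `≥ b`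
depends on sites `≥ b` only, and flips at sites `< b` do nothing) -/
theorem QW_ind {c : Rts} {W : Finset ℤ} {R : ℝ} {b : ℤ} {g : Cfg → ℝ} (hg : Ind (Set.Iio b) g) :
    Ind (Set.Iio b) (QW c W R g) := by
  intro x y hxy
  unfold QW
  rw [hg x y hxy]
  congr 2
  refine Finset.sum_congr rfl fun k _ => ?_
  by_cases hk : k < b
  · have hk' : k ∈ Set.Iio b := hk
    rw [qbas_flip_ind hg x hk', qbas_flip_ind hg y hk', hg x y hxy]
    ring
  · have hk' : k ∉ Set.Iio b := hk
    have hk1 : k + 1 ∉ Set.Iio b := by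
      intro h
      have h' : k + 1 < b := h
      omega
    rw [hg _ _ (qbas_flip_agree hxy hk')]
    unfold rt
    rw [hxy k hk', hxy (k + 1) hk1]

theorem QWn_ind {c : Rts} {W : Finset ℤ} {R : ℝ} {b : ℤ} {g : Cfg → ℝ} (hg : Ind (Set.Iio b) g)
    (n : ℕ) : Ind (Set.Iio b) ((QW c W R)^[n] g) := by
  induction n with
  | zero => exact hg
  | succ n ih =>
    rw [Function.iterate_succ_apply']
    exact QW_ind ih

/-- a function that does not depend on the sites `> e`, active sites `< e`: the property is kept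
(rates of sites `< e` depend on sites `≤ e`) -/
theorem QWn_ind_right {c : Rts} {W : Finset ℤ} {R : ℝ} {e : ℤ} {g : Cfg → ℝ}
    (hW : ∀ k ∈ W, k < e) (hg : Ind (Set.Ioi e) g) (n : ℕ) :
    Ind (Set.Ioi e) ((QW c W R)^[n] g) := by
  induction n with
  | zero => exact hg
  | succ n ih =>
    rw [Function.iterate_succ_apply']
    generalize (QW c W R)^[n] g = G at ih
    intro x y hxy
    unfold QW
    rw [ih x y hxy]
    congr 2
    refine Finset.sum_congr rfl fun k hk => ?_
    have hke := hW k hk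
    have hk' : k ∉ Set.Ioi e := by
      intro h
      have h' : e < k := h
      omega
    have hk1 : k + 1 ∉ Set.Ioi e := by
      intro h
      have h' : e < k + 1 := h
      omega
    rw [ih _ _ (qbas_flip_agree hxy hk')]
    unfold rt
    rw [hxy k hk', hxy (k + 1) hk1]

end H72NE
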