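import Pool.Agent.H72.NE.AvB
import Pool.Agent.H72.NE.QBas

/-! # RPT: the right part of one step

On the fibre of `x` (configurations equal to `x` off `[b, ξ)`) the rates of the sites `k > ξ` and the
state of `ξ + 1` are constant, so `RT` is there a combination with nonnegative constant coefficients
of `G`, `G ∘ flip k` (`k > ξ`) and `H`: with `σ = ∑_{k ∈ Ico (ξ+1) N} rt c x k ≤ N - ξ - 1`,
`RT = (1 - (2/R)(σ + r)) G + (2/R) ∑ rt G ∘ flip + (2/R) r H` if `x (ξ+1) = true` and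
`RT = (1 - (2/R)(σ + c ξ true false)) G + (2/R) ∑ rt G ∘ flip` otherwise.
Use `sd_sum`/`sd_add`, `Va_flip`, resp. linearity of `Av` and `Av_flip`. -/

namespace H72NE

open H72IPS Finset

/-- the form of `RT` on the fibre of `x` -/
theorem RPT_eq {c : Rts} {r R : ℝ} {b ξ N : ℤ} (G H : Cfg → ℝ) {x y : Cfg}
    (hy : ∀ i, i ∉ Ico b ξ → y i = x i) :
    RT c r R ξ N G H y
      = ((1 - 2 / R * ((∑ k ∈ Ico (ξ + 1) N, rt c x k)
            + (if x (ξ + 1) = true then r else c ξ true false))) * G y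
          + ∑ k ∈ Ico (ξ + 1) N, (2 / R * rt c x k) * G (flip y k))
        + (if x (ξ + 1) = true then 2 / R * r else 0) * H y := by
  have h1 : y (ξ + 1) = x (ξ + 1) := hy _ (by rw [Finset.mem_Ico]; omega)
  have h2 : ∀ k ∈ Ico (ξ + 1) N, rt c y k = rt c x k := by
    intro k hk
    rw [Finset.mem_Ico] at hk
    unfold rt
    rw [hy k (by rw [Finset.mem_Ico]; omega), hy (k + 1) (by rw [Finset.mem_Ico]; omega)]
  have h3 : ∑ k ∈ Ico (ξ + 1) N, rt c y k * (G (flip y k) - G y)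
      = ∑ k ∈ Ico (ξ + 1) N, rt c x k * G (flip y k) - (∑ k ∈ Ico (ξ + 1) N, rt c x k) * G y := by
    rw [Finset.sum_mul, ← Finset.sum_sub_distrib]
    apply Finset.sum_congr rfl
    intro k hk
    rw [h2 k hk]
    ring
  have h4 : ∑ k ∈ Ico (ξ + 1) N, (2 / R * rt c x k) * G (flip y k)
      = 2 / R * ∑ k ∈ Ico (ξ + 1) N, rt c x k * G (flip y k) := by
    rw [Finset.mul_sum]
    apply Finset.sum_congr rfl
    intro k _
    ring
  unfold RT
  rw [h3, h4, h1]
  by_cases hx : x (ξ + 1) = true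
  · simp only [hx, if_true]
    ring
  · simp only [hx]
    simp only [Bool.false_eq_true, if_false]
    ring

/-- facts on the coefficients -/
theorem RPT_coef {w γ P r g : ℝ} (hp : EPar w γ P r g) {c : Rts} (hc : Rok c) {b ξ N : ℤ}
    (hbξ : b ≤ ξ) (hξN : ξ < N) {R : ℝ} (hR : 8 * ((N - b : ℤ) : ℝ) + 16 ≤ R) (x : Cfg) :
    0 < R ∧ (∀ k, 0 ≤ 2 / R * rt c x k) ∧ 0 ≤ (if x (ξ + 1) = true then r else c ξ true false) ∧
    0 ≤ 1 - 2 / R * ((∑ k ∈ Ico (ξ + 1) N, rt c x k)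
            + (if x (ξ + 1) = true then r else c ξ true false)) := by
  have hNb : (0 : ℝ) ≤ ((N - b : ℤ) : ℝ) := by
    have : (0 : ℤ) ≤ N - b := by omega
    exact_mod_cast this
  have hRp : 0 < R := by linarith
  have hθ0 : 0 ≤ (if x (ξ + 1) = true then r else c ξ true false) := by
    split_ifs
    · exact hp.r_pos.le
    · exact (hc ξ true false).1
  have hθ2 : (if x (ξ + 1) = true then r else c ξ true false) ≤ 2 := by
    split_ifs
    · exact hp.r_le
    · linarith [(hc ξ true false).2]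
  have hσ : ∑ k ∈ Ico (ξ + 1) N, rt c x k ≤ ((N - b : ℤ) : ℝ) := by
    calc ∑ k ∈ Ico (ξ + 1) N, rt c x k ≤ ∑ k ∈ Ico (ξ + 1) N, (1 : ℝ) :=
          Finset.sum_le_sum (fun k _ => (rt_mem hc x k).2)
      _ = ((Ico (ξ + 1) N).card : ℝ) := by simp
      _ ≤ ((N - b : ℤ) : ℝ) := by
        rw [Int.card_Ico]
        have h1 : (((N - (ξ + 1)).toNat : ℕ) : ℤ) ≤ N - b := by omega
        have h2 := (Int.cast_le (R := ℝ)).mpr h1
        push_cast at h2 ⊢
        exact h2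
  refine ⟨hRp, fun k => mul_nonneg (by positivity) (rt_mem hc x k).1, hθ0, ?_⟩
  have h : 2 / R * ((∑ k ∈ Ico (ξ + 1) N, rt c x k)
            + (if x (ξ + 1) = true then r else c ξ true false)) ≤ 1 := by
    calc 2 / R * ((∑ k ∈ Ico (ξ + 1) N, rt c x k)
            + (if x (ξ + 1) = true then r else c ξ true false))
        ≤ 2 / R * (R / 2) := by
          apply mul_le_mul_of_nonneg_left _ (by positivity)
          linarith
      _ = 1 := by field_simp
  linarith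

theorem sd_RT {w γ P r g : ℝ} (hp : EPar w γ P r g) {c : Rts} (hc : Rok c) {b ξ N : ℤ}
    (hbξ : b ≤ ξ) (hξN : ξ < N) {R : ℝ} (hR : 8 * ((N - b : ℤ) : ℝ) + 16 ≤ R) {G H : Cfg → ℝ}
    {V0 V1 : ℝ} (h01 : V0 ≤ V1) {x : Cfg} (hx : x ξ = true)
    (hG : ∀ y : Cfg, y ξ = true → Real.sqrt (Va P (Ico b ξ) G y) ≤ V0)
    (hH : x (ξ + 1) = true → Real.sqrt (Va P (Ico b ξ) H x) ≤ V1) :
    Real.sqrt (Va P (Ico b ξ) (RT c r R ξ N G H) x) ≤ V0 + 2 * r / R * (V1 - V0) := by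
  have hP0 : 0 ≤ P := le_trans hp.w_pos.le hp.le_P
  have hP1 : P ≤ 1 := by linarith [hp.P_le, hp.w_pos]
  obtain ⟨hRp, ha, hθ0, hA⟩ := RPT_coef hp hc hbξ hξN hR x
  have hV0 : 0 ≤ V0 := le_trans (Real.sqrt_nonneg _) (hG x hx)
  rw [Va_congr (fun y hy => RPT_eq (c := c) (r := r) (R := R) (N := N) G H hy)]
  set σ := ∑ k ∈ Ico (ξ + 1) N, rt c x k with hσ
  set θ := (if x (ξ + 1) = true then r else c ξ true false) with hθ
  have hfl : ∀ k ∈ Ico (ξ + 1) N,
      Real.sqrt (Va P (Ico b ξ) (fun z => G (flip z k)) x) ≤ V0 := by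
    intro k hk
    rw [Finset.mem_Ico] at hk
    rw [Va_flip P (by rw [Finset.mem_Ico]; omega) G x]
    apply hG
    unfold H72IPS.flip
    rw [Function.update_of_ne (by omega), hx]
  have h1 := sd_sum hP0 hP1 (Ico b ξ) (Ico (ξ + 1) N) (fun k => 2 / R * rt c x k)
    (fun k _ => ha k) (fun k z => G (flip z k)) x
  have h2 : ∑ k ∈ Ico (ξ + 1) N, 2 / R * rt c x k
        * Real.sqrt (Va P (Ico b ξ) (fun z => G (flip z k)) x) ≤ 2 / R * σ * V0 := by
    calc _ ≤ ∑ k ∈ Ico (ξ + 1) N, 2 / R * rt c x k * V0 :=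
          Finset.sum_le_sum (fun k hk => mul_le_mul_of_nonneg_left (hfl k hk) (ha k))
      _ = 2 / R * σ * V0 := by
        rw [← Finset.sum_mul, ← Finset.mul_sum]
  have h3 := sd_smul (P := P) (Ico b ξ) hA G x
  have h4 := mul_le_mul_of_nonneg_left (hG x hx) hA
  have h5 := sd_add hP0 hP1 (Ico b ξ) (fun z => (1 - 2 / R * (σ + θ)) * G z)
    (fun z => ∑ k ∈ Ico (ξ + 1) N, 2 / R * rt c x k * G (flip z k)) x
  have hr0 : 0 ≤ 2 / R * r := mul_nonneg (by positivity) hp.r_pos.le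
  have h6 := sd_add hP0 hP1 (Ico b ξ) (fun z => (1 - 2 / R * (σ + θ)) * G z
      + ∑ k ∈ Ico (ξ + 1) N, 2 / R * rt c x k * G (flip z k))
    (fun z => (if x (ξ + 1) = true then 2 / R * r else 0) * H z) x
  have hh0 : 0 ≤ (if x (ξ + 1) = true then 2 / R * r else 0) := by
    split_ifs
    · exact hr0
    · exact le_rfl
  have h7 := sd_smul (P := P) (Ico b ξ) hh0 H x
  have h8 : 2 * r / R * (V1 - V0) = 2 / R * r * (V1 - V0) := by ring
  have h9 : 0 ≤ 2 / R * r * (V1 - V0) := mul_nonneg hr0 (by linarith)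
  by_cases hx1 : x (ξ + 1) = true
  · have hθr : θ = r := by rw [hθ, if_pos hx1]
    have h10 := mul_le_mul_of_nonneg_left (hH hx1) hr0
    simp only [if_pos hx1] at h6 h7 ⊢
    rw [hθr] at h3 h4 h5 h6 ⊢
    rw [h8]
    nlinarith [h1, h2, h3, h4, h5, h6, h7, h10]
  · have hθ1 : 0 ≤ 2 / R * θ * V0 := by positivity
    simp only [if_neg hx1] at h6 h7 ⊢
    rw [h8]
    rw [zero_mul] at h7
    nlinarith [h1, h2, h3, h4, h5, h6, h7, h9, hθ1]

theorem Av_RT {w γ P r g : ℝ} (hp : EPar w γ P r g) {c : Rts} (hc : Rok c) {b ξ N : ℤ}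
    (hbξ : b ≤ ξ) (hξN : ξ < N) {R : ℝ} (hR : 8 * ((N - b : ℤ) : ℝ) + 16 ≤ R) {G H : Cfg → ℝ}
    {M : ℝ} (hM : 0 ≤ M) {x : Cfg} (hx : x ξ = true)
    (hG : ∀ y : Cfg, y ξ = true → Av P (Ico b ξ) G y ≤ M)
    (hH : x (ξ + 1) = true → Av P (Ico b ξ) H x ≤ M) :
    Av P (Ico b ξ) (RT c r R ξ N G H) x ≤ M := by
  obtain ⟨hRp, ha, hθ0, hA⟩ := RPT_coef hp hc hbξ hξN hR x
  rw [Av_congr (fun y hy => RPT_eq (c := c) (r := r) (R := R) (N := N) G H hy)]
  rw [Av_add, Av_add, Av_smul, Av_sum, Av_smul]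
  set σ := ∑ k ∈ Ico (ξ + 1) N, rt c x k with hσ
  set θ := (if x (ξ + 1) = true then r else c ξ true false) with hθ
  have h2 : ∑ k ∈ Ico (ξ + 1) N, Av P (Ico b ξ) (fun z => 2 / R * rt c x k * G (flip z k)) x
      ≤ 2 / R * σ * M := by
    calc _ ≤ ∑ k ∈ Ico (ξ + 1) N, 2 / R * rt c x k * M := by
          apply Finset.sum_le_sum
          intro k hk
          rw [Av_smul]
          refine mul_le_mul_of_nonneg_left ?_ (ha k)
          rw [Finset.mem_Ico] at hk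
          rw [Av_flip P (by rw [Finset.mem_Ico]; omega) G x]
          apply hG
          unfold H72IPS.flip
          rw [Function.update_of_ne (by omega), hx]
      _ = 2 / R * σ * M := by
        rw [← Finset.sum_mul, ← Finset.mul_sum]
  have h4 := mul_le_mul_of_nonneg_left (hG x hx) hA
  have hr0 : 0 ≤ 2 / R * r := mul_nonneg (by positivity) hp.r_pos.le
  by_cases hx1 : x (ξ + 1) = true
  · have hθr : θ = r := by rw [hθ, if_pos hx1]
    have h10 := mul_le_mul_of_nonneg_left (hH hx1) hr0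
    simp only [if_pos hx1]
    rw [hθr] at h4 ⊢
    nlinarith [h2, h4, h10]
  · have hθ1 : 0 ≤ 2 / R * θ * M := by positivity
    simp only [if_neg hx1]
    rw [zero_mul]
    nlinarith [h2, h4, hθ1]

end H72NE
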