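import Pool.Agent.H72.NE.Lno
import Pool.Agent.H72.NE.Rpt
import Pool.Agent.H72.NE.Qob

/-! # L2M: exponential decay of the variance, with a distinguished particle

Let `F_n = Q^n f`, `Q = QW c (Ico b N) R`.
If `z ξ = true`, `b ≤ ξ ≤ e < N`, then `Q F z = 1/2 LN c R b ξ F z + 1/2 RT c r R ξ N F (Av P {ξ} F) z`
(the sum over `Ico b N` splits into `Ico b ξ`, `{ξ}`, `Ico (ξ+1) N`; by `EastOn` at `ξ` the term
`rt c z ξ (F (flip z ξ) - F z)` is `r (Av_ξ F z - F z)` if `z (ξ+1) = true` and `0` otherwise).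

Claim, by induction on `n`: for all `b ≤ ξ ≤ e + 1` and all `x` with `x ξ = true`
`sd_{[b,ξ)} F_n x ≤ O (A_n + D_n(ξ))`, `A_n = (1 - g/R)^n`,
`D_n(ξ) = (1/2)^(e+1-ξ) (1 + 2/R)^n`.
* `ξ = e + 1`: `F_n` oscillates by at most `O` on `[b, e]` (`QWn_OB_Icc`), so `sd ≤ O` (`Va_le_sq`) and
  `D_n(e+1) ≥ 1`.  `n = 0`: the same, `A_0 = 1`.
* `ξ ≤ e`: `sd_LN` with `ν = 0` (`β = 0`), `sd_RT` with `V0` the bound at `ξ`, `V1` the bound at `ξ + 1`
  (`sd_{[b,ξ)} (Av_ξ F) ≤ sd_{[b,ξ+1)} F`, `Va_Av_le`); so the new bound is at most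
  `(1 - r/(2γR)) V0 + (r/R) (V1 - V0)` and `V1 - V0 = O D_n(ξ)`; `r/(2γ) ≥ g`, `r ≤ 2`. -/

namespace H72NE

open H72IPS Finset

theorem QW_split {w γ P r g : ℝ} (hp : EPar w γ P r g) {c : Rts} {b e N ξ : ℤ} (hbξ : b ≤ ξ)
    (hξe : ξ ≤ e) (heN : e < N) (hE : EastOn c P r b e) {R : ℝ} (hR : 0 < R) (F : Cfg → ℝ)
    {z : Cfg} (hz : z ξ = true) :
    QW c (Ico b N) R F z
      = 1 / 2 * LN c R b ξ F z + 1 / 2 * RT c r R ξ N F (Av P {ξ} F) z := by
  obtain ⟨-, h2, -, h4⟩ := hE ξ hbξ hξe
  have hterm : rt c z ξ * (F (flip z ξ) - F z)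
      = (if z (ξ + 1) = true then r * (Av P {ξ} F z - F z) else -(c ξ true false * F z)) := by
    unfold rt
    rw [hz]
    cases hz1 : z (ξ + 1)
    · simp only [h2, Bool.false_eq_true, if_false]
      ring
    · simp only [if_true, h4, Av_single]
      rw [flip_of_true hz]
      have : Function.update z ξ true = z := by rw [← hz]; exact Function.update_eq_self ξ z
      rw [this]
      ring
  have hsplit : Ico b N = (Ico b ξ ∪ {ξ}) ∪ Ico (ξ + 1) N := by
    ext k
    simp only [mem_Ico, mem_union, mem_singleton]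
    omega
  have hd1 : Disjoint (Ico b ξ ∪ {ξ}) (Ico (ξ + 1) N) := by
    rw [Finset.disjoint_left]
    intro k hk
    simp only [mem_Ico, mem_union, mem_singleton] at hk ⊢
    omega
  have hd2 : Disjoint (Ico b ξ) {ξ} := by
    rw [Finset.disjoint_left]
    intro k hk
    simp only [mem_Ico, mem_singleton] at hk ⊢
    omega
  unfold QW LN RT
  rw [hsplit, sum_union hd1, sum_union hd2, sum_singleton, hterm]
  field_simp
  ring

theorem L2M {w γ P r g : ℝ} (hp : EPar w γ P r g) {c : Rts} (hc : Rok c) {b e N : ℤ}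
    (heN : e < N) (hE : EastOn c P r b e) {R : ℝ} (hR : 8 * ((N - b : ℤ) : ℝ) + 16 ≤ R)
    {f : Cfg → ℝ} {O : ℝ} (hf : OB (Set.Icc b e) O f) (n : ℕ) {ξ : ℤ} (hbξ : b ≤ ξ) (hξe : ξ ≤ e)
    {x : Cfg} (hx : x ξ = true) :
    Real.sqrt (Va P (Ico b ξ) ((QW c (Ico b N) R)^[n] f) x)
      ≤ O * ((1 - g / R) ^ n + (1 / 2) ^ ((e + 1 - ξ).toNat) * (1 + 2 / R) ^ n) := by
  have hO : 0 ≤ O := OB_nonneg hf
  have hP0 : 0 ≤ P := hp.w_pos.le.trans hp.le_P
  have hP1 : P ≤ 1 := by have := hp.P_le; have := hp.w_pos; linarith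
  have hbN : b ≤ N := by omega
  have hbN' : (0 : ℝ) ≤ ((N - b : ℤ) : ℝ) := by exact_mod_cast (by omega : (0 : ℤ) ≤ N - b)
  have hR16 : 16 ≤ R := by linarith
  have hR0 : 0 < R := by linarith
  have hγ : 0 < γ := by have := hp.one_le_γ; linarith
  have hg4 : g ≤ 1 / 2 := by
    have h1 := hp.g_le
    have h2 : r / (4 * γ) ≤ 2 / (4 * 1) := by
      apply div_le_div₀ (by norm_num) hp.r_le (by norm_num)
      have := hp.one_le_γ; linarith
    linarith
  have hgR1 : g / R ≤ 1 := by
    rw [div_le_one hR0]; linarith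
  have hgR0 : 0 ≤ g / R := div_nonneg hp.g_pos.le hR0.le
  have hA : ∀ n : ℕ, 0 ≤ (1 - g / R) ^ n := fun n => pow_nonneg (by linarith) n
  have hB1 : (1 : ℝ) ≤ 1 + 2 / R := by
    have : 0 ≤ 2 / R := by positivity
    linarith
  have hB : ∀ n : ℕ, (1 : ℝ) ≤ (1 + 2 / R) ^ n := fun n => one_le_pow₀ hB1
  -- oscillation bound for the iterates
  have hosc := fun n : ℕ => QWn_OB_Icc hc hbN hR hf n
  have hsd : ∀ (n : ℕ) (ξ : ℤ), ξ ≤ e + 1 → ∀ x : Cfg,
      Real.sqrt (Va P (Ico b ξ) ((QW c (Ico b N) R)^[n] f) x) ≤ O := by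
    intro n ξ hξ x
    rw [Real.sqrt_le_left hO]
    refine Va_le_sq hP0 hP1 ?_
    intro y z hy hz
    refine hosc n y z ?_
    intro i hi
    have : i ∉ Ico b ξ := by
      simp only [Set.mem_Icc, mem_Ico] at hi ⊢
      omega
    rw [hy i this, hz i this]
  have main : ∀ (n : ℕ) (ξ : ℤ), b ≤ ξ → ξ ≤ e + 1 → ∀ x : Cfg, x ξ = true →
      Real.sqrt (Va P (Ico b ξ) ((QW c (Ico b N) R)^[n] f) x)
      ≤ O * ((1 - g / R) ^ n + (1 / 2) ^ ((e + 1 - ξ).toNat) * (1 + 2 / R) ^ n) := by
    intro n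
    induction n with
    | zero =>
      intro ξ _ hξ x _
      refine (hsd 0 ξ hξ x).trans ?_
      have h1 : (0 : ℝ) ≤ (1 / 2) ^ ((e + 1 - ξ).toNat) := by positivity
      simp only [pow_zero, mul_one]
      nlinarith
    | succ n ih =>
      intro ξ hbξ hξ x hx
      rcases eq_or_lt_of_le hξ with hξ' | hξ'
      · refine (hsd (n + 1) ξ hξ x).trans ?_
        have h1 : (e + 1 - ξ).toNat = 0 := by omega
        rw [h1, pow_zero, one_mul]
        have := hA (n + 1)
        have := hB (n + 1)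
        nlinarith
      · have hξe : ξ ≤ e := by omega
        have hto : (e + 1 - ξ).toNat = (e + 1 - (ξ + 1)).toNat + 1 := by omega
        set D1 : ℝ := (1 / 2) ^ ((e + 1 - (ξ + 1)).toNat) * (1 + 2 / R) ^ n with hD1
        have hD : (1 / 2) ^ ((e + 1 - ξ).toNat) * (1 + 2 / R) ^ n = D1 / 2 := by
          rw [hto, pow_succ, hD1]; ring
        have hD1' : 0 ≤ D1 := by
          have := hB n
          rw [hD1]; positivity
        set F := (QW c (Ico b N) R)^[n] f with hF
        set V0 := O * ((1 - g / R) ^ n + D1 / 2) with hV0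
        set V1 := O * ((1 - g / R) ^ n + D1) with hV1
        have h01 : V0 ≤ V1 := by
          rw [hV0, hV1]
          apply mul_le_mul_of_nonneg_left _ hO
          linarith
        have hV00 : 0 ≤ V0 := by
          rw [hV0]
          have := hA n
          positivity
        have hG : ∀ y : Cfg, y ξ = true → Real.sqrt (Va P (Ico b ξ) F y) ≤ V0 := by
          intro y hy
          have := ih ξ hbξ hξ y hy
          rw [hD] at this
          exact this
        have hH : x (ξ + 1) = true → Real.sqrt (Va P (Ico b ξ) (Av P {ξ} F) x) ≤ V1 := by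
          intro hx1
          have h1 := ih (ξ + 1) (by omega) (by omega) x hx1
          refine le_trans (Real.sqrt_le_sqrt ?_) h1
          have hd2 : Disjoint (Ico b ξ) {ξ} := by
            rw [Finset.disjoint_left]
            intro k hk
            simp only [mem_Ico, mem_singleton] at hk ⊢
            omega
          have hun : Ico b (ξ + 1) = Ico b ξ ∪ {ξ} := by
            ext k
            simp only [mem_Ico, mem_union, mem_singleton]
            omega
          rw [hun]
          exact Va_Av_le hP0 hP1 hd2 F x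
        rw [Function.iterate_succ_apply']
        have hcongr : Va P (Ico b ξ) (QW c (Ico b N) R F) x
            = Va P (Ico b ξ) (fun z => 1 / 2 * LN c R b ξ F z
              + 1 / 2 * RT c r R ξ N F (Av P {ξ} F) z) x := by
          refine Va_congr ?_
          intro y hy
          refine QW_split hp hbξ hξe heN hE hR0 F ?_
          rw [hy ξ (by simp)]
          exact hx
        rw [hcongr]
        refine (sd_add hP0 hP1 _ (fun z => 1 / 2 * LN c R b ξ F z)
          (fun z => 1 / 2 * RT c r R ξ N F (Av P {ξ} F) z) x).trans ?_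
        rw [sd_smul _ (by norm_num : (0 : ℝ) ≤ 1 / 2), sd_smul _ (by norm_num : (0 : ℝ) ≤ 1 / 2)]
        have hNois : NoisyOn c P r 0 0 b e := by
          intro k hk1 hk2
          obtain ⟨a1, a2, a3, a4⟩ := hE k hk1 hk2
          exact ⟨a3, a4, a1.le, a2.le, a2.le⟩
        have hRξ : 8 * ((ξ - b : ℤ) : ℝ) + 16 ≤ R := by
          have : ((ξ - b : ℤ) : ℝ) ≤ ((N - b : ℤ) : ℝ) := by exact_mod_cast (by omega : ξ - b ≤ N - b)
          linarith
        have h1 := sd_LN hp hc (le_refl (0 : ℝ)) hbξ hξ hNois hRξ F hx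
        have h2 := sd_RT hp hc hbξ (by omega : ξ < N) hR h01 hx hG hH
        have h3 : (1 - r / (γ * R) + 4 * 0 * ((ξ - b : ℤ) : ℝ) / (w * R)) = 1 - r / (γ * R) := by
          ring
        rw [h3] at h1
        have hrγ : r / (γ * R) ≤ 1 := by
          rw [div_le_one (by positivity)]
          have := hp.r_le
          have := hp.one_le_γ
          nlinarith
        have h4 : (1 - r / (γ * R)) * Real.sqrt (Va P (Ico b ξ) F x) ≤ (1 - r / (γ * R)) * V0 :=
          mul_le_mul_of_nonneg_left (hG x hx) (by linarith)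
        have h5 : 2 * (g / R) ≤ r / (γ * R) / 2 := by
          have := hp.g_le
          rw [← sub_nonneg]
          have e1 : r / (γ * R) / 2 - 2 * (g / R) = (r / (4 * γ) - g) * (2 / R) := by
            field_simp
            ring
          rw [e1]
          apply mul_nonneg (by linarith) (by positivity)
        have h6 : 2 * r / R ≤ 2 * (2 / R) := by
          have := hp.r_le
          rw [mul_div_assoc]
          apply mul_le_mul_of_nonneg_left _ (by norm_num)
          gcongr
        have h7 : V1 - V0 = O * (D1 / 2) := by rw [hV0, hV1]; ring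
        have h8 : 0 ≤ r / (γ * R) := by have := hp.r_pos; positivity
        rw [hto, pow_succ (1 / 2 : ℝ), pow_succ (1 - g / R), pow_succ (1 + 2 / R)]
        have e2 : O * ((1 - g / R) ^ n * (1 - g / R)
            + (1 / 2) ^ ((e + 1 - (ξ + 1)).toNat) * (1 / 2) * ((1 + 2 / R) ^ n * (1 + 2 / R)))
            = O * ((1 - g / R) ^ n * (1 - g / R) + D1 / 2 * (1 + 2 / R)) := by
          rw [hD1]; ring
        rw [e2]
        have h9 : 1 / 2 * ((1 - r / (γ * R)) * V0) + 1 / 2 * (V0 + 2 * r / R * (V1 - V0))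
            ≤ O * ((1 - g / R) ^ n * (1 - g / R) + D1 / 2 * (1 + 2 / R)) := by
          rw [h7, hV0]
          have hOA : 0 ≤ O * (1 - g / R) ^ n := mul_nonneg hO (hA n)
          have hOD : 0 ≤ O * (D1 / 2) := by positivity
          have k1 : 2 * r / R * (O * (D1 / 2)) ≤ 2 * (2 / R) * (O * (D1 / 2)) :=
            mul_le_mul_of_nonneg_right h6 hOD
          have k2 : g / R * (O * (1 - g / R) ^ n) ≤ r / (γ * R) / 2 * (O * (1 - g / R) ^ n) :=
            mul_le_mul_of_nonneg_right (by linarith) hOA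
          have k3 : 0 ≤ r / (γ * R) * (O * (D1 / 2)) := mul_nonneg h8 hOD
          nlinarith
        linarith
  exact main n ξ hbξ (by omega) x hx

end H72NE
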