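import Pool.Agent.H72.NE.L2m
import Pool.Agent.H72.NE.Pois
import Pool.Agent.H72.NE.PLin

/-! # TELQ: telescoping along the particles of a spaced configuration

Let `F = Q^n f` and `σ = O ((1 - g/R)^n + (1/2)^(e+1-z0) (1 + 2/R)^n)`, a bound for
`sd_{[b,ξ)} F x` for all `b ≤ ξ ≤ z0` with `x ξ = true` (`L2M`, monotone in `ξ`).
Claim: for `b ≤ ξ ≤ z0` with `x ξ = true`: `|F x - Av_{[b,ξ)} F x| ≤ (ξ - b + 1) w⁻¹^lam σ`.
Strong induction on `ξ - b`.  If there is a particle in `[b, ξ)` let `η` be the rightmost one;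
`ξ - η ≤ lam` (otherwise the window `[η+1, η+1+lam) ⊆ [b, ξ)` contains a particle).  With
`T = [b, η)`, `S = [b, ξ)`: `Av_T F x - Av_S F x = Av_T F x - Av_{S\T} (Av_T F) x`, so by
`abs_sub_Av_le` (on `S \ T = [η, ξ)`, of cardinality `≤ lam`) and `Va_Av_le` it is at most
`w⁻¹^lam sd_S F x`.  If there is no particle in `[b, ξ)` then `ξ - b ≤ lam` and
`|F x - Av_S F x| ≤ w⁻¹^lam sd_S F x`. -/

namespace H72NE

open H72IPS Finset

/-- rightmost particle in `[b, ξ)` -/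
private theorem telq_rightmost (x : Cfg) (b ξ : ℤ) (h : ∃ i, b ≤ i ∧ i < ξ ∧ x i = true) :
    ∃ η, b ≤ η ∧ η < ξ ∧ x η = true ∧ ∀ i, η < i → i < ξ → x i = false := by
  classical
  obtain ⟨i0, h1, h2, h3⟩ := h
  have hne : ((Finset.Ico b ξ).filter fun i => x i = true).Nonempty :=
    ⟨i0, by rw [Finset.mem_filter, Finset.mem_Ico]; exact ⟨⟨h1, h2⟩, h3⟩⟩
  set η := ((Finset.Ico b ξ).filter fun i => x i = true).max' hne with hη
  have hm := Finset.max'_mem _ hne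
  rw [← hη, Finset.mem_filter, Finset.mem_Ico] at hm
  refine ⟨η, hm.1.1, hm.1.2, hm.2, fun i hi1 hi2 => ?_⟩
  by_contra hc
  rw [Bool.not_eq_false] at hc
  have : i ≤ η := Finset.le_max' _ _ (by
    rw [Finset.mem_filter, Finset.mem_Ico]
    exact ⟨⟨by linarith [hm.1.1], hi2⟩, hc⟩)
  omega

/-- the telescoping argument for one function -/
private theorem telq_core {w P : ℝ} (hw : 0 < w) (h0 : w ≤ P) (h1 : P ≤ 1 - w) (F : Cfg → ℝ)
    (x : Cfg) (b z0 : ℤ) {lam : ℕ} (hlam : 1 ≤ lam) (hs : x ∈ Sp lam b (z0 + 1)) {σ : ℝ}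
    (hσ : ∀ ξ, b ≤ ξ → ξ ≤ z0 → x ξ = true → Real.sqrt (Va P (Ico b ξ) F x) ≤ σ) (hσ0 : 0 ≤ σ) :
    ∀ k : ℕ, ∀ ξ, b ≤ ξ → ξ ≤ z0 → x ξ = true → (ξ - b).toNat = k →
      |F x - Av P (Ico b ξ) F x| ≤ (((ξ - b : ℤ) : ℝ) + 1) * w⁻¹ ^ lam * σ := by
  have hP0 : 0 ≤ P := by linarith
  have hP1 : P ≤ 1 := by linarith
  have hc0 : 0 ≤ w⁻¹ ^ lam * σ := by positivity
  intro k
  induction k using Nat.strong_induction_on with
  | _ k ih =>
    intro ξ hb hξ hx hk
    have hξb : (0 : ℝ) ≤ ((ξ - b : ℤ) : ℝ) := by exact_mod_cast (by omega : (0 : ℤ) ≤ ξ - b)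
    by_cases hex : ∃ i, b ≤ i ∧ i < ξ ∧ x i = true
    · obtain ⟨η, e1, e2, e3, e4⟩ := telq_rightmost x b ξ hex
      have e5 : ξ - η ≤ lam := by
        by_contra hcon
        push Not at hcon
        obtain ⟨k', f1, f2, f3⟩ := hs (η + 1) (by omega) (by omega)
        have := e4 k' (by omega) (by omega)
        rw [f3] at this
        exact absurd this (by decide)
      have hdisj : Disjoint (Ico η ξ) (Ico b η) := by
        rw [Finset.disjoint_left]
        intro i hi hi'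
        rw [Finset.mem_Ico] at hi hi'
        omega
      have hun : Ico η ξ ∪ Ico b η = Ico b ξ := by
        ext i
        simp only [Finset.mem_union, Finset.mem_Ico]
        omega
      have g1 := ih (η - b).toNat (by omega) η e1 (by omega) e3 rfl
      have g2 : |Av P (Ico b η) F x - Av P (Ico η ξ) (Av P (Ico b η) F) x| ≤ w⁻¹ ^ lam * σ := by
        refine (abs_sub_Av_le hw h0 h1 (n := lam) ?_ (Av P (Ico b η) F) x).trans ?_
        · rw [Int.card_Ico]
          omega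
        · refine mul_le_mul_of_nonneg_left ?_ (by positivity)
          refine (Real.sqrt_le_sqrt (Va_Av_le hP0 hP1 hdisj F x)).trans ?_
          rw [hun]
          exact hσ ξ hb hξ hx
      have g3 : Av P (Ico b ξ) F x = Av P (Ico η ξ) (Av P (Ico b η) F) x := by
        rw [← hun, Av_union P hdisj F]
      have g4 : ((η - b : ℤ) : ℝ) + 1 ≤ ((ξ - b : ℤ) : ℝ) := by
        exact_mod_cast (by omega : (η - b) + 1 ≤ ξ - b)
      calc |F x - Av P (Ico b ξ) F x|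
          ≤ |F x - Av P (Ico b η) F x| + |Av P (Ico b η) F x - Av P (Ico b ξ) F x| :=
            abs_sub_le _ _ _
        _ ≤ (((η - b : ℤ) : ℝ) + 1) * w⁻¹ ^ lam * σ + w⁻¹ ^ lam * σ := by
            rw [g3]
            exact add_le_add g1 g2
        _ = (((η - b : ℤ) : ℝ) + 1 + 1) * (w⁻¹ ^ lam * σ) := by ring
        _ ≤ (((ξ - b : ℤ) : ℝ) + 1) * (w⁻¹ ^ lam * σ) :=
            mul_le_mul_of_nonneg_right (by linarith) hc0
        _ = _ := by ring
    · push Not at hex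
      have e5 : ξ - b ≤ lam := by
        by_contra hcon
        push Not at hcon
        obtain ⟨k', f1, f2, f3⟩ := hs b le_rfl (by omega)
        exact hex k' f1 (by omega) f3
      have g2 := abs_sub_Av_le hw h0 h1 (n := lam) (S := Ico b ξ) (by
        rw [Int.card_Ico]
        omega) F x
      calc |F x - Av P (Ico b ξ) F x| ≤ w⁻¹ ^ lam * Real.sqrt (Va P (Ico b ξ) F x) := g2
        _ ≤ w⁻¹ ^ lam * σ := mul_le_mul_of_nonneg_left (hσ ξ hb hξ hx) (by positivity)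
        _ = 1 * (w⁻¹ ^ lam * σ) := by ring
        _ ≤ (((ξ - b : ℤ) : ℝ) + 1) * (w⁻¹ ^ lam * σ) :=
            mul_le_mul_of_nonneg_right (by linarith) hc0
        _ = _ := by ring

private theorem telq_Rpos {b N : ℤ} (hbN : b ≤ N) {R : ℝ} (hR : 8 * ((N - b : ℤ) : ℝ) + 16 ≤ R) :
    16 ≤ R := by
  have : (0 : ℝ) ≤ ((N - b : ℤ) : ℝ) := by exact_mod_cast (by omega : (0 : ℤ) ≤ N - b)
  linarith

private theorem telq_g {w γ P r g : ℝ} (hp : EPar w γ P r g) : g ≤ 1 / 2 := by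
  have h1 := hp.g_le
  have h2 := hp.r_le
  have h3 := hp.one_le_γ
  refine h1.trans ?_
  rw [div_le_iff₀ (by linarith)]
  linarith

theorem TELQ {w γ P r g : ℝ} (hp : EPar w γ P r g) {c : Rts} (hc : Rok c) {b e N : ℤ}
    (heN : e < N) (hE : EastOn c P r b e) {R : ℝ} (hR : 8 * ((N - b : ℤ) : ℝ) + 16 ≤ R)
    {f : Cfg → ℝ} {O : ℝ} (hf : OB (Set.Icc b e) O f) (n : ℕ) {lam : ℕ} (hlam : 1 ≤ lam) {z0 : ℤ}
    (hb : b ≤ z0) (he : z0 ≤ e) {x : Cfg} (hx : x z0 = true) (hs : x ∈ Sp lam b (z0 + 1)) :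
    |(QW c (Ico b N) R)^[n] f x - Av P (Ico b z0) ((QW c (Ico b N) R)^[n] f) x|
      ≤ (((z0 - b : ℤ) : ℝ) + 1) * w⁻¹ ^ lam
        * (O * ((1 - g / R) ^ n + (1 / 2) ^ ((e + 1 - z0).toNat) * (1 + 2 / R) ^ n)) := by
  have hO : 0 ≤ O := OB_nonneg hf
  have hR16 : 16 ≤ R := telq_Rpos (by omega) hR
  have hR0 : 0 < R := by linarith
  have hg := telq_g hp
  have hgp := hp.g_pos
  have hgR : g / R ≤ 1 := by
    rw [div_le_one hR0]
    linarith
  have hA0 : 0 ≤ (1 - g / R) ^ n := pow_nonneg (by linarith) _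
  have hB0 : 0 ≤ (1 + 2 / R) ^ n := pow_nonneg (by positivity) _
  refine telq_core hp.w_pos hp.le_P hp.P_le _ x b z0 hlam hs
    (σ := O * ((1 - g / R) ^ n + (1 / 2) ^ ((e + 1 - z0).toNat) * (1 + 2 / R) ^ n)) ?_ ?_
    (z0 - b).toNat z0 hb le_rfl hx rfl
  · intro ξ h1 h2 h3
    refine (L2M hp hc heN hE hR hf n h1 (h2.trans he) h3).trans ?_
    refine mul_le_mul_of_nonneg_left ?_ hO
    refine add_le_add le_rfl ?_
    refine mul_le_mul_of_nonneg_right ?_ hB0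
    exact pow_le_pow_of_le_one (by norm_num) (by norm_num) (by omega)
  · positivity

/-- semigroup version for two configurations which agree off `[b, z0)`: the averages over `[b, z0)`
are equal; `PW_diff_le_of` with `R = 8 (N - b) + 16` and two terms; then replace
`(1/2)^(e+1-z0)` by `(1/2)^M`. -/
theorem TELP {w γ P r g : ℝ} (hp : EPar w γ P r g) {c : Rts} (hc : Rok c) {b e N : ℤ}
    (heN : e < N) (hE : EastOn c P r b e) {f : Cfg → ℝ} (hfb : Bdd f) {O : ℝ}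
    (hf : OB (Set.Icc b e) O f) {lam M : ℕ} (hlam : 1 ≤ lam) {z0 : ℤ} (hb : b ≤ z0)
    (he : z0 + M ≤ e + 1) (he' : z0 ≤ e) {x x' : Cfg} (hxx : ∀ i, i ∉ Set.Ico b z0 → x i = x' i)
    (hx : x z0 = true) (hs : x ∈ Sp lam b (z0 + 1)) (hs' : x' ∈ Sp lam b (z0 + 1)) {t : ℝ}
    (ht : 0 ≤ t) :
    |PW c (Ico b N) t f x - PW c (Ico b N) t f x'|
      ≤ 2 * (((z0 - b : ℤ) : ℝ) + 1) * w⁻¹ ^ lam
        * (O * (Real.exp (-(g * t)) + (1 / 2) ^ M * Real.exp (2 * t))) := by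
  have hO : 0 ≤ O := OB_nonneg hf
  set R : ℝ := 8 * ((N - b : ℤ) : ℝ) + 16 with hRdef
  have hR16 : 16 ≤ R := telq_Rpos (by omega) (le_refl _)
  have hR0 : 0 < R := by linarith
  have hx' : x' z0 = true := by
    rw [← hxx z0 (by simp), hx]
  have hzb : (0 : ℝ) ≤ ((z0 - b : ℤ) : ℝ) := by exact_mod_cast (by omega : (0 : ℤ) ≤ z0 - b)
  have hw := hp.w_pos
  set K0 : ℝ := 2 * (((z0 - b : ℤ) : ℝ) + 1) * w⁻¹ ^ lam * O with hK0
  have hK00 : 0 ≤ K0 := by positivity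
  have key : ∀ n : ℕ, |(QW c (Ico b N) R)^[n] f x - (QW c (Ico b N) R)^[n] f x'| ≤
      ∑ i : Fin 2, (![K0, K0 * (1 / 2) ^ ((e + 1 - z0).toNat)] i) * (![1 - g / R, 1 + 2 / R] i) ^ n := by
    intro n
    have h1 := TELQ hp hc heN hE (le_refl R) hf n hlam hb he' hx hs
    have h2 := TELQ hp hc heN hE (le_refl R) hf n hlam hb he' hx' hs'
    have h3 : Av P (Ico b z0) ((QW c (Ico b N) R)^[n] f) x =
        Av P (Ico b z0) ((QW c (Ico b N) R)^[n] f) x' :=
      Av_ind P (Ico b z0) _ x x' (fun i hi => hxx i (by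
        intro h
        exact hi (by simpa using h)))
    rw [Fin.sum_univ_two]
    simp only [Matrix.cons_val_zero, Matrix.cons_val_one]
    rw [h3] at h1
    rw [abs_sub_comm] at h2
    calc |(QW c (Ico b N) R)^[n] f x - (QW c (Ico b N) R)^[n] f x'|
        ≤ |(QW c (Ico b N) R)^[n] f x - Av P (Ico b z0) ((QW c (Ico b N) R)^[n] f) x'| +
          |Av P (Ico b z0) ((QW c (Ico b N) R)^[n] f) x' - (QW c (Ico b N) R)^[n] f x'| :=
          abs_sub_le _ _ _
      _ ≤ _ := add_le_add h1 h2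
      _ = _ := by
          rw [hK0]
          ring
  have h := PW_diff_le_of (c := c) (W := Ico b N) hR0 ht hfb x x' Finset.univ _ _ key
  rw [Fin.sum_univ_two] at h
  simp only [Matrix.cons_val_zero, Matrix.cons_val_one] at h
  refine h.trans ?_
  have e1 : R * t * (1 - g / R - 1) = -(g * t) := by
    field_simp
    ring
  have e2 : R * t * (1 + 2 / R - 1) = 2 * t := by
    field_simp
    ring
  rw [e1, e2]
  have e3 : ((1 : ℝ) / 2) ^ ((e + 1 - z0).toNat) ≤ (1 / 2) ^ M :=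
    pow_le_pow_of_le_one (by norm_num) (by norm_num) (by omega)
  have e4 := Real.exp_pos (2 * t)
  calc K0 * Real.exp (-(g * t)) + K0 * (1 / 2) ^ ((e + 1 - z0).toNat) * Real.exp (2 * t)
      ≤ K0 * Real.exp (-(g * t)) + K0 * (1 / 2) ^ M * Real.exp (2 * t) := by gcongr
    _ = _ := by
        rw [hK0]
        ring

end H72NE
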