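import Pool.Agent.H72.NE.Mid
import Pool.Agent.H72.NE.Duh
import Pool.Agent.H72.NE.Com
import Pool.Agent.H72.NE.Fs
import Pool.Agent.H72.NE.Telq
import Pool.Agent.H72.NE.Hl

/-! # LNG: the long stage of an epoch

`m = 2 m'`, `J = [j - m, j)`, `H = Sp lam l ρ`, `H' = H ∩ Sp lam' (j - m) (j + 2 lam')`, `W = Ico A N`,
`k1 = j - m' - 1`. -/

namespace H72NE

open H72IPS Finset

/-- a function `cb` which does not depend on `J` is forgotten: by `PW_erase_le` (with `PW_fs` for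
`cb` at the site `k1`: `cb` does not depend on `(k1 - m', k1]`) freezing `k1` costs `3 t B tl t m'`, twice;
with `k1` frozen use `PW_frozen` and `TELP` with `b = j - m'`, spacing `2 lam`, `z0 ∈ [v, v + 2 lam)` a
particle of `y`, `O = 3 B`. -/
theorem LNGC {w γ P r g : ℝ} (hp : EPar w γ P r g) {c : Rts} (hc : Rok c) {A l e N j v ρ' : ℤ}
    {lam m' M : ℕ} (hlam : 1 ≤ lam) (hm : 1 ≤ m') (hAl : A ≤ l) (heN : e < N)
    (hE : EastOn c P r l e) (hl : l ≤ j - 2 * m') (hjv : j ≤ v) (hv : v + 2 * lam ≤ ρ')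
    (hρ : ρ' + M ≤ e) {cb : Cfg → ℝ} (hf : Bdd cb) {B : ℝ} (hB0 : 0 ≤ B)
    (hI : Ind (Set.Ico (j - 2 * m') j) cb) (hB : OB (Set.Icc l e) (3 * B) cb)
    (hB1 : ∀ k, k ≤ e → OB {k} (3 * B) cb) {t : ℝ} (ht : 0 ≤ t)
    {y y' : Cfg} (hy : y ∈ Sp (2 * lam) l ρ') (hy' : y' ∈ Sp (2 * lam) l ρ')
    (hyy : ∀ i, i ∉ Set.Ico j v → y i = y' i) :
    |PW c (Ico A N) t cb y - PW c (Ico A N) t cb y'|
      ≤ 6 * t * B * tl t m' + 6 * (((v + 2 * lam - j + m' + 1 : ℤ) : ℝ)) * w⁻¹ ^ (2 * lam) * B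
        * (Real.exp (-(g * t)) + (1 / 2) ^ M * Real.exp (2 * t)) := by
  have hw : 0 < w := hp.w_pos
  set k1 : ℤ := j - m' - 1 with hk1
  have hmZ : (1 : ℤ) ≤ (m' : ℤ) := by exact_mod_cast hm
  have hlamZ : (1 : ℤ) ≤ (lam : ℤ) := by exact_mod_cast hlam
  have hMZ : (0 : ℤ) ≤ (M : ℤ) := Int.natCast_nonneg M
  -- freezing the site k1
  have hfs : ∀ u, 0 ≤ u → u ≤ t → OB {k1} (3 * B * tl t m') (PW c ((Ico A N).erase k1) u cb) := by
    intro u hu0 hut
    refine OB_mono (PW_fs hc ((Ico A N).erase k1) hu0 hf (k := k1) (m := m') (D := 3 * B) ?_ ?_)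
      le_rfl ?_
    · intro i hi
      exact hB1 i (by omega)
    · intro i h1 h2
      exact OB_mono (Ind_iff.1 hI) (Set.singleton_subset_iff.2 ⟨by omega, by omega⟩) le_rfl
    · exact mul_le_mul_of_nonneg_left (tl_mono hut m') (by positivity)
  have her : ∀ x, |PW c (Ico A N) t cb x - PW c ((Ico A N).erase k1) t cb x|
      ≤ t * (3 * B * tl t m') := fun x => PW_erase_le hc (Ico A N) k1 ht hf hfs x
  -- the frozen evolution
  obtain ⟨z0, hz1, hz2, hz3⟩ := hy v (by omega) (by push_cast; omega)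
  have hz2' : z0 < v + 2 * lam := by push_cast at hz2; omega
  have hyz : y' z0 = true := by
    rw [← hyy z0 (fun h => absurd h.2 (not_lt.2 hz1))]; exact hz3
  have hfr : |PW c ((Ico A N).erase k1) t cb y - PW c ((Ico A N).erase k1) t cb y'|
      ≤ 6 * (((v + 2 * lam - j + m' + 1 : ℤ) : ℝ)) * w⁻¹ ^ (2 * lam) * B
        * (Real.exp (-(g * t)) + (1 / 2) ^ M * Real.exp (2 * t)) := by
    refine PW_frozen hc (by omega) (by omega) ht hf (fun i hi => hyy i fun h => ?_) ?_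
    · have := h.1; omega
    · intro z z' h1 h2 h3
      have hEb : EastOn c P r (k1 + 1) e := fun k hk hk' => hE k (by omega) hk'
      have key := TELP hp hc (b := k1 + 1) heN hEb hf (O := 3 * B)
        (OB_mono hB (fun i hi => ⟨by have := hi.1; omega, hi.2⟩) le_rfl)
        (lam := 2 * lam) (M := M) (by omega) (z0 := z0) (by omega) (by omega) (by omega)
        (x := z) (x' := z') ?_ ?_ ?_ ?_ ht
      · refine key.trans ?_
        have hlen : (((z0 - (k1 + 1) : ℤ) : ℝ) + 1) ≤ ((v + 2 * lam - j + m' + 1 : ℤ) : ℝ) := by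
          have : (z0 - (k1 + 1)) + 1 ≤ v + 2 * lam - j + m' + 1 := by omega
          exact_mod_cast this
        have hX : 0 ≤ w⁻¹ ^ (2 * lam) * (3 * B * (Real.exp (-(g * t)) + (1 / 2) ^ M *
            Real.exp (2 * t))) := by positivity
        have := mul_le_mul_of_nonneg_right hlen hX
        calc 2 * (((z0 - (k1 + 1) : ℤ) : ℝ) + 1) * w⁻¹ ^ (2 * lam)
              * (3 * B * (Real.exp (-(g * t)) + (1 / 2) ^ M * Real.exp (2 * t)))
            = 2 * ((((z0 - (k1 + 1) : ℤ) : ℝ) + 1) * (w⁻¹ ^ (2 * lam)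
              * (3 * B * (Real.exp (-(g * t)) + (1 / 2) ^ M * Real.exp (2 * t))))) := by ring
          _ ≤ 2 * (((v + 2 * lam - j + m' + 1 : ℤ) : ℝ) * (w⁻¹ ^ (2 * lam)
              * (3 * B * (Real.exp (-(g * t)) + (1 / 2) ^ M * Real.exp (2 * t))))) := by
              linarith
          _ = _ := by ring
      · intro i hi
        by_cases hik : i ≤ k1
        · exact h1 i hik
        · push Not at hik
          have hiz : z0 ≤ i := by
            by_contra hc'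
            exact hi ⟨by omega, by omega⟩
          rw [h2 i hik, h3 i hik]
          exact hyy i (fun h => by have := h.2; omega)
      · rw [h2 z0 (by omega)]; exact hz3
      · intro v' hv1 hv2
        obtain ⟨q, hq1, hq2, hq3⟩ := hy v' (by omega) (by push_cast at hv2 ⊢; omega)
        exact ⟨q, hq1, hq2, by rw [h2 q (by omega)]; exact hq3⟩
      · intro v' hv1 hv2
        obtain ⟨q, hq1, hq2, hq3⟩ := hy' v' (by omega) (by push_cast at hv2 ⊢; omega)
        exact ⟨q, hq1, hq2, by rw [h3 q (by omega)]; exact hq3⟩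
  have h1 := her y
  have h2 := her y'
  rw [abs_le] at h1 h2 hfr ⊢
  constructor <;> nlinarith [h1.1, h1.2, h2.1, h2.2, hfr.1, hfr.2]

/-- `MID` gives `cb` with `|f - cb| ≤ (1-α)κ/2 + α κ bad lam' (j-m) (j+2lam') + B bad lam l ρ`
everywhere (`f` is the function at the end of the stage); the averages of the two indicators over the
evolution are bounded by `HL` (with `tau ≤ 1/8` for the first) and `cb` by `LNGC`. -/
theorem LNG {w γ P r g : ℝ} (hp : EPar w γ P r g) {c : Rts} (hc : Rok c) {A l e N j v ρ : ℤ}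
    {lam lam' m' M : ℕ} (hlam : 1 ≤ lam) (hlam' : 1 ≤ lam') (hm : 1 ≤ m') (hAl : A ≤ l)
    (heN : e < N) (hE : EastOn c P r l e) (hl : l ≤ j - 2 * m') (hjρ : j + 2 * lam' ≤ ρ)
    (hjv : j ≤ v) (hv : v ≤ ρ) (hρ : ρ + 4 * lam + M ≤ e) {f : Cfg → ℝ} (hf : Bdd f) {B κ α : ℝ}
    (hB : OB (Set.Icc l e) B f) (hB1 : ∀ k, k ≤ e → OB {k} B f) {t : ℝ} (ht : 0 ≤ t)
    (hκ0 : 0 ≤ κ) (hα0 : 0 ≤ α) (hα1 : α ≤ 1)
    (hκ : ∀ z z' : Cfg, z ∈ Sp lam l ρ → z' ∈ Sp lam l ρ →
      (∀ i, i ∉ Set.Ico (j - 2 * m') j → z i = z' i) → |f z - f z'| ≤ κ)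
    (hκ' : ∀ z z' : Cfg, z ∈ Sp lam l ρ → z' ∈ Sp lam l ρ →
      z ∈ Sp lam' (j - 2 * m') (j + 2 * lam') → z' ∈ Sp lam' (j - 2 * m') (j + 2 * lam') →
      (∀ i, i ∉ Set.Ico (j - 2 * m') j → z i = z' i) → |f z - f z'| ≤ (1 - α) * κ)
    (hτ : tau w g t lam lam' (2 * m') M ≤ 1 / 8) {Len : ℝ} (hLen0 : ((ρ - l : ℤ) : ℝ) ≤ Len)
    (hLen : ((v + 2 * lam - j + m' + 1 : ℤ) : ℝ) ≤ Len)
    {y y' : Cfg} (hy : y ∈ Sp (2 * lam) l (ρ + 4 * lam)) (hy' : y' ∈ Sp (2 * lam) l (ρ + 4 * lam))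
    (hyy : ∀ i, i ∉ Set.Ico j v → y i = y' i) :
    |PW c (Ico A N) t f y - PW c (Ico A N) t f y'|
      ≤ (1 - 3 / 4 * α) * κ + B * e2 w g Len t lam m' M := by
  have hw : 0 < w := hp.w_pos
  have hw1 : 0 ≤ 1 - w := by have := hp.w_le; linarith
  have hmZ : (1 : ℤ) ≤ (m' : ℤ) := by exact_mod_cast hm
  have hlamZ : (1 : ℤ) ≤ (lam : ℤ) := by exact_mod_cast hlam
  have hlamZ' : (1 : ℤ) ≤ (lam' : ℤ) := by exact_mod_cast hlam'
  have hMZ : (0 : ℤ) ≤ (M : ℤ) := Int.natCast_nonneg M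
  have hB0 : 0 ≤ B := OB_nonneg hB
  obtain ⟨cb, hI, c1, c2, c3⟩ := MID (J := Set.Ico (j - 2 * m') j)
    (H := Sp lam l ρ) (H' := Sp lam l ρ ∩ Sp lam' (j - 2 * m') (j + 2 * lam'))
    Set.inter_subset_left (g := f) (α := α) (κ := κ) (B := B) hα0 hα1 hκ0
    (OB_mono hB (fun i hi => ⟨by have := hi.1; omega, by have := hi.2; omega⟩) le_rfl)
    hκ (fun z z' hz hz' h => hκ' z z' hz.1 hz'.1 hz.2 hz'.2 h)
  have hcb : Bdd cb := Bdd_of_near hf c3
  -- pointwise bound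
  have hpt : ∀ z, |f z - cb z| ≤ (1 - α) * κ / 2 +
      (α * κ * bad lam' (j - 2 * m') (j + 2 * lam') z + B * bad lam l ρ z) := by
    intro z
    have b1 := bad_nonneg lam' (j - 2 * m') (j + 2 * lam') z
    have b2 := bad_nonneg lam l ρ z
    have hακ : 0 ≤ α * κ := mul_nonneg hα0 hκ0
    have hακ1 : 0 ≤ (1 - α) * κ := mul_nonneg (by linarith) hκ0
    by_cases hz : z ∈ Sp lam l ρ
    · by_cases hz' : z ∈ Sp lam' (j - 2 * m') (j + 2 * lam')
      · refine (c1 z ⟨hz, hz'⟩).trans ?_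
        nlinarith [mul_nonneg hακ b1, mul_nonneg hB0 b2]
      · have e1 : bad lam' (j - 2 * m') (j + 2 * lam') z = 1 := by
          unfold bad; rw [if_neg hz']
        refine (c2 z hz).trans ?_
        rw [e1]
        nlinarith [mul_nonneg hB0 b2]
    · have e1 : bad lam l ρ z = 1 := by
        unfold bad; rw [if_neg hz]
      refine (c3 z).trans ?_
      rw [e1]
      nlinarith [mul_nonneg hακ b1]
  have hLb : 0 ≤ ((ρ - l : ℤ) : ℝ) := by
    have : (0 : ℤ) ≤ ρ - l := by omega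
    exact_mod_cast this
  set X : ℝ := (1 - w) ^ lam + w⁻¹ ^ (3 * lam) * Real.exp (-(g * t)) +
    (1 / 2) ^ M * Real.exp (2 * t) with hX
  have hX0 : 0 ≤ X := by positivity
  -- comparison of f and cb
  have hcmp : ∀ z, z ∈ Sp (2 * lam) l (ρ + 4 * lam) →
      |PW c (Ico A N) t f z - PW c (Ico A N) t cb z| ≤
        (1 - α) * κ / 2 + (α * κ * (1 / 8) + B * (Len * X)) := by
    intro z hz
    have hb1 := bad_bdd lam' (j - 2 * m') (j + 2 * lam')
    have hb2 := bad_bdd lam l ρ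
    have hs1 : Bdd (fun x => α * κ * bad lam' (j - 2 * m') (j + 2 * lam') x) := by
      obtain ⟨C, hC⟩ := hb1
      refine ⟨|α * κ| * C, fun x => ?_⟩
      rw [abs_mul]
      exact mul_le_mul_of_nonneg_left (hC x) (abs_nonneg _)
    have hs2 : Bdd (fun x => B * bad lam l ρ x) := by
      obtain ⟨C, hC⟩ := hb2
      refine ⟨|B| * C, fun x => ?_⟩
      rw [abs_mul]
      exact mul_le_mul_of_nonneg_left (hC x) (abs_nonneg _)
    have hs3 : Bdd (fun x => α * κ * bad lam' (j - 2 * m') (j + 2 * lam') x +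
        B * bad lam l ρ x) := by
      obtain ⟨C1, h1⟩ := hs1
      obtain ⟨C2, h2⟩ := hs2
      exact ⟨C1 + C2, fun x => (abs_add_le _ _).trans (add_le_add (h1 x) (h2 x))⟩
    have hs4 : Bdd (fun _ : Cfg => (1 - α) * κ / 2) := ⟨_, fun _ => le_rfl⟩
    have hs5 : Bdd (fun x => (1 - α) * κ / 2 +
        (α * κ * bad lam' (j - 2 * m') (j + 2 * lam') x + B * bad lam l ρ x)) := by
      obtain ⟨C1, h1⟩ := hs4
      obtain ⟨C2, h2⟩ := hs3
      exact ⟨C1 + C2, fun x => (abs_add_le _ _).trans (add_le_add (h1 x) (h2 x))⟩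
    have hd : Bdd (fun x => f x - cb x) := ⟨B, c3⟩
    have hda : Bdd (fun x => |f x - cb x|) := ⟨B, fun x => by rw [abs_abs]; exact c3 x⟩
    rw [← PW_sub c (Ico A N) t hf hcb z]
    refine (PW_abs_le_abs hc (Ico A N) ht hd z).trans ?_
    refine (PW_mono hc (Ico A N) ht hda hs5 hpt z).trans ?_
    rw [PW_add c (Ico A N) t hs4 hs3 z, PW_const, PW_add c (Ico A N) t hs1 hs2 z,
      PW_smul c (Ico A N) t _ hb1 z, PW_smul c (Ico A N) t _ hb2 z]
    have hl1 := HL hp hc (A := A) (l := l) (l' := j - 2 * m') (r' := j + 2 * lam')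
      (ρ := ρ + 4 * lam) (e := e) (N := N) (lam := lam) (μ := lam') (M := M) hlam hlam' hAl hl
      (by omega) (by omega) (by omega) heN hE ht hz
    have hl2 := HL hp hc (A := A) (l := l) (l' := l) (r' := ρ)
      (ρ := ρ + 4 * lam) (e := e) (N := N) (lam := lam) (μ := lam) (M := M) hlam hlam hAl le_rfl
      (by omega) (by omega) (by omega) heN hE ht hz
    have h1 : PW c (Ico A N) t (bad lam' (j - 2 * m') (j + 2 * lam')) z ≤ 1 / 8 := by
      refine hl1.trans (le_trans (le_of_eq ?_) hτ)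
      unfold tau
      push_cast
      ring
    have h2 : PW c (Ico A N) t (bad lam l ρ) z ≤ Len * X := by
      refine hl2.trans ?_
      rw [show lam + 2 * lam = 3 * lam by ring]
      exact mul_le_mul_of_nonneg_right hLen0 hX0
    have hακ : 0 ≤ α * κ := mul_nonneg hα0 hκ0
    have := mul_le_mul_of_nonneg_left h1 hακ
    have := mul_le_mul_of_nonneg_left h2 hB0
    linarith
  have hC := LNGC hp hc (A := A) (l := l) (e := e) (N := N) (j := j) (v := v) (ρ' := ρ + 4 * lam)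
    (lam := lam) (m' := m') (M := M) hlam hm hAl heN hE hl hjv (by omega) (by omega) hcb hB0 hI
    (OB_mono (OB_of_near hB c3) le_rfl (by linarith))
    (fun k hk => OB_mono (OB_of_near (hB1 k hk) c3) le_rfl (by linarith)) ht hy hy' hyy
  have h1 := hcmp y hy
  have h2 := hcmp y' hy'
  set Y : ℝ := w⁻¹ ^ (2 * lam) * (Real.exp (-(g * t)) + (1 / 2) ^ M * Real.exp (2 * t)) with hY
  have hY0 : 0 ≤ Y := by positivity
  have h3 : 6 * (((v + 2 * lam - j + m' + 1 : ℤ) : ℝ)) * w⁻¹ ^ (2 * lam) * B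
        * (Real.exp (-(g * t)) + (1 / 2) ^ M * Real.exp (2 * t)) ≤ 6 * Len * B * Y := by
    have := mul_le_mul_of_nonneg_right hLen (mul_nonneg hB0 hY0)
    calc _ = 6 * (((v + 2 * lam - j + m' + 1 : ℤ) : ℝ) * (B * Y)) := by rw [hY]; ring
      _ ≤ 6 * (Len * (B * Y)) := by linarith
      _ = _ := by ring
  have h4 : e2 w g Len t lam m' M = 2 * Len * X + 6 * t * tl t m' + 6 * Len * Y := by
    unfold e2
    rw [hX, hY]
    ring
  rw [h4]
  have h5 : |PW c (Ico A N) t f y - PW c (Ico A N) t f y'| ≤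
      |PW c (Ico A N) t f y - PW c (Ico A N) t cb y| +
      |PW c (Ico A N) t cb y - PW c (Ico A N) t cb y'| +
      |PW c (Ico A N) t f y' - PW c (Ico A N) t cb y'| := by
    have e1 : PW c (Ico A N) t f y - PW c (Ico A N) t f y' =
      (PW c (Ico A N) t f y - PW c (Ico A N) t cb y) +
      (PW c (Ico A N) t cb y - PW c (Ico A N) t cb y') -
      (PW c (Ico A N) t f y' - PW c (Ico A N) t cb y') := by ring
    rw [e1]
    exact (abs_sub _ _).trans (add_le_add (abs_add_le _ _) le_rfl)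
  linarith [h1, h2, h3, hC, h5]

end H72NE
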