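import Pool.Agent.H72.NE.Eop
import Pool.Agent.H72.NE.QBas

/-! # LNO: the left part of one step, with noise

For `k ∈ [b, ξ)` with `z (k+1) = true` the term `rt c z k (G (flip z k) - G z)` equals
`r (Av_k G z - G z)`; if `z (k+1) = false` its absolute value is at most `ν |G (flip z k) - G z|`.
So `LN = EBo + (2/R) ∑_k N_k` with `|N_k z| ≤ ν |D_k z|`, `D_k z = G (flip z k) - G z`, and
`Av (D_k ²) = Av (Va_k G) / (P (1 - P)) ≤ (2 / w) Va G ≤ ((2 / w) sd G)²`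
(`Va_single_flip`, `Av_Va_le`; `P (1 - P) ≥ w (1 - w) ≥ w / 2`, `2 / w ≥ 1`).
The number of terms is `ξ - b`. -/

namespace H72NE

open H72IPS Finset

/-- the noise part of the term of site `k` -/
noncomputable def LNO_N (c : Rts) (G : Cfg → ℝ) (k : ℤ) (z : Cfg) : ℝ :=
  if z (k + 1) = true then 0 else rt c z k * (G (flip z k) - G z)

theorem LNO_east {P : ℝ} (k : ℤ) (G : Cfg → ℝ) (z : Cfg) {r : ℝ} {c : Rts}
    (h1 : c k false true = r * P) (h2 : c k true true = r * (1 - P)) (hz : z (k + 1) = true) :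
    rt c z k * (G (flip z k) - G z) = r * (Av P {k} G z - G z) := by
  rw [Av_single]
  unfold rt
  rw [hz]
  cases hk : z k with
  | false =>
    have e1 : Function.update z k false = z := by
      rw [← hk]; exact Function.update_eq_self k z
    rw [h1, flip_of_false hk, e1]
    ring
  | true =>
    have e1 : Function.update z k true = z := by
      rw [← hk]; exact Function.update_eq_self k z
    rw [h2, flip_of_true hk, e1]
    ring

theorem LNO_decomp {P r ν β R : ℝ} {c : Rts} {b e ξ : ℤ} (hξe : ξ ≤ e + 1)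
    (hn : NoisyOn c P r ν β b e) (G : Cfg → ℝ) (z : Cfg) :
    LN c R b ξ G z = EBo P r R b ξ G z + ∑ k ∈ Ico b ξ, (2 / R) * LNO_N c G k z := by
  unfold LN EBo
  rw [← Finset.mul_sum, add_assoc, ← mul_add, ← Finset.sum_add_distrib]
  congr 2
  apply Finset.sum_congr rfl
  intro k hk
  rw [mem_Ico] at hk
  obtain ⟨h1, h2, -, -, -⟩ := hn k hk.1 (by omega)
  unfold LNO_N
  by_cases hz : z (k + 1) = true
  · rw [if_pos hz, if_pos hz, add_zero, LNO_east k G z h1 h2 hz]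
  · rw [if_neg hz, if_neg hz, zero_add]

theorem LNO_abs {P r ν β : ℝ} {c : Rts} (hc : Rok c) {b e : ℤ}
    (hn : NoisyOn c P r ν β b e) (G : Cfg → ℝ) {k : ℤ} (hk1 : b ≤ k) (hk2 : k ≤ e) (z : Cfg) :
    LNO_N c G k z ^ 2 ≤ ν ^ 2 * (G (flip z k) - G z) ^ 2 := by
  unfold LNO_N
  by_cases hz : z (k + 1) = true
  · rw [if_pos hz]
    have : 0 ≤ ν ^ 2 * (G (flip z k) - G z) ^ 2 := by positivity
    simpa using this
  · rw [if_neg hz, mul_pow]
    have hz' : z (k + 1) = false := by simpa using hz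
    obtain ⟨-, -, h3, h4, -⟩ := hn k hk1 hk2
    have h5 : 0 ≤ rt c z k := by
      unfold rt; exact (hc _ _ _).1
    have h6 : rt c z k ≤ ν := by
      unfold rt; rw [hz']
      cases z k
      · exact h3
      · exact h4
    have h7 : rt c z k ^ 2 ≤ ν ^ 2 := pow_le_pow_left₀ h5 h6 2
    exact mul_le_mul_of_nonneg_right h7 (by positivity)

theorem LNO_AvSq {w γ P r g : ℝ} (hp : EPar w γ P r g) {c : Rts} (hc : Rok c) {ν β : ℝ} (hν : 0 ≤ ν)
    {b e ξ : ℤ} (hξe : ξ ≤ e + 1) (hn : NoisyOn c P r ν β b e) (G : Cfg → ℝ) (x : Cfg) {k : ℤ}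
    (hk : k ∈ Ico b ξ) :
    Av P (Ico b ξ) (fun z => LNO_N c G k z ^ 2) x ≤ (ν * (2 / w)) ^ 2 * Va P (Ico b ξ) G x := by
  have hw := hp.w_pos
  have hw2 := hp.w_le
  have hP1 := hp.le_P
  have hP2 := hp.P_le
  have h0 : 0 ≤ P := by linarith
  have h1 : P ≤ 1 := by linarith
  have hPP : w / 2 ≤ P * (1 - P) := by nlinarith
  have hk' := mem_Ico.1 hk
  have hpos : 0 < P * (1 - P) := by linarith
  have e1 : Av P (Ico b ξ) (fun z => LNO_N c G k z ^ 2) x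
      ≤ Av P (Ico b ξ) (fun z => (ν ^ 2 / (P * (1 - P))) * Va P {k} G z) x := by
    apply Av_mono h0 h1
    intro y _
    refine (LNO_abs hc hn G hk'.1 (by omega) y).trans (le_of_eq ?_)
    rw [Va_single_flip]
    have hne := hpos.ne'
    generalize P * (1 - P) = q at hne
    field_simp
  refine e1.trans ?_
  rw [Av_smul]
  have e2 := Av_Va_le h0 h1 (S := Ico b ξ) (T := {k}) (by simpa using hk') G x
  have e3 : ν ^ 2 / (P * (1 - P)) ≤ (ν * (2 / w)) ^ 2 := by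
    rw [div_le_iff₀ hpos, mul_pow]
    have h4 : 1 ≤ (2 / w) ^ 2 * (P * (1 - P)) := by
      have h5 : (2 / w) ^ 2 * (w / 2) ≤ (2 / w) ^ 2 * (P * (1 - P)) :=
        mul_le_mul_of_nonneg_left hPP (by positivity)
      have h6 : (2 / w) ^ 2 * (w / 2) = 2 / w := by field_simp
      have h7 : 1 ≤ 2 / w := by rw [le_div_iff₀ hw]; linarith
      linarith
    nlinarith [sq_nonneg ν]
  calc ν ^ 2 / (P * (1 - P)) * Av P (Ico b ξ) (Va P {k} G) x
      ≤ ν ^ 2 / (P * (1 - P)) * Va P (Ico b ξ) G x := mul_le_mul_of_nonneg_left e2 (by positivity)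
    _ ≤ _ := mul_le_mul_of_nonneg_right e3 (Va_nonneg h0 h1 _ _ _)

theorem LNO_sqrt {w γ P r g : ℝ} (hp : EPar w γ P r g) {c : Rts} (hc : Rok c) {ν β : ℝ} (hν : 0 ≤ ν)
    {b e ξ : ℤ} (hξe : ξ ≤ e + 1) (hn : NoisyOn c P r ν β b e) (G : Cfg → ℝ) (x : Cfg) {k : ℤ}
    (hk : k ∈ Ico b ξ) :
    Real.sqrt (Av P (Ico b ξ) (fun z => LNO_N c G k z ^ 2) x)
      ≤ ν * (2 / w) * Real.sqrt (Va P (Ico b ξ) G x) := by
  have h := LNO_AvSq hp hc hν hξe hn G x hk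
  have hw := hp.w_pos
  have h2 : 0 ≤ ν * (2 / w) := by positivity
  calc _ ≤ Real.sqrt ((ν * (2 / w)) ^ 2 * Va P (Ico b ξ) G x) := Real.sqrt_le_sqrt h
    _ = _ := by rw [Real.sqrt_mul (by positivity), Real.sqrt_sq h2]

theorem LNO_card (b ξ : ℤ) (hbξ : b ≤ ξ) : ((Ico b ξ).card : ℝ) = ((ξ - b : ℤ) : ℝ) := by
  rw [Int.card_Ico]
  have : ((ξ - b).toNat : ℤ) = ξ - b := Int.toNat_of_nonneg (by omega)
  exact_mod_cast this

/-- `sd (LN G) ≤ (1 - r/(γR) + 4 ν (ξ - b) / (w R)) sd G`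
(`sqrt (1 - 2 r/(γR)) ≤ 1 - r/(γR)`) -/
theorem sd_LN {w γ P r g : ℝ} (hp : EPar w γ P r g) {c : Rts} (hc : Rok c) {ν β : ℝ} (hν : 0 ≤ ν)
    {b e ξ : ℤ} (hbξ : b ≤ ξ) (hξe : ξ ≤ e + 1) (hn : NoisyOn c P r ν β b e) {R : ℝ}
    (hR : 8 * ((ξ - b : ℤ) : ℝ) + 16 ≤ R) (G : Cfg → ℝ) {x : Cfg} (hx : x ξ = true) :
    Real.sqrt (Va P (Ico b ξ) (LN c R b ξ G) x)
      ≤ (1 - r / (γ * R) + 4 * ν * ((ξ - b : ℤ) : ℝ) / (w * R)) * Real.sqrt (Va P (Ico b ξ) G x) := by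
  have hw := hp.w_pos
  have hγ := hp.one_le_γ
  have hr := hp.r_pos
  have hr2 := hp.r_le
  have h0 : 0 ≤ P := by linarith [hp.le_P]
  have h1 : P ≤ 1 := by linarith [hp.P_le]
  have hlen : (0 : ℝ) ≤ ((ξ - b : ℤ) : ℝ) := by
    have : (0 : ℤ) ≤ ξ - b := by omega
    exact_mod_cast this
  have hR0 : 0 < R := by linarith
  have hVG := Va_nonneg h0 h1 (Ico b ξ) G x
  have hfun : LN c R b ξ G = fun z => EBo P r R b ξ G z + (fun z => ∑ k ∈ Ico b ξ, (2 / R) * LNO_N c G k z) z := by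
    funext z
    exact LNO_decomp hξe hn G z
  rw [hfun]
  refine (sd_add h0 h1 (Ico b ξ) (EBo P r R b ξ G) _ x).trans ?_
  have hE : Real.sqrt (Va P (Ico b ξ) (EBo P r R b ξ G) x)
      ≤ (1 - r / (γ * R)) * Real.sqrt (Va P (Ico b ξ) G x) := by
    have ha : r / (γ * R) ≤ 1 := by
      rw [div_le_one (by positivity)]
      nlinarith
    have hV := Va_EBo hp hR0 hbξ (by nlinarith) G hx
    have hsq : 1 - 2 * r / (γ * R) ≤ (1 - r / (γ * R)) ^ 2 := by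
      have : 2 * r / (γ * R) = 2 * (r / (γ * R)) := by ring
      rw [this]
      nlinarith [sq_nonneg (r / (γ * R))]
    calc _ ≤ Real.sqrt ((1 - r / (γ * R)) ^ 2 * Va P (Ico b ξ) G x) :=
          Real.sqrt_le_sqrt (hV.trans (mul_le_mul_of_nonneg_right hsq hVG))
      _ = _ := by rw [Real.sqrt_mul (by positivity), Real.sqrt_sq (by linarith)]
  have hN : Real.sqrt (Va P (Ico b ξ) (fun z => ∑ k ∈ Ico b ξ, (2 / R) * LNO_N c G k z) x)
      ≤ 4 * ν * ((ξ - b : ℤ) : ℝ) / (w * R) * Real.sqrt (Va P (Ico b ξ) G x) := by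
    refine (sd_sum h0 h1 (Ico b ξ) (Ico b ξ) (fun _ => 2 / R) (fun _ _ => by positivity)
      (LNO_N c G) x).trans ?_
    have hterm : ∀ k ∈ Ico b ξ, 2 / R * Real.sqrt (Va P (Ico b ξ) (LNO_N c G k) x)
        ≤ 2 / R * (ν * (2 / w) * Real.sqrt (Va P (Ico b ξ) G x)) := by
      intro k hk
      apply mul_le_mul_of_nonneg_left _ (by positivity)
      exact (Real.sqrt_le_sqrt (Va_le_Av_sq _ _ _)).trans (LNO_sqrt hp hc hν hξe hn G x hk)
    refine (Finset.sum_le_sum hterm).trans (le_of_eq ?_)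
    rw [Finset.sum_const, nsmul_eq_mul, LNO_card b ξ hbξ]
    field_simp
    ring
  calc _ ≤ (1 - r / (γ * R)) * Real.sqrt (Va P (Ico b ξ) G x)
        + 4 * ν * ((ξ - b : ℤ) : ℝ) / (w * R) * Real.sqrt (Va P (Ico b ξ) G x) := add_le_add hE hN
    _ = _ := by ring

/-- `|Av (LN G) - Av G| ≤ 4 ν (ξ - b) / (w R) sd G` -/
theorem Av_LN {w γ P r g : ℝ} (hp : EPar w γ P r g) {c : Rts} (hc : Rok c) {ν β : ℝ} (hν : 0 ≤ ν)
    {b e ξ : ℤ} (hbξ : b ≤ ξ) (hξe : ξ ≤ e + 1) (hn : NoisyOn c P r ν β b e) {R : ℝ}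
    (hR : 8 * ((ξ - b : ℤ) : ℝ) + 16 ≤ R) (G : Cfg → ℝ) {x : Cfg} (hx : x ξ = true) :
    |Av P (Ico b ξ) (LN c R b ξ G) x - Av P (Ico b ξ) G x|
      ≤ 4 * ν * ((ξ - b : ℤ) : ℝ) / (w * R) * Real.sqrt (Va P (Ico b ξ) G x) := by
  have hw := hp.w_pos
  have h0 : 0 ≤ P := by linarith [hp.le_P]
  have h1 : P ≤ 1 := by linarith [hp.P_le]
  have hlen : (0 : ℝ) ≤ ((ξ - b : ℤ) : ℝ) := by
    have : (0 : ℤ) ≤ ξ - b := by omega
    exact_mod_cast this
  have hR0 : 0 < R := by linarith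
  have hfun : LN c R b ξ G = fun z => EBo P r R b ξ G z + (fun z => ∑ k ∈ Ico b ξ, (2 / R) * LNO_N c G k z) z := by
    funext z
    exact LNO_decomp hξe hn G z
  rw [hfun, Av_add, Av_EBo, add_sub_cancel_left, Av_sum]
  refine (Finset.abs_sum_le_sum_abs _ _).trans ?_
  have hterm : ∀ k ∈ Ico b ξ, |Av P (Ico b ξ) (fun z => 2 / R * LNO_N c G k z) x|
      ≤ 2 / R * (ν * (2 / w) * Real.sqrt (Va P (Ico b ξ) G x)) := by
    intro k hk
    rw [Av_smul, abs_mul, abs_of_nonneg (show 0 ≤ 2 / R by positivity)]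
    apply mul_le_mul_of_nonneg_left _ (by positivity)
    refine (Real.abs_le_sqrt (Av_sq_le h0 h1 _ _ _)).trans (LNO_sqrt hp hc hν hξe hn G x hk)
  refine (Finset.sum_le_sum hterm).trans (le_of_eq ?_)
  rw [Finset.sum_const, nsmul_eq_mul, LNO_card b ξ hbξ]
  field_simp
  ring

end H72NE
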