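import Pool.Agent.H72.NE.NumD

/-! # NUMB: the number of epochs and the mixing error of the short stage -/

namespace H72NE

open H72IPS Finset Filter

/-- `exp (-s) = D ^ (-Ks)` and `(1 - 3/4 D^(-Ks)) ^ (D^(Ks+1)) ≤ exp (-(3/4) D)` -/
theorem num_q (Ks : ℕ) {δ : ℝ} (hδ : 0 < δ) :
    ∀ᶠ D : ℕ in atTop, (1 - 3 / 4 * Real.exp (-((Ks : ℝ) * Real.log D))) ^ (D ^ (Ks + 1)) ≤ δ := by
  have h1 : Tendsto (fun D : ℕ => Real.exp (-(3 / 4 * (D : ℝ)))) atTop (nhds 0) :=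
    Real.tendsto_exp_neg_atTop_nhds_zero.comp
      ((tendsto_natCast_atTop_atTop (R := ℝ)).const_mul_atTop (by norm_num : (0 : ℝ) < 3 / 4))
  filter_upwards [h1.eventually_le_const hδ, eventually_ge_atTop 1] with D hD hD1
  have hDp : (0 : ℝ) < D := by exact_mod_cast hD1
  have hD1' : (1 : ℝ) ≤ D := by exact_mod_cast hD1
  refine le_trans ?_ hD
  have he : Real.exp (-((Ks : ℝ) * Real.log D)) = ((D : ℝ) ^ Ks)⁻¹ := by
    rw [Real.exp_neg, Real.exp_nat_mul, Real.exp_log hDp]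
  rw [he]
  have hpow : (1 : ℝ) ≤ (D : ℝ) ^ Ks := one_le_pow₀ hD1'
  have hinv : ((D : ℝ) ^ Ks)⁻¹ ≤ 1 := inv_le_one_of_one_le₀ hpow
  have h2 : 1 - 3 / 4 * ((D : ℝ) ^ Ks)⁻¹ ≤ Real.exp (-(3 / 4 * ((D : ℝ) ^ Ks)⁻¹)) :=
    Real.one_sub_le_exp_neg _
  have h3 : 0 ≤ 1 - 3 / 4 * ((D : ℝ) ^ Ks)⁻¹ := by linarith
  refine (pow_le_pow_left₀ h3 h2 _).trans ?_
  rw [← Real.exp_nat_mul]
  apply le_of_eq
  congr 1
  have hne : ((D : ℝ) ^ Ks) ≠ 0 := by positivity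
  push_cast
  field_simp
  ring

theorem NUMB_log_le (a : ℝ) {b : ℝ} (hb : 0 < b) :
    ∀ᶠ D : ℕ in atTop, a * Real.log D ≤ b * D := by
  have h1 := (Real.isLittleO_log_id_atTop.comp_tendsto
    (tendsto_natCast_atTop_atTop (R := ℝ))).const_mul_left a
  have h2 := h1.bound hb
  filter_upwards [h2] with D hD
  simp only [Function.comp_apply, id_eq, Real.norm_eq_abs, Nat.abs_cast] at hD
  exact (le_abs_self _).trans hD

/-- with `Λ = log (1/w)`: `w⁻¹^lam' ≤ exp (Λ (K' log D + 2)) = w⁻¹^2 D^(Λ K')`,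
`exp (-(g s)) = D ^ (-(g Ks))`, `g Ks ≥ Λ K' + 2`, `(1/2)^(8 Kt D) exp (2 s) = (1/2)^(8 Kt D) D^(2 Ks)`;
the prefactor is `O(D)`. -/
theorem num_eMix {w g : ℝ} {Kt Ks K' κ : ℕ} (h : KP w g Kt Ks K' κ) {δ : ℝ} (hδ : 0 < δ) :
    ∀ᶠ D : ℕ in atTop,
      eMix w g ((Ks : ℝ) * Real.log D) (2 * (8 * Kt * D)) (lp K' D) (8 * Kt * D) ≤ δ := by
  obtain ⟨hw, hw2, hg, hg2, -, -, hKs, -, hKt1, -, -, -⟩ := h
  set Λ : ℝ := Real.log (1 / w) with hΛ
  have hΛ0 : 0 ≤ Λ := Real.log_nonneg (by rw [le_div_iff₀ hw]; linarith)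
  have hwe : w⁻¹ = Real.exp Λ := by
    rw [hΛ, Real.exp_log (by positivity), one_div]
  have hlog2 : 0 < Real.log 2 := Real.log_pos (by norm_num)
  have hKt' : (1 : ℝ) ≤ Kt := by exact_mod_cast hKt1
  set C : ℝ := 4 * (16 * Kt + K' + 3) * Real.exp (2 * Λ) with hC
  have hlim := (tendsto_const_div_atTop_nhds_zero_nat C).eventually_le_const hδ
  filter_upwards [hlim, eventually_ge_atTop 1, NUMB_log_le (Λ * K' + 2 * Ks + 2)
    (show (0 : ℝ) < 8 * Real.log 2 by positivity)] with D hD hD1 hDl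
  have hDp : (0 : ℝ) < D := by exact_mod_cast hD1
  have hD1' : (1 : ℝ) ≤ D := by exact_mod_cast hD1
  have hlogD : 0 ≤ Real.log D := Real.log_nonneg hD1'
  have hlogD' : Real.log D ≤ D := (Real.log_le_sub_one_of_pos hDp).trans (by linarith)
  refine le_trans ?_ hD
  have hlp : (lp K' D : ℝ) ≤ K' * Real.log D + 2 := by
    unfold lp
    push_cast
    have := (Nat.ceil_lt_add_one (show 0 ≤ (K' : ℝ) * Real.log D by positivity)).le
    linarith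
  -- the power of w⁻¹
  have hpw : w⁻¹ ^ (lp K' D) ≤ Real.exp (Λ * (K' * Real.log D + 2)) := by
    rw [hwe, ← Real.exp_nat_mul]
    apply Real.exp_le_exp.2
    rw [mul_comm]
    exact mul_le_mul_of_nonneg_left hlp hΛ0
  have hsq : Real.exp (-(2 * Real.log D)) = ((D : ℝ) ^ 2)⁻¹ := by
    rw [Real.exp_neg]
    congr 1
    rw [show (2 : ℝ) * Real.log D = ((2 : ℕ) : ℝ) * Real.log D by norm_num, Real.exp_nat_mul,
      Real.exp_log hDp]
  have hA : w⁻¹ ^ (lp K' D) * Real.exp (-(g * ((Ks : ℝ) * Real.log D))) ≤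
      Real.exp (2 * Λ) * ((D : ℝ) ^ 2)⁻¹ := by
    rw [← hsq, ← Real.exp_add]
    refine (mul_le_mul_of_nonneg_right hpw (Real.exp_pos _).le).trans ?_
    rw [← Real.exp_add]
    apply Real.exp_le_exp.2
    have := mul_le_mul_of_nonneg_right hKs hlogD
    nlinarith [this]
  have hB : w⁻¹ ^ (lp K' D) * ((1 / 2) ^ (8 * Kt * D) * Real.exp (2 * ((Ks : ℝ) * Real.log D))) ≤
      Real.exp (2 * Λ) * ((D : ℝ) ^ 2)⁻¹ := by
    rw [← hsq, ← Real.exp_add]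
    have h2 : ((1 : ℝ) / 2) ^ (8 * Kt * D) = Real.exp (-(8 * Kt * D * Real.log 2)) := by
      rw [show (1 : ℝ) / 2 = Real.exp (-Real.log 2) by
        rw [Real.exp_neg, Real.exp_log (by norm_num)]; norm_num, ← Real.exp_nat_mul]
      congr 1
      push_cast
      ring
    rw [h2, ← Real.exp_add]
    refine (mul_le_mul_of_nonneg_right hpw (Real.exp_pos _).le).trans ?_
    rw [← Real.exp_add]
    apply Real.exp_le_exp.2
    have h3 : 8 * Real.log 2 * D ≤ 8 * Kt * D * Real.log 2 := by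
      have : (0 : ℝ) ≤ 8 * D * Real.log 2 := by positivity
      nlinarith [mul_le_mul_of_nonneg_right hKt' this]
    nlinarith [hDl, h3]
  have hpre : ((((2 * (8 * Kt * D) : ℕ) : ℝ)) + (lp K' D : ℝ) + 1) ≤ (16 * Kt + K' + 3) * D := by
    push_cast
    have hK : (K' : ℝ) * Real.log D ≤ K' * D :=
      mul_le_mul_of_nonneg_left hlogD' (Nat.cast_nonneg _)
    nlinarith [hlp, hK]
  unfold eMix
  have hp0 : 0 ≤ ((((2 * (8 * Kt * D) : ℕ) : ℝ)) + (lp K' D : ℝ) + 1) := by positivity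
  calc 2 * ((((2 * (8 * Kt * D) : ℕ) : ℝ)) + (lp K' D : ℝ) + 1) * w⁻¹ ^ (lp K' D)
        * (Real.exp (-(g * ((Ks : ℝ) * Real.log D))) + (1 / 2) ^ (8 * Kt * D)
          * Real.exp (2 * ((Ks : ℝ) * Real.log D)))
      = 2 * ((((2 * (8 * Kt * D) : ℕ) : ℝ)) + (lp K' D : ℝ) + 1) *
        (w⁻¹ ^ (lp K' D) * Real.exp (-(g * ((Ks : ℝ) * Real.log D))) +
        w⁻¹ ^ (lp K' D) * ((1 / 2) ^ (8 * Kt * D) * Real.exp (2 * ((Ks : ℝ) * Real.log D)))) := by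
        ring
    _ ≤ 2 * ((16 * Kt + K' + 3) * D) *
        (Real.exp (2 * Λ) * ((D : ℝ) ^ 2)⁻¹ + Real.exp (2 * Λ) * ((D : ℝ) ^ 2)⁻¹) := by
        apply mul_le_mul (by linarith) (add_le_add hA hB) (by positivity) (by positivity)
    _ = C / D := by
        rw [hC]
        field_simp
        ring

end H72NE
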