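import Pool.Agent.H72.NE.NumD

/-! # NUMC: the errors `e1`, `e2`

`exp (-s) = D^(-Ks)`, `L ≤ exp (w D / 2) ≤ exp (D / 4)`, `Λ = log (1/w)`, `g Kt ≥ 3 Λ + 2`, `Kt ≥ 6 Λ + 4`.
All terms are at most a polynomial in `D` times `exp (-c D)`:
`L (1/2)^(D+1) ≤ exp (D/4 - D log 2)`; `tl s m = exp (8 Ks log D) (1/8)^(16 Kt D)`;
`L (1-w)^D ≤ exp (w D/2 - w D)`; `L w⁻¹^(3 D) exp (-(g Kt D)) ≤ exp (D/4 + 3ΛD - gKtD) ≤ exp (-D)`;
`(1/2)^(8 Kt D) exp (2 Kt D) ≤ exp (-(3 Kt D))`; `tl t m' = exp (8 Kt D) (1/8)^(8 Kt D) ≤ exp (-(8 Kt D))`. -/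

namespace H72NE

open H72IPS Finset Filter

theorem numc_tends (C : ℝ) (k : ℕ) {r : ℝ} (h0 : 0 ≤ r) (h1 : r < 1) {δ : ℝ} (hδ : 0 < δ) :
    ∀ᶠ D : ℕ in atTop, C * (D : ℝ) ^ k * r ^ D ≤ δ := by
  have h := (tendsto_pow_const_mul_const_pow_of_abs_lt_one k
    (show |r| < 1 by rw [abs_of_nonneg h0]; exact h1)).const_mul C
  rw [mul_zero] at h
  filter_upwards [h.eventually (ge_mem_nhds hδ)] with D hD
  rw [mul_assoc]
  exact hD

theorem numc_exp (Ks D : ℕ) (hD : 1 ≤ D) :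
    Real.exp ((Ks : ℝ) * Real.log D) = (D : ℝ) ^ Ks := by
  rw [Real.exp_nat_mul, Real.exp_log (by exact_mod_cast hD)]

theorem numc_exp_neg (Ks D : ℕ) (hD : 1 ≤ D) :
    4 / (3 * Real.exp (-((Ks : ℝ) * Real.log D))) = 4 / 3 * (D : ℝ) ^ Ks := by
  rw [Real.exp_neg, numc_exp Ks D hD]
  have : (D : ℝ) ^ Ks ≠ 0 := by positivity
  field_simp

theorem numc_exp8 (Ks D : ℕ) (hD : 1 ≤ D) :
    Real.exp (8 * ((Ks : ℝ) * Real.log D)) = ((D : ℝ) ^ Ks) ^ 8 := by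
  rw [← numc_exp Ks D hD, ← Real.exp_nat_mul]
  norm_num

theorem numc_L {w : ℝ} (hw2 : w ≤ 1 / 2) {D : ℕ} {L : ℝ} (hL : L ≤ Real.exp (w * D / 2)) :
    L ≤ Real.exp ((D : ℝ) / 4) := by
  refine hL.trans (Real.exp_le_exp.2 ?_)
  have : (0 : ℝ) ≤ D := Nat.cast_nonneg D
  nlinarith

theorem numc_r1 : Real.exp (1 / 4) / 2 < 1 := by
  have h : (1 : ℝ) / 4 < Real.log 2 := by
    have := Real.log_two_gt_d9
    norm_num at this ⊢
    linarith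
  have h2 : Real.exp (1 / 4) < 2 := by
    calc Real.exp (1 / 4) < Real.exp (Real.log 2) := Real.exp_lt_exp.2 h
      _ = 2 := Real.exp_log (by norm_num)
  linarith

theorem numc_pow_exp (a x : ℝ) (n : ℕ) (ha : 0 < a) :
    a ^ n * Real.exp x = Real.exp (n * Real.log a + x) := by
  rw [Real.exp_add, Real.exp_nat_mul, Real.exp_log ha]

theorem numc_log_half : Real.log (1 / 2) ≤ -(69 / 100) := by
  rw [one_div, Real.log_inv]
  have := Real.log_two_gt_d9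
  norm_num at this ⊢
  linarith

theorem numc_log_eighth : Real.log (1 / 8) ≤ -2 := by
  have h : Real.log (1 / 8) = 3 * Real.log (1 / 2) := by
    rw [← Real.log_rpow (by norm_num)]
    norm_num
  rw [h]
  have := numc_log_half
  linarith

theorem num_e1 {w g : ℝ} {Kt Ks K' κ : ℕ} (h : KP w g Kt Ks K' κ) {δ : ℝ} (hδ : 0 < δ) :
    ∀ᶠ D : ℕ in atTop, ∀ L : ℝ, 0 ≤ L → L ≤ Real.exp (w * D / 2) →
      4 / (3 * Real.exp (-((Ks : ℝ) * Real.log D)))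
        * (2 * e1 (11 * L) ((Ks : ℝ) * Real.log D) D (2 * (8 * Kt * D))) ≤ δ := by
  have hδ2 : 0 < δ / 2 := by linarith
  filter_upwards [numc_tends (88 / 3) (2 * Ks) (r := Real.exp (1 / 4) / 2) (by positivity)
      numc_r1 hδ2,
    numc_tends (256 * Kt) (1 + 9 * Ks) (r := 1 / 8) (by norm_num) (by norm_num) hδ2,
    eventually_ge_atTop 1] with D h1 h2 hD L hL0 hL
  have hLe := numc_L h.w_le hL
  rw [numc_exp_neg Ks D hD]
  unfold e1 tl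
  rw [numc_exp Ks D hD, numc_exp8 Ks D hD]
  set X : ℝ := (D : ℝ) ^ Ks with hX
  have hX0 : 0 ≤ X := by positivity
  have hKt := h.Kt_pos
  have e1 : L * (1 / 2 : ℝ) ^ (D + 1) ≤ (Real.exp (1 / 4) / 2) ^ D * (1 / 2) := by
    have e2 : Real.exp ((D : ℝ) / 4) = Real.exp (1 / 4) ^ D := by
      rw [← Real.exp_nat_mul]; ring_nf
    calc L * (1 / 2 : ℝ) ^ (D + 1) ≤ Real.exp ((D : ℝ) / 4) * (1 / 2 : ℝ) ^ (D + 1) :=
          mul_le_mul_of_nonneg_right hLe (by positivity)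
      _ = (Real.exp (1 / 4) / 2) ^ D * (1 / 2) := by
          rw [e2, div_pow, pow_succ, div_pow, one_pow]; ring
  have e3 : (1 / 8 : ℝ) ^ (2 * (8 * Kt * D)) ≤ (1 / 8) ^ D := by
    apply pow_le_pow_of_le_one (by norm_num) (by norm_num)
    nlinarith
  have hA : 4 / 3 * X * (2 * (2 * (11 * L) * (1 / 2) ^ (D + 1) * X)) ≤ δ / 2 := by
    calc 4 / 3 * X * (2 * (2 * (11 * L) * (1 / 2) ^ (D + 1) * X))
        = 176 / 3 * (X * X) * (L * (1 / 2 : ℝ) ^ (D + 1)) := by ring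
      _ ≤ 176 / 3 * (X * X) * ((Real.exp (1 / 4) / 2) ^ D * (1 / 2)) :=
          mul_le_mul_of_nonneg_left e1 (by positivity)
      _ = 88 / 3 * (D : ℝ) ^ (2 * Ks) * (Real.exp (1 / 4) / 2) ^ D := by
          rw [hX]; ring
      _ ≤ δ / 2 := h1
  have hB : 4 / 3 * X * (2 * (6 * ((2 * (8 * Kt * D) : ℕ) : ℝ) *
      (X ^ 8 * (1 / 8) ^ (2 * (8 * Kt * D))))) ≤ δ / 2 := by
    calc 4 / 3 * X * (2 * (6 * ((2 * (8 * Kt * D) : ℕ) : ℝ) *
          (X ^ 8 * (1 / 8) ^ (2 * (8 * Kt * D)))))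
        = 256 * Kt * D * X ^ 9 * (1 / 8 : ℝ) ^ (2 * (8 * Kt * D)) := by push_cast; ring
      _ ≤ 256 * Kt * D * X ^ 9 * (1 / 8) ^ D :=
          mul_le_mul_of_nonneg_left e3 (by positivity)
      _ = 256 * Kt * (D : ℝ) ^ (1 + 9 * Ks) * (1 / 8) ^ D := by
          rw [hX]; ring
      _ ≤ δ / 2 := h2
  calc _ = 4 / 3 * X * (2 * (2 * (11 * L) * (1 / 2) ^ (D + 1) * X)) +
        4 / 3 * X * (2 * (6 * ((2 * (8 * Kt * D) : ℕ) : ℝ) *
          (X ^ 8 * (1 / 8) ^ (2 * (8 * Kt * D))))) := by ring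
    _ ≤ δ := by linarith

theorem num_e2 {w g : ℝ} {Kt Ks K' κ : ℕ} (h : KP w g Kt Ks K' κ) {δ : ℝ} (hδ : 0 < δ) :
    ∀ᶠ D : ℕ in atTop, ∀ L : ℝ, 0 ≤ L → L ≤ Real.exp (w * D / 2) →
      4 / (3 * Real.exp (-((Ks : ℝ) * Real.log D)))
        * e2 w g (11 * L) ((Kt : ℝ) * D) D (8 * Kt * D) (8 * Kt * D) ≤ δ := by
  have hw := h.w_pos
  have hw2 := h.w_le
  filter_upwards [numc_tends (4 / 3 * (66 + 6 * Kt + 132)) (Ks + 1)
      (r := Real.exp (-(w / 2))) (by positivity)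
      (by rw [Real.exp_lt_one_iff]; linarith) hδ,
    eventually_ge_atTop 1] with D h1 hD L hL0 hL
  have hLe := numc_L h.w_le hL
  rw [numc_exp_neg Ks D hD]
  unfold e2 tl
  have hD1 : (1 : ℝ) ≤ D := by exact_mod_cast hD
  have hD0 : (0 : ℝ) ≤ D := by linarith
  have hKt1 : (1 : ℝ) ≤ Kt := by exact_mod_cast h.Kt_pos
  set lam : ℝ := Real.log (1 / w) with hlam
  have hlam0 : 0 ≤ lam := by
    apply Real.log_nonneg
    rw [le_div_iff₀ hw]; linarith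
  have hgK : 3 * lam + 2 ≤ g * Kt := h.hKt
  have hK6 : 6 * lam + 4 ≤ Kt := by
    have := h.g_le
    nlinarith
  have hinv : w⁻¹ = 1 / w := by rw [one_div]
  set ρ : ℝ := Real.exp (-(w / 2)) ^ D with hρ
  have hρ' : ρ = Real.exp (-(w * D / 2)) := by
    rw [hρ, ← Real.exp_nat_mul]; ring_nf
  have hρ0 : 0 ≤ ρ := by positivity
  have hexpD : Real.exp (-(D : ℝ)) ≤ ρ := by
    rw [hρ']
    apply Real.exp_le_exp.2
    nlinarith
  -- the five terms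
  have t1 : L * (1 - w) ^ D ≤ ρ := by
    have a1 : (1 - w) ^ D ≤ Real.exp (-(w * D)) := by
      have : 1 - w ≤ Real.exp (-w) := by
        have := Real.add_one_le_exp (-w); linarith
      calc (1 - w) ^ D ≤ Real.exp (-w) ^ D := pow_le_pow_left₀ (by linarith) this D
        _ = Real.exp (-(w * D)) := by rw [← Real.exp_nat_mul]; ring_nf
    calc L * (1 - w) ^ D ≤ Real.exp (w * D / 2) * Real.exp (-(w * D)) :=
          mul_le_mul hL a1 (pow_nonneg (by linarith) _) (Real.exp_pos _).le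
      _ = ρ := by rw [hρ', ← Real.exp_add]; ring_nf
  have tw : ∀ (k : ℕ) (x : ℝ), (k : ℝ) * lam + x ≤ -(5 / 4 * D) →
      L * (w⁻¹ ^ k * Real.exp x) ≤ ρ := by
    intro k x hk
    rw [hinv, numc_pow_exp (1 / w) x k (by positivity)]
    calc L * Real.exp ((k : ℝ) * Real.log (1 / w) + x)
        ≤ Real.exp ((D : ℝ) / 4) * Real.exp (-(5 / 4 * D)) :=
          mul_le_mul hLe (Real.exp_le_exp.2 hk) (Real.exp_pos _).le (Real.exp_pos _).le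
      _ = Real.exp (-(D : ℝ)) := by rw [← Real.exp_add]; ring_nf
      _ ≤ ρ := hexpD
  have hhalf : (1 / 2 : ℝ) ^ (8 * Kt * D) * Real.exp (2 * ((Kt : ℝ) * D)) ≤
      Real.exp (-(3 * (Kt * D))) := by
    rw [numc_pow_exp (1 / 2) _ _ (by norm_num)]
    apply Real.exp_le_exp.2
    have := numc_log_half
    have hp : (0 : ℝ) ≤ Kt * D := by positivity
    push_cast
    nlinarith
  have t2 : L * (w⁻¹ ^ (3 * D) * Real.exp (-(g * (Kt * D)))) ≤ ρ := by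
    apply tw
    push_cast
    nlinarith
  have t3 : L * ((1 / 2) ^ (8 * Kt * D) * Real.exp (2 * ((Kt : ℝ) * D))) ≤ ρ := by
    have := tw 0 (-(3 * (Kt * D))) (by push_cast; nlinarith)
    rw [pow_zero, one_mul] at this
    exact (mul_le_mul_of_nonneg_left hhalf hL0).trans this
  have t4 : L * (w⁻¹ ^ (2 * D) * Real.exp (-(g * (Kt * D)))) ≤ ρ := by
    apply tw
    push_cast
    nlinarith
  have t5 : L * (w⁻¹ ^ (2 * D) * ((1 / 2) ^ (8 * Kt * D) * Real.exp (2 * ((Kt : ℝ) * D)))) ≤ ρ := by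
    have := tw (2 * D) (-(3 * (Kt * D))) (by push_cast; nlinarith)
    refine le_trans (mul_le_mul_of_nonneg_left (mul_le_mul_of_nonneg_left hhalf ?_) hL0) this
    positivity
  have t6 : Real.exp (8 * ((Kt : ℝ) * D)) * (1 / 8) ^ (8 * Kt * D) ≤ ρ := by
    rw [mul_comm, numc_pow_exp (1 / 8) _ _ (by norm_num)]
    refine le_trans (Real.exp_le_exp.2 ?_) hexpD
    have := numc_log_eighth
    have hp : (D : ℝ) ≤ Kt * D := by nlinarith
    push_cast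
    nlinarith
  have hDρ : ρ ≤ D * ρ := by nlinarith
  have hDk : (0 : ℝ) ≤ (D : ℝ) ^ Ks := by positivity
  have hmain : 2 * (11 * L) * ((1 - w) ^ D + w⁻¹ ^ (3 * D) * Real.exp (-(g * ((Kt : ℝ) * D)))
      + (1 / 2) ^ (8 * Kt * D) * Real.exp (2 * ((Kt : ℝ) * D)))
      + 6 * ((Kt : ℝ) * D) * (Real.exp (8 * ((Kt : ℝ) * D)) * (1 / 8) ^ (8 * Kt * D))
      + 6 * (11 * L) * w⁻¹ ^ (2 * D) * (Real.exp (-(g * ((Kt : ℝ) * D)))
        + (1 / 2) ^ (8 * Kt * D) * Real.exp (2 * ((Kt : ℝ) * D)))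
      ≤ (66 + 6 * Kt + 132) * (D * ρ) := by
    have t6' : 6 * ((Kt : ℝ) * D) * (Real.exp (8 * ((Kt : ℝ) * D)) * (1 / 8) ^ (8 * Kt * D)) ≤
        6 * ((Kt : ℝ) * D) * ρ := mul_le_mul_of_nonneg_left t6 (by positivity)
    calc _ = 22 * (L * (1 - w) ^ D) + 22 * (L * (w⁻¹ ^ (3 * D) * Real.exp (-(g * (Kt * D)))))
        + 22 * (L * ((1 / 2) ^ (8 * Kt * D) * Real.exp (2 * ((Kt : ℝ) * D))))
        + 6 * ((Kt : ℝ) * D) * (Real.exp (8 * ((Kt : ℝ) * D)) * (1 / 8) ^ (8 * Kt * D))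
        + 66 * (L * (w⁻¹ ^ (2 * D) * Real.exp (-(g * (Kt * D)))))
        + 66 * (L * (w⁻¹ ^ (2 * D) * ((1 / 2) ^ (8 * Kt * D) * Real.exp (2 * ((Kt : ℝ) * D))))) := by
          ring
      _ ≤ 22 * (D * ρ) + 22 * (D * ρ) + 22 * (D * ρ) + 6 * ((Kt : ℝ) * D) * ρ
        + 66 * (D * ρ) + 66 * (D * ρ) := by linarith
      _ = _ := by ring
  calc _ ≤ 4 / 3 * (D : ℝ) ^ Ks * ((66 + 6 * Kt + 132) * (D * ρ)) :=
        mul_le_mul_of_nonneg_left hmain (by positivity)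
    _ = 4 / 3 * (66 + 6 * Kt + 132) * (D : ℝ) ^ (Ks + 1) * ρ := by ring
    _ ≤ δ := h1

end H72NE
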