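import Pool.Agent.H72.NE.NumA

/-! # NUME: lengths and the remaining errors

`D = Dl w L`, all powers of `D` are `o(L^a)` for every `a > 0` (`Dl_pow_le`). -/

namespace H72NE

open H72IPS Finset Filter

private theorem nume_one_le_Dl (w : ℝ) (L : ℕ) : 1 ≤ Dl w L := by
  unfold Dl; omega

/-- `T2 ≤ (Kt + Ks) D^(Ks+2)` -/
private theorem nume_T2_le (w : ℝ) (Kt Ks L : ℕ) :
    (((Dl w L) ^ (Ks + 1) : ℕ) : ℝ) * ((Kt : ℝ) * Dl w L + (Ks : ℝ) * Real.log (Dl w L))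
      ≤ ((Kt : ℝ) + Ks) * (Dl w L : ℝ) ^ (Ks + 2) := by
  have h1 : (1 : ℝ) ≤ (Dl w L : ℝ) := by exact_mod_cast nume_one_le_Dl w L
  have h2 : Real.log (Dl w L : ℝ) ≤ (Dl w L : ℝ) := by
    have := Real.log_le_sub_one_of_pos (show (0 : ℝ) < (Dl w L : ℝ) by linarith)
    linarith
  have h3 : (Ks : ℝ) * Real.log (Dl w L) ≤ (Ks : ℝ) * (Dl w L : ℝ) :=
    mul_le_mul_of_nonneg_left h2 (Nat.cast_nonneg _)
  push_cast
  calc (Dl w L : ℝ) ^ (Ks + 1) * ((Kt : ℝ) * Dl w L + (Ks : ℝ) * Real.log (Dl w L))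
      ≤ (Dl w L : ℝ) ^ (Ks + 1) * ((Kt : ℝ) * Dl w L + (Ks : ℝ) * (Dl w L : ℝ)) :=
        mul_le_mul_of_nonneg_left (by linarith) (by positivity)
    _ = ((Kt : ℝ) + Ks) * (Dl w L : ℝ) ^ (Ks + 2) := by ring

private theorem nume_T2_nonneg (w : ℝ) (Kt Ks L : ℕ) :
    0 ≤ (((Dl w L) ^ (Ks + 1) : ℕ) : ℝ) * ((Kt : ℝ) * Dl w L + (Ks : ℝ) * Real.log (Dl w L)) := by
  have h1 : (1 : ℝ) ≤ (Dl w L : ℝ) := by exact_mod_cast nume_one_le_Dl w L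
  have h2 := Real.log_nonneg h1
  positivity

/-- `n1` with the chosen parameters: the left side is a polynomial in `D` -/
theorem num_n1 {w g : ℝ} {Kt Ks K' κ : ℕ} (h : KP w g Kt Ks K' κ) :
    ∀ᶠ L : ℕ in atTop, 4 * (8 * Kt * Dl w L) * (Dl w L) ^ (Ks + 1) + 8 * (8 * Kt * Dl w L)
      + 4 * Dl w L * ((Dl w L) ^ (Ks + 1) + 1) + 8 * Kt * Dl w L + 2 * Dl w L + 8 * Kt * Dl w L + 2
      ≤ L := by
  have hδ : (0 : ℝ) < 1 / (112 * Kt + 12) := by positivity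
  filter_upwards [Dl_pow_le h.w_pos (Ks + 2) one_pos hδ] with L hL
  rw [Real.rpow_one] at hL
  have h1 : (1 : ℝ) ≤ (Dl w L : ℝ) := by exact_mod_cast nume_one_le_Dl w L
  have h2 : (112 * (Kt : ℝ) + 12) * (Dl w L : ℝ) ^ (Ks + 2) ≤ L := by
    have h0 : (0 : ℝ) < 112 * Kt + 12 := by positivity
    have := mul_le_mul_of_nonneg_left hL h0.le
    calc _ ≤ _ := this
      _ = (L : ℝ) := by field_simp
  have h3 : (Dl w L : ℝ) ≤ (Dl w L : ℝ) ^ (Ks + 2) := le_self_pow₀ h1 (by omega)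
  have h4 : (1 : ℝ) ≤ (Dl w L : ℝ) ^ (Ks + 2) := one_le_pow₀ h1
  have h5 : (Kt : ℝ) * (Dl w L : ℝ) ≤ (Kt : ℝ) * (Dl w L : ℝ) ^ (Ks + 2) :=
    mul_le_mul_of_nonneg_left h3 (Nat.cast_nonneg _)
  have h6 : (Dl w L : ℝ) ^ (Ks + 2) = (Dl w L : ℝ) * (Dl w L : ℝ) ^ (Ks + 1) := by ring
  have h7 : (4 * (8 * (Kt : ℝ) * Dl w L) * (Dl w L : ℝ) ^ (Ks + 1) + 8 * (8 * Kt * Dl w L)
      + 4 * Dl w L * ((Dl w L : ℝ) ^ (Ks + 1) + 1) + 8 * Kt * Dl w L + 2 * Dl w L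
      + 8 * Kt * Dl w L + 2) ≤ (L : ℝ) := by
    have e1 : 4 * (8 * (Kt : ℝ) * Dl w L) * (Dl w L : ℝ) ^ (Ks + 1)
        = 32 * ((Kt : ℝ) * (Dl w L : ℝ) ^ (Ks + 2)) := by rw [h6]; ring
    have e2 : 4 * (Dl w L : ℝ) * ((Dl w L : ℝ) ^ (Ks + 1) + 1)
        = 4 * (Dl w L : ℝ) ^ (Ks + 2) + 4 * (Dl w L : ℝ) := by rw [h6]; ring
    rw [e1, e2]
    nlinarith [h2, h3, h4, h5]
  exact_mod_cast h7

private theorem nume_exp_small {K : ℝ} (hK : 0 < K) :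
    ∀ᶠ L : ℕ in atTop, K * (L : ℝ) * Real.exp (-(L : ℝ)) ≤ 1 := by
  have h1 := Real.tendsto_pow_mul_exp_neg_atTop_nhds_zero 1
  have h2 : Tendsto (fun L : ℕ => (L : ℝ) ^ 1 * Real.exp (-(L : ℝ))) atTop (nhds 0) :=
    h1.comp tendsto_natCast_atTop_atTop
  have h3 : (0 : ℝ) < 1 / K := by positivity
  filter_upwards [h2.eventually (gt_mem_nhds h3)] with L hL
  rw [pow_one] at hL
  have := mul_le_mul_of_nonneg_left hL.le hK.le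
  calc K * (L : ℝ) * Real.exp (-(L : ℝ)) = K * ((L : ℝ) * Real.exp (-(L : ℝ))) := by ring
    _ ≤ K * (1 / K) := this
    _ = 1 := by field_simp

private theorem nume_eighth_le : (1 / 8 : ℝ) ≤ Real.exp (-2) := by
  rw [Real.exp_neg, ← one_div]
  apply one_div_le_one_div_of_le (Real.exp_pos _)
  have h : Real.exp 2 = Real.exp 1 * Real.exp 1 := by rw [← Real.exp_add]; norm_num
  have h1 := Real.exp_one_lt_d9
  have h0 := Real.exp_pos 1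
  rw [h]
  nlinarith

private theorem nume_pow_le (n : ℕ) : (1 / 8 : ℝ) ^ n ≤ Real.exp (-2 * n) := by
  calc (1 / 8 : ℝ) ^ n ≤ Real.exp (-2) ^ n := pow_le_pow_left₀ (by norm_num) nume_eighth_le n
    _ = Real.exp (-2 * n) := by rw [← Real.exp_nat_mul]; ring_nf

private theorem nume_T2_le_of {w g : ℝ} {Kt Ks K' κ : ℕ} (h : KP w g Kt Ks K' κ) {a K : ℝ}
    (ha : 0 < a) (hK : 0 < K) : ∀ᶠ L : ℕ in atTop,
      K * ((((Dl w L) ^ (Ks + 1) : ℕ) : ℝ) * ((Kt : ℝ) * Dl w L + (Ks : ℝ) * Real.log (Dl w L)))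
        ≤ (L : ℝ) ^ a := by
  have hKt : (0 : ℝ) < (Kt : ℝ) := by exact_mod_cast h.Kt_pos
  have hδ : (0 : ℝ) < 1 / (K * ((Kt : ℝ) + Ks)) := by positivity
  filter_upwards [Dl_pow_le h.w_pos (Ks + 2) ha hδ] with L hL
  have h1 := nume_T2_le w Kt Ks L
  calc K * ((((Dl w L) ^ (Ks + 1) : ℕ) : ℝ) * ((Kt : ℝ) * Dl w L + (Ks : ℝ) * Real.log (Dl w L)))
      ≤ K * (((Kt : ℝ) + Ks) * (Dl w L : ℝ) ^ (Ks + 2)) := mul_le_mul_of_nonneg_left h1 hK.le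
    _ = (K * ((Kt : ℝ) + Ks)) * (Dl w L : ℝ) ^ (Ks + 2) := by ring
    _ ≤ (K * ((Kt : ℝ) + Ks)) * (1 / (K * ((Kt : ℝ) + Ks)) * (L : ℝ) ^ a) :=
        mul_le_mul_of_nonneg_left hL (by positivity)
    _ = (L : ℝ) ^ a := by field_simp

/-- `n2` and `n6`: `T2 = q (t + s) ≤ (Kt + Ks) D^(Ks+2) ≤ L / 8` eventually, `8^L ≥ exp (2 L)`;
`tl L (8 L) = exp (8 L) / 8^(8 L) ≤ exp (-(8 L))` -/
theorem num_n26 {w g : ℝ} {Kt Ks K' κ : ℕ} (h : KP w g Kt Ks K' κ) :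
    ∀ᶠ L : ℕ in atTop,
      11 * (L : ℝ) * tl (((Dl w L) ^ (Ks + 1) : ℕ) * ((Kt : ℝ) * Dl w L
        + (Ks : ℝ) * Real.log (Dl w L))) L ≤ 1 ∧ 75 * (L : ℝ) * tl L (8 * L) ≤ 1 / 8 := by
  filter_upwards [nume_T2_le_of h one_pos (show (0 : ℝ) < 8 by norm_num),
    nume_exp_small (show (0 : ℝ) < 600 by norm_num)] with L h1 h2
  rw [Real.rpow_one] at h1
  have h3 := nume_pow_le L
  have h4 := nume_pow_le (8 * L)
  have h0 : (0 : ℝ) ≤ (L : ℝ) := Nat.cast_nonneg _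
  have e0 := Real.exp_pos (-(L : ℝ))
  constructor
  · unfold tl
    set T : ℝ := (((Dl w L) ^ (Ks + 1) : ℕ) : ℝ) * ((Kt : ℝ) * Dl w L
        + (Ks : ℝ) * Real.log (Dl w L)) with hT
    have h5 : Real.exp (8 * T) ≤ Real.exp (L : ℝ) := Real.exp_le_exp.2 h1
    have h6 : Real.exp (8 * T) * (1 / 8) ^ L ≤ Real.exp (-(L : ℝ)) := by
      calc Real.exp (8 * T) * (1 / 8) ^ L ≤ Real.exp (L : ℝ) * Real.exp (-2 * (L : ℝ)) :=
            mul_le_mul h5 h3 (by positivity) (Real.exp_pos _).le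
        _ = Real.exp (-(L : ℝ)) := by rw [← Real.exp_add]; ring_nf
    calc 11 * (L : ℝ) * (Real.exp (8 * T) * (1 / 8) ^ L) ≤ 11 * (L : ℝ) * Real.exp (-(L : ℝ)) :=
          mul_le_mul_of_nonneg_left h6 (by positivity)
      _ ≤ 600 * (L : ℝ) * Real.exp (-(L : ℝ)) := by
          have := mul_nonneg h0 e0.le
          nlinarith
      _ ≤ 1 := h2
  · unfold tl
    push_cast at h4
    have h6 : Real.exp (8 * (L : ℝ)) * (1 / 8) ^ (8 * L) ≤ Real.exp (-(L : ℝ)) := by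
      calc Real.exp (8 * (L : ℝ)) * (1 / 8) ^ (8 * L)
          ≤ Real.exp (8 * (L : ℝ)) * Real.exp (-2 * (8 * (L : ℝ))) :=
            mul_le_mul_of_nonneg_left h4 (Real.exp_pos _).le
        _ = Real.exp (-8 * (L : ℝ)) := by rw [← Real.exp_add]; ring_nf
        _ ≤ Real.exp (-(L : ℝ)) := Real.exp_le_exp.2 (by linarith)
    calc 75 * (L : ℝ) * (Real.exp (8 * (L : ℝ)) * (1 / 8) ^ (8 * L))
        ≤ 75 * (L : ℝ) * Real.exp (-(L : ℝ)) := mul_le_mul_of_nonneg_left h6 (by positivity)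
      _ = 1 / 8 * (600 * (L : ℝ) * Real.exp (-(L : ℝ))) := by ring
      _ ≤ 1 / 8 * 1 := mul_le_mul_of_nonneg_left h2 (by norm_num)
      _ = 1 / 8 := by ring

/-- `n3` and `small`: `ν ≤ C L^(-5/3)`, `T2 = O(D^(Ks+2))`, `L / κ ≤ L` -/
theorem num_n3 {w g : ℝ} {Kt Ks K' κ : ℕ} (h : KP w g Kt Ks K' κ) {C : ℝ} (hC : 0 < C) :
    ∀ᶠ L : ℕ in atTop, ∀ ν : ℝ, 0 ≤ ν → ν ≤ C * (L : ℝ) ^ (-(5 / 3 : ℝ)) →
      55 * (((Dl w L) ^ (Ks + 1) : ℕ) * ((Kt : ℝ) * Dl w L + (Ks : ℝ) * Real.log (Dl w L)))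
        * (L : ℝ) * ν ≤ 1 / 64 ∧
      2 / w * ν * (3 * ((L / κ : ℕ) : ℝ) + ((8 * L : ℕ) : ℝ)) ≤ g := by
  have hw := h.w_pos
  have hg := h.g_pos
  have hlim : Tendsto (fun L : ℕ => (L : ℝ) ^ (-(2 / 3 : ℝ))) atTop (nhds 0) :=
    (tendsto_rpow_neg_atTop (by norm_num : (0 : ℝ) < 2 / 3)).comp tendsto_natCast_atTop_atTop
  have hδ : (0 : ℝ) < g * w / (22 * C) := by positivity
  filter_upwards [nume_T2_le_of h (show (0 : ℝ) < 2 / 3 by norm_num)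
    (show (0 : ℝ) < 64 * 55 * C by positivity), hlim.eventually (gt_mem_nhds hδ),
    eventually_ge_atTop 1] with L h1 h2 h3
  intro ν hν0 hν
  have hL : (0 : ℝ) < (L : ℝ) := by exact_mod_cast h3
  have e1 : (L : ℝ) * (L : ℝ) ^ (-(5 / 3 : ℝ)) = (L : ℝ) ^ (-(2 / 3 : ℝ)) := by
    rw [← Real.rpow_one_add' hL.le (by norm_num)]; norm_num
  have e2 : (L : ℝ) ^ (2 / 3 : ℝ) * (L : ℝ) ^ (-(2 / 3 : ℝ)) = 1 := by
    rw [← Real.rpow_add hL]; norm_num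
  have e3 : (0 : ℝ) ≤ (L : ℝ) ^ (-(2 / 3 : ℝ)) := Real.rpow_nonneg hL.le _
  constructor
  · set T : ℝ := (((Dl w L) ^ (Ks + 1) : ℕ) : ℝ) * ((Kt : ℝ) * Dl w L
        + (Ks : ℝ) * Real.log (Dl w L)) with hT
    have hT0 : 0 ≤ T := nume_T2_nonneg w Kt Ks L
    calc 55 * T * (L : ℝ) * ν ≤ 55 * T * (L : ℝ) * (C * (L : ℝ) ^ (-(5 / 3 : ℝ))) :=
          mul_le_mul_of_nonneg_left hν (by positivity)
      _ = 1 / 64 * (64 * 55 * C * T) * ((L : ℝ) * (L : ℝ) ^ (-(5 / 3 : ℝ))) := by ring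
      _ = 1 / 64 * (64 * 55 * C * T) * (L : ℝ) ^ (-(2 / 3 : ℝ)) := by rw [e1]
      _ ≤ 1 / 64 * (L : ℝ) ^ (2 / 3 : ℝ) * (L : ℝ) ^ (-(2 / 3 : ℝ)) := by
          apply mul_le_mul_of_nonneg_right _ e3
          exact mul_le_mul_of_nonneg_left h1 (by norm_num)
      _ = 1 / 64 := by rw [mul_assoc, e2, mul_one]
  · have h4 : ((L / κ : ℕ) : ℝ) ≤ (L : ℝ) := by exact_mod_cast Nat.div_le_self L κ
    have h5 : 3 * ((L / κ : ℕ) : ℝ) + ((8 * L : ℕ) : ℝ) ≤ 11 * (L : ℝ) := by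
      push_cast; linarith
    calc 2 / w * ν * (3 * ((L / κ : ℕ) : ℝ) + ((8 * L : ℕ) : ℝ))
        ≤ 2 / w * ν * (11 * (L : ℝ)) := mul_le_mul_of_nonneg_left h5 (by positivity)
      _ ≤ 2 / w * (C * (L : ℝ) ^ (-(5 / 3 : ℝ))) * (11 * (L : ℝ)) := by
          apply mul_le_mul_of_nonneg_right _ (by positivity)
          exact mul_le_mul_of_nonneg_left hν (by positivity)
      _ = 22 * C / w * ((L : ℝ) * (L : ℝ) ^ (-(5 / 3 : ℝ))) := by ring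
      _ = 22 * C / w * (L : ℝ) ^ (-(2 / 3 : ℝ)) := by rw [e1]
      _ ≤ 22 * C / w * (g * w / (22 * C)) := mul_le_mul_of_nonneg_left h2.le (by positivity)
      _ = g := by field_simp

/-- covering conditions: `L / κ` is the integer part, `L / κ ≥ L/κ - 1` -/
theorem num_cov {w g : ℝ} {Kt Ks K' κ : ℕ} (h : KP w g Kt Ks K' κ) :
    ∀ᶠ L : ℕ in atTop, 11 * L ≤ 12 * κ * (L / κ) ∧ 2 * Dl w L ≤ L / κ ∧
      (12 * κ + 2) * (L / κ) + 8 * L ≤ 30 * L ∧ 1 ≤ L / κ := by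
  have hκ : (0 : ℝ) < (κ : ℝ) := by exact_mod_cast h.κ_pos
  have hκ1 : 0 < κ := h.κ_pos
  have hδ : (0 : ℝ) < 1 / (2 * κ) := by positivity
  filter_upwards [Dl_pow_le h.w_pos 1 one_pos hδ, eventually_ge_atTop (12 * κ)] with L h1 h2
  rw [Real.rpow_one, pow_one] at h1
  have h3 : κ * (L / κ) ≤ L := Nat.mul_div_le L κ
  have h4 : L < κ * (L / κ) + κ := by
    have := Nat.lt_mul_div_succ L hκ1
    rw [Nat.mul_add, Nat.mul_one] at this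
    exact this
  have h5 : L / κ ≤ L := Nat.div_le_self L κ
  refine ⟨?_, ?_, ?_, ?_⟩
  · rw [mul_assoc]
    omega
  · rw [Nat.le_div_iff_mul_le hκ1]
    have h6 : 2 * (Dl w L : ℝ) * κ ≤ L := by
      calc 2 * (Dl w L : ℝ) * κ ≤ 2 * (1 / (2 * κ) * L) * κ := by
            apply mul_le_mul_of_nonneg_right _ hκ.le
            linarith
        _ = L := by field_simp
    exact_mod_cast h6
  · have e : (12 * κ + 2) * (L / κ) = 12 * (κ * (L / κ)) + 2 * (L / κ) := by ring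
    rw [e]
    omega
  · rw [Nat.le_div_iff_mul_le hκ1]
    omega

end H72NE
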