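import Pool.Agent.H72.NE.NumA

/-! # NUMF: the error of the nucleation

`l1 = L / κ ≥ L / (2κ)` eventually, `l1 ≤ L/κ`; `a0 l1 L / 2 ≥ L^(1/3) / (4κ)`;
`2 l1 (1-w)^(2D) ≤ 2 L exp (-(2 w D)) ≤ 2 L L^(-4)` (`D ≥ (2/w) log L`);
`2 ν (3 l1 + 8 L) / (w g) = O(L^(-2/3))`; `w⁻¹^(3 l1) exp (-(g L/2)) ≤ exp ((3Λ/κ) L - g L / 2)
≤ exp (-(g L / 4))`, `Λ = log (1/w)`; `ν L = O(L^(-2/3))`; `(1/2)^(8L) exp (2L) ≤ exp (-(3 L))`. -/

namespace H72NE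

open H72IPS Finset Filter

theorem num_n5 {w g : ℝ} {Kt Ks K' κ : ℕ} (h : KP w g Kt Ks K' κ) {C : ℝ} (hC : 0 < C) :
    ∀ᶠ L : ℕ in atTop, ∀ a0 ν : ℝ, (L : ℝ) ^ (-(5 / 3 : ℝ)) ≤ a0 → 0 ≤ ν →
      ν ≤ C * (L : ℝ) ^ (-(5 / 3 : ℝ)) →
      ((12 * κ : ℕ) : ℝ) * eP1 w g a0 ν ν ((L : ℝ) / 2) ((L : ℝ) / 2) (2 * Dl w L) (L / κ) (8 * L)
        ≤ 1 / 400 := by
  obtain ⟨hw, hw2, hg, hg2, hK', hKt, hKs, hκ, Kt_pos, Ks_pos, K'_pos, κ_pos⟩ := h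
  have hκR : (0 : ℝ) < κ := by exact_mod_cast κ_pos
  set B : ℕ → ℝ := fun L => Real.exp (-(((L : ℝ) ^ (1 / 3 : ℝ)) * (1 / (4 * κ)))) + 2 * (L : ℝ)⁻¹ +
    22 * C / (w * g) * (L : ℝ) ^ (-(2 / 3 : ℝ)) + Real.exp (-((L : ℝ) * (g / 4))) +
    C * (L : ℝ) ^ (-(2 / 3 : ℝ)) + (1 / 2 : ℝ) ^ L with hB
  have hcast : Tendsto (fun L : ℕ => (L : ℝ)) atTop atTop := tendsto_natCast_atTop_atTop
  have hr23 : Tendsto (fun L : ℕ => (L : ℝ) ^ (-(2 / 3 : ℝ))) atTop (nhds 0) :=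
    (tendsto_rpow_neg_atTop (by norm_num)).comp hcast
  have hBlim : Tendsto B atTop (nhds (0 + 2 * 0 + 22 * C / (w * g) * 0 + 0 + C * 0 + 0)) := by
    refine Tendsto.add (Tendsto.add (Tendsto.add (Tendsto.add (Tendsto.add ?_ ?_) ?_) ?_) ?_) ?_
    · have h1 : Tendsto (fun L : ℕ => (L : ℝ) ^ (1 / 3 : ℝ)) atTop atTop :=
        (tendsto_rpow_atTop (by norm_num)).comp hcast
      have h2 : Tendsto (fun L : ℕ => ((L : ℝ) ^ (1 / 3 : ℝ)) * (1 / (4 * κ))) atTop atTop :=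
        h1.atTop_mul_const (by positivity)
      exact (Real.tendsto_exp_atBot.comp (tendsto_neg_atTop_atBot.comp h2))
    · exact Tendsto.const_mul 2 (tendsto_inv_atTop_zero.comp hcast)
    · exact Tendsto.const_mul _ hr23
    · have h2 : Tendsto (fun L : ℕ => (L : ℝ) * (g / 4)) atTop atTop :=
        hcast.atTop_mul_const (by positivity)
      exact (Real.tendsto_exp_atBot.comp (tendsto_neg_atTop_atBot.comp h2))
    · exact Tendsto.const_mul _ hr23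
    · exact tendsto_pow_atTop_nhds_zero_of_lt_one (by norm_num) (by norm_num)
  have hBev : ∀ᶠ L : ℕ in atTop, B L < 1 / (400 * (12 * κ)) := by
    have hz : (0 : ℝ) + 2 * 0 + 22 * C / (w * g) * 0 + 0 + C * 0 + 0 = 0 := by ring
    rw [hz] at hBlim
    exact hBlim.eventually_lt_const (by positivity)
  filter_upwards [hBev, eventually_ge_atTop (2 * κ)] with L hBL hL a0 ν ha0 hν0 hν
  have hL1 : 1 ≤ L := by omega
  have hLR : (1 : ℝ) ≤ L := by exact_mod_cast hL1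
  have hL0 : (0 : ℝ) < L := by linarith
  have hLk : (2 * κ : ℝ) ≤ L := by exact_mod_cast hL
  have hl1lo : (L : ℝ) / (2 * κ) ≤ ((L / κ : ℕ) : ℝ) := by
    have h1 : L < κ * (L / κ) + κ := by
      have := Nat.lt_mul_div_succ L κ_pos
      linarith
    have h2 : (L : ℝ) < κ * ((L / κ : ℕ) : ℝ) + κ := by exact_mod_cast h1
    rw [div_le_iff₀ (by positivity)]
    nlinarith
  have hl1up : ((L / κ : ℕ) : ℝ) ≤ (L : ℝ) / κ := Nat.cast_div_le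
  have hl1L : ((L / κ : ℕ) : ℝ) ≤ L := by exact_mod_cast Nat.div_le_self L κ
  have hl10 : (0 : ℝ) ≤ ((L / κ : ℕ) : ℝ) := Nat.cast_nonneg _
  set l1 : ℕ := L / κ with hl1
  have hpow53 : (0 : ℝ) < (L : ℝ) ^ (-(5 / 3 : ℝ)) := Real.rpow_pos_of_pos hL0 _
  have hL53 : (L : ℝ) ^ (-(5 / 3 : ℝ)) * L = (L : ℝ) ^ (-(2 / 3 : ℝ)) := by
    rw [← Real.rpow_add_one hL0.ne']
    norm_num
  have hL13 : (L : ℝ) ^ (-(5 / 3 : ℝ)) * L * L = (L : ℝ) ^ (1 / 3 : ℝ) := by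
    rw [hL53, ← Real.rpow_add_one hL0.ne']
    norm_num
  -- term 1
  have t1 : Real.exp (-(a0 * l1 * ((L : ℝ) / 2))) ≤
      Real.exp (-(((L : ℝ) ^ (1 / 3 : ℝ)) * (1 / (4 * κ)))) := by
    apply Real.exp_le_exp.mpr
    have h1 : (L : ℝ) ^ (-(5 / 3 : ℝ)) * ((L : ℝ) / (2 * κ)) ≤ a0 * l1 :=
      mul_le_mul ha0 hl1lo (by positivity) (hpow53.le.trans ha0)
    have h2 := mul_le_mul_of_nonneg_right h1 (by positivity : (0 : ℝ) ≤ (L : ℝ) / 2)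
    have h3 : (L : ℝ) ^ (-(5 / 3 : ℝ)) * ((L : ℝ) / (2 * κ)) * ((L : ℝ) / 2) =
        ((L : ℝ) ^ (1 / 3 : ℝ)) * (1 / (4 * κ)) := by
      rw [← hL13]
      field_simp
      ring
    rw [h3] at h2
    linarith
  -- term 2
  have t2 : 2 * (l1 : ℝ) * (1 - w) ^ (2 * Dl w L) ≤ 2 * (L : ℝ)⁻¹ := by
    have h1 : (L : ℝ) ≤ Real.exp (w * (Dl w L : ℝ) / 2) := le_exp_Dl hw hL1
    have h2 : (1 - w) ^ (2 * Dl w L) ≤ Real.exp (-(w * ((2 * Dl w L : ℕ) : ℝ))) := by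
      have h3 : 1 - w ≤ Real.exp (-w) := by
        have := Real.add_one_le_exp (-w)
        linarith
      calc (1 - w) ^ (2 * Dl w L) ≤ (Real.exp (-w)) ^ (2 * Dl w L) :=
            pow_le_pow_left₀ (by linarith) h3 _
        _ = _ := by
          rw [← Real.exp_nat_mul]
          congr 1
          ring
    have h3 : Real.exp (-(w * ((2 * Dl w L : ℕ) : ℝ))) ≤ ((L : ℝ) ^ 4)⁻¹ := by
      rw [Real.exp_neg]
      apply inv_anti₀ (by positivity)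
      calc (L : ℝ) ^ 4 ≤ (Real.exp (w * (Dl w L : ℝ) / 2)) ^ 4 := pow_le_pow_left₀ hL0.le h1 4
        _ = _ := by
          rw [← Real.exp_nat_mul]
          congr 1
          push_cast
          ring
    have h4 : ((L : ℝ) ^ 4)⁻¹ ≤ (L : ℝ)⁻¹ * (L : ℝ)⁻¹ := by
      rw [← mul_inv]
      apply inv_anti₀ (by positivity)
      calc (L : ℝ) * L = (L : ℝ) ^ 2 := by ring
        _ ≤ (L : ℝ) ^ 4 := pow_le_pow_right₀ hLR (by norm_num)
    calc 2 * (l1 : ℝ) * (1 - w) ^ (2 * Dl w L) ≤ 2 * (L : ℝ) * ((L : ℝ)⁻¹ * (L : ℝ)⁻¹) := by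
          apply mul_le_mul _ ((h2.trans h3).trans h4) (pow_nonneg (by linarith) _) (by positivity)
          linarith
      _ = 2 * (L : ℝ)⁻¹ := by field_simp
  -- term 3
  have t3 : 2 * ν * (3 * (l1 : ℝ) + ((8 * L : ℕ) : ℝ)) / (w * g) ≤
      22 * C / (w * g) * (L : ℝ) ^ (-(2 / 3 : ℝ)) := by
    have h1 : 2 * ν * (3 * (l1 : ℝ) + ((8 * L : ℕ) : ℝ)) ≤ 22 * C * (L : ℝ) ^ (-(2 / 3 : ℝ)) := by
      calc 2 * ν * (3 * (l1 : ℝ) + ((8 * L : ℕ) : ℝ))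
          ≤ 2 * (C * (L : ℝ) ^ (-(5 / 3 : ℝ))) * (3 * (L : ℝ) + 8 * L) := by
            apply mul_le_mul _ _ (by positivity) (by positivity)
            · linarith
            · push_cast
              linarith
        _ = 22 * C * ((L : ℝ) ^ (-(5 / 3 : ℝ)) * L) := by ring
        _ = _ := by rw [hL53]
    calc 2 * ν * (3 * (l1 : ℝ) + ((8 * L : ℕ) : ℝ)) / (w * g)
        ≤ 22 * C * (L : ℝ) ^ (-(2 / 3 : ℝ)) / (w * g) :=
          div_le_div_of_nonneg_right h1 (by positivity)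
      _ = _ := by ring
  -- term 4
  have t4 : w⁻¹ ^ (3 * l1) * Real.exp (-(g * ((L : ℝ) / 2))) ≤ Real.exp (-((L : ℝ) * (g / 4))) := by
    have hΛ : w⁻¹ = Real.exp (Real.log (1 / w)) := by
      rw [Real.exp_log (by positivity), one_div]
    have hΛ0 : 0 ≤ Real.log (1 / w) := by
      apply Real.log_nonneg
      rw [le_div_iff₀ hw]
      linarith
    rw [hΛ, ← Real.exp_nat_mul, ← Real.exp_add]
    apply Real.exp_le_exp.mpr
    have h1 : ((3 * l1 : ℕ) : ℝ) * Real.log (1 / w) ≤ (L : ℝ) * (g / 4) := by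
      calc ((3 * l1 : ℕ) : ℝ) * Real.log (1 / w) = (l1 : ℝ) * (3 * Real.log (1 / w)) := by
            push_cast; ring
        _ ≤ ((L : ℝ) / κ) * (3 * Real.log (1 / w)) := mul_le_mul_of_nonneg_right hl1up (by positivity)
        _ = (L : ℝ) * ((12 * Real.log (1 / w)) / κ) / 4 := by field_simp; ring
        _ ≤ (L : ℝ) * g / 4 := by
          have : (12 * Real.log (1 / w)) / κ ≤ g := by
            rw [div_le_iff₀ hκR]
            exact hκ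
          have := mul_le_mul_of_nonneg_left this hL0.le
          linarith
        _ = _ := by ring
    linarith
  -- term 5
  have t5 : ν * ((L : ℝ) / 2 + (L : ℝ) / 2) ≤ C * (L : ℝ) ^ (-(2 / 3 : ℝ)) := by
    have h1 : (L : ℝ) / 2 + (L : ℝ) / 2 = L := by ring
    rw [h1, ← hL53, ← mul_assoc]
    exact mul_le_mul_of_nonneg_right hν hL0.le
  -- term 6
  have t6 : (1 / 2 : ℝ) ^ (8 * L) * Real.exp (2 * ((L : ℝ) / 2 + (L : ℝ) / 2)) ≤ (1 / 2 : ℝ) ^ L := by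
    have h1 : Real.exp (2 * ((L : ℝ) / 2 + (L : ℝ) / 2)) = (Real.exp 1 ^ 2) ^ L := by
      rw [← Real.exp_nat_mul, ← Real.exp_nat_mul]
      congr 1
      push_cast
      ring
    rw [h1, pow_mul, ← mul_pow]
    apply pow_le_pow_left₀ (by positivity)
    have h2 : Real.exp 1 < 2.7182818286 := Real.exp_one_lt_d9
    have h3 : 0 < Real.exp 1 := Real.exp_pos 1
    have h4 : Real.exp 1 ^ 2 ≤ 8 := by nlinarith
    calc (1 / 2 : ℝ) ^ 8 * Real.exp 1 ^ 2 ≤ (1 / 2 : ℝ) ^ 8 * 8 := by gcongr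
      _ ≤ 1 / 2 := by norm_num
  have hsum : eP1 w g a0 ν ν ((L : ℝ) / 2) ((L : ℝ) / 2) (2 * Dl w L) l1 (8 * L) ≤ B L := by
    unfold eP1
    rw [hB]
    linarith
  calc ((12 * κ : ℕ) : ℝ) * eP1 w g a0 ν ν ((L : ℝ) / 2) ((L : ℝ) / 2) (2 * Dl w L) l1 (8 * L)
      ≤ ((12 * κ : ℕ) : ℝ) * (1 / (400 * (12 * κ))) :=
        mul_le_mul_of_nonneg_left (hsum.trans hBL.le) (Nat.cast_nonneg _)
    _ = 1 / 400 := by
      push_cast
      field_simp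

end H72NE
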