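import Pool.Agent.H72.NE.NumA
import Pool.Agent.H72.NE.NumB
import Pool.Agent.H72.NE.NumC
import Pool.Agent.H72.NE.NumE
import Pool.Agent.H72.NE.NumF

/-! # NUM: the numerical hypotheses hold for small noise -/

namespace H72NE

open H72IPS Finset Filter

/-- all fields of `NH`, with `s = Ks log D`, `t = Kt D`, `lam = D = Dl w L`, `lam' = lp K' D`,
`m' = M = 8 Kt D`, `M1 = 8 L`, `l1 = L / κ`, `nb = 12 κ`, `q = D ^ (Ks + 1)` -/
theorem num_L {w g C : ℝ} {Kt Ks K' κ : ℕ} (h : KP w g Kt Ks K' κ) (hC : 0 < C) :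
    ∀ᶠ L : ℕ in atTop, ∀ a0 ν : ℝ, (L : ℝ) ^ (-(5 / 3 : ℝ)) ≤ a0 → 0 ≤ ν →
      ν ≤ C * (L : ℝ) ^ (-(5 / 3 : ℝ)) →
      NH w g a0 ν ν ((Ks : ℝ) * Real.log (Dl w L)) ((Kt : ℝ) * Dl w L) L (Dl w L)
        (lp K' (Dl w L)) (8 * Kt * Dl w L) (8 * Kt * Dl w L) (8 * L) (L / κ) (12 * κ)
        ((Dl w L) ^ (Ks + 1)) := by
  have hD := tendsto_Dl h.w_pos
  have hδ : (0 : ℝ) < 1 / 8000 := by norm_num
  filter_upwards [eventually_ge_atTop 1, hD.eventually (eventually_ge_atTop 2),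
    hD.eventually (lp_le K' (one_pos)), hD.eventually (num_tau h), num_n1 h, num_n26 h, num_n3 h hC,
    num_cov h, num_n5 h hC, hD.eventually (num_q Ks hδ), hD.eventually (num_eMix h hδ),
    hD.eventually (num_e1 h hδ), hD.eventually (num_e2 h hδ)] with L hL hD2 hlp htau hn1 hn26 hn3 hcov hn5
      hq hmix he1 he2
  intro a0 ν ha0 hν hνC
  have hDpos : 1 ≤ Dl w L := by omega
  have hDr : (2 : ℝ) ≤ (Dl w L : ℝ) := by exact_mod_cast hD2
  have hlog : 0 ≤ Real.log (Dl w L : ℝ) := Real.log_nonneg (by linarith)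
  have hle := le_exp_Dl h.w_pos hL
  have hL0 : (0 : ℝ) ≤ (L : ℝ) := Nat.cast_nonneg L
  exact
    { L_pos := hL
      lam_pos := hDpos
      lam'_pos := by unfold lp; omega
      lam'_le := by
        have h1 : (lp K' (Dl w L) : ℝ) ≤ (Dl w L : ℝ) := by simpa using hlp
        have h2 : lp K' (Dl w L) ≤ Dl w L := by exact_mod_cast h1
        omega
      m'_pos := by
        have := h.Kt_pos
        have h2 : 1 ≤ Kt * Dl w L := Nat.mul_pos this hDpos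
        rw [mul_assoc]; omega
      l1_pos := hcov.2.2.2
      q_pos := Nat.pos_of_ne_zero (pow_ne_zero _ (by omega))
      s_nn := by positivity
      s_ge := by
        have h1 : Real.log 2 ≤ (Ks : ℝ) * Real.log (Dl w L : ℝ) := by
          have hks : (1 : ℝ) ≤ (Ks : ℝ) := by exact_mod_cast h.Ks_pos
          have h2 : Real.log 2 ≤ Real.log (Dl w L : ℝ) := Real.log_le_log (by norm_num) hDr
          nlinarith
        calc Real.exp (-((Ks : ℝ) * Real.log (Dl w L : ℝ))) ≤ Real.exp (-Real.log 2) :=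
              Real.exp_le_exp.mpr (by linarith)
          _ = 1 / 2 := by rw [Real.exp_neg, Real.exp_log (by norm_num)]; norm_num
      t_nn := by positivity
      n1 := hn1
      ntau := htau
      n2 := hn26.1
      n3 := (hn3 ν hν hνC).1
      n4 := by
        have h1 := he1 (L : ℝ) hL0 hle
        have h2 := he2 (L : ℝ) hL0 hle
        have h3 : eP2 w g (11 * (L : ℝ)) ((Ks : ℝ) * Real.log (Dl w L)) ((Kt : ℝ) * Dl w L) (Dl w L)
            (lp K' (Dl w L)) (8 * Kt * Dl w L) (8 * Kt * Dl w L) ((Dl w L) ^ (Ks + 1)) ≤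
            1 / 8000 + 8 / 3 * (1 / 8000) + (1 / 8000 + 1 / 8000) := by
          unfold eP2
          rw [mul_add]
          exact add_le_add (add_le_add hq (mul_le_mul_of_nonneg_left hmix (by norm_num))) (add_le_add h1 h2)
        linarith
      n5 := hn5 a0 ν ha0 hν hνC
      n6 := hn26.2
      cov1 := hcov.1
      cov2 := hcov.2.1
      cov3 := hcov.2.2.1
      small := (hn3 ν hν hνC).2 }

/-- `L = ⌈ε ^ (-3/5)⌉`: `L ^ (-5/3) ≤ ε ≤ 4 L ^ (-5/3)` -/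
theorem NUM {w g C : ℝ} (hw : 0 < w) (hw2 : w ≤ 1 / 2) (hg : 0 < g) (hg2 : g ≤ 1 / 2)
    (hC : 0 < C) : ∃ ε0 : ℝ, 0 < ε0 ∧ ∀ ε : ℝ, 0 < ε → ε < ε0 →
      ∃ (s t : ℝ) (L lam lam' m' M M1 l1 nb q : ℕ),
        NH w g ε (C * ε) (C * ε) s t L lam lam' m' M M1 l1 nb q := by
  obtain ⟨Kt, Ks, K', κ, h⟩ := exists_KP hw hw2 hg hg2
  obtain ⟨L0, hL0⟩ := eventually_atTop.mp (num_L h (show (0 : ℝ) < 4 * C by positivity))
  have hA : (0 : ℝ) < (L0 : ℝ) + 1 := by positivity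
  refine ⟨((L0 : ℝ) + 1) ^ (-(5 / 3 : ℝ)), Real.rpow_pos_of_pos hA _, ?_⟩
  intro ε hε hε0
  have hA1 : ((L0 : ℝ) + 1) ≤ ε ^ (-(3 / 5 : ℝ)) := by
    have h1 : ε ^ (3 / 5 : ℝ) ≤ (((L0 : ℝ) + 1) ^ (-(5 / 3 : ℝ))) ^ (3 / 5 : ℝ) :=
      Real.rpow_le_rpow hε.le hε0.le (by norm_num)
    rw [← Real.rpow_mul hA.le, show (-(5 / 3 : ℝ)) * (3 / 5 : ℝ) = -1 by norm_num, Real.rpow_neg_one] at h1
    rw [Real.rpow_neg hε.le]
    rw [le_inv_comm₀ hA (Real.rpow_pos_of_pos hε _)]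
    exact h1
  set x : ℝ := ε ^ (-(3 / 5 : ℝ)) with hx
  have hx1 : 1 ≤ x := by
    have : (0 : ℝ) ≤ L0 := Nat.cast_nonneg _
    linarith
  have hxε : x ^ (-(5 / 3 : ℝ)) = ε := by
    rw [hx, ← Real.rpow_mul hε.le, show (-(3 / 5 : ℝ)) * (-(5 / 3 : ℝ)) = 1 by norm_num, Real.rpow_one]
  set L : ℕ := ⌈x⌉₊ with hL
  have hLx : x ≤ (L : ℝ) := Nat.le_ceil x
  have hLx2 : (L : ℝ) ≤ 2 * x := by
    have := Nat.ceil_lt_add_one (show (0 : ℝ) ≤ x by linarith)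
    linarith
  have hLpos : (0 : ℝ) < (L : ℝ) := by linarith
  have hLL0 : L0 ≤ L := by
    have : (L0 : ℝ) ≤ (L : ℝ) := by linarith
    exact_mod_cast this
  have h1 : (L : ℝ) ^ (-(5 / 3 : ℝ)) ≤ ε := by
    rw [← hxε]
    exact Real.rpow_le_rpow_of_nonpos (by linarith) hLx (by norm_num)
  have h2 : ε ≤ 4 * (L : ℝ) ^ (-(5 / 3 : ℝ)) := by
    have h3 : (2 * x) ^ (-(5 / 3 : ℝ)) ≤ (L : ℝ) ^ (-(5 / 3 : ℝ)) :=
      Real.rpow_le_rpow_of_nonpos hLpos hLx2 (by norm_num)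
    have h4 : (2 * x) ^ (-(5 / 3 : ℝ)) = 2 ^ (-(5 / 3 : ℝ)) * ε := by
      rw [Real.mul_rpow (by norm_num) (by linarith), hxε]
    have h5 : (1 : ℝ) / 4 ≤ 2 ^ (-(5 / 3 : ℝ)) := by
      have : (2 : ℝ) ^ (-(2 : ℝ)) ≤ 2 ^ (-(5 / 3 : ℝ)) :=
        Real.rpow_le_rpow_of_exponent_le (by norm_num) (by norm_num)
      have h6 : (2 : ℝ) ^ (-(2 : ℝ)) = 1 / 4 := by
        rw [Real.rpow_neg (by norm_num)]; norm_num
      rwa [h6] at this
    rw [h4] at h3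
    nlinarith
  refine ⟨_, _, _, _, _, _, _, _, _, _, _, hL0 L hLL0 ε (C * ε) h1 (by positivity) ?_⟩
  nlinarith

end H72NE
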