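import Pool.Agent.H72.NE.Ctr
import Pool.Agent.H72.NE.Fin
import Pool.Agent.H72.NE.Num
import Pool.Agent.H72.NE.Gapr
import Pool.Agent.H72.IPS.Wp
import Pool.Agent.H72.IPS.Erg
import Pool.Agent.H72.IPS.DualE

/-! # Near the East line: the final theorem -/

namespace H72NE

open H72IPS Finset

/-- the regime in which the death rate of isolated particles is not small compared with the birth
rate -/
theorem near_east_dual {η : ℝ} (hη : 0 < η) {p : Bool → Bool → ℝ} (hp : IsProb p)
    (h01 : η ≤ p false true) (h11 : η ≤ 1 - p true true) (h00 : 0 < p false false)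
    (h00' : p false false < η) (h10 : 0 < 1 - p true false) (h10' : 1 - p true false < η)
    (h : p false false ≤ 2 * η * (1 - p true false)) : AsympConst p := by
  refine asympConst_of_dual ⟨hp, ?_, ?_, ?_⟩
  · intro s y
    cases s <;> cases y <;> simp only [cr, if_true, Bool.false_eq_true, if_false] <;> linarith
  · intro s
    cases s <;> simp only [cr, if_true, Bool.false_eq_true, if_false] <;> linarith
  · simp only [cr, if_true, Bool.false_eq_true, if_false]
    have h1 := (hp true true).1
    have h2 : p false false * ((1 - p true true) - p false true) < p false false := by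
      have : (1 - p true true) - p false true < 1 := by linarith
      nlinarith
    have h3 : 2 * η * (1 - p true false) ≤ 2 * p false true * (1 - p true false) := by
      nlinarith
    linarith

/-- the regime of rare death of isolated particles -/
theorem near_east_small {η : ℝ} (hη : 0 < η) (hη1 : η ≤ 1) :
    ∃ ε0 : ℝ, 0 < ε0 ∧ ∀ p : Bool → Bool → ℝ, IsProb p →
    η ≤ p false true → η ≤ 1 - p true true → 0 < p false false → p false false < ε0 →
    0 < 1 - p true false → 2 * η * (1 - p true false) < p false false → AsympConst p := by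
  obtain ⟨γ, hγ, hgap⟩ := exists_gap (w := η / 2) (by linarith) (by linarith)
  have hγ0 : 0 < γ := by linarith
  have hg : 0 < η / (2 * γ) := by positivity
  have hg2 : η / (2 * γ) ≤ 1 / 2 := by
    rw [div_le_iff₀ (by positivity)]
    linarith
  have hC : 0 < 1 + 1 / (2 * η) := by positivity
  obtain ⟨ε0, hε0, H⟩ := NUM (w := η / 2) (g := η / (2 * γ)) (C := 1 + 1 / (2 * η)) (by linarith)
    (by linarith) hg hg2 hC
  refine ⟨min ε0 η, lt_min hε0 hη, ?_⟩
  intro p hp h01 h11 h00 hε h10 h
  have hεa : p false false < ε0 := lt_of_lt_of_le hε (min_le_left _ _)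
  have hεb : p false false < η := lt_of_lt_of_le hε (min_le_right _ _)
  obtain ⟨s, t, L, lam, lam', m', M, M1, l1, nb, q, nh⟩ := H (p false false) h00 hεa
  have hr1 : p false true ≤ 1 := (hp false true).2
  have hr2 : 0 ≤ p true true := (hp true true).1
  set r : ℝ := p false true + (1 - p true true) with hr
  have hrpos : 0 < r := by rw [hr]; linarith
  have hrP : r * (p false true / r) = p false true := by field_simp
  have hrP' : r * (1 - p false true / r) = 1 - p true true := by
    rw [mul_sub, hrP, mul_one, hr]; ring
  have hpar : EPar (η / 2) γ (p false true / r) r (η / (2 * γ)) := by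
    refine ⟨by linarith, by linarith, hγ, hgap, ?_, ?_, hrpos, by rw [hr]; linarith, hg, ?_⟩
    · rw [le_div_iff₀ hrpos]
      have : r ≤ 2 := by rw [hr]; linarith
      nlinarith
    · rw [div_le_iff₀ hrpos]
      have : r ≤ 2 := by rw [hr]; linarith
      have h3 : p false true = r - (1 - p true true) := by rw [hr]; ring
      nlinarith
    · rw [div_le_div_iff₀ (by positivity) (by positivity)]
      have : 2 * η ≤ r := by rw [hr]; linarith
      nlinarith
  have hν : 0 ≤ (1 + 1 / (2 * η)) * p false false := by positivity
  have hν1 : p false false ≤ (1 + 1 / (2 * η)) * p false false := by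
    have : 0 ≤ 1 / (2 * η) * p false false := by positivity
    linarith
  have hν2 : 1 - p true false ≤ (1 + 1 / (2 * η)) * p false false := by
    have h4 : 1 - p true false ≤ 1 / (2 * η) * p false false := by
      rw [one_div, inv_mul_eq_div, le_div_iff₀ (by positivity)]
      linarith
    linarith
  have hn : ∀ b e, NoisyOn (fun _ => cr p) (p false true / r) r
      ((1 + 1 / (2 * η)) * p false false) ((1 + 1 / (2 * η)) * p false false) b e := by
    intro b e k _ _
    simp only [cr, if_true, Bool.false_eq_true, if_false]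
    refine ⟨hrP.symm, hrP'.symm, hν1, hν2, hν2⟩
  have ha0 : ∀ (k : ℤ) (y : Bool), p false false ≤ (fun _ => cr p : Rts) k false y := by
    intro k y
    cases y <;> simp only [cr, Bool.false_eq_true, if_false] <;> linarith
  have hT0 : (0 : ℝ) < L + q * (t + s) := by
    have h1 : (1 : ℝ) ≤ L := by exact_mod_cast nh.L_pos
    have h2 : (0 : ℝ) ≤ q * (t + s) := mul_nonneg (Nat.cast_nonneg _) (add_nonneg nh.t_nn nh.s_nn)
    linarith
  exact FIN hp nh.L_pos hT0 (fun N M0 K Δ f hf hOS hI h1 h2 =>
    CTR hpar (Rok_cr hp) nh h00.le hν hν hn ha0 N M0 K Δ f hf hOS hI h1 h2)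

theorem near_east {η : ℝ} (hη : 0 < η) : ∃ ε0 : ℝ, 0 < ε0 ∧ ∀ p : Bool → Bool → ℝ, IsProb p →
    η ≤ p false true → η ≤ 1 - p true true → 0 < p false false → p false false < ε0 →
    0 < 1 - p true false → 1 - p true false < ε0 → WellPosed p ∧ Ergodic p := by
  by_cases hη1 : η ≤ 1
  · obtain ⟨ε0, hε0, H⟩ := near_east_small hη hη1
    refine ⟨min ε0 η, lt_min hε0 hη, ?_⟩
    intro p hp h01 h11 h00 h00' h10 h10'
    refine ⟨wellPosed hp, ergodic_of_asympConst hp ?_⟩
    by_cases hc : p false false ≤ 2 * η * (1 - p true false)
    · exact near_east_dual hη hp h01 h11 h00 (lt_of_lt_of_le h00' (min_le_right _ _)) h10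
        (lt_of_lt_of_le h10' (min_le_right _ _)) hc
    · exact H p hp h01 h11 h00 (lt_of_lt_of_le h00' (min_le_left _ _)) h10 (not_le.mp hc)
  · refine ⟨1, one_pos, ?_⟩
    intro p hp h01
    have := (hp false true).2
    exact absurd (le_trans h01 this) hη1

end H72NE
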