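import Pool.Agent.H72.NE.Lno
import Pool.Agent.H72.NE.Rpt

/-! # MBB: variance and mean of the alive evolution

`u ≤ ξ ≤ e`, `n1 = e + 1 - b`, `f` depends on `[b, u)` only, `0 ≤ f ≤ 1`, `Av_{[b,u)} f ≤ ϖ`,
`(2/w) ν n1 ≤ g`.

* `sd_AE`, by induction on `n` for all `ξ ∈ [u, e]` (`n = 0`: `Va_le_sq` with `B = 1`): with
  `V = (1 - g/R)^n`: `sd (AE (n+1) ξ) ≤ 1/2 sd_LN + 1/2 sd_RT
  ≤ 1/2 (1 - r/(γR) + 4 ν n1/(wR)) V + 1/2 V` (`sd_RT` with `V0 = V1 = V`; for `ξ < e`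
  `sd_{[b,ξ)} (Av_ξ G') ≤ sd_{[b,ξ+1)} G'` by `Va_Av_le`; for `ξ = e` the variance of `0` is `0`)
  `≤ (1 - g/R) V` because `r/(2γ) ≥ 2 g` and `2 ν n1 / w ≤ g`.
* `Av_AE`, by induction on `n`: `Av (AE n ξ) ≤ ϖ + (2 ν n1 / w) ∑_{j<n} (1 - g/R)^j / R`
  (`Av_LN`, `Av_RT` with `M` the bound at step `n`, `Av_{[b,ξ)} (Av_ξ G') = Av_{[b,ξ+1)} G'` by
  `Av_union`), and `∑_j (1 - g/R)^j / R ≤ 1/g`. For `n = 0` use `Av_of_ind_sdiff`. -/

namespace H72NE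

open H72IPS Finset

private theorem mbb_Ico (b ξ : ℤ) (h : b ≤ ξ) : Ico b ξ ∪ {ξ} = Ico b (ξ + 1) := by
  ext i
  simp only [mem_union, mem_Ico, mem_singleton]
  omega

private theorem mbb_disj (b ξ : ℤ) : Disjoint (Ico b ξ) ({ξ} : Finset ℤ) := by
  rw [Finset.disjoint_singleton_right]
  simp

private theorem mbb_Va_zero (P : ℝ) (S : Finset ℤ) (x : Cfg) : Va P S (fun _ => (0 : ℝ)) x = 0 := by
  unfold Va
  rw [Av_const, Av_const]
  norm_num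

private theorem mbb_Rpos {b e N u : ℤ} (hbu : b ≤ u) (heN : e < N) {R : ℝ}
    (hR : 8 * ((N - b : ℤ) : ℝ) + 16 ≤ R) {ξ : ℤ} (huξ : u ≤ ξ) (hξe : ξ ≤ e) : 16 ≤ R := by
  have h : (0 : ℝ) ≤ ((N - b : ℤ) : ℝ) := by
    exact_mod_cast (show (0 : ℤ) ≤ N - b by omega)
  linarith

private theorem mbb_g_le {w γ P r g : ℝ} (hp : EPar w γ P r g) : g ≤ 1 / 2 := by
  have h1 := hp.g_le
  have h2 := hp.r_le
  have h3 := hp.one_le_γ
  have h4 : r / (4 * γ) ≤ 1 / 2 := by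
    rw [div_le_iff₀ (by linarith)]
    linarith
  linarith

theorem sd_AE {w γ P r g : ℝ} (hp : EPar w γ P r g) {c : Rts} (hc : Rok c) {ν β : ℝ}
    (hν : 0 ≤ ν) {b e N u : ℤ} (hbu : b ≤ u) (heN : e < N) (hn : NoisyOn c P r ν β b e) {R : ℝ}
    (hR : 8 * ((N - b : ℤ) : ℝ) + 16 ≤ R) (hs : 2 / w * ν * ((e + 1 - b : ℤ) : ℝ) ≤ g)
    {f : Cfg → ℝ} (hf0 : ∀ y, 0 ≤ f y) (hf1 : ∀ y, f y ≤ 1)
    (n : ℕ) {ξ : ℤ} (huξ : u ≤ ξ) (hξe : ξ ≤ e) {x : Cfg} (hx : x ξ = true) :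
    Real.sqrt (Va P (Ico b ξ) (AE c P r R b e N f n ξ) x) ≤ (1 - g / R) ^ n := by
  have hP0 : 0 ≤ P := by linarith [hp.w_pos, hp.le_P]
  have hP1 : P ≤ 1 := by linarith [hp.w_pos, hp.P_le]
  have hw := hp.w_pos
  have hγ := hp.one_le_γ
  have hr := hp.r_pos
  have hr2 := hp.r_le
  have hg := hp.g_pos
  have hg2 := mbb_g_le hp
  induction n generalizing ξ x with
  | zero =>
    have h1 : Va P (Ico b ξ) (AE c P r R b e N f 0 ξ) x ≤ 1 ^ 2 := by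
      refine Va_le_sq hP0 hP1 (fun y z _ _ => ?_)
      show |f y - f z| ≤ 1
      rw [abs_le]
      constructor <;> linarith [hf0 y, hf1 y, hf0 z, hf1 z]
    rw [pow_zero]
    calc Real.sqrt (Va P (Ico b ξ) (AE c P r R b e N f 0 ξ) x) ≤ Real.sqrt (1 ^ 2) :=
          Real.sqrt_le_sqrt h1
      _ = 1 := by norm_num
  | succ n ih =>
    have hR16 : 16 ≤ R := mbb_Rpos hbu heN hR huξ hξe
    have hR0 : 0 < R := by linarith
    have hgR : g / R ≤ 1 / 2 := by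
      rw [div_le_iff₀ hR0]; linarith
    have hV0 : 0 ≤ (1 - g / R) ^ n := pow_nonneg (by linarith) _
    set V := (1 - g / R) ^ n with hV
    set G := AE c P r R b e N f n ξ with hG
    set H : Cfg → ℝ := (if ξ < e then Av P {ξ} (AE c P r R b e N f n (ξ + 1)) else fun _ => 0)
      with hH
    have hdef : AE c P r R b e N f (n + 1) ξ
        = fun z => (1 / 2) * LN c R b ξ G z + (1 / 2) * RT c r R ξ N G H z := by
      funext z
      rfl
    rw [hdef]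
    have hbξ : b ≤ ξ := by omega
    have hcast : ((ξ - b : ℤ) : ℝ) ≤ ((e + 1 - b : ℤ) : ℝ) := by
      exact_mod_cast (show ξ - b ≤ e + 1 - b by omega)
    have hcast2 : ((ξ - b : ℤ) : ℝ) ≤ ((N - b : ℤ) : ℝ) := by
      exact_mod_cast (show ξ - b ≤ N - b by omega)
    have hcast0 : (0 : ℝ) ≤ ((ξ - b : ℤ) : ℝ) := by
      exact_mod_cast (show (0 : ℤ) ≤ ξ - b by omega)
    have hGsd : ∀ y : Cfg, y ξ = true → Real.sqrt (Va P (Ico b ξ) G y) ≤ V := fun y hy =>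
      ih huξ hξe hy
    -- left part
    have hL := sd_LN hp hc hν hbξ (by omega : ξ ≤ e + 1) hn
      (by linarith : 8 * ((ξ - b : ℤ) : ℝ) + 16 ≤ R) G hx
    have hL2 : Real.sqrt (Va P (Ico b ξ) (LN c R b ξ G) x)
        ≤ (1 - r / (γ * R) + 4 * ν * ((e + 1 - b : ℤ) : ℝ) / (w * R)) * V := by
      refine hL.trans ?_
      have h1 : 4 * ν * ((ξ - b : ℤ) : ℝ) / (w * R) ≤ 4 * ν * ((e + 1 - b : ℤ) : ℝ) / (w * R) := by
        gcongr
      have h2 : r / (γ * R) ≤ 1 := by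
        rw [div_le_one (by positivity)]
        nlinarith
      have h3 : 0 ≤ 4 * ν * ((e + 1 - b : ℤ) : ℝ) / (w * R) := by
        have : (0 : ℝ) ≤ ((e + 1 - b : ℤ) : ℝ) := hcast0.trans hcast
        positivity
      calc (1 - r / (γ * R) + 4 * ν * ((ξ - b : ℤ) : ℝ) / (w * R)) * Real.sqrt (Va P (Ico b ξ) G x)
          ≤ (1 - r / (γ * R) + 4 * ν * ((e + 1 - b : ℤ) : ℝ) / (w * R))
              * Real.sqrt (Va P (Ico b ξ) G x) :=
            mul_le_mul_of_nonneg_right (by linarith) (Real.sqrt_nonneg _)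
        _ ≤ _ := mul_le_mul_of_nonneg_left (hGsd x hx) (by linarith)
    -- right part
    have hHsd : x (ξ + 1) = true → Real.sqrt (Va P (Ico b ξ) H x) ≤ V := by
      intro hx1
      by_cases hlt : ξ < e
      · have hHe : H = Av P {ξ} (AE c P r R b e N f n (ξ + 1)) := by
          rw [hH, if_pos hlt]
        rw [hHe]
        have h1 := Va_Av_le hP0 hP1 (mbb_disj b ξ) (AE c P r R b e N f n (ξ + 1)) x
        rw [mbb_Ico b ξ hbξ] at h1
        exact (Real.sqrt_le_sqrt h1).trans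
          (ih (by omega : u ≤ ξ + 1) (by omega : ξ + 1 ≤ e) hx1)
      · have hHe : H = fun _ => 0 := by
          rw [hH, if_neg hlt]
        rw [hHe, mbb_Va_zero, Real.sqrt_zero]
        exact hV0
    have hRt := sd_RT hp hc hbξ (by omega : ξ < N) hR (le_refl V) hx hGsd hHsd
    have hRt2 : Real.sqrt (Va P (Ico b ξ) (RT c r R ξ N G H) x) ≤ V := by
      refine hRt.trans (le_of_eq ?_)
      ring
    have hadd := sd_add hP0 hP1 (Ico b ξ) (fun z => (1 / 2) * LN c R b ξ G z)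
      (fun z => (1 / 2) * RT c r R ξ N G H z) x
    have hs1 := sd_smul (P := P) (Ico b ξ) (by norm_num : (0 : ℝ) ≤ 1 / 2) (LN c R b ξ G) x
    have hs2 := sd_smul (P := P) (Ico b ξ) (by norm_num : (0 : ℝ) ≤ 1 / 2) (RT c r R ξ N G H) x
    rw [hs1, hs2] at hadd
    refine hadd.trans ?_
    have hkey : 1 / 2 * ((1 - r / (γ * R) + 4 * ν * ((e + 1 - b : ℤ) : ℝ) / (w * R)) * V)
        + 1 / 2 * V ≤ (1 - g / R) * V := by
      have h1 : 2 * g / R ≤ r / (2 * γ * R) := by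
        have h2 : g ≤ r / (4 * γ) := hp.g_le
        have h3 : r / (2 * γ * R) = 2 * (r / (4 * γ)) / R := by
          field_simp
          ring
        rw [h3]
        gcongr
      have h4 : 2 * ν * ((e + 1 - b : ℤ) : ℝ) / (w * R) ≤ g / R := by
        have h5 : 2 * ν * ((e + 1 - b : ℤ) : ℝ) / (w * R)
            = (2 / w * ν * ((e + 1 - b : ℤ) : ℝ)) / R := by
          field_simp
        rw [h5]
        gcongr
      have h6 : 1 / 2 * ((1 - r / (γ * R) + 4 * ν * ((e + 1 - b : ℤ) : ℝ) / (w * R)) * V)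
          + 1 / 2 * V
          = (1 - r / (2 * γ * R) + 2 * ν * ((e + 1 - b : ℤ) : ℝ) / (w * R)) * V := by
        have h7 : r / (2 * γ * R) = 1 / 2 * (r / (γ * R)) := by
          field_simp
        have h8 : 2 * ν * ((e + 1 - b : ℤ) : ℝ) / (w * R)
            = 1 / 2 * (4 * ν * ((e + 1 - b : ℤ) : ℝ) / (w * R)) := by
          ring
        rw [h7, h8]
        ring
      rw [h6]
      refine mul_le_mul_of_nonneg_right ?_ hV0
      have h9 : 2 * g / R = g / R + g / R := by ring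
      linarith
    calc 1 / 2 * Real.sqrt (Va P (Ico b ξ) (LN c R b ξ G) x)
          + 1 / 2 * Real.sqrt (Va P (Ico b ξ) (RT c r R ξ N G H) x)
        ≤ 1 / 2 * ((1 - r / (γ * R) + 4 * ν * ((e + 1 - b : ℤ) : ℝ) / (w * R)) * V)
          + 1 / 2 * V := by linarith
      _ ≤ (1 - g / R) * V := hkey
      _ = (1 - g / R) ^ (n + 1) := by rw [hV, pow_succ]; ring

private theorem mbb_geom {q : ℝ} (hq0 : 0 < q) (hq1 : q ≤ 1) (n : ℕ) :
    ∑ j ∈ range n, (1 - q) ^ j ≤ 1 / q := by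
  have h : q * ∑ j ∈ range n, (1 - q) ^ j = 1 - (1 - q) ^ n := by
    induction n with
    | zero => simp
    | succ n ih =>
      rw [Finset.sum_range_succ, mul_add, ih, pow_succ]
      ring
  rw [le_div_iff₀ hq0, mul_comm, h]
  have : 0 ≤ (1 - q) ^ n := pow_nonneg (by linarith) n
  linarith

private theorem mbb_Av_aux {w γ P r g : ℝ} (hp : EPar w γ P r g) {c : Rts} (hc : Rok c) {ν β : ℝ}
    (hν : 0 ≤ ν) {b e N u : ℤ} (hbu : b ≤ u) (heN : e < N) (hn : NoisyOn c P r ν β b e) {R : ℝ}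
    (hR : 8 * ((N - b : ℤ) : ℝ) + 16 ≤ R) (hs : 2 / w * ν * ((e + 1 - b : ℤ) : ℝ) ≤ g)
    {f : Cfg → ℝ} (hf0 : ∀ y, 0 ≤ f y) (hf1 : ∀ y, f y ≤ 1)
    (hfi : Ind {i | ¬ (b ≤ i ∧ i < u)} f) {ϖ : ℝ} (hav : ∀ y, Av P (Ico b u) f y ≤ ϖ)
    (n : ℕ) {ξ : ℤ} (huξ : u ≤ ξ) (hξe : ξ ≤ e) {x : Cfg} (hx : x ξ = true) :
    Av P (Ico b ξ) (AE c P r R b e N f n ξ) x
      ≤ ϖ + 2 * ν * ((e + 1 - b : ℤ) : ℝ) / (w * R) * ∑ j ∈ range n, (1 - g / R) ^ j := by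
  have hP0 : 0 ≤ P := by linarith [hp.w_pos, hp.le_P]
  have hP1 : P ≤ 1 := by linarith [hp.w_pos, hp.P_le]
  have hw := hp.w_pos
  have hg := hp.g_pos
  have hg2 := mbb_g_le hp
  have hϖ : 0 ≤ ϖ := (Av_nonneg hP0 hP1 (fun y _ => hf0 y)).trans (hav x)
  induction n generalizing ξ x with
  | zero =>
    have hsub : Ico b u ⊆ Ico b ξ := Ico_subset_Ico_right huξ
    have hind : Ind ((Ico b ξ \ Ico b u : Finset ℤ) : Set ℤ) f := by
      intro y z hyz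
      refine hfi y z (fun i hi => hyz i (fun hi2 => hi ?_))
      have h3 : i ∈ Ico b ξ \ Ico b u := hi2
      rw [mem_sdiff, mem_Ico, mem_Ico] at h3
      show ¬ (b ≤ i ∧ i < u)
      exact h3.2
    have h1 : Av P (Ico b ξ) f = Av P (Ico b u) f := Av_of_ind_sdiff P hsub hind
    show Av P (Ico b ξ) f x ≤ _
    rw [h1]
    simpa using hav x
  | succ n ih =>
    have hR16 : 16 ≤ R := mbb_Rpos hbu heN hR huξ hξe
    have hR0 : 0 < R := by linarith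
    have hgR : g / R ≤ 1 / 2 := by
      rw [div_le_iff₀ hR0]; linarith
    set M := ϖ + 2 * ν * ((e + 1 - b : ℤ) : ℝ) / (w * R) * ∑ j ∈ range n, (1 - g / R) ^ j with hM
    have hbξ : b ≤ ξ := by omega
    have hcast : ((ξ - b : ℤ) : ℝ) ≤ ((e + 1 - b : ℤ) : ℝ) := by
      exact_mod_cast (show ξ - b ≤ e + 1 - b by omega)
    have hcast2 : ((ξ - b : ℤ) : ℝ) ≤ ((N - b : ℤ) : ℝ) := by
      exact_mod_cast (show ξ - b ≤ N - b by omega)
    have hcast0 : (0 : ℝ) ≤ ((ξ - b : ℤ) : ℝ) := by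
      exact_mod_cast (show (0 : ℤ) ≤ ξ - b by omega)
    have hcast3 : (0 : ℝ) ≤ ((e + 1 - b : ℤ) : ℝ) := hcast0.trans hcast
    have hM0 : 0 ≤ M := by
      have h1 : 0 ≤ ∑ j ∈ range n, (1 - g / R) ^ j :=
        Finset.sum_nonneg (fun j _ => pow_nonneg (by linarith) _)
      have h2 : 0 ≤ 2 * ν * ((e + 1 - b : ℤ) : ℝ) / (w * R) := by positivity
      have := mul_nonneg h2 h1
      linarith
    set G := AE c P r R b e N f n ξ with hG
    set H : Cfg → ℝ := (if ξ < e then Av P {ξ} (AE c P r R b e N f n (ξ + 1)) else fun _ => 0)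
      with hH
    have hdef : AE c P r R b e N f (n + 1) ξ
        = fun z => (1 / 2) * LN c R b ξ G z + (1 / 2) * RT c r R ξ N G H z := by
      funext z
      rfl
    have hGav : ∀ y : Cfg, y ξ = true → Av P (Ico b ξ) G y ≤ M := fun y hy => ih huξ hξe hy
    have hHav : x (ξ + 1) = true → Av P (Ico b ξ) H x ≤ M := by
      intro hx1
      by_cases hlt : ξ < e
      · have hHe : H = Av P {ξ} (AE c P r R b e N f n (ξ + 1)) := by
          rw [hH, if_pos hlt]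
        rw [hHe, ← Av_union P (mbb_disj b ξ), mbb_Ico b ξ hbξ]
        exact ih (by omega : u ≤ ξ + 1) (by omega : ξ + 1 ≤ e) hx1
      · have hHe : H = fun _ => 0 := by
          rw [hH, if_neg hlt]
        rw [hHe, Av_const]
        exact hM0
    have hRt := Av_RT hp hc hbξ (by omega : ξ < N) hR hM0 hx hGav hHav
    have hLn := Av_LN hp hc hν hbξ (by omega : ξ ≤ e + 1) hn
      (by linarith : 8 * ((ξ - b : ℤ) : ℝ) + 16 ≤ R) G hx
    have hsd : Real.sqrt (Va P (Ico b ξ) G x) ≤ (1 - g / R) ^ n :=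
      sd_AE hp hc hν hbu heN hn hR hs hf0 hf1 n huξ hξe hx
    have hLn2 : Av P (Ico b ξ) (LN c R b ξ G) x
        ≤ M + 4 * ν * ((e + 1 - b : ℤ) : ℝ) / (w * R) * (1 - g / R) ^ n := by
      have h1 := (abs_le.1 hLn).2
      have h2 : 4 * ν * ((ξ - b : ℤ) : ℝ) / (w * R) * Real.sqrt (Va P (Ico b ξ) G x)
          ≤ 4 * ν * ((e + 1 - b : ℤ) : ℝ) / (w * R) * (1 - g / R) ^ n := by
        gcongr
      have h3 := hGav x hx
      linarith
    rw [hdef, Av_add P (Ico b ξ) (fun z => (1 / 2) * LN c R b ξ G z)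
      (fun z => (1 / 2) * RT c r R ξ N G H z) x, Av_smul P (Ico b ξ) (1 / 2) (LN c R b ξ G) x,
      Av_smul P (Ico b ξ) (1 / 2) (RT c r R ξ N G H) x, Finset.sum_range_succ]
    have h5 : 4 * ν * ((e + 1 - b : ℤ) : ℝ) / (w * R) * (1 - g / R) ^ n
        = 2 * (2 * ν * ((e + 1 - b : ℤ) : ℝ) / (w * R) * (1 - g / R) ^ n) := by ring
    rw [h5] at hLn2
    have h6 : ϖ + 2 * ν * ((e + 1 - b : ℤ) : ℝ) / (w * R)
        * (∑ j ∈ range n, (1 - g / R) ^ j + (1 - g / R) ^ n)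
        = M + 2 * ν * ((e + 1 - b : ℤ) : ℝ) / (w * R) * (1 - g / R) ^ n := by
      rw [hM]; ring
    rw [h6]
    linarith

theorem Av_AE {w γ P r g : ℝ} (hp : EPar w γ P r g) {c : Rts} (hc : Rok c) {ν β : ℝ}
    (hν : 0 ≤ ν) {b e N u : ℤ} (hbu : b ≤ u) (heN : e < N) (hn : NoisyOn c P r ν β b e) {R : ℝ}
    (hR : 8 * ((N - b : ℤ) : ℝ) + 16 ≤ R) (hs : 2 / w * ν * ((e + 1 - b : ℤ) : ℝ) ≤ g)
    {f : Cfg → ℝ} (hf0 : ∀ y, 0 ≤ f y) (hf1 : ∀ y, f y ≤ 1)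
    (hfi : Ind {i | ¬ (b ≤ i ∧ i < u)} f) {ϖ : ℝ} (hav : ∀ y, Av P (Ico b u) f y ≤ ϖ)
    (n : ℕ) {ξ : ℤ} (huξ : u ≤ ξ) (hξe : ξ ≤ e) {x : Cfg} (hx : x ξ = true) :
    Av P (Ico b ξ) (AE c P r R b e N f n ξ) x ≤ ϖ + 2 * ν * ((e + 1 - b : ℤ) : ℝ) / (w * g) := by
  have h1 := mbb_Av_aux hp hc hν hbu heN hn hR hs hf0 hf1 hfi hav n huξ hξe hx
  refine h1.trans ?_
  have hR16 : 16 ≤ R := mbb_Rpos hbu heN hR huξ hξe
  have hR0 : 0 < R := by linarith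
  have hg := hp.g_pos
  have hg2 := mbb_g_le hp
  have hw := hp.w_pos
  have hgR : g / R ≤ 1 := by
    rw [div_le_iff₀ hR0]; linarith
  have h2 := mbb_geom (div_pos hg hR0) hgR n
  have hcast3 : (0 : ℝ) ≤ ((e + 1 - b : ℤ) : ℝ) := by
    exact_mod_cast (show (0 : ℤ) ≤ e + 1 - b by omega)
  have h3 : 0 ≤ 2 * ν * ((e + 1 - b : ℤ) : ℝ) / (w * R) := by positivity
  have h4 : 2 * ν * ((e + 1 - b : ℤ) : ℝ) / (w * R) * ∑ j ∈ range n, (1 - g / R) ^ j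
      ≤ 2 * ν * ((e + 1 - b : ℤ) : ℝ) / (w * R) * (1 / (g / R)) :=
    mul_le_mul_of_nonneg_left h2 h3
  have h5 : 2 * ν * ((e + 1 - b : ℤ) : ℝ) / (w * R) * (1 / (g / R))
      = 2 * ν * ((e + 1 - b : ℤ) : ℝ) / (w * g) := by
    field_simp
  linarith

end H72NE
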