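import Pool.Agent.H72.NE.Mba
import Pool.Agent.H72.NE.Mbb
import Pool.Agent.H72.NE.Obb

/-! # MB: local equilibrium to the left of a particle -/

namespace H72NE

open H72IPS Finset

/-- `QWn_le_AE`, `AE n ξ x ≤ Av_{[b,ξ)} (AE n ξ) x + w⁻¹^(ξ-b) sd` (`abs_sub_Av_le`), `sd_AE`, `Av_AE` -/
theorem MB {w γ P r g : ℝ} (hp : EPar w γ P r g) {c : Rts} (hc : Rok c) {ν β : ℝ}
    (hν : 0 ≤ ν) (hβ : 0 ≤ β) {b e N u : ℤ} (hbu : b ≤ u) (heN : e < N)
    (hn : NoisyOn c P r ν β b e) {R : ℝ} (hR : 8 * ((N - b : ℤ) : ℝ) + 16 ≤ R)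
    (hs : 2 / w * ν * ((e + 1 - b : ℤ) : ℝ) ≤ g)
    {f : Cfg → ℝ} (hf0 : ∀ y, 0 ≤ f y) (hf1 : ∀ y, f y ≤ 1)
    (hfi : Ind {i | ¬ (b ≤ i ∧ i < u)} f) {ϖ : ℝ} (hav : ∀ y, Av P (Ico b u) f y ≤ ϖ)
    (n : ℕ) {ξ : ℤ} (huξ : u ≤ ξ) (hξe : ξ ≤ e) {x : Cfg} (hx : x ξ = true) :
    (QW c (Ico b N) R)^[n] f x
      ≤ ϖ + 2 * ν * ((e + 1 - b : ℤ) : ℝ) / (w * g) + w⁻¹ ^ ((ξ - b).toNat) * (1 - g / R) ^ n
        + n * (β / R) + (1 / 2) ^ ((e + 1 - ξ).toNat) * (1 + 2 / R) ^ n := by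
  have h1 := QWn_le_AE hp hc hβ heN hn hR hf0 hf1 n (hbu.trans huξ) hξe hx
  have h2 := sd_AE hp hc hν hbu heN hn hR hs hf0 hf1 n huξ hξe hx
  have h3 := Av_AE hp hc hν hbu heN hn hR hs hf0 hf1 hfi hav n huξ hξe hx
  have h4 := abs_sub_Av_le hp.w_pos hp.le_P hp.P_le (S := Ico b ξ) (n := (ξ - b).toNat)
    (by rw [Int.card_Ico]) (AE c P r R b e N f n ξ) x
  have h5 : w⁻¹ ^ ((ξ - b).toNat) * Real.sqrt (Va P (Ico b ξ) (AE c P r R b e N f n ξ) x)
      ≤ w⁻¹ ^ ((ξ - b).toNat) * (1 - g / R) ^ n :=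
    mul_le_mul_of_nonneg_left h2 (pow_nonneg (inv_nonneg.2 hp.w_pos.le) _)
  have h6 := le_abs_self (AE c P r R b e N f n ξ x - Av P (Ico b ξ) (AE c P r R b e N f n ξ) x)
  linarith

theorem noOne_ind (v v' : ℤ) : Ind {i | ¬ (v ≤ i ∧ i < v')} (noOne v v') := by
  intro x y h
  unfold noOne
  have : (∀ i, v ≤ i → i < v' → x i = false) ↔ (∀ i, v ≤ i → i < v' → y i = false) := by
    constructor
    · intro hx i h1 h2
      rw [← h i (by simp [h1, h2])]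
      exact hx i h1 h2
    · intro hx i h1 h2
      rw [h i (by simp [h1, h2])]
      exact hx i h1 h2
  simp only [this]

theorem bad_ind {μ : ℕ} (b u : ℤ) : Ind {i | ¬ (b ≤ i ∧ i < u)} (bad μ b u) := by
  intro x y h
  unfold bad
  have : x ∈ Sp μ b u ↔ y ∈ Sp μ b u := by
    constructor
    · intro hx v h1 h2
      obtain ⟨k, h3, h4, h5⟩ := hx v h1 h2
      refine ⟨k, h3, h4, ?_⟩
      rw [← h k (by simp only [Set.mem_ofPred_eq, not_not]; omega)]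
      exact h5
    · intro hx v h1 h2
      obtain ⟨k, h3, h4, h5⟩ := hx v h1 h2
      refine ⟨k, h3, h4, ?_⟩
      rw [h k (by simp only [Set.mem_ofPred_eq, not_not]; omega)]
      exact h5
  by_cases hx : x ∈ Sp μ b u
  · rw [if_pos hx, if_pos (this.1 hx)]
  · rw [if_neg hx, if_neg (fun hy => hx (this.2 hy))]

/-- the average over exactly the window -/
theorem Mb_Av_noOne_eq (P : ℝ) (v : ℤ) (μ : ℕ) (y : Cfg) :
    Av P (Ico v (v + μ)) (noOne v (v + μ)) y = (1 - P) ^ μ := by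
  have hcard : (Ico v (v + μ)).card = μ := by
    rw [Int.card_Ico]
    omega
  unfold Av
  rw [Finset.sum_eq_single ∅]
  · have h1 : noOne v (v + μ) (putS (Ico v (v + μ)) ∅ y) = 1 := by
      unfold noOne
      rw [if_pos]
      intro i h1 h2
      rw [putS_mem (Finset.mem_Ico.2 ⟨h1, h2⟩)]
      simp
    rw [h1, Finset.card_empty, hcard]
    simp
  · intro A hA hne
    have h1 : noOne v (v + μ) (putS (Ico v (v + μ)) A y) = 0 := by
      unfold noOne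
      rw [if_neg]
      intro h
      obtain ⟨i, hi⟩ := Finset.nonempty_iff_ne_empty.2 hne
      have hiS := Finset.mem_powerset.1 hA hi
      have h2 := h i (Finset.mem_Ico.1 hiS).1 (Finset.mem_Ico.1 hiS).2
      rw [putS_mem hiS] at h2
      simp [hi] at h2
    rw [h1, mul_zero]
  · intro h
    exact absurd (Finset.empty_mem_powerset _) h

/-- averages of windows: `Av_{[b,u)}` of `noOne v (v+μ)` is `(1-P)^μ ≤ (1-w)^μ` for
`[v, v+μ) ⊆ [b, u)` -/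
theorem Av_noOne_le {P w : ℝ} (hw : 0 < w) (h0 : w ≤ P) (h1 : P ≤ 1 - w) {b u v : ℤ} {μ : ℕ}
    (hb : b ≤ v) (hu : v + μ ≤ u) (y : Cfg) : Av P (Ico b u) (noOne v (v + μ)) y ≤ (1 - w) ^ μ := by
  have hsub : Ico v (v + (μ : ℤ)) ⊆ Ico b u := Finset.Ico_subset_Ico hb hu
  rw [Av_of_ind_sdiff P hsub, Mb_Av_noOne_eq]
  · exact pow_le_pow_left₀ (by linarith) (by linarith) _
  · intro x z h
    apply noOne_ind v (v + μ) x z
    intro i hi
    apply h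
    simp only [Set.mem_ofPred_eq, not_not] at hi
    simp only [Finset.coe_sdiff, Finset.coe_Ico, Set.mem_sdiff, Set.mem_Ico]
    exact fun h2 => h2.2 hi

/-- union bound (`bad_le_sum`); the number of windows is at most `u - b` -/
theorem Av_bad_le {P w : ℝ} (hw : 0 < w) (h0 : w ≤ P) (h1 : P ≤ 1 - w) {b u : ℤ} (hbu : b ≤ u)
    {μ : ℕ} (hμ : 1 ≤ μ) (y : Cfg) :
    Av P (Ico b u) (bad μ b u) y ≤ ((u - b : ℤ) : ℝ) * (1 - w) ^ μ := by
  have hw1 : 0 ≤ (1 - w) ^ μ := pow_nonneg (by linarith) _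
  calc Av P (Ico b u) (bad μ b u) y
      ≤ Av P (Ico b u) (fun z => ∑ v ∈ Finset.Icc b (u - μ), noOne v (v + μ) z) y :=
        Av_mono (hw.le.trans h0) (by linarith) (fun z _ => bad_le_sum μ b u z)
    _ = ∑ v ∈ Finset.Icc b (u - μ), Av P (Ico b u) (noOne v (v + μ)) y :=
        Av_sum P (Ico b u) (Finset.Icc b (u - μ)) (fun v => noOne v (v + μ)) y
    _ ≤ ∑ _v ∈ Finset.Icc b (u - μ), (1 - w) ^ μ := by
        apply Finset.sum_le_sum
        intro v hv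
        rw [Finset.mem_Icc] at hv
        exact Av_noOne_le hw h0 h1 hv.1 (by omega) y
    _ = ((Finset.Icc b (u - μ)).card : ℝ) * (1 - w) ^ μ := by
        rw [Finset.sum_const, nsmul_eq_mul]
    _ ≤ ((u - b : ℤ) : ℝ) * (1 - w) ^ μ := by
        apply mul_le_mul_of_nonneg_right _ hw1
        have h2 : ((Finset.Icc b (u - μ)).card : ℤ) ≤ u - b := by
          rw [Int.card_Icc]
          omega
        exact_mod_cast h2

end H72NE
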