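import Pool.Agent.H72.NE.AvB
import Pool.Agent.H72.NE.QBas

/-! # MBA: the chain is dominated by the alive evolution plus the probability of death

Claim, by induction on `n`: for `b ≤ ξ ≤ e` and `x ξ = true`,
`Q^n f x ≤ AE n ξ x + δ_n(ξ)`, `δ_n(ξ) = n β / R + (1/2)^(e+1-ξ) (1 + 2/R)^n`.
Let `F = Q^n f`, `0 ≤ F ≤ 1`, and write
`Q F x = F x + R⁻¹ ∑_{k ∈ [b,N), k ≠ ξ} rt c x k (F (flip x k) - F x) + R⁻¹ rt c x ξ (F (flip x ξ) - F x)`.
* `x (ξ+1) = true`: the last term is `R⁻¹ r (Av_ξ F x - F x)` (`NoisyOn` at `ξ`, `x ξ = true`).  All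
  coefficients (of `F x`, `F (flip x k)`, `Av_ξ F x`) are nonnegative with sum one.  Insert the
  induction hypothesis (configurations `flip x k`, `k ≠ ξ`, have a particle at `ξ`;
  `Av_ξ F x ≤ Av_ξ (AE n (ξ+1)) x + δ_n(ξ+1)` if `ξ < e`, and `Av_ξ F x ≤ 1 ≤ 0 + (1 + 2/R)^n` if
  `ξ = e`).  The error is `δ_n(ξ) + (r/R) (1/2)^(e+1-ξ) (1 + 2/R)^n ≤ δ_{n+1}(ξ)` since `r ≤ 2`.
* `x (ξ+1) = false`: `rt c x ξ = c ξ true false ≤ β` and `F (flip x ξ) ≤ 1`; the error is
  `δ_n(ξ) + β / R`.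
The resulting upper bound without the errors is `AE (n+1) ξ x` (definition: the sum over
`Ico b N` splits into `Ico b ξ`, `{ξ}`, `Ico (ξ+1) N`; `AE (n+1) ξ x = 1/2 LN + 1/2 RT`). -/

namespace H72NE

open H72IPS Finset

private theorem mba_sum_split (b N ξ : ℤ) (h1 : b ≤ ξ) (h2 : ξ < N) (a : ℤ → ℝ) :
    ∑ k ∈ Ico b N, a k = ∑ k ∈ Ico b ξ, a k + a ξ + ∑ k ∈ Ico (ξ + 1) N, a k := by
  have e1 : Ico b N = Ico b ξ ∪ insert ξ (Ico (ξ + 1) N) := by
    ext k
    simp only [Finset.mem_Ico, Finset.mem_union, Finset.mem_insert]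
    omega
  have e2 : Disjoint (Ico b ξ) (insert ξ (Ico (ξ + 1) N)) := by
    rw [Finset.disjoint_left]
    intro k
    simp only [Finset.mem_Ico, Finset.mem_insert]
    omega
  have e3 : ξ ∉ Ico (ξ + 1) N := by simp
  rw [e1, Finset.sum_union e2, Finset.sum_insert e3]
  ring

private theorem mba_flip_ne {x : Cfg} {k j : ℤ} (h : j ≠ k) : flip x k j = x j := by
  unfold H72IPS.flip
  rw [Function.update_of_ne h]

theorem QWn_le_AE {w γ P r g : ℝ} (hp : EPar w γ P r g) {c : Rts} (hc : Rok c) {ν β : ℝ}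
    (hβ : 0 ≤ β) {b e N : ℤ} (heN : e < N) (hn : NoisyOn c P r ν β b e) {R : ℝ}
    (hR : 8 * ((N - b : ℤ) : ℝ) + 16 ≤ R) {f : Cfg → ℝ} (hf0 : ∀ y, 0 ≤ f y) (hf1 : ∀ y, f y ≤ 1)
    (n : ℕ) {ξ : ℤ} (hbξ : b ≤ ξ) (hξe : ξ ≤ e) {x : Cfg} (hx : x ξ = true) :
    (QW c (Ico b N) R)^[n] f x
      ≤ AE c P r R b e N f n ξ x + (n * (β / R) + (1 / 2) ^ ((e + 1 - ξ).toNat) * (1 + 2 / R) ^ n) := by
  have hbN : b < N := by omega
  have hNb : (1 : ℝ) ≤ ((N - b : ℤ) : ℝ) := by
    have : (1 : ℤ) ≤ N - b := by omega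
    exact_mod_cast this
  have hR0 : 0 < R := by linarith
  have hcard : ((Ico b N).card : ℝ) = ((N - b : ℤ) : ℝ) := by
    rw [Int.card_Ico]
    have : ((N - b).toNat : ℤ) = N - b := Int.toNat_of_nonneg (by omega)
    exact_mod_cast this
  have hcR : ((Ico b N).card : ℝ) ≤ R := by rw [hcard]; linarith
  have hP0 : 0 ≤ P := hp.w_pos.le.trans hp.le_P
  have hP1 : P ≤ 1 := by have := hp.P_le; have := hp.w_pos; linarith
  have hβR : 0 ≤ β / R := div_nonneg hβ hR0.le
  have h2R : 0 ≤ 2 / R := by positivity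
  induction n generalizing ξ x with
  | zero =>
    simp only [Function.iterate_zero, id_eq, AE, Nat.cast_zero, zero_mul, zero_add, pow_zero, mul_one]
    have : (0 : ℝ) ≤ (1 / 2) ^ ((e + 1 - ξ).toNat) := by positivity
    linarith
  | succ n ih =>
    rw [Function.iterate_succ_apply']
    have hF0 : ∀ y, 0 ≤ (QW c (Ico b N) R)^[n] f y := QWn_nonneg hc hcR hf0 n
    have hF1 : ∀ y, (QW c (Ico b N) R)^[n] f y ≤ 1 := fun y =>
      (abs_le.mp (QWn_abs_le hc hcR (C := 1)
        (fun z => by rw [abs_le]; exact ⟨by linarith [hf0 z], hf1 z⟩) n y)).2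
    have ih1 : ∀ z : Cfg, z ξ = true → (QW c (Ico b N) R)^[n] f z
        ≤ AE c P r R b e N f n ξ z
          + (n * (β / R) + (1 / 2) ^ ((e + 1 - ξ).toNat) * (1 + 2 / R) ^ n) :=
      fun z hz => ih hbξ hξe hz
    have ih2 : ξ < e → ∀ z : Cfg, z (ξ + 1) = true → (QW c (Ico b N) R)^[n] f z
        ≤ AE c P r R b e N f n (ξ + 1) z
          + (n * (β / R) + (1 / 2) ^ ((e + 1 - (ξ + 1)).toNat) * (1 + 2 / R) ^ n) :=
      fun h z hz => ih (by omega) (by omega) hz
    clear ih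
    generalize hF : (QW c (Ico b N) R)^[n] f = F at hF0 hF1 ih1 ih2 ⊢
    set G : Cfg → ℝ := AE c P r R b e N f n ξ with hG
    set Δ : ℝ := n * (β / R) + (1 / 2) ^ ((e + 1 - ξ).toNat) * (1 + 2 / R) ^ n with hΔ
    set H : Cfg → ℝ := (if ξ < e then Av P {ξ} (AE c P r R b e N f n (ξ + 1)) else fun _ => 0)
      with hH
    have hq0 : (0 : ℝ) ≤ (1 + 2 / R) ^ n := by positivity
    have hΔ0 : 0 ≤ Δ := by rw [hΔ]; positivity
    have hAE : AE c P r R b e N f (n + 1) ξ x
        = G x + R⁻¹ * ((∑ k ∈ Ico b ξ, rt c x k * (G (flip x k) - G x))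
          + (∑ k ∈ Ico (ξ + 1) N, rt c x k * (G (flip x k) - G x))
          + (if x (ξ + 1) = true then r * (H x - G x) else -(c ξ true false * G x))) := by
      show (1 / 2) * LN c R b ξ G x + (1 / 2) * RT c r R ξ N G H x = _
      unfold LN RT
      ring
    have hQ : QW c (Ico b N) R F x
        = F x + R⁻¹ * ((∑ k ∈ Ico b ξ, rt c x k * (F (flip x k) - F x))
          + (∑ k ∈ Ico (ξ + 1) N, rt c x k * (F (flip x k) - F x))
          + rt c x ξ * (F (flip x ξ) - F x)) := by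
      unfold QW
      rw [mba_sum_split b N ξ hbξ (by omega)]
      ring
    -- bounds of the two sums
    set A1 : ℝ := ∑ k ∈ Ico b ξ, rt c x k with hA1
    set A2 : ℝ := ∑ k ∈ Ico (ξ + 1) N, rt c x k with hA2
    set D : ℝ := G x + Δ - F x with hD
    have hD0 : 0 ≤ D := by rw [hD]; linarith [ih1 x hx]
    have hs : ∀ T : Finset ℤ, ξ ∉ T → ∑ k ∈ T, rt c x k * (F (flip x k) - F x)
        ≤ ∑ k ∈ T, rt c x k * (G (flip x k) - G x) + (∑ k ∈ T, rt c x k) * D := by
      intro T hT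
      rw [Finset.sum_mul, ← Finset.sum_add_distrib]
      refine Finset.sum_le_sum fun k hk => ?_
      have h1 := (rt_mem hc x k).1
      have hk' : ξ ≠ k := fun h => hT (h ▸ hk)
      have h2 := ih1 (flip x k) (by rw [mba_flip_ne hk', hx])
      have h3 : F (flip x k) - F x ≤ (G (flip x k) - G x) + D := by rw [hD]; linarith
      calc rt c x k * (F (flip x k) - F x) ≤ rt c x k * ((G (flip x k) - G x) + D) :=
            mul_le_mul_of_nonneg_left h3 h1
        _ = _ := by ring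
    have hs1 := hs (Ico b ξ) (by simp)
    have hs2 := hs (Ico (ξ + 1) N) (by simp)
    rw [← hA1] at hs1
    rw [← hA2] at hs2
    have hA1le : A1 ≤ ((ξ - b : ℤ) : ℝ) := by
      have h1 : A1 ≤ ∑ _k ∈ Ico b ξ, (1 : ℝ) := Finset.sum_le_sum fun k _ => (rt_mem hc x k).2
      rw [Finset.sum_const, Int.card_Ico, nsmul_eq_mul, mul_one] at h1
      have : ((ξ - b).toNat : ℤ) = ξ - b := Int.toNat_of_nonneg (by omega)
      have h2 : (((ξ - b).toNat : ℕ) : ℝ) = ((ξ - b : ℤ) : ℝ) := by exact_mod_cast this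
      linarith
    have hA2le : A2 ≤ ((N - (ξ + 1) : ℤ) : ℝ) := by
      have h1 : A2 ≤ ∑ _k ∈ Ico (ξ + 1) N, (1 : ℝ) := Finset.sum_le_sum fun k _ => (rt_mem hc x k).2
      rw [Finset.sum_const, Int.card_Ico, nsmul_eq_mul, mul_one] at h1
      have : ((N - (ξ + 1)).toNat : ℤ) = N - (ξ + 1) := Int.toNat_of_nonneg (by omega)
      have h2 : (((N - (ξ + 1)).toNat : ℕ) : ℝ) = ((N - (ξ + 1) : ℤ) : ℝ) := by exact_mod_cast this
      linarith
    have hA10 : 0 ≤ A1 := Finset.sum_nonneg fun k _ => (rt_mem hc x k).1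
    have hA20 : 0 ≤ A2 := Finset.sum_nonneg fun k _ => (rt_mem hc x k).1
    have hA12 : A1 + A2 + 2 ≤ R := by
      push_cast at hA1le hA2le hR hNb
      linarith
    -- common final step
    have hfin : ∀ T T' u : ℝ, 0 ≤ u → u ≤ 2 → rt c x ξ * (F (flip x ξ) - F x) ≤ T + u * D + T' →
        QW c (Ico b N) R F x ≤ G x + R⁻¹ * ((∑ k ∈ Ico b ξ, rt c x k * (G (flip x k) - G x))
          + (∑ k ∈ Ico (ξ + 1) N, rt c x k * (G (flip x k) - G x)) + T) + (Δ + R⁻¹ * T') := by
      intro T T' u hu0 hu2 hT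
      rw [hQ]
      have h1 : R⁻¹ * ((∑ k ∈ Ico b ξ, rt c x k * (F (flip x k) - F x))
          + (∑ k ∈ Ico (ξ + 1) N, rt c x k * (F (flip x k) - F x))
          + rt c x ξ * (F (flip x ξ) - F x))
          ≤ R⁻¹ * ((∑ k ∈ Ico b ξ, rt c x k * (G (flip x k) - G x))
          + (∑ k ∈ Ico (ξ + 1) N, rt c x k * (G (flip x k) - G x)) + T + T' + (A1 + A2 + u) * D) := by
        refine mul_le_mul_of_nonneg_left ?_ (by positivity)
        linarith
      have h2 : R⁻¹ * ((A1 + A2 + u) * D) ≤ D := by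
        rw [inv_mul_le_iff₀ hR0]
        exact mul_le_mul_of_nonneg_right (by linarith) hD0
      have h3 : G x + Δ = F x + D := by rw [hD]; ring
      have h4 : R⁻¹ * ((∑ k ∈ Ico b ξ, rt c x k * (G (flip x k) - G x))
          + (∑ k ∈ Ico (ξ + 1) N, rt c x k * (G (flip x k) - G x)) + T + T' + (A1 + A2 + u) * D)
          = R⁻¹ * ((∑ k ∈ Ico b ξ, rt c x k * (G (flip x k) - G x))
          + (∑ k ∈ Ico (ξ + 1) N, rt c x k * (G (flip x k) - G x)) + T) + R⁻¹ * T'
            + R⁻¹ * ((A1 + A2 + u) * D) := by ring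
      linarith
    rw [hAE]
    obtain ⟨κ, hκ⟩ : ∃ κ : ℕ, (e + 1 - ξ).toNat = κ + 1 := ⟨(e - ξ).toNat, by omega⟩
    have hκ' : (e + 1 - (ξ + 1)).toNat = κ := by omega
    have hpow : (1 + 2 / R) ^ (n + 1) = (1 + 2 / R) ^ n * (1 + 2 / R) := pow_succ _ _
    by_cases hx1 : x (ξ + 1) = true
    · -- resampling at the distinguished particle
      rw [if_pos hx1]
      have hrt : rt c x ξ = r * (1 - P) := by
        unfold rt
        rw [hx, hx1]
        exact (hn ξ hbξ hξe).2.1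
      have hAvF : Av P {ξ} F x = P * F x + (1 - P) * F (flip x ξ) := by
        rw [Av_single, flip_of_true hx]
        have : Function.update x ξ true = x := by
          conv_rhs => rw [← Function.update_eq_self ξ x]
          rw [hx]
        rw [this]
      have hAvle : Av P {ξ} F x ≤ H x + (n * (β / R) + (1 / 2) ^ κ * (1 + 2 / R) ^ n) := by
        by_cases h : ξ < e
        · have h1 : Av P {ξ} F x ≤ Av P {ξ} (fun z => AE c P r R b e N f n (ξ + 1) z
              + (n * (β / R) + (1 / 2) ^ κ * (1 + 2 / R) ^ n)) x := by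
            refine Av_mono hP0 hP1 fun y hy => ?_
            have h2 : y (ξ + 1) = true := by
              rw [hy (ξ + 1) (by simp), hx1]
            have := ih2 h y h2
            rwa [hκ'] at this
          rw [Av_add, Av_const] at h1
          rw [hH, if_pos h]
          exact h1
        · have hξ : ξ = e := by omega
          have hk0 : κ = 0 := by omega
          have h1 : Av P {ξ} F x ≤ 1 := by
            have := Av_mono (P := P) hP0 hP1 (S := {ξ}) (f := F) (g := fun _ => 1) (x := x)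
              (fun y _ => hF1 y)
            rwa [Av_const] at this
          rw [hH, if_neg h, hk0]
          have h2 : (1 : ℝ) ≤ (1 + 2 / R) ^ n := one_le_pow₀ (by linarith)
          have h3 : (0 : ℝ) ≤ n * (β / R) := by positivity
          simp only [pow_zero, one_mul, zero_add]
          linarith
      have hT : rt c x ξ * (F (flip x ξ) - F x) ≤ r * (H x - G x) + r * D
          + r * ((n * (β / R) + (1 / 2) ^ κ * (1 + 2 / R) ^ n) - Δ) := by
        have h1 : rt c x ξ * (F (flip x ξ) - F x) = r * (Av P {ξ} F x - F x) := by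
          rw [hrt, hAvF]; ring
        rw [h1]
        have h2 := mul_le_mul_of_nonneg_left hAvle hp.r_pos.le
        rw [hD]
        linarith
      refine (hfin _ _ r hp.r_pos.le hp.r_le hT).trans ?_
      refine add_le_add le_rfl ?_
      rw [hΔ, hκ, hpow, pow_succ]
      push_cast
      have h5 : (0 : ℝ) ≤ (1 / 2) ^ κ * (1 + 2 / R) ^ n := by positivity
      have h6 : R⁻¹ * r ≤ 2 / R := by
        rw [div_eq_mul_inv, mul_comm]
        exact mul_le_mul_of_nonneg_right hp.r_le (by positivity)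
      have h7 : (1 / 2) ^ κ * (1 + 2 / R) ^ n * (R⁻¹ * r) ≤ (1 / 2) ^ κ * (1 + 2 / R) ^ n * (2 / R) :=
        mul_le_mul_of_nonneg_left h6 h5
      linarith
    · rw [if_neg hx1]
      have hx1' : x (ξ + 1) = false := by simpa using hx1
      have hrt : rt c x ξ = c ξ true false := by
        unfold rt
        rw [hx, hx1']
      have hd0 : 0 ≤ c ξ true false := (hc ξ true false).1
      have hd1 : c ξ true false ≤ 1 := (hc ξ true false).2
      have hdβ : c ξ true false ≤ β := (hn ξ hbξ hξe).2.2.2.2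
      have hT : rt c x ξ * (F (flip x ξ) - F x) ≤ -(c ξ true false * G x) + c ξ true false * D
          + c ξ true false * (1 - Δ) := by
        rw [hrt]
        have h1 := mul_le_mul_of_nonneg_left (hF1 (flip x ξ)) hd0
        rw [hD]
        linarith
      refine (hfin _ _ (c ξ true false) hd0 (by linarith) hT).trans ?_
      refine add_le_add le_rfl ?_
      rw [hΔ, hpow]
      push_cast
      have h5 : (0 : ℝ) ≤ (1 / 2) ^ ((e + 1 - ξ).toNat) * (1 + 2 / R) ^ n := by positivity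
      have h6 : 0 ≤ (1 / 2) ^ ((e + 1 - ξ).toNat) * (1 + 2 / R) ^ n * (2 / R) := mul_nonneg h5 h2R
      have h7 : R⁻¹ * (c ξ true false * (1 - Δ)) ≤ β / R := by
        rw [div_eq_mul_inv, mul_comm β]
        refine mul_le_mul_of_nonneg_left ?_ (by positivity)
        have := mul_nonneg hd0 hΔ0
        linarith
      rw [hΔ] at h7
      linarith

end H72NE
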