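import Pool.Agent.H72.NE.NumD

/-! # NUMA: elementary facts on the parameters, and the estimate of `tau` -/

namespace H72NE

open H72IPS Finset Filter

theorem numa_ceil {g x : ℝ} (hg : 0 < g) : x ≤ g * ((⌈x / g⌉₊ + 1 : ℕ) : ℝ) := by
  have h1 : x / g ≤ ((⌈x / g⌉₊ + 1 : ℕ) : ℝ) := by
    push_cast
    linarith [Nat.le_ceil (x / g)]
  rw [div_le_iff₀ hg] at h1
  linarith

theorem exists_KP {w g : ℝ} (hw : 0 < w) (hw2 : w ≤ 1 / 2) (hg : 0 < g) (hg2 : g ≤ 1 / 2) :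
    ∃ Kt Ks K' κ : ℕ, KP w g Kt Ks K' κ :=
  ⟨⌈(3 * Real.log (1 / w) + 2) / g⌉₊ + 1,
    ⌈(((⌈2 / w⌉₊ + 1 : ℕ) : ℝ) * Real.log (1 / w) + 2) / g⌉₊ + 1, ⌈2 / w⌉₊ + 1,
    ⌈12 * Real.log (1 / w) / g⌉₊ + 1,
    { w_pos := hw
      w_le := hw2
      g_pos := hg
      g_le := hg2
      hK' := numa_ceil hw
      hKt := numa_ceil hg
      hKs := numa_ceil hg
      hκ := numa_ceil hg
      Kt_pos := Nat.le_add_left _ _
      Ks_pos := Nat.le_add_left _ _
      K'_pos := Nat.le_add_left _ _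
      κ_pos := Nat.le_add_left _ _ }⟩

theorem tendsto_Dl {w : ℝ} (hw : 0 < w) : Tendsto (Dl w) atTop atTop := by
  unfold Dl
  refine tendsto_atTop_mono (fun L => Nat.le_succ _) ?_
  apply (tendsto_nat_ceil_atTop (α := ℝ)).comp
  apply Tendsto.const_mul_atTop (by positivity)
  exact Real.tendsto_log_atTop.comp tendsto_natCast_atTop_atTop

/-- `log L ≤ w D / 2` -/
theorem le_exp_Dl {w : ℝ} (hw : 0 < w) {L : ℕ} (hL : 1 ≤ L) :
    (L : ℝ) ≤ Real.exp (w * (Dl w L : ℝ) / 2) := by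
  have hL0 : (0 : ℝ) < L := by exact_mod_cast hL
  rw [← Real.log_le_iff_le_exp hL0]
  have h1 : 2 / w * Real.log L ≤ (Dl w L : ℝ) := by
    unfold Dl
    push_cast
    linarith [Nat.le_ceil (2 / w * Real.log L)]
  have h2 : w * (2 / w * Real.log L) ≤ w * (Dl w L : ℝ) := mul_le_mul_of_nonneg_left h1 hw.le
  have h3 : w * (2 / w * Real.log L) = 2 * Real.log L := by field_simp
  linarith

/-- every power of `D` is negligible with respect to every positive power of `L` -/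
theorem Dl_pow_le {w : ℝ} (hw : 0 < w) (k : ℕ) {a δ : ℝ} (ha : 0 < a) (hδ : 0 < δ) :
    ∀ᶠ L : ℕ in atTop, ((Dl w L : ℝ)) ^ k ≤ δ * (L : ℝ) ^ a := by
  have hc : 0 < 2 / w + 2 := by positivity
  have hck : 0 < (2 / w + 2) ^ k := by positivity
  have h1 := isLittleO_log_rpow_rpow_atTop (k : ℝ) ha
  have h2 := (h1.bound (show 0 < δ / (2 / w + 2) ^ k by positivity))
  have h3 := tendsto_natCast_atTop_atTop (R := ℝ) |>.eventually h2
  filter_upwards [h3, eventually_ge_atTop 3] with L hL hL3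
  have hL3' : (3 : ℝ) ≤ L := by exact_mod_cast hL3
  have hlog : 1 ≤ Real.log L := by
    rw [Real.le_log_iff_exp_le (by linarith)]
    linarith [Real.exp_one_lt_d9]
  have h4 : (Dl w L : ℝ) ≤ (2 / w + 2) * Real.log L := by
    unfold Dl
    push_cast
    have h5 := (Nat.ceil_lt_add_one (show 0 ≤ 2 / w * Real.log L by positivity)).le
    nlinarith
  rw [Real.rpow_natCast, Real.norm_of_nonneg (by positivity),
    Real.norm_of_nonneg (by positivity)] at hL
  calc ((Dl w L : ℝ)) ^ k ≤ ((2 / w + 2) * Real.log L) ^ k :=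
        pow_le_pow_left₀ (by positivity) h4 k
    _ = (2 / w + 2) ^ k * Real.log L ^ k := mul_pow _ _ _
    _ ≤ (2 / w + 2) ^ k * (δ / (2 / w + 2) ^ k * (L : ℝ) ^ a) :=
        mul_le_mul_of_nonneg_left hL hck.le
    _ = δ * (L : ℝ) ^ a := by field_simp

/-- `lam' → ∞` and `lam' ≤ δ D` eventually -/
theorem lp_le (K' : ℕ) {δ : ℝ} (hδ : 0 < δ) : ∀ᶠ D : ℕ in atTop, (lp K' D : ℝ) ≤ δ * D := by
  have h1 := Real.isLittleO_log_id_atTop
  have h2 := (h1.bound (show 0 < δ / (2 * ((K' : ℝ) + 1)) by positivity))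
  have h3 := tendsto_natCast_atTop_atTop (R := ℝ) |>.eventually h2
  have h4 : ∀ᶠ D : ℕ in atTop, 4 / δ ≤ (D : ℝ) :=
    tendsto_natCast_atTop_atTop (R := ℝ) |>.eventually (eventually_ge_atTop _)
  filter_upwards [h3, h4, eventually_ge_atTop 1] with D hD hD4 hD1
  have hD1' : (1 : ℝ) ≤ D := by exact_mod_cast hD1
  have hlog : 0 ≤ Real.log D := Real.log_nonneg hD1'
  have h5 : (lp K' D : ℝ) ≤ K' * Real.log D + 2 := by
    unfold lp
    push_cast
    linarith [(Nat.ceil_lt_add_one (show 0 ≤ (K' : ℝ) * Real.log D by positivity)).le]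
  rw [Real.norm_of_nonneg hlog, id, Real.norm_of_nonneg (by positivity)] at hD
  have h6 : (K' : ℝ) * Real.log D ≤ δ / 2 * D := by
    calc (K' : ℝ) * Real.log D ≤ ((K' : ℝ) + 1) * (δ / (2 * ((K' : ℝ) + 1)) * D) := by
          apply mul_le_mul (by linarith) hD hlog (by positivity)
      _ = δ / 2 * D := by field_simp
  have h7 : 2 ≤ δ / 2 * D := by
    rw [div_le_iff₀ hδ] at hD4
    linarith
  linarith

/-- with `Λ = log (1/w)`: `(1-w)^lam' ≤ exp (-w lam') ≤ D ^ (-2)`; `w⁻¹^(lam' + 2 D) e^{-g Kt D}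
= exp (Λ lam' + 2 Λ D - g Kt D) ≤ exp (-D)` eventually (`lam' = o(D)`);
`(1/2)^(8 Kt D) e^(2 Kt D) ≤ exp (-3 Kt D)`; the prefactor is `O(D)`. -/
theorem num_tau {w g : ℝ} {Kt Ks K' κ : ℕ} (h : KP w g Kt Ks K' κ) :
    ∀ᶠ D : ℕ in atTop,
      tau w g ((Kt : ℝ) * D) D (lp K' D) (2 * (8 * Kt * D)) (8 * Kt * D) ≤ 1 / 8 := by
  have h4 : ∀ᶠ D : ℕ in atTop, 40 * (16 * (Kt : ℝ) + 2) ≤ (D : ℝ) :=
    tendsto_natCast_atTop_atTop (R := ℝ) |>.eventually (eventually_ge_atTop _)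
  filter_upwards [lp_le K' one_pos, h4, eventually_ge_atTop 1] with D hlp hDK hD1
  have hw := h.w_pos
  have hw2 := h.w_le
  have hD1' : (1 : ℝ) ≤ D := by exact_mod_cast hD1
  have hD0 : (0 : ℝ) < D := by linarith
  have hlog : 0 ≤ Real.log D := Real.log_nonneg hD1'
  have hKt : (1 : ℝ) ≤ Kt := by exact_mod_cast h.Kt_pos
  have hΛ : 0 ≤ Real.log (1 / w) := Real.log_nonneg (by
    rw [le_div_iff₀ hw]; linarith)
  -- exp (-D) ≤ 2 / D^2
  have hexp : Real.exp (-(D : ℝ)) ≤ 2 / (D : ℝ) ^ 2 := by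
    rw [Real.exp_neg, inv_eq_one_div, div_le_div_iff₀ (Real.exp_pos _) (by positivity)]
    have := Real.quadratic_le_exp_of_nonneg hD0.le
    nlinarith
  have hA : (1 - w) ^ (lp K' D) ≤ 1 / (D : ℝ) ^ 2 := by
    have h5 : (K' : ℝ) * Real.log D ≤ (lp K' D : ℝ) := by
      unfold lp
      push_cast
      linarith [Nat.le_ceil ((K' : ℝ) * Real.log D)]
    calc (1 - w) ^ (lp K' D) ≤ (Real.exp (-w)) ^ (lp K' D) :=
          pow_le_pow_left₀ (by linarith) (by linarith [Real.add_one_le_exp (-w)]) _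
      _ = Real.exp ((lp K' D : ℝ) * (-w)) := by rw [← Real.exp_nat_mul]
      _ ≤ Real.exp (-(2 * Real.log D)) := by
          apply Real.exp_le_exp.2
          have h6 : w * ((K' : ℝ) * Real.log D) ≤ w * (lp K' D : ℝ) :=
            mul_le_mul_of_nonneg_left h5 hw.le
          have h7 : 2 * Real.log D ≤ w * K' * Real.log D :=
            mul_le_mul_of_nonneg_right h.hK' hlog
          nlinarith
      _ = 1 / (D : ℝ) ^ 2 := by
          rw [Real.exp_neg, ← Real.log_rpow hD0, Real.exp_log (by positivity), one_div]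
          norm_num
  have hB : w⁻¹ ^ (lp K' D + 2 * D) * Real.exp (-(g * ((Kt : ℝ) * D))) ≤ 2 / (D : ℝ) ^ 2 := by
    refine le_trans ?_ hexp
    have h5 : w⁻¹ ^ (lp K' D + 2 * D) =
        Real.exp (((lp K' D + 2 * D : ℕ) : ℝ) * Real.log (1 / w)) := by
      rw [Real.exp_nat_mul, Real.exp_log (by positivity), one_div]
    rw [h5, ← Real.exp_add]
    apply Real.exp_le_exp.2
    push_cast
    have h6 : (3 * Real.log (1 / w) + 2) * D ≤ g * Kt * D :=
      mul_le_mul_of_nonneg_right h.hKt hD0.le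
    have h7 : (lp K' D : ℝ) * Real.log (1 / w) ≤ 1 * D * Real.log (1 / w) :=
      mul_le_mul_of_nonneg_right hlp hΛ
    nlinarith
  have hC : (1 / 2 : ℝ) ^ (8 * Kt * D) * Real.exp (2 * ((Kt : ℝ) * D)) ≤ 2 / (D : ℝ) ^ 2 := by
    refine le_trans ?_ hexp
    have h5 : (1 / 2 : ℝ) ^ (8 * Kt * D) =
        Real.exp (((8 * Kt * D : ℕ) : ℝ) * Real.log (1 / 2)) := by
      rw [Real.exp_nat_mul, Real.exp_log (by positivity)]
    rw [h5, ← Real.exp_add]
    apply Real.exp_le_exp.2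
    push_cast
    rw [one_div, Real.log_inv]
    have h6 := Real.log_two_gt_d9
    have h7 : (1 : ℝ) * D ≤ Kt * D := mul_le_mul_of_nonneg_right hKt hD0.le
    have h8 : (0 : ℝ) ≤ Kt * D := by positivity
    nlinarith
  unfold tau
  have hpre : (((2 * (8 * Kt * D) : ℕ) : ℝ) + 2 * (lp K' D : ℝ)) ≤ (16 * (Kt : ℝ) + 2) * D := by
    push_cast
    linarith
  calc _ ≤ ((16 * (Kt : ℝ) + 2) * D) * (1 / (D : ℝ) ^ 2 + 2 / (D : ℝ) ^ 2 + 2 / (D : ℝ) ^ 2) := by
        apply mul_le_mul hpre (add_le_add (add_le_add hA hB) hC)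
        · have : 0 ≤ 1 - w := by linarith
          positivity
        · positivity
    _ = 5 * (16 * (Kt : ℝ) + 2) / D := by field_simp; ring
    _ ≤ 1 / 8 := by
        rw [div_le_iff₀ hD0]
        linarith

end H72NE
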