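import Pool.Agent.H72.NE.Cst

/-! # NUMD: the parameters

`D = lam = Dl w L`, `t = Kt D`, `m' = M = 8 Kt D`, `s = Ks log D`, `lam' = lp K' D`, `q = D ^ (Ks + 1)`,
`l1 = L / κ`, `nb = 12 κ`, `M1 = 8 L`. -/

namespace H72NE

open H72IPS Finset Filter

noncomputable def Dl (w : ℝ) (L : ℕ) : ℕ := ⌈2 / w * Real.log L⌉₊ + 1

noncomputable def lp (K' D : ℕ) : ℕ := ⌈(K' : ℝ) * Real.log D⌉₊ + 1

/-- constants -/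
structure KP (w g : ℝ) (Kt Ks K' κ : ℕ) : Prop where
  w_pos : 0 < w
  w_le : w ≤ 1 / 2
  g_pos : 0 < g
  g_le : g ≤ 1 / 2
  hK' : 2 ≤ w * K'
  hKt : 3 * Real.log (1 / w) + 2 ≤ g * Kt
  hKs : K' * Real.log (1 / w) + 2 ≤ g * Ks
  hκ : 12 * Real.log (1 / w) ≤ g * κ
  Kt_pos : 1 ≤ Kt
  Ks_pos : 1 ≤ Ks
  K'_pos : 1 ≤ K'
  κ_pos : 1 ≤ κ

end H72NE
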