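import Pool.Agent.H72.NE.QBas
import Pool.Agent.H72.IPS.SemA

/-! # PBAS: the semigroup as a Poisson series -/

namespace H72NE

open H72IPS Finset

theorem PW_eq (c : Rts) (W : Finset ℤ) (t : ℝ) {f : Cfg → ℝ} {C : ℝ} (h : ∀ x, |f x| ≤ C) (x : Cfg) :
    PW c W t f x = SW c W t (BF.mk f C h) x := by
  have hb : Bdd f := ⟨C, h⟩
  unfold PW
  rw [dif_pos hb]
  have : BF.mk f hb.choose hb.choose_spec = BF.mk f C h := by
    ext y
    rfl
  rw [this]

/-- one step of the chain as a bounded operator -/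
noncomputable def pbQ (c : Rts) (W : Finset ℤ) (R : ℝ) : BF →L[ℝ] BF := 1 + R⁻¹ • AW c W

private theorem pb_AW_apply (c : Rts) (W : Finset ℤ) (f : BF) (x : Cfg) :
    AW c W f x = ∑ k ∈ W, rt c x k * (f (flip x k) - f x) := by
  unfold AW
  have h : (∑ k ∈ W, Lc c k) f = ∑ k ∈ W, Lc c k f := by
    rw [_root_.sum_apply]
  rw [h, BF.sum_apply]
  rfl

theorem pbQ_apply (c : Rts) (W : Finset ℤ) (R : ℝ) (f : BF) (x : Cfg) :
    pbQ c W R f x = QW c W R f x := by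
  have h : pbQ c W R f = f + R⁻¹ • AW c W f := rfl
  rw [h, BF.add_apply, BF.smul_apply, pb_AW_apply]
  rfl

theorem pbQ_pow_apply (c : Rts) (W : Finset ℤ) (R : ℝ) (n : ℕ) (f : BF) (x : Cfg) :
    ((pbQ c W R) ^ n) f x = (QW c W R)^[n] f x := by
  induction n generalizing x with
  | zero => rfl
  | succ n ih =>
    rw [pow_succ', Function.iterate_succ_apply']
    have h1 : (pbQ c W R * pbQ c W R ^ n) f = pbQ c W R ((pbQ c W R ^ n) f) := rfl
    rw [h1, pbQ_apply]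
    have h2 : (⇑((pbQ c W R ^ n) f) : Cfg → ℝ) = (QW c W R)^[n] f := funext ih
    rw [h2]

private theorem pb_mem_ball (T : BF →L[ℝ] BF) :
    T ∈ Metric.eball (0 : BF →L[ℝ] BF) (NormedSpace.expSeries ℝ (BF →L[ℝ] BF)).radius := by
  rw [NormedSpace.expSeries_radius_eq_top]
  simp

private theorem pb_exp (c : Rts) (W : Finset ℤ) {R : ℝ} (hR : 0 < R) (t : ℝ) :
    SW c W t = Real.exp (-(R * t)) • NormedSpace.exp ((R * t) • pbQ c W R) := by
  have h1 : t • AW c W = (-(R * t)) • (1 : BF →L[ℝ] BF) + (R * t) • pbQ c W R := by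
    unfold pbQ
    rw [smul_add, smul_smul, ← add_assoc, ← add_smul]
    have : R * t * R⁻¹ = t := by field_simp
    rw [this]
    simp
  have hc : Commute ((-(R * t)) • (1 : BF →L[ℝ] BF)) ((R * t) • pbQ c W R) :=
    (Commute.one_left _).smul_left _
  unfold SW
  rw [h1, NormedSpace.exp_add_of_commute_of_mem_ball (𝕂 := ℝ) hc (pb_mem_ball _) (pb_mem_ball _)]
  have h2 : NormedSpace.exp ((-(R * t)) • (1 : BF →L[ℝ] BF))
      = Real.exp (-(R * t)) • (1 : BF →L[ℝ] BF) := by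
    have := NormedSpace.algebraMap_exp_comm (𝕂 := ℝ) (𝔸 := BF →L[ℝ] BF) (-(R * t))
    rw [Algebra.algebraMap_eq_smul_one, Algebra.algebraMap_eq_smul_one] at this
    rw [← this, Real.exp_eq_exp_ℝ]
  rw [h2, smul_mul_assoc, one_mul]

/-- Poisson series, for any `R > 0`.  Proof as for `H72IPS.SN_hasSum` (file `SemA.lean`):
`t • AW = -(R t) • 1 + (R t) • Q` where `Q = 1 + R⁻¹ • AW` acts as `QW c W R`. -/
theorem PW_hasSum (c : Rts) (W : Finset ℤ) {R : ℝ} (hR : 0 < R) (t : ℝ) {f : Cfg → ℝ} (hf : Bdd f)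
    (x : Cfg) :
    HasSum (fun n : ℕ => Real.exp (-(R * t)) * (R * t) ^ n / (n.factorial : ℝ)
      * (QW c W R)^[n] f x) (PW c W t f x) := by
  obtain ⟨C, hC⟩ := hf
  rw [PW_eq c W t hC x]
  have h := NormedSpace.exp_series_hasSum_exp' (𝕂 := ℝ) ((R * t) • pbQ c W R)
  let φ : (BF →L[ℝ] BF) →L[ℝ] ℝ :=
    (BF.ev x).comp (ContinuousLinearMap.apply ℝ BF (BF.mk f C hC))
  have h2 := (h.map φ φ.continuous).mul_left (Real.exp (-(R * t)))
  rw [pb_exp c W hR t]
  have h4 : (fun n : ℕ => Real.exp (-(R * t)) * (R * t) ^ n / (n.factorial : ℝ)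
      * (QW c W R)^[n] f x) = fun n : ℕ => Real.exp (-(R * t))
        * (φ ∘ fun n : ℕ => ((n.factorial : ℝ)⁻¹) • ((R * t) • pbQ c W R) ^ n) n := by
    funext n
    have h3 : φ (((n.factorial : ℝ)⁻¹) • ((R * t) • pbQ c W R) ^ n)
        = (n.factorial : ℝ)⁻¹ * ((R * t) ^ n * (QW c W R)^[n] f x) := by
      rw [smul_pow]
      have h5 := pbQ_pow_apply c W R n (BF.mk f C hC) x
      have h6 : (⇑(BF.mk f C hC) : Cfg → ℝ) = f := by
        funext y; rfl
      rw [h6] at h5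
      rw [← h5]
      rfl
    simp only [Function.comp_apply]
    rw [h3]
    ring
  rw [h4]
  exact h2

/-- semigroup property (`NormedSpace.exp_add_of_commute`) -/
theorem PW_comp (c : Rts) (W : Finset ℤ) (s t : ℝ) {f : Cfg → ℝ} (hf : Bdd f) :
    PW c W (s + t) f = PW c W s (PW c W t f) := by
  obtain ⟨C, hC⟩ := hf
  have h1 : SW c W (s + t) = SW c W s * SW c W t := by
    unfold SW
    rw [add_smul]
    exact NormedSpace.exp_add_of_commute_of_mem_ball (𝕂 := ℝ)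
      (((Commute.refl _).smul_left _).smul_right _) (pb_mem_ball _) (pb_mem_ball _)
  have h2 : PW c W t f = fun y => SW c W t (BF.mk f C hC) y := by
    funext y
    exact PW_eq c W t hC y
  have h3 : ∀ y, |PW c W t f y| ≤ ‖SW c W t (BF.mk f C hC)‖ := by
    intro y
    rw [h2]
    exact BF.abs_le_norm _ y
  funext x
  rw [PW_eq c W (s + t) hC x, PW_eq c W s h3 x, h1]
  have h4 : BF.mk (PW c W t f) ‖SW c W t (BF.mk f C hC)‖ h3 = SW c W t (BF.mk f C hC) := by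
    ext y
    rw [BF.mk_apply, h2]
  rw [h4]
  rfl

theorem PW_zero (c : Rts) (W : Finset ℤ) {f : Cfg → ℝ} (hf : Bdd f) : PW c W 0 f = f := by
  obtain ⟨C, hC⟩ := hf
  funext x
  rw [PW_eq c W 0 hC x]
  unfold SW
  rw [zero_smul, NormedSpace.exp_zero]
  rfl

theorem PW_bdd (c : Rts) (W : Finset ℤ) (t : ℝ) (f : Cfg → ℝ) : Bdd (PW c W t f) := by
  by_cases hf : Bdd f
  · obtain ⟨C, hC⟩ := hf
    refine ⟨‖SW c W t (BF.mk f C hC)‖, fun x => ?_⟩
    rw [PW_eq c W t hC x]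
    exact BF.abs_le_norm _ x
  · refine ⟨0, fun x => ?_⟩
    unfold PW
    rw [dif_neg hf]
    simp

end H72NE
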