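import Pool.Agent.H72.NE.PLin
import Pool.Agent.H72.NE.Pois
import Pool.Agent.H72.NE.Obb

/-! # PERS: particles persist

`c j true false = 0` for `k ≤ j ≤ k + m`.  Claim, by induction on `n`: for `k ≤ ξ ≤ k + m + 1` and
`z ξ = true`, `Q^n (noOne k (k+m+1)) z ≤ (1/2)^(k+m+1-ξ) (1 + 1/R)^n`.  For `ξ = k+m+1` the bound is
`≥ 1`.  For `ξ ≤ k + m`: `n = 0`: the left side is `0`.  Step: all flips at sites `≠ ξ` keep the
particle at `ξ`; the flip at `ξ` has rate `c ξ true (z (ξ+1)) = 0` unless `z (ξ+1) = true`, rate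
`≤ 1`, and then `flip z ξ` has a particle at `ξ + 1`, where the bound is twice as large. -/

namespace H72NE

open H72IPS Finset

private theorem pers_aux {c : Rts} (hc : Rok c) {W : Finset ℤ} {R : ℝ} (hR : (W.card : ℝ) + 1 ≤ R)
    {k : ℤ} {m : ℕ} (h : ∀ j, k ≤ j → j ≤ k + m → c j true false = 0) (n : ℕ) :
    ∀ (e : ℕ) (z : Cfg), e ≤ m + 1 → z (k + m + 1 - e) = true →
      (QW c W R)^[n] (noOne k (k + m + 1)) z ≤ (1 / 2) ^ e * (1 + 1 / R) ^ n := by
  have hW0 : (0 : ℝ) ≤ (W.card : ℝ) := Nat.cast_nonneg _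
  have hRpos : 0 < R := by linarith
  have hRW : (W.card : ℝ) ≤ R := by linarith
  have hone : 1 ≤ 1 + 1 / R := by
    have : 0 ≤ 1 / R := by positivity
    linarith
  have habs : ∀ x, |noOne k (k + m + 1) x| ≤ 1 := by
    intro x
    rw [abs_of_nonneg (noOne_nonneg _ _ _)]
    exact noOne_le_one _ _ _
  induction n with
  | zero =>
    intro e z he hz
    rcases Nat.eq_zero_or_pos e with rfl | hpos
    · simp only [Function.iterate_zero, id_eq, pow_zero, mul_one]
      exact noOne_le_one _ _ _
    · have h0 : noOne k (k + m + 1) z = 0 := by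
        unfold noOne
        rw [if_neg]
        intro hall
        have := hall (k + m + 1 - e) (by omega) (by omega)
        rw [hz] at this
        exact absurd this (by decide)
      simp only [Function.iterate_zero, id_eq, h0]
      positivity
  | succ n ih =>
    intro e z he hz
    rcases Nat.eq_zero_or_pos e with rfl | hpos
    · rw [pow_zero, one_mul]
      exact ((le_abs_self _).trans (QWn_abs_le hc hRW habs (n + 1) z)).trans (one_le_pow₀ hone)
    · rw [Function.iterate_succ_apply']
      set g := (QW c W R)^[n] (noOne k (k + m + 1)) with hg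
      set B : ℝ := (1 / 2) ^ e * (1 + 1 / R) ^ n with hB
      have hB0 : 0 ≤ B := by
        have : 0 ≤ 1 + 1 / R := by linarith
        positivity
      set ξ : ℤ := k + m + 1 - e with hξ
      rw [QW_eq]
      have hgz : g z ≤ B := ih e z he hz
      have hterm : ∀ j ∈ W, rt c z j * g (flip z j) ≤ rt c z j * B + (if j = ξ then B else 0) := by
        intro j _
        have hr := rt_mem hc z j
        by_cases hj : j = ξ
        · rw [if_pos hj]
          cases hy : z (ξ + 1) with
          | false =>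
            have h0 : rt c z j = 0 := by
              unfold rt
              rw [hj, hz, hy]
              exact h ξ (by omega) (by omega)
            rw [h0, zero_mul, zero_mul, zero_add]
            exact hB0
          | true =>
            have hfl : (flip z j) (k + m + 1 - ((e - 1 : ℕ) : ℤ)) = true := by
              have e1 : k + m + 1 - ((e - 1 : ℕ) : ℤ) = ξ + 1 := by
                rw [hξ]; push_cast [Nat.cast_sub (show 1 ≤ e from hpos)]; ring
              rw [e1, hj]
              unfold H72IPS.flip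
              rw [Function.update_of_ne (by omega)]
              exact hy
            have h2 := ih (e - 1) (flip z j) (by omega) hfl
            have e2 : ((1 : ℝ) / 2) ^ (e - 1) = 2 * (1 / 2) ^ e := by
              obtain ⟨e', rfl⟩ : ∃ e', e = e' + 1 := ⟨e - 1, by omega⟩
              rw [Nat.add_sub_cancel, pow_succ]; ring
            have h3 : g (flip z j) ≤ 2 * B := by
              rw [hB]
              calc g (flip z j) ≤ (1 / 2) ^ (e - 1) * (1 + 1 / R) ^ n := h2
                _ = 2 * ((1 / 2) ^ e * (1 + 1 / R) ^ n) := by rw [e2]; ring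
            calc rt c z j * g (flip z j) ≤ rt c z j * (2 * B) := mul_le_mul_of_nonneg_left h3 hr.1
              _ = rt c z j * B + rt c z j * B := by ring
              _ ≤ rt c z j * B + 1 * B := by
                  have := mul_le_mul_of_nonneg_right hr.2 hB0
                  linarith
              _ = _ := by rw [one_mul]
        · rw [if_neg hj, add_zero]
          have hfl : (flip z j) ξ = true := by
            unfold H72IPS.flip
            rw [Function.update_of_ne (fun h => hj h.symm)]
            exact hz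
          exact mul_le_mul_of_nonneg_left (ih e _ he hfl) hr.1
      set A := ∑ j ∈ W, rt c z j with hA
      have hAW : A ≤ W.card := by
        calc A ≤ ∑ j ∈ W, (1 : ℝ) := Finset.sum_le_sum fun j _ => (rt_mem hc z j).2
          _ = W.card := by simp
      have hsum : ∑ j ∈ W, rt c z j * g (flip z j) ≤ A * B + B := by
        calc ∑ j ∈ W, rt c z j * g (flip z j) ≤ ∑ j ∈ W, (rt c z j * B + (if j = ξ then B else 0)) :=
              Finset.sum_le_sum hterm
          _ = A * B + ∑ j ∈ W, (if j = ξ then B else 0) := by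
              rw [Finset.sum_add_distrib, ← Finset.sum_mul]
          _ ≤ A * B + B := by
              rw [Finset.sum_ite_eq']
              split_ifs
              · exact le_rfl
              · linarith
      have hRi : 0 < R⁻¹ := inv_pos.mpr hRpos
      have hc1 : 0 ≤ 1 - R⁻¹ * A := by
        have : R⁻¹ * A ≤ R⁻¹ * R := by
          apply mul_le_mul_of_nonneg_left _ hRi.le
          linarith
        rw [inv_mul_cancel₀ hRpos.ne'] at this
        linarith
      calc (1 - R⁻¹ * A) * g z + R⁻¹ * ∑ j ∈ W, rt c z j * g (flip z j)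
          ≤ (1 - R⁻¹ * A) * B + R⁻¹ * (A * B + B) := by
            apply add_le_add
            · exact mul_le_mul_of_nonneg_left hgz hc1
            · exact mul_le_mul_of_nonneg_left hsum hRi.le
        _ = B * (1 + 1 / R) := by
            rw [one_div]; ring
        _ = _ := by rw [hB, pow_succ]; ring

theorem PERS_Q {c : Rts} (hc : Rok c) {W : Finset ℤ} {R : ℝ} (hR : (W.card : ℝ) + 1 ≤ R) {k : ℤ}
    {m : ℕ} (h : ∀ j, k ≤ j → j ≤ k + m → c j true false = 0) {x : Cfg} (hx : x k = true) (n : ℕ) :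
    (QW c W R)^[n] (noOne k (k + m + 1)) x ≤ (1 / 2) ^ (m + 1) * (1 + 1 / R) ^ n := by
  refine pers_aux hc hR h n (m + 1) x le_rfl ?_
  have : k + m + 1 - ((m + 1 : ℕ) : ℤ) = k := by push_cast; ring
  rw [this]
  exact hx

theorem PERS_P {c : Rts} (hc : Rok c) (W : Finset ℤ) {k : ℤ}
    {m : ℕ} (h : ∀ j, k ≤ j → j ≤ k + m → c j true false = 0) {x : Cfg} (hx : x k = true) {t : ℝ}
    (ht : 0 ≤ t) : PW c W t (noOne k (k + m + 1)) x ≤ (1 / 2) ^ (m + 1) * Real.exp t := by
  have hR : (0 : ℝ) < (W.card : ℝ) + 1 := by positivity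
  have key := PW_le_of (c := c) (W := W) hR ht (noOne_bdd k (k + m + 1)) x ({()} : Finset Unit)
    (fun _ => (1 / 2) ^ (m + 1)) (fun _ => 1 + 1 / ((W.card : ℝ) + 1)) 0 (by
      intro n
      rw [Finset.sum_singleton, zero_mul, add_zero]
      exact PERS_Q hc le_rfl h hx n)
  rw [Finset.sum_singleton, zero_mul, add_zero] at key
  have e1 : ((W.card : ℝ) + 1) * t * (1 + 1 / ((W.card : ℝ) + 1) - 1) = t := by
    field_simp
    ring
  rw [e1] at key
  exact key

/-- `bad (2 lam) l ρ ≤ ∑_v noOne v (v + 2 lam)` (at most `ρ - l` windows); each window has a particle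
`k ∈ [v, v + lam)` of `z` and `noOne v (v + 2 lam) ≤ noOne k (k + lam + 1)`. -/
theorem HLS {c : Rts} (hc : Rok c) (W : Finset ℤ) {lam : ℕ} (hlam : 1 ≤ lam) {l ρ : ℤ}
    (hl : l ≤ ρ) (h : ∀ j, l ≤ j → j < ρ → c j true false = 0) {s : ℝ} (hs : 0 ≤ s) {z : Cfg}
    (hz : z ∈ Sp lam l ρ) :
    PW c W s (bad (2 * lam) l ρ) z
      ≤ ((ρ - l : ℤ) : ℝ) * ((1 / 2) ^ (lam + 1) * Real.exp s) := by
  set K : ℝ := (1 / 2) ^ (lam + 1) * Real.exp s with hK
  have hK0 : 0 ≤ K := by positivity
  have hbsum : Bdd (fun y => ∑ v ∈ Finset.Icc l (ρ - ((2 * lam : ℕ) : ℤ)),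
      noOne v (v + ((2 * lam : ℕ) : ℤ)) y) := by
    refine ⟨(Finset.Icc l (ρ - ((2 * lam : ℕ) : ℤ))).card, fun y => ?_⟩
    rw [abs_of_nonneg (Finset.sum_nonneg fun v _ => noOne_nonneg _ _ _)]
    calc ∑ v ∈ Finset.Icc l (ρ - ((2 * lam : ℕ) : ℤ)), noOne v (v + ((2 * lam : ℕ) : ℤ)) y
        ≤ ∑ v ∈ Finset.Icc l (ρ - ((2 * lam : ℕ) : ℤ)), (1 : ℝ) :=
          Finset.sum_le_sum fun v _ => noOne_le_one _ _ _
      _ = _ := by simp
  have h1 : PW c W s (bad (2 * lam) l ρ) z ≤ ∑ v ∈ Finset.Icc l (ρ - ((2 * lam : ℕ) : ℤ)),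
      PW c W s (noOne v (v + ((2 * lam : ℕ) : ℤ))) z := by
    rw [← PW_sum c W s _ _ (fun v _ => noOne_bdd _ _)]
    exact PW_mono hc W hs (bad_bdd _ _ _) hbsum (fun y => bad_le_sum (2 * lam) l ρ y) z
  have h2 : ∀ v ∈ Finset.Icc l (ρ - ((2 * lam : ℕ) : ℤ)),
      PW c W s (noOne v (v + ((2 * lam : ℕ) : ℤ))) z ≤ K := by
    intro v hv
    rw [Finset.mem_Icc] at hv
    have hv2 : v ≤ ρ - 2 * (lam : ℤ) := by
      have := hv.2
      push_cast at this
      exact this
    have hlam' : (1 : ℤ) ≤ lam := by exact_mod_cast hlam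
    obtain ⟨k, hk1, hk2, hk3⟩ := hz v hv.1 (by linarith)
    have hle : ∀ y, noOne v (v + ((2 * lam : ℕ) : ℤ)) y ≤ noOne k (k + lam + 1) y := by
      intro y
      unfold noOne
      by_cases hall : ∀ i, v ≤ i → i < v + ((2 * lam : ℕ) : ℤ) → y i = false
      · rw [if_pos hall, if_pos]
        intro i hi1 hi2
        apply hall i (by linarith)
        push_cast
        linarith
      · rw [if_neg hall]
        split_ifs
        · exact zero_le_one
        · exact le_rfl
    refine (PW_mono hc W hs (noOne_bdd _ _) (noOne_bdd _ _) hle z).trans ?_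
    exact PERS_P hc W (fun j hj1 hj2 => h j (by linarith) (by linarith)) hk3 hs
  refine h1.trans ((Finset.sum_le_sum h2).trans ?_)
  rw [Finset.sum_const, nsmul_eq_mul]
  apply mul_le_mul_of_nonneg_right _ hK0
  rw [Int.card_Icc]
  have h3 : ((ρ - ((2 * lam : ℕ) : ℤ) + 1 - l).toNat : ℤ) ≤ ρ - l := by
    rw [Int.toNat_eq_max]
    have hlam' : (1 : ℤ) ≤ lam := by exact_mod_cast hlam
    push_cast
    apply max_le
    · linarith
    · linarith
  exact_mod_cast h3

end H72NE
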