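import Pool.Agent.H72.NE.Sht
import Pool.Agent.H72.NE.Lng

/-! # PH2: `q` epochs

Epoch `i` (`i < q`): `j_i = j0 + 4 m' i`, `ρ_i = v + 4 lam (i+1)`, `m = 2 m'`, `F_i = PW c W (i (t+s)) f`.
Claim, by induction on `i ≤ q`: for `y, y' ∈ Sp (2 lam) l ρ_i` which agree off `[j0 + 4m' i - 4m', v)`
`|F_i y - F_i y'| ≤ κ_i` with `κ_0 = B` and
`κ_{i+1} = (1 - 3α/4) (κ_i + 2 α B eMix + 2 B e1) + B e2`, `α = exp (-s)`.
Step: `G = PW c W s F_i`, by `SHT1`, `SHT2` (with `j = j_i`; `[j_i - 2m, j_i) = [j_{i-1}, j_i)` is a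
subset of `[j_{i-1}, v)`), satisfies the hypotheses of `LNG` with `κ = κ_i + 2 α B eMix + 2 B e1`
(`α ≤ 1/2`: `(1-α) κ_i + α B eMix + B e1 ≤ (1-α) (κ_i + 2αB eMix + 2B e1)`); `F_{i+1} = PW c W t G`
(`PW_comp`).  `e1` is monotone in `Len` (`Len ≥ ρ_i - l`).
Finally `κ_q ≤ (1 - 3α/4)^q B + (4/(3α)) (2 α B eMix + 2 B e1 + B e2) = B * eP2`. -/

namespace H72NE

open H72IPS Finset

private theorem eMix_nn {w g s : ℝ} (hw : 0 < w) (m lam' M : ℕ) : 0 ≤ eMix w g s m lam' M := by
  unfold eMix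
  have := inv_pos.mpr hw
  positivity

private theorem tl_nn (t : ℝ) (m : ℕ) : 0 ≤ tl t m := by
  unfold tl; positivity

private theorem e1_nn {Len s : ℝ} (hL : 0 ≤ Len) (lam m : ℕ) : 0 ≤ e1 Len s lam m := by
  unfold e1
  have := tl_nn s m
  positivity

private theorem e2_nn {w g Len t : ℝ} (hw : 0 < w) (hw2 : w ≤ 1 / 2) (hL : 0 ≤ Len) (ht : 0 ≤ t)
    (lam m' M : ℕ) : 0 ≤ e2 w g Len t lam m' M := by
  unfold e2
  have := tl_nn t m'
  have h2 := inv_pos.mpr hw
  have h3 : 0 ≤ 1 - w := by linarith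
  positivity

private theorem e1_mono {Len Len' s : ℝ} (hL : Len ≤ Len') (lam m : ℕ) :
    e1 Len s lam m ≤ e1 Len' s lam m := by
  unfold e1
  have h : 2 * Len * (1 / 2) ^ (lam + 1) * Real.exp s ≤ 2 * Len' * (1 / 2) ^ (lam + 1) * Real.exp s := by
    have h0 : (0 : ℝ) ≤ (1 / 2) ^ (lam + 1) * Real.exp s := by positivity
    nlinarith
  linarith

theorem PH2 {w γ P r g : ℝ} (hp : EPar w γ P r g) {c : Rts} (hc : Rok c) {A l e N v j0 : ℤ}
    {lam lam' m' M q : ℕ} (hlam : 1 ≤ lam) (hlam' : 1 ≤ lam') (hll : lam' ≤ 2 * lam)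
    (hm : 1 ≤ m') {s t : ℝ} (hs : 0 ≤ s) (hs2 : Real.exp (-s) ≤ 1 / 2) (ht : 0 ≤ t)
    (hAl : A ≤ l) (heN : e < N) (hE : EastOn c P r l e) (hl : l ≤ j0 - 4 * m')
    (hjv : j0 + 4 * m' * q ≤ v) (he : v + 4 * lam * (q + 1) + M ≤ e) {Len : ℝ}
    (hLen : ((v + 4 * lam * (q + 1) + 2 * lam + m' + 1 - l : ℤ) : ℝ) ≤ Len)
    (hτ : tau w g t lam lam' (2 * m') M ≤ 1 / 8) {f : Cfg → ℝ} (hf : Bdd f) {B : ℝ}
    (hB : ∀ u, 0 ≤ u → u ≤ q * (t + s) → OB (Set.Icc l e) B (PW c (Ico A N) u f))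
    (hB1 : ∀ u, 0 ≤ u → u ≤ q * (t + s) → ∀ k, k ≤ e → OB {k} B (PW c (Ico A N) u f)) :
    ∀ y y' : Cfg, y ∈ Sp (2 * lam) l (v + 4 * lam * (q + 1)) →
      y' ∈ Sp (2 * lam) l (v + 4 * lam * (q + 1)) →
      (∀ i, i ∉ Set.Ico (j0 + 4 * m' * q - 4 * m') v → y i = y' i) →
      |PW c (Ico A N) (q * (t + s)) f y - PW c (Ico A N) (q * (t + s)) f y'|
        ≤ B * eP2 w g Len s t lam lam' m' M q := by
  have hw := hp.w_pos
  have hq0 : (0 : ℝ) ≤ (q : ℝ) * (t + s) := by positivity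
  have hB0 : 0 ≤ B := OB_nonneg (hB 0 le_rfl hq0)
  have hlamz : (1 : ℤ) ≤ (lam : ℤ) := by exact_mod_cast hlam
  have hlamz' : (lam' : ℤ) ≤ 2 * (lam : ℤ) := by exact_mod_cast hll
  have hmz : (1 : ℤ) ≤ (m' : ℤ) := by exact_mod_cast hm
  have hMz : (0 : ℤ) ≤ (M : ℤ) := Int.natCast_nonneg M
  have hqz : (0 : ℤ) ≤ (q : ℤ) := Int.natCast_nonneg q
  have hmq : (0 : ℤ) ≤ 4 * (m' : ℤ) * q := by positivity
  have hlq : (0 : ℤ) ≤ 4 * (lam : ℤ) * (q + 1) := by positivity
  have hLen0 : 0 ≤ Len := by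
    refine le_trans ?_ hLen
    have : (0 : ℤ) ≤ v + 4 * lam * (q + 1) + 2 * lam + m' + 1 - l := by linarith
    exact_mod_cast this
  set α : ℝ := Real.exp (-s) with hα
  have hα0 : 0 < α := Real.exp_pos _
  set E : ℝ := eMix w g s (2 * m') lam' M with hE'
  set E1 : ℝ := e1 Len s lam (2 * m') with hE1'
  set E2 : ℝ := e2 w g Len t lam m' M with hE2'
  have hEnn : 0 ≤ E := eMix_nn hw _ _ _
  have hE1nn : 0 ≤ E1 := e1_nn hLen0 _ _
  have hE2nn : 0 ≤ E2 := e2_nn hw hp.w_le hLen0 ht _ _ _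
  set Z : ℝ := 4 / (3 * α) * (2 * α * B * E + 2 * B * E1 + B * E2) with hZ
  have hZnn : 0 ≤ Z := by positivity
  have hZα : 3 / 4 * α * Z = 2 * α * B * E + 2 * B * E1 + B * E2 := by
    rw [hZ]; field_simp
  have key : ∀ i : ℕ, i ≤ q → ∀ y y' : Cfg, y ∈ Sp (2 * lam) l (v + 4 * lam * (i + 1)) →
      y' ∈ Sp (2 * lam) l (v + 4 * lam * (i + 1)) →
      (∀ k, k ∉ Set.Ico (j0 + 4 * m' * i - 4 * m') v → y k = y' k) →
      |PW c (Ico A N) (i * (t + s)) f y - PW c (Ico A N) (i * (t + s)) f y'|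
        ≤ (1 - 3 / 4 * α) ^ i * B + Z := by
    intro i
    induction i with
    | zero =>
      intro _ y y' _ _ hyy
      have h1 := hB 0 le_rfl hq0 y y' (by
        intro k hk
        apply hyy k
        intro hk2
        apply hk
        simp only [Set.mem_Ico, Nat.cast_zero, mul_zero, add_zero] at hk2
        exact ⟨by linarith [hk2.1], by linarith [hk2.2]⟩)
      simp only [Nat.cast_zero, zero_mul, pow_zero, one_mul]
      linarith
    | succ i ih =>
      intro hiq y y' hy hy' hyy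
      have ih' := ih (by omega)
      set K : ℝ := (1 - 3 / 4 * α) ^ i * B + Z with hK
      have hKnn : 0 ≤ K := by
        have h1 : (0 : ℝ) ≤ 1 - 3 / 4 * α := by linarith
        positivity
      set X : ℝ := 2 * α * B * E + 2 * B * E1 with hX
      have hXnn : 0 ≤ X := by positivity
      have hiz : (i : ℤ) + 1 ≤ q := by exact_mod_cast hiq
      have hi0 : (0 : ℤ) ≤ (i : ℤ) := Int.natCast_nonneg i
      set j : ℤ := j0 + 4 * m' * i with hj
      have hmi : (0 : ℤ) ≤ 4 * (m' : ℤ) * i := by positivity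
      have hmi2 : 4 * (m' : ℤ) * i ≤ 4 * m' * q := by nlinarith
      have hli : (4 : ℤ) * lam ≤ 4 * lam * (i + 1) := by nlinarith
      have hli2 : 4 * (lam : ℤ) * (i + 1) + 4 * lam ≤ 4 * lam * (q + 1) := by nlinarith
      have hir : ((i : ℝ) + 1) ≤ q := by exact_mod_cast hiq
      have hu0 : (0 : ℝ) ≤ (i : ℝ) * (t + s) := by positivity
      have hu1 : (i : ℝ) * (t + s) ≤ q * (t + s) := by
        apply mul_le_mul_of_nonneg_right (by linarith) (by linarith)
      have hu2 : s + (i : ℝ) * (t + s) ≤ q * (t + s) := by nlinarith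
      have hu3 : 0 ≤ s + (i : ℝ) * (t + s) := by linarith
      set F : Cfg → ℝ := PW c (Ico A N) (i * (t + s)) f with hF
      have hFb : Bdd F := PW_bdd _ _ _ _
      have hFB : OB (Set.Icc l e) B F := hB _ hu0 hu1
      have hFB1 : ∀ k, k ≤ e → OB {k} B F := hB1 _ hu0 hu1
      set G : Cfg → ℝ := PW c (Ico A N) s F with hG
      have hGF : G = PW c (Ico A N) (s + i * (t + s)) f := (PW_comp c (Ico A N) s _ hf).symm
      have hGb : Bdd G := PW_bdd _ _ _ _
      have hGB : OB (Set.Icc l e) B G := by rw [hGF]; exact hB _ hu3 hu2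
      have hGB1 : ∀ k, k ≤ e → OB {k} B G := by rw [hGF]; exact hB1 _ hu3 hu2
      have hnext : PW c (Ico A N) (((i + 1 : ℕ) : ℝ) * (t + s)) f = PW c (Ico A N) t G := by
        rw [hGF, ← PW_comp c (Ico A N) t _ hf]
        congr 1
        push_cast
        ring
      have hρl : ((v + 4 * lam * (i + 1) - l : ℤ) : ℝ) ≤ Len := by
        refine le_trans ?_ hLen
        have : (v + 4 * (lam : ℤ) * (i + 1) - l) ≤ v + 4 * lam * (q + 1) + 2 * lam + m' + 1 - l := by
          linarith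
        exact_mod_cast this
      have hFκ : ∀ y y' : Cfg, y ∈ Sp (2 * lam) l (v + 4 * lam * (i + 1)) →
          y' ∈ Sp (2 * lam) l (v + 4 * lam * (i + 1)) →
          (∀ k, k ∉ Set.Ico (j - 2 * ((2 * m' : ℕ) : ℤ)) j → y k = y' k) → |F y - F y'| ≤ K := by
        intro z z' hz hz' hzz
        refine ih' z z' hz hz' ?_
        intro k hk
        apply hzz k
        intro hk2
        apply hk
        simp only [Set.mem_Ico, Nat.cast_mul, Nat.cast_ofNat] at hk2
        exact ⟨by linarith [hk2.1], by linarith [hk2.2]⟩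
      have hsub : OB (Set.Ico (j - 2 * ((2 * m' : ℕ) : ℤ)) j) B F := by
        refine OB_mono hFB ?_ le_rfl
        intro k hk
        simp only [Set.mem_Ico, Nat.cast_mul, Nat.cast_ofNat] at hk
        exact ⟨by linarith [hk.1], by linarith [hk.2]⟩
      have hcast : ((2 * m' : ℕ) : ℤ) = 2 * (m' : ℤ) := by push_cast; ring
      have hκ1 : ∀ z z' : Cfg, z ∈ Sp lam l (v + 4 * lam * (i + 1)) →
          z' ∈ Sp lam l (v + 4 * lam * (i + 1)) →
          (∀ k, k ∉ Set.Ico (j - 2 * m') j → z k = z' k) → |G z - G z'| ≤ K + X := by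
        intro z z' hz hz' hzz
        have h1 := SHT1 (A := A) (l := l) (e := e) (N := N) (j := j) (ρ := v + 4 * lam * (i + 1)) hc hlam
          (m := 2 * m') (fun k h1 h2 => (hE k h1 h2).2.1) (by linarith) (by linarith) (by linarith)
          hFb hsub hFB1 hs hKnn hFκ hz hz' (by rw [hcast]; exact hzz)
        have h2 : B * e1 ((v + 4 * lam * (i + 1) - l : ℤ) : ℝ) s lam (2 * m') ≤ B * E1 :=
          mul_le_mul_of_nonneg_left (e1_mono hρl _ _) hB0
        have h3 : 0 ≤ 2 * α * B * E := by positivity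
        have h4 : 0 ≤ B * E1 := by positivity
        rw [hX]
        linarith
      have hκ2 : ∀ z z' : Cfg, z ∈ Sp lam l (v + 4 * lam * (i + 1)) →
          z' ∈ Sp lam l (v + 4 * lam * (i + 1)) →
          z ∈ Sp lam' (j - 2 * m') (j + 2 * lam') → z' ∈ Sp lam' (j - 2 * m') (j + 2 * lam') →
          (∀ k, k ∉ Set.Ico (j - 2 * m') j → z k = z' k) → |G z - G z'| ≤ (1 - α) * (K + X) := by
        intro z z' hz hz' hzs hzs' hzz
        have h1 := SHT2 (A := A) (l := l) (e := e) (N := N) (j := j) (ρ := v + 4 * lam * (i + 1))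
          (m := 2 * m') (M := M) hp hc hlam hlam' (by omega) hAl heN hE (by rw [hcast]; linarith) (by linarith)
          (by linarith) hFb hFB hFB1 hs hKnn hFκ hz hz' (by rw [hcast]; exact hzz)
          (by rw [hcast]; exact hzs) (by rw [hcast]; exact hzs')
        have h2 : B * e1 ((v + 4 * lam * (i + 1) - l : ℤ) : ℝ) s lam (2 * m') ≤ B * E1 :=
          mul_le_mul_of_nonneg_left (e1_mono hρl _ _) hB0
        have h3 : 0 ≤ α * B * E := by positivity
        have h4 : 0 ≤ B * E1 := by positivity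
        have h5 : (1 - α) * (K + X) - ((1 - α) * K + α * B * E + B * E1) =
            (1 - 2 * α) * (α * B * E) + (1 - 2 * α) * (B * E1) := by rw [hX]; ring
        have h6 : 0 ≤ (1 - 2 * α) * (α * B * E) := mul_nonneg (by linarith) h3
        have h7 : 0 ≤ (1 - 2 * α) * (B * E1) := mul_nonneg (by linarith) h4
        linarith
      have hfin := LNG (A := A) (l := l) (e := e) (N := N) (j := j) (v := v) (ρ := v + 4 * lam * (i + 1))
        (lam := lam) (lam' := lam') (m' := m') (M := M) (α := α) (κ := K + X) (Len := Len)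
        hp hc hlam hlam' hm hAl heN hE (by linarith) (by linarith) (by linarith) (by linarith)
        (by linarith) hGb hGB hGB1 ht (by linarith) hα0.le (by linarith) hκ1 hκ2 hτ hρl
        (by
          refine le_trans ?_ hLen
          have : v + 2 * (lam : ℤ) - j + m' + 1 ≤ v + 4 * lam * (q + 1) + 2 * lam + m' + 1 - l := by
            linarith
          exact_mod_cast this)
        (y := y) (y' := y')
        (by
          have : v + 4 * (lam : ℤ) * ((i + 1 : ℕ) + 1) = v + 4 * lam * (i + 1) + 4 * lam := by push_cast; ring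
          rw [← this]; exact hy)
        (by
          have : v + 4 * (lam : ℤ) * ((i + 1 : ℕ) + 1) = v + 4 * lam * (i + 1) + 4 * lam := by push_cast; ring
          rw [← this]; exact hy')
        (by
          intro k hk
          apply hyy k
          intro hk2
          apply hk
          have : j0 + 4 * (m' : ℤ) * ((i + 1 : ℕ) : ℤ) - 4 * m' = j := by rw [hj]; push_cast; ring
          rw [this] at hk2
          exact hk2)
      rw [hnext]
      refine hfin.trans ?_
      rw [← hE2', pow_succ]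
      have h8 : (1 - 3 / 4 * α) * (K + X) + B * E2 ≤ (1 - 3 / 4 * α) * K + (X + B * E2) := by nlinarith
      have h9 : X + B * E2 = 3 / 4 * α * Z := by rw [hZα, hX]
      rw [h9] at h8
      refine h8.trans (le_of_eq ?_)
      rw [hK]; ring
  intro y y' hy hy' hyy
  refine (key q le_rfl y y' hy hy' hyy).trans (le_of_eq ?_)
  unfold eP2
  rw [← hα, ← hE', ← hE1', ← hE2', hZ]
  field_simp
  ring

end H72NE
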