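import Pool.Agent.H72.NE.Mid
import Pool.Agent.H72.NE.Dom
import Pool.Agent.H72.NE.Com
import Pool.Agent.H72.NE.Fs
import Pool.Agent.H72.NE.Telq
import Pool.Agent.H72.NE.Pers

/-! # SHT: the short stage of an epoch

Conventions: `J = [j - 2m, j)`, `H = Sp (2 lam) l ρ`, `α = exp (-s)`, `W = Ico A N`, `k0 = j - m - 1`.
`MID` with `H' = H` and `α = 0` gives `c̄` with `Ind J c̄`, `|f - c̄| ≤ κ/2` on `H` and `|f - c̄| ≤ B`
everywhere, i.e. `|f - c̄| ≤ κ/2 + B * bad (2 lam) l ρ`.  `c̄` satisfies `OB {k} (3 B)` for `k ≤ e`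
(`OB_of_near`) so `PW c W s c̄` and `PW c (W.erase k0) s c̄` change by at most
`m * (3 B * tl s m)` when the configuration is changed in `[j - m, j)` (`PW_fs_Ico`).
`PW c W s (bad (2 lam) l ρ) z ≤ (ρ - l) (1/2)^(lam+1) e^s` (`HLS`). -/

namespace H72NE

open H72IPS Finset

/-- the centre `c̄` of the short stage -/
theorem SHT_mid {l e j ρ : ℤ} {lam m : ℕ} {f : Cfg → ℝ} (hf : Bdd f) {B κ : ℝ}
    (hB : OB (Set.Ico (j - 2 * m) j) B f) (hB1 : ∀ k, k ≤ e → OB {k} B f) (hκ0 : 0 ≤ κ)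
    (hκ : ∀ y y' : Cfg, y ∈ Sp (2 * lam) l ρ → y' ∈ Sp (2 * lam) l ρ →
      (∀ i, i ∉ Set.Ico (j - 2 * m) j → y i = y' i) → |f y - f y'| ≤ κ) :
    ∃ cb : Cfg → ℝ, Bdd cb ∧ Ind (Set.Ico (j - 2 * m) j) cb ∧
      (∀ y, |f y - cb y| ≤ κ / 2 + B * bad (2 * lam) l ρ y) ∧ (∀ k, k ≤ e → OB {k} (3 * B) cb) := by
  have hB0 : 0 ≤ B := OB_nonneg hB
  obtain ⟨cb, h1, h2, _, h4⟩ := MID (J := Set.Ico (j - 2 * m) j) (H := Sp (2 * lam) l ρ)
    (H' := Sp (2 * lam) l ρ) (fun _ h => h) (g := f) (α := 0) (κ := κ) (B := B) le_rfl zero_le_one hκ0 hB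
    hκ (fun y y' hy hy' h => by
      have := hκ y y' hy hy' h
      linarith)
  refine ⟨cb, Bdd_of_near hf h4, h1, ?_, ?_⟩
  · intro y
    by_cases hy : y ∈ Sp (2 * lam) l ρ
    · have h := h2 y hy
      have hb := mul_nonneg hB0 (bad_nonneg (2 * lam) l ρ y)
      linarith
    · have h := h4 y
      have hb : bad (2 * lam) l ρ y = 1 := by
        unfold bad
        rw [if_neg hy]
      rw [hb]
      linarith
  · intro k hk
    have := OB_of_near (hB1 k hk) h4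
    refine OB_mono this (fun _ h => h) (by linarith)

/-- change of the evolved centre -/
theorem SHT_ctr {c : Rts} (hc : Rok c) (W : Finset ℤ) {e j : ℤ} {m : ℕ} (hje : j ≤ e)
    {cb : Cfg → ℝ} (hb : Bdd cb) {B : ℝ} (hi : Ind (Set.Ico (j - 2 * m) j) cb)
    (ho : ∀ k, k ≤ e → OB {k} (3 * B) cb) {s : ℝ} (hs : 0 ≤ s) {z z' : Cfg}
    (hzz : ∀ i, i ∉ Set.Ico (j - m) j → z i = z' i) :
    |PW c W s cb z - PW c W s cb z'| ≤ 3 * B * ((m : ℝ) * tl s m) := by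
  have h := PW_fs_Ico hc W hs hb (u := j - m) (v := j) (by omega) (m := m) (D := 3 * B)
    (fun k hk => ho k (by omega)) (Ind_mono hi (by
      intro i hi
      rw [Set.mem_Ico] at hi ⊢
      constructor <;> omega))
  have h2 := h z z' hzz
  have e : (((j - (j - m) : ℤ)) : ℝ) = (m : ℝ) := by
    push_cast
    ring
  rw [e] at h2
  calc _ ≤ _ := h2
    _ = 3 * B * ((m : ℝ) * tl s m) := by ring

/-- `PW f z - PW f z' = PW (f - c̄) z - PW (f - c̄) z' + (PW c̄ z - PW c̄ z')` -/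
theorem SHT1 {c : Rts} (hc : Rok c) {A l e N j ρ : ℤ} {lam m : ℕ} (hlam : 1 ≤ lam)
    (hEast : ∀ k, l ≤ k → k ≤ e → c k true false = 0) (hlρ : l ≤ ρ) (hρe : ρ ≤ e)
    (hje : j ≤ e) {f : Cfg → ℝ} (hf : Bdd f) {B κ : ℝ}
    (hB : OB (Set.Ico (j - 2 * m) j) B f) (hB1 : ∀ k, k ≤ e → OB {k} B f) {s : ℝ} (hs : 0 ≤ s)
    (hκ0 : 0 ≤ κ)
    (hκ : ∀ y y' : Cfg, y ∈ Sp (2 * lam) l ρ → y' ∈ Sp (2 * lam) l ρ →
      (∀ i, i ∉ Set.Ico (j - 2 * m) j → y i = y' i) → |f y - f y'| ≤ κ)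
    {z z' : Cfg} (hz : z ∈ Sp lam l ρ) (hz' : z' ∈ Sp lam l ρ)
    (hzz : ∀ i, i ∉ Set.Ico (j - m) j → z i = z' i) :
    |PW c (Ico A N) s f z - PW c (Ico A N) s f z'|
      ≤ κ + B * e1 ((ρ - l : ℤ) : ℝ) s lam m := by
  have hB0 : 0 ≤ B := OB_nonneg hB
  obtain ⟨cb, hcb, hci, hcn, hco⟩ := SHT_mid hf hB hB1 hκ0 hκ
  have hctr := SHT_ctr hc (Ico A N) hje hcb hci hco hs hzz
  have hbb : Bdd (bad (2 * lam) l ρ) := bad_bdd _ _ _
  have hD : Bdd (fun y => f y - cb y) := by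
    obtain ⟨C, hC⟩ := hf
    obtain ⟨C', hC'⟩ := hcb
    exact ⟨C + C', fun x => (abs_sub _ _).trans (add_le_add (hC x) (hC' x))⟩
  have hkey : ∀ y : Cfg, y ∈ Sp lam l ρ →
      |PW c (Ico A N) s f y - PW c (Ico A N) s cb y|
        ≤ κ / 2 + B * (((ρ - l : ℤ) : ℝ) * ((1 / 2) ^ (lam + 1) * Real.exp s)) := by
    intro y hy
    rw [← PW_sub c (Ico A N) s hf hcb y]
    have h1 := PW_abs_le_abs hc (Ico A N) hs hD y
    have hsm : Bdd (fun y => B * bad (2 * lam) l ρ y) := by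
      obtain ⟨C, hC⟩ := hbb
      refine ⟨B * C, fun x => ?_⟩
      rw [abs_mul, abs_of_nonneg hB0]
      exact mul_le_mul_of_nonneg_left (hC x) hB0
    have hconst : Bdd (fun _ : Cfg => κ / 2) := ⟨|κ / 2|, fun _ => le_rfl⟩
    have hsum : Bdd (fun y => κ / 2 + B * bad (2 * lam) l ρ y) := by
      obtain ⟨C, hC⟩ := hsm
      exact ⟨|κ / 2| + C, fun x => (abs_add_le _ _).trans (add_le_add le_rfl (hC x))⟩
    have habs : Bdd (fun y => |f y - cb y|) := by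
      obtain ⟨C, hC⟩ := hD
      exact ⟨C, fun x => by rw [abs_abs]; exact hC x⟩
    have h2 := PW_mono hc (Ico A N) hs habs hsum hcn y
    rw [PW_add c (Ico A N) s hconst hsm y, PW_const, PW_smul c (Ico A N) s B hbb y] at h2
    have h3 := HLS hc (Ico A N) hlam hlρ (fun i h1 h2 => hEast i h1 (by omega)) hs hy
    have h4 := mul_le_mul_of_nonneg_left h3 hB0
    linarith
  have k1 := hkey z hz
  have k2 := hkey z' hz'
  have htl := tl_nonneg s m
  have hm0 : (0 : ℝ) ≤ (m : ℝ) := Nat.cast_nonneg m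
  have hpos : 0 ≤ B * ((m : ℝ) * tl s m) := mul_nonneg hB0 (mul_nonneg hm0 htl)
  have hfin : |PW c (Ico A N) s f z - PW c (Ico A N) s f z'|
      ≤ |PW c (Ico A N) s f z - PW c (Ico A N) s cb z|
        + |PW c (Ico A N) s cb z - PW c (Ico A N) s cb z'|
        + |PW c (Ico A N) s f z' - PW c (Ico A N) s cb z'| := by
    have : PW c (Ico A N) s f z - PW c (Ico A N) s f z'
      = (PW c (Ico A N) s f z - PW c (Ico A N) s cb z)
        + (PW c (Ico A N) s cb z - PW c (Ico A N) s cb z')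
        - (PW c (Ico A N) s f z' - PW c (Ico A N) s cb z') := by ring
    rw [this]
    refine (abs_sub _ _).trans ?_
    exact add_le_add (abs_add_le _ _) le_rfl
  unfold e1
  linarith [hfin, k1, k2, hctr, hpos]

/-- the frozen part: `PW_frozen` with `k0 = j - m - 1`, and `TELP` with `b = j - m`,
`z0 ∈ [j, j + lam')` a particle of `z` (hence of `z'`), `O = B` -/
theorem SHTF {w γ P r g : ℝ} (hp : EPar w γ P r g) {c : Rts} (hc : Rok c) {A l e N j ρ : ℤ}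
    {lam' m M : ℕ} (hlam' : 1 ≤ lam') (hm : 1 ≤ m) (hAl : A ≤ l) (heN : e < N)
    (hE : EastOn c P r l e) (hl : l ≤ j - 2 * m) (hjρ : j + 2 * lam' ≤ ρ) (hρ : ρ + M ≤ e)
    {f : Cfg → ℝ} (hf : Bdd f) {B : ℝ} (hB : OB (Set.Icc l e) B f) {s : ℝ} (hs : 0 ≤ s)
    {z z' : Cfg} (hzz : ∀ i, i ∉ Set.Ico (j - m) j → z i = z' i)
    (h1 : z ∈ Sp lam' (j - m) (j + 2 * lam')) (h2 : z' ∈ Sp lam' (j - m) (j + 2 * lam')) :
    |PW c ((Ico A N).erase (j - m - 1)) s f z - PW c ((Ico A N).erase (j - m - 1)) s f z'|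
      ≤ B * eMix w g s m lam' M := by
  have hB0 : 0 ≤ B := OB_nonneg hB
  have hm1 : (1 : ℤ) ≤ (m : ℤ) := by exact_mod_cast hm
  have hl1 : (1 : ℤ) ≤ (lam' : ℤ) := by exact_mod_cast hlam'
  have hM0 : (0 : ℤ) ≤ (M : ℤ) := Int.natCast_nonneg M
  refine PW_frozen hc (A := A) (k0 := j - m - 1) (N := N) (by omega) (by omega) hs hf
    (fun i hi => hzz i (by rw [Set.mem_Ico]; omega)) ?_
  intro y y' hyy hyz hyz'
  obtain ⟨z0, hz0a, hz0b, hz0⟩ := h1 j (by omega) (by omega)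
  have hk : (j - m - 1 + 1 : ℤ) = j - m := by ring
  rw [hk]
  have hEb : EastOn c P r (j - m) e := fun k hk1 hk2 => hE k (by omega) hk2
  have hBb : OB (Set.Icc (j - m) e) B f := OB_mono hB (by
    intro i hi
    rw [Set.mem_Icc] at hi ⊢
    constructor
    · omega
    · exact hi.2) le_rfl
  have hSp : ∀ (a b : Cfg), (∀ i, j - m - 1 < i → a i = b i) →
      b ∈ Sp lam' (j - m) (j + 2 * lam') → a ∈ Sp lam' (j - m) (z0 + 1) := by
    intro a b hab hb v hv1 hv2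
    obtain ⟨k, hk1, hk2, hk3⟩ := hb v hv1 (by omega)
    exact ⟨k, hk1, hk2, by rw [hab k (by omega)]; exact hk3⟩
  have hT := TELP hp hc (b := j - m) (e := e) (N := N) heN hEb hf hBb (lam := lam') (M := M) hlam'
    (z0 := z0) (by omega) (by omega) (by omega) (x := y) (x' := y')
    (by
      intro i hi
      rw [Set.mem_Ico, not_and_or, not_le, not_lt] at hi
      rcases hi with hi | hi
      · exact hyy i (by omega)
      · rw [hyz i (by omega), hyz' i (by omega)]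
        exact hzz i (by rw [Set.mem_Ico]; omega))
    (by rw [hyz z0 (by omega)]; exact hz0)
    (hSp y z hyz h1) (hSp y' z' hyz' h2) hs
  refine hT.trans ?_
  have hw : 0 < w := hp.w_pos
  have hlen : (((z0 - (j - m) : ℤ)) : ℝ) + 1 ≤ (m : ℝ) + lam' + 1 := by
    have : z0 - (j - m) ≤ (m : ℤ) + lam' := by omega
    have h' : (((z0 - (j - m) : ℤ)) : ℝ) ≤ (m : ℝ) + lam' := by
      have := (Int.cast_le (R := ℝ)).mpr this
      push_cast at this ⊢
      linarith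
    linarith
  have hX : 0 ≤ Real.exp (-(g * s)) + (1 / 2) ^ M * Real.exp (2 * s) := by positivity
  have hw' : 0 ≤ w⁻¹ ^ lam' := by positivity
  unfold eMix
  calc 2 * ((((z0 - (j - m) : ℤ)) : ℝ) + 1) * w⁻¹ ^ lam'
        * (B * (Real.exp (-(g * s)) + (1 / 2) ^ M * Real.exp (2 * s)))
      = ((((z0 - (j - m) : ℤ)) : ℝ) + 1) * (2 * w⁻¹ ^ lam'
        * (B * (Real.exp (-(g * s)) + (1 / 2) ^ M * Real.exp (2 * s)))) := by ring
    _ ≤ ((m : ℝ) + lam' + 1) * (2 * w⁻¹ ^ lam'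
        * (B * (Real.exp (-(g * s)) + (1 / 2) ^ M * Real.exp (2 * s)))) := by
        apply mul_le_mul_of_nonneg_right hlen
        have := mul_nonneg hB0 hX
        positivity
    _ = B * (2 * ((m : ℝ) + lam' + 1) * w⁻¹ ^ lam'
        * (Real.exp (-(g * s)) + (1 / 2) ^ M * Real.exp (2 * s))) := by ring

/-- `PW f z - PW f z' = [(PW - α PW^er)(f - c̄) z - (PW - α PW^er)(f - c̄) z']
+ α [PW^er f z - PW^er f z'] + [PW c̄ z - PW c̄ z'] - α [PW^er c̄ z - PW^er c̄ z']`, where `PW^er` is the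
semigroup with the site `k0` frozen; first bracket: `PW_rem` with `g = bad (2 lam) l ρ`, `a = κ/2`,
`b = B`; second: `SHTF`; third and fourth: `3 m B tl s m` each. -/
theorem SHT2 {w γ P r g : ℝ} (hp : EPar w γ P r g) {c : Rts} (hc : Rok c) {A l e N j ρ : ℤ}
    {lam lam' m M : ℕ} (hlam : 1 ≤ lam) (hlam' : 1 ≤ lam') (hm : 1 ≤ m) (hAl : A ≤ l)
    (heN : e < N) (hE : EastOn c P r l e) (hl : l ≤ j - 2 * m) (hjρ : j + 2 * lam' ≤ ρ)
    (hρ : ρ + M ≤ e) {f : Cfg → ℝ} (hf : Bdd f) {B κ : ℝ} (hB : OB (Set.Icc l e) B f)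
    (hB1 : ∀ k, k ≤ e → OB {k} B f) {s : ℝ} (hs : 0 ≤ s) (hκ0 : 0 ≤ κ)
    (hκ : ∀ y y' : Cfg, y ∈ Sp (2 * lam) l ρ → y' ∈ Sp (2 * lam) l ρ →
      (∀ i, i ∉ Set.Ico (j - 2 * m) j → y i = y' i) → |f y - f y'| ≤ κ)
    {z z' : Cfg} (hz : z ∈ Sp lam l ρ) (hz' : z' ∈ Sp lam l ρ)
    (hzz : ∀ i, i ∉ Set.Ico (j - m) j → z i = z' i)
    (h1 : z ∈ Sp lam' (j - m) (j + 2 * lam')) (h2 : z' ∈ Sp lam' (j - m) (j + 2 * lam')) :
    |PW c (Ico A N) s f z - PW c (Ico A N) s f z'|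
      ≤ (1 - Real.exp (-s)) * κ + Real.exp (-s) * B * eMix w g s m lam' M
        + B * e1 ((ρ - l : ℤ) : ℝ) s lam m := by
  have hB0 : 0 ≤ B := OB_nonneg hB
  have hm1 : (1 : ℤ) ≤ (m : ℤ) := by exact_mod_cast hm
  have hl1 : (1 : ℤ) ≤ (lam' : ℤ) := by exact_mod_cast hlam'
  have hM0 : (0 : ℤ) ≤ (M : ℤ) := Int.natCast_nonneg M
  have hje : j ≤ e := by omega
  have hlρ : l ≤ ρ := by omega
  have hBJ : OB (Set.Ico (j - 2 * m) j) B f := OB_mono hB (by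
    intro i hi
    rw [Set.mem_Ico] at hi
    rw [Set.mem_Icc]
    constructor <;> omega) le_rfl
  obtain ⟨cb, hcb, hci, hcn, hco⟩ := SHT_mid hf hBJ hB1 hκ0 hκ
  have hctr := SHT_ctr hc (Ico A N) hje hcb hci hco hs hzz
  have hctr' := SHT_ctr hc ((Ico A N).erase (j - m - 1)) hje hcb hci hco hs hzz
  have hF := SHTF hp hc hlam' hm hAl heN hE hl hjρ hρ hf hB hs hzz h1 h2
  have hbb : Bdd (bad (2 * lam) l ρ) := bad_bdd _ _ _
  have hD : Bdd (fun y => f y - cb y) := by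
    obtain ⟨C, hC⟩ := hf
    obtain ⟨C', hC'⟩ := hcb
    exact ⟨C + C', fun x => (abs_sub _ _).trans (add_le_add (hC x) (hC' x))⟩
  set W := Ico A N with hW
  set k0 := j - (m : ℤ) - 1 with hk0
  set α := Real.exp (-s) with hα
  have hα0 : 0 < α := Real.exp_pos _
  have hα1 : α ≤ 1 := by
    rw [hα]
    exact Real.exp_le_one_iff.mpr (by linarith)
  have hkey : ∀ y : Cfg, y ∈ Sp lam l ρ →
      |(PW c W s f y - PW c W s cb y)
          - α * (PW c (W.erase k0) s f y - PW c (W.erase k0) s cb y)|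
        ≤ (1 - α) * (κ / 2) + B * (((ρ - l : ℤ) : ℝ) * ((1 / 2) ^ (lam + 1) * Real.exp s)) := by
    intro y hy
    rw [← PW_sub c W s hf hcb y, ← PW_sub c (W.erase k0) s hf hcb y]
    have h3 := HLS hc W hlam hlρ (fun i h1 h2 => (hE i h1 (by omega)).2.1) hs hy
    have h4 := mul_le_mul_of_nonneg_left h3 hB0
    have h5 := PW_rem hc W k0 hs hD hbb (bad_nonneg (2 * lam) l ρ) (a := κ / 2) (b := B)
      (by linarith) hB0 hcn y
    linarith
  have k1 := hkey z hz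
  have k2 := hkey z' hz'
  have htl := tl_nonneg s m
  have hm0 : (0 : ℝ) ≤ (m : ℝ) := Nat.cast_nonneg m
  have hpos : 0 ≤ B * ((m : ℝ) * tl s m) := mul_nonneg hB0 (mul_nonneg hm0 htl)
  have hctr'' : α * |PW c (W.erase k0) s cb z - PW c (W.erase k0) s cb z'|
      ≤ 3 * B * ((m : ℝ) * tl s m) := by
    have := mul_le_mul hα1 hctr' (abs_nonneg _) zero_le_one
    linarith
  have hF' : α * |PW c (W.erase k0) s f z - PW c (W.erase k0) s f z'|
      ≤ α * (B * eMix w g s m lam' M) := mul_le_mul_of_nonneg_left hF hα0.le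
  have hctr3 : |α * (PW c (W.erase k0) s cb z - PW c (W.erase k0) s cb z')|
      ≤ 3 * B * ((m : ℝ) * tl s m) := by
    rw [abs_mul, abs_of_pos hα0]; exact hctr''
  have hF3 : |α * (PW c (W.erase k0) s f z - PW c (W.erase k0) s f z')|
      ≤ α * (B * eMix w g s m lam' M) := by
    rw [abs_mul, abs_of_pos hα0]; exact hF'
  clear hctr'' hF' hF hctr' hkey hκ
  rw [abs_le] at k1 k2 hctr hctr3 hF3 ⊢
  unfold e1
  constructor <;> linarith [k1.1, k1.2, k2.1, k2.2, hctr.1, hctr.2, hctr3.1, hctr3.2, hF3.1, hF3.2, hpos]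

end H72NE
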