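import Pool.Agent.H72.NE.AvB

/-! # TBL: the two block inequality

`c = hasOne I` with `I ⊆ B`, `ε = (1 - P) ^ card I`; `Av P B c = 1 - ε` (constant).

Proof.  Let `G = Av_B F`, `h = Av_A F` and `ĝ = Av_B (c F) / (1 - ε)`.
Put `X² = Av_{A∪B} (Va_B F)` and `Y² = Av_{A∪B} (c Va_A F) = Av_{A∪B} ((c (F - h))²)`.
* `Va_{A∪B} F = X² + Va_A G` (`Va_union`, with the roles: `A ∪ B`, inner `B`).
* `ĝ - G = Av_B ((c - (1 - ε)) (F - G)) / (1 - ε)`, so by Cauchy-Schwarz on the block `B`
  (`Av_B (c - (1 - ε))² = ε (1 - ε)`): `(ĝ - G)² ≤ ε / (1 - ε) Va_B F`; hence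
  `sd_A (ĝ - G) ≤ sqrt (ε / (1 - ε)) X`.
* `ĝ - Av_A ĝ = Av_B (c (F - h)) / (1 - ε)` (`c` does not depend on `A`), so by Cauchy-Schwarz
  `(ĝ - Av_A ĝ)² ≤ Av_B (c (F - h)²) / (1 - ε)` and `sd_A ĝ ≤ Y / sqrt (1 - ε)`.
* Minkowski: `sd_A G ≤ (Y + sqrt ε X) / sqrt (1 - ε)`, and
  `(Y + sqrt ε X)² ≤ (1 + sqrt ε) (Y² + sqrt ε X²)`, so
  `Va F ≤ X² + (Y² + sqrt ε X²) / (1 - sqrt ε) = (X² + Y²) / (1 - sqrt ε)`. -/

namespace H72NE

open H72IPS Finset

lemma tbl_hasOne_ind {I : Finset ℤ} {T : Set ℤ} (h : ∀ i ∈ I, i ∉ T) : Ind T (hasOne I) := by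
  intro x y hxy
  unfold hasOne
  have : (∃ k ∈ I, x k = true) ↔ (∃ k ∈ I, y k = true) := by
    constructor
    · rintro ⟨k, hk, hx⟩
      exact ⟨k, hk, by rw [← hxy k (h k hk)]; exact hx⟩
    · rintro ⟨k, hk, hx⟩
      exact ⟨k, hk, by rw [hxy k (h k hk)]; exact hx⟩
  simp only [this]

lemma tbl_hasOne_sq (I : Finset ℤ) (x : Cfg) : hasOne I x * hasOne I x = hasOne I x := by
  unfold hasOne
  split_ifs <;> ring

theorem Av_hasOne {P : ℝ} {I B : Finset ℤ} (hI : I ⊆ B) (x : Cfg) :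
    Av P B (hasOne I) x = 1 - (1 - P) ^ I.card := by
  rw [Av_of_ind_sdiff P hI (tbl_hasOne_ind (by
    intro i hi
    simp [hi]))]
  have h1 : Av P I (fun z => 1 - hasOne I z) x = (1 - P) ^ I.card := by
    unfold Av
    rw [Finset.sum_eq_single ∅]
    · have : hasOne I (putS I ∅ x) = 0 := by
        unfold hasOne
        rw [if_neg]
        rintro ⟨k, hk, h⟩
        rw [putS_mem hk] at h
        simp at h
      simp only [this]
      simp
    · intro A hA hne
      have hA' := Finset.mem_powerset.mp hA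
      obtain ⟨k, hk⟩ := Finset.nonempty_iff_ne_empty.mpr hne
      have : hasOne I (putS I A x) = 1 := by
        unfold hasOne
        rw [if_pos]
        exact ⟨k, hA' hk, by rw [putS_mem (hA' hk)]; simp [hk]⟩
      simp only [this]
      simp
    · intro h
      exact absurd (Finset.empty_mem_powerset I) h
  have h2 := Av_sub P I (fun _ => (1 : ℝ)) (hasOne I) x
  rw [h1, Av_const] at h2
  linarith

lemma tbl_comm (P : ℝ) {A B : Finset ℤ} (h : Disjoint A B) (f : Cfg → ℝ) :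
    Av P A (Av P B f) = Av P B (Av P A f) := by
  rw [← Av_union P h, Finset.union_comm, Av_union P h.symm]

theorem two_block {P : ℝ} (h0 : 0 < P) (h1 : P < 1) {A B I : Finset ℤ} (hAB : Disjoint A B)
    (hI : I ⊆ B) (hne : I.Nonempty) (F : Cfg → ℝ) (x : Cfg) :
    Va P (A ∪ B) F x ≤ (1 / (1 - Real.sqrt ((1 - P) ^ I.card)))
      * Av P (A ∪ B) (fun z => Va P B F z + hasOne I z * Va P A F z) x := by
  set ε : ℝ := (1 - P) ^ I.card with hε
  have hε0 : 0 < ε := pow_pos (by linarith) _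
  have hε1 : ε < 1 := pow_lt_one₀ (by linarith) (by linarith) (Finset.card_ne_zero.mpr hne)
  set s := Real.sqrt ε with hs
  have hs0 : 0 ≤ s := Real.sqrt_nonneg _
  have hs2 : s ^ 2 = ε := Real.sq_sqrt hε0.le
  have hs1 : s < 1 := by nlinarith
  have hce : Ind (A : Set ℤ) (hasOne I) := tbl_hasOne_ind (by
    intro i hi hA
    exact (Finset.disjoint_left.mp hAB) hA (hI hi))
  have hAvc : ∀ y, Av P B (hasOne I) y = 1 - ε := fun y => Av_hasOne hI y
  have hAvcc : ∀ y, Av P B (fun z => hasOne I z ^ 2) y = 1 - ε := by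
    intro y
    rw [← hAvc y]
    congr 1
    funext z
    rw [pow_two, tbl_hasOne_sq]
  let G : Cfg → ℝ := Av P B F
  let h : Cfg → ℝ := Av P A F
  let gh : Cfg → ℝ := fun z => (1 - ε)⁻¹ * Av P B (fun z => hasOne I z * F z) z
  -- first estimate
  have e1 : ∀ y, (G y - gh y) ^ 2 ≤ ε / (1 - ε) * Va P B F y := by
    intro y
    have hu : Av P B (fun z => (hasOne I z - (1 - ε)) * (F z - G y)) y = (1 - ε) * (gh y - G y) := by
      have e : (fun z => (hasOne I z - (1 - ε)) * (F z - G y)) =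
          fun z => (hasOne I z * F z - G y * hasOne I z) - ((1 - ε) * F z - (1 - ε) * G y) := by
        funext z; ring
      rw [e, Av_sub, Av_sub, Av_sub, Av_smul, Av_smul, Av_const, hAvc]
      simp only [gh]
      have : Av P B F y = G y := rfl
      rw [this]
      have h4 : (1 - ε) ≠ 0 := by linarith
      rw [mul_sub (1 - ε), mul_inv_cancel_left₀ h4]
      ring
    have hcs := Av_cs h0.le h1.le B (fun z => hasOne I z - (1 - ε)) (fun z => F z - G y) y
    rw [hu, ← Va_eq] at hcs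
    have hv : Av P B (fun z => (hasOne I z - (1 - ε)) ^ 2) y = ε * (1 - ε) := by
      have e : (fun z => (hasOne I z - (1 - ε)) ^ 2) =
          fun z => (hasOne I z ^ 2 - 2 * (1 - ε) * hasOne I z) + (1 - ε) ^ 2 := by
        funext z; ring
      rw [e, Av_add, Av_sub, Av_smul, Av_const, hAvc, hAvcc]
      ring
    rw [hv] at hcs
    have h3 : (G y - gh y) ^ 2 * (1 - ε) ^ 2 ≤ ε * (1 - ε) * Va P B F y := by
      calc (G y - gh y) ^ 2 * (1 - ε) ^ 2 = ((1 - ε) * (gh y - G y)) ^ 2 := by ring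
        _ ≤ _ := hcs
    have h4 : 0 < 1 - ε := by linarith
    rw [div_mul_eq_mul_div, le_div_iff₀ h4]
    have h5 : (G y - gh y) ^ 2 * (1 - ε) * (1 - ε) ≤ ε * Va P B F y * (1 - ε) := by nlinarith
    exact le_of_mul_le_mul_right h5 h4
  -- second estimate
  have hhA : ∀ y, Av P A (fun z => (F z - h z) ^ 2) y = Va P A F y := by
    intro y
    rw [Va_eq]
    apply Av_congr
    intro z hz
    have : h z = h y := Av_ind P A F z y (fun i hi => hz i (by simpa using hi))
    rw [this]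
  have hAgh : ∀ y, Av P A gh y = (1 - ε)⁻¹ * Av P B (fun z => hasOne I z * h z) y := by
    intro y
    have e : Av P A (Av P B (fun z => hasOne I z * F z)) = Av P B (fun z => hasOne I z * h z) := by
      rw [tbl_comm P hAB]
      congr 1
      funext z
      exact Av_mul_left P hce F z
    rw [← e]
    exact Av_smul P A _ _ y
  have e2 : ∀ y, (gh y - Av P A gh y) ^ 2 ≤ (1 - ε)⁻¹ * Av P B (fun z => hasOne I z * (F z - h z) ^ 2) y := by
    intro y
    have h3 : gh y - Av P A gh y = (1 - ε)⁻¹ * Av P B (fun z => hasOne I z * (hasOne I z * (F z - h z))) y := by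
      rw [hAgh]
      have e : (fun z => hasOne I z * (hasOne I z * (F z - h z))) =
          fun z => hasOne I z * F z - hasOne I z * h z := by
        funext z
        rw [← mul_assoc, tbl_hasOne_sq]
        ring
      rw [e, Av_sub, mul_sub]
    have hcs := Av_cs h0.le h1.le B (hasOne I) (fun z => hasOne I z * (F z - h z)) y
    rw [hAvcc] at hcs
    have e : (fun z => (hasOne I z * (F z - h z)) ^ 2) = fun z => hasOne I z * (F z - h z) ^ 2 := by
      funext z
      rw [mul_pow, pow_two (hasOne I z), tbl_hasOne_sq]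
    rw [e] at hcs
    rw [h3, mul_pow]
    have h4 : 0 < 1 - ε := by linarith
    calc ((1 - ε)⁻¹) ^ 2 * (Av P B (fun z => hasOne I z * (hasOne I z * (F z - h z))) y) ^ 2
        ≤ ((1 - ε)⁻¹) ^ 2 * ((1 - ε) * Av P B (fun z => hasOne I z * (F z - h z) ^ 2) y) := by
          apply mul_le_mul_of_nonneg_left hcs (by positivity)
      _ = _ := by field_simp
  -- the squares
  set X2 := Av P A (Va P B F) x with hX2
  set Y2 := Av P B (fun z => hasOne I z * Va P A F z) x with hY2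
  have hX0 : 0 ≤ X2 := Av_nonneg h0.le h1.le (fun y _ => Va_nonneg h0.le h1.le _ _ _)
  have hY0 : 0 ≤ Y2 := Av_nonneg h0.le h1.le (fun y _ => mul_nonneg (by
    unfold hasOne; split_ifs <;> norm_num) (Va_nonneg h0.le h1.le _ _ _))
  have hXeq : Av P (A ∪ B) (Va P B F) x = X2 := by
    rw [Av_union P hAB, Av_of_ind P (Va_ind P B F)]
  have hIndY : Ind (A : Set ℤ) (fun z => hasOne I z * Va P A F z) := by
    intro z z' hz
    simp only
    rw [hce z z' hz, Va_ind P A F z z' hz]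
  have hYeq : Av P (A ∪ B) (fun z => hasOne I z * Va P A F z) x = Y2 := by
    rw [Finset.union_comm, Av_union P hAB.symm, Av_of_ind P hIndY]
  have hYeq' : Av P A (Av P B (fun z => hasOne I z * (F z - h z) ^ 2)) x = Y2 := by
    rw [tbl_comm P hAB, hY2]
    congr 1
    funext z
    rw [Av_mul_left P hce, hhA]
  have f1 : Va P A (fun z => G z - gh z) x ≤ ε / (1 - ε) * X2 := by
    refine (Va_le_Av_sq A _ x).trans ?_
    rw [hX2, ← Av_smul]
    exact Av_mono h0.le h1.le (fun y _ => e1 y)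
  have f2 : Va P A gh x ≤ (1 - ε)⁻¹ * Y2 := by
    rw [Va_eq, ← hYeq', ← Av_smul]
    apply Av_mono h0.le h1.le
    intro y hy
    have : Av P A gh x = Av P A gh y := (Av_ind P A gh y x (fun i hi => hy i (by simpa using hi))).symm
    rw [this]
    exact e2 y
  have f3 : Real.sqrt (Va P A G x) ≤ (Real.sqrt Y2 + s * Real.sqrt X2) / Real.sqrt (1 - ε) := by
    have e : G = fun z => gh z + (G z - gh z) := by funext z; ring
    have h3 := sd_add h0.le h1.le A gh (fun z => G z - gh z) x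
    rw [← e] at h3
    refine h3.trans ?_
    have h4 : Real.sqrt (Va P A gh x) ≤ Real.sqrt Y2 / Real.sqrt (1 - ε) := by
      rw [← Real.sqrt_div hY0]
      apply Real.sqrt_le_sqrt
      refine f2.trans (le_of_eq ?_)
      rw [div_eq_inv_mul]
    have h5 : Real.sqrt (Va P A (fun z => G z - gh z) x) ≤ s * Real.sqrt X2 / Real.sqrt (1 - ε) := by
      rw [hs, ← Real.sqrt_mul hε0.le, ← Real.sqrt_div (mul_nonneg hε0.le hX0)]
      apply Real.sqrt_le_sqrt
      refine f1.trans (le_of_eq ?_)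
      rw [div_mul_eq_mul_div]
    rw [add_div]
    exact add_le_add h4 h5
  have h1s : 0 < 1 - s := by linarith
  have h1e : 0 < 1 - ε := by linarith
  have f4 : Va P A G x ≤ (Y2 + s * X2) / (1 - s) := by
    have hV : 0 ≤ Va P A G x := Va_nonneg h0.le h1.le _ _ _
    have h3 : Va P A G x ≤ ((Real.sqrt Y2 + s * Real.sqrt X2) / Real.sqrt (1 - ε)) ^ 2 := by
      rw [← Real.sq_sqrt hV]
      exact pow_le_pow_left₀ (Real.sqrt_nonneg _) f3 2
    refine h3.trans ?_
    rw [div_pow, Real.sq_sqrt h1e.le]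
    rw [div_le_div_iff₀ h1e h1s]
    have hx := Real.sq_sqrt hX0
    have hy := Real.sq_sqrt hY0
    have he : 1 - ε = (1 - s) * (1 + s) := by rw [← hs2]; ring
    rw [he]
    have key : (Real.sqrt Y2 + s * Real.sqrt X2) ^ 2 ≤ (Y2 + s * X2) * (1 + s) := by
      have h6 : 0 ≤ s * (Real.sqrt X2 - Real.sqrt Y2) ^ 2 := mul_nonneg hs0 (sq_nonneg _)
      nlinarith [hx, hy, h6]
    calc (Real.sqrt Y2 + s * Real.sqrt X2) ^ 2 * (1 - s) ≤ ((Y2 + s * X2) * (1 + s)) * (1 - s) :=
          mul_le_mul_of_nonneg_right key h1s.le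
      _ = (Y2 + s * X2) * ((1 - s) * (1 + s)) := by ring
  rw [Va_union P hAB, Av_add, hXeq, hYeq]
  have h7 : Va P A (Av P B F) x = Va P A G x := rfl
  rw [h7]
  calc X2 + Va P A G x ≤ X2 + (Y2 + s * X2) / (1 - s) := by linarith
    _ = 1 / (1 - s) * (X2 + Y2) := by field_simp; ring

end H72NE
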